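import Mathlib

/-!
Definitions for property (RD) of discrete subgroups of `GL_4(F)` (MP_fee02f_an).
-/

open scoped ENNReal

namespace RapidDecay

/-! ### Combinatorial part: hive functions on words of length four -/

section Hive

variable {P : Type*}

/-- A symmetric function of four points satisfying the tropical Pluecker relation. -/
structure IsHive (H : P → P → P → P → ℝ) : Prop where
  s12 : ∀ a b c d, H a b c d = H b a c d
  s23 : ∀ a b c d, H a b c d = H a c b d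
  s34 : ∀ a b c d, H a b c d = H a b d c
  pl : ∀ s t a b c d, min (H s t a c + H s t b d) (H s t a d + H s t b c)
        ≤ H s t a b + H s t c d

/-- slack of `a` towards `b`, `c` at the word `s t` -/
def sl (H : P → P → P → P → ℝ) (a b c s t : P) : ℝ :=
  H s t a a + H s t b c - H s t a b - H s t a c

/-- the part of the distance of `a` and `b` seen at the word `s t` -/
def ds (H : P → P → P → P → ℝ) (a b s t : P) : ℝ :=
  H s t a a + H s t b b - 2 * H s t a b

/-- distance -/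
def dst (H : P → P → P → P → ℝ) (a b : P) : ℝ :=
  H a a a a + H b b b b - H a a a b - H a b b b

/-- core parameter (tropical triple ratio) at the letter `u` of the triple `(a, b, c)` -/
def om (H : P → P → P → P → ℝ) (u a b c : P) : ℝ :=
  (H u a a b - H u a b b) + (H u b b c - H u b c c) + (H u c c a - H u c a a)

/-- minimum of the slacks of the group `(a, 1)` of the triple `(a, b, c)` -/
noncomputable def gm1 (H : P → P → P → P → ℝ) (a b c : P) : ℝ :=
  min (sl H a b c b b) (min (sl H a b c b c) (sl H a b c c c))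

/-- minimum of the slacks of the group `(a, 2)` -/
noncomputable def gm2 (H : P → P → P → P → ℝ) (a b c : P) : ℝ :=
  min (sl H a b c a b) (sl H a b c a c)

/-- the slack of the group `(a, 3)` -/
def gm3 (H : P → P → P → P → ℝ) (a b c : P) : ℝ := sl H a b c a a

/-- all slacks of the group `(a, r)` of the triple `(a, b, c)` are at least `k` -/
def GroupGe (H : P → P → P → P → ℝ) (a b c : P) (r : ℕ) (k : ℝ) : Prop :=
  (r = 1 ∧ k ≤ gm1 H a b c) ∨ (r = 2 ∧ k ≤ gm2 H a b c) ∨ (r = 3 ∧ k ≤ gm3 H a b c)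

/-- size of the core with parameters `x`, `y`, `z` -/
noncomputable def Fc (x y z : ℝ) : ℝ :=
  |x| + |y| + |z| + 2 * (max 0 (max (-y) z) + max 0 (max (-z) x) + max 0 (max (-x) y))

/-- upper bound for the two cores after doubling the middle vertex -/
noncomputable def Uc (x y z : ℝ) : ℝ :=
  4 * (max x 0 + |y| + max (-z) 0) + 2 * min (max (-x) 0) (max y 0)
    + 2 * min (max (-y) 0) (max z 0) + 12 * min (max (-x) 0) (max z 0)

/-- core size of a triple -/
noncomputable def cs (H : P → P → P → P → ℝ) (a b c : P) : ℝ :=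
  Fc (om H a a b c) (om H b a b c) (om H c a b c)

/-- the bound `Uc` for a triple, for doubling the middle vertex `b` -/
noncomputable def uc (H : P → P → P → P → ℝ) (a b c : P) : ℝ :=
  Uc (om H a a b c) (om H b a b c) (om H c a b c)

/-- total length of the arms of a triple -/
noncomputable def ar (H : P → P → P → P → ℝ) (a b c : P) : ℝ :=
  gm1 H a b c + gm2 H a b c + gm3 H a b c + gm1 H b c a + gm2 H b c a + gm3 H b c a
    + gm1 H c a b + gm2 H c a b + gm3 H c a b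

/-- all group minima of the triple are at most `k` -/
def CoreLe (H : P → P → P → P → ℝ) (a b c : P) (k : ℝ) : Prop :=
  gm1 H a b c ≤ k ∧ gm2 H a b c ≤ k ∧ gm3 H a b c ≤ k ∧
  gm1 H b c a ≤ k ∧ gm2 H b c a ≤ k ∧ gm3 H b c a ≤ k ∧
  gm1 H c a b ≤ k ∧ gm2 H c a b ≤ k ∧ gm3 H c a b ≤ k

/-- perimeter -/
def pm (H : P → P → P → P → ℝ) (a b c : P) : ℝ := dst H a b + dst H b c + dst H c a

/-- the slack of the triple `p` with index `k = (u, v, w, s, t)` -/
def tsl (H : P → P → P → P → ℝ) (p : Fin 3 → P) (k : Fin 3 × Fin 3 × Fin 3 × Fin 3 × Fin 3) : ℝ :=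
  sl H (p k.1) (p k.2.1) (p k.2.2.1) (p k.2.2.2.1) (p k.2.2.2.2)

/-- all slacks of the two triples differ by at most `k` -/
def SlClose (H : P → P → P → P → ℝ) (a b c a' b' c' : P) (k : ℝ) : Prop :=
  ∀ i, |tsl H ![a, b, c] i - tsl H ![a', b', c'] i| ≤ k

end Hive

/-! ### Spaces with invariant slacks and moves -/

/-- A `Γ`-set with a hive function whose slacks are `Γ`-invariant, with moves along arms and
exponential growth. -/
structure HiveSpace (Γ X : Type*) [Group Γ] [MulAction Γ X] where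
  H : X → X → X → X → ℝ
  hive : IsHive H
  inv : ∀ (g : Γ) (a b c s t : X),
    sl H (g • a) (g • b) (g • c) (g • s) (g • t) = sl H a b c s t
  mv : ℕ → ℕ → X → X → X
  mv_smul : ∀ (g : Γ) (r k : ℕ) (a b : X), mv r k (g • a) (g • b) = g • mv r k a b
  mv_eq : ∀ (r k : ℕ) (a b c : X), GroupGe H a b c r k → mv r k a b = mv r k a c
  mv_sl : ∀ (r k : ℕ) (a b c : X), GroupGe H a b c r k →
    ∀ u v w s t : Fin 3, u ≠ v → v ≠ w → u ≠ w →
      tsl H ![mv r k a b, b, c] (u, v, w, s, t)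
        = tsl H ![a, b, c] (u, v, w, s, t)
          - (if u = 0 ∧ (if s = 0 then 1 else 0) + (if t = 0 then 1 else 0) + 1 = r
              then (k : ℝ) else 0)
  growth : ∃ C : ℕ, ∀ (a : X) (m : ℕ),
    {b | dst H a b ≤ m}.Finite ∧ {b | dst H a b ≤ m}.ncard ≤ C ^ (m + 1)

/-! ### Weighted sums -/

section Sums

variable {Γ Y : Type*} [Group Γ] [MulAction Γ Y]

/-- invariant kernel -/
def Inv2 (Γ : Type*) {Y : Type*} [Group Γ] [MulAction Γ Y] (f : Y → Y → ℝ≥0∞) : Prop :=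
  ∀ (g : Γ) (x y : Y), f (g • x) (g • y) = f x y

/-- invariant set of triples -/
def InvT (Γ : Type*) {Y : Type*} [Group Γ] [MulAction Γ Y] (T : Set (Y × Y × Y)) : Prop :=
  ∀ (g : Γ) (x y z : Y), (g • x, g • y, g • z) ∈ T ↔ (x, y, z) ∈ T

/-- weight with total mass one on every orbit -/
def IsWt (Γ : Type*) {Y : Type*} [Group Γ] [MulAction Γ Y] (w : Y → ℝ≥0∞) : Prop :=
  ∀ y : Y, ∑' g : Γ, w (g • y) = 1

/-- squared norm of a kernel -/
noncomputable def nn {Y : Type*} (w : Y → ℝ≥0∞) (f : Y → Y → ℝ≥0∞) : ℝ≥0∞ :=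
  ∑' x, ∑' y, w x * f x y ^ 2

open Classical in
/-- the trilinear form of a set of triples -/
noncomputable def LL {Y : Type*} (w : Y → ℝ≥0∞) (T : Set (Y × Y × Y))
    (f g h : Y → Y → ℝ≥0∞) : ℝ≥0∞ :=
  ∑' x, ∑' y, ∑' z, if (x, y, z) ∈ T then w x * (f x y * g y z * h x z) else 0

/-- the trilinear form of `T` is bounded by `C` -/
def Bd (Γ : Type*) {Y : Type*} [Group Γ] [MulAction Γ Y] (w : Y → ℝ≥0∞) (T : Set (Y × Y × Y))
    (C : ℝ≥0∞) : Prop :=
  ∀ f g h : Y → Y → ℝ≥0∞, Inv2 Γ f → Inv2 Γ g → Inv2 Γ h →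
    nn w f ≠ ∞ → nn w g ≠ ∞ → nn w h ≠ ∞ →
    LL w T f g h ^ 2 ≤ C ^ 2 * (nn w f * nn w g * nn w h)

end Sums

/-! ### Products of hive spaces -/

section Prod

variable {Γ : Type*} [Group Γ] {ι : Type*} [Fintype ι] {X : ι → Type*} [∀ i, MulAction Γ (X i)]

/-- total distance -/
def dY (S : ∀ i, HiveSpace Γ (X i)) (x y : ∀ i, X i) : ℝ := ∑ i, dst (S i).H (x i) (y i)

/-- total perimeter -/
def pY (S : ∀ i, HiveSpace Γ (X i)) (t : (∀ i, X i) × (∀ i, X i) × (∀ i, X i)) : ℝ :=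
  ∑ i, pm (S i).H (t.1 i) (t.2.1 i) (t.2.2 i)

/-- total core size -/
noncomputable def cY (S : ∀ i, HiveSpace Γ (X i)) (t : (∀ i, X i) × (∀ i, X i) × (∀ i, X i)) :
    ℝ :=
  ∑ i, cs (S i).H (t.1 i) (t.2.1 i) (t.2.2 i)

/-- triples of perimeter at most `m` -/
def TP (S : ∀ i, HiveSpace Γ (X i)) (m : ℝ) : Set ((∀ i, X i) × (∀ i, X i) × (∀ i, X i)) :=
  {t | pY S t ≤ m}

/-- triples of perimeter at most `m` and core size at most `s` -/
def TS (S : ∀ i, HiveSpace Γ (X i)) (s m : ℝ) :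
    Set ((∀ i, X i) × (∀ i, X i) × (∀ i, X i)) :=
  {t | cY S t ≤ s ∧ pY S t ≤ m}

end Prod

/-! ### Rapid decay -/

/-- length function on a group -/
structure IsLength {Γ : Type*} [Group Γ] (ℓ : Γ → ℝ) : Prop where
  nonneg : ∀ g, 0 ≤ ℓ g
  inv : ∀ g, ℓ g⁻¹ = ℓ g
  mul_le : ∀ g h, ℓ (g * h) ≤ ℓ g + ℓ h

/-- `l²` norm of an element of the group algebra -/
noncomputable def norm2 {Γ : Type*} (f : MonoidAlgebra ℂ Γ) : ℝ :=
  Real.sqrt (f.coeff.sum fun _ c => ‖c‖ ^ 2)

/-- Sobolev norm of order `s` with respect to `ℓ` -/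
noncomputable def sobolev {Γ : Type*} (ℓ : Γ → ℝ) (s : ℝ) (f : MonoidAlgebra ℂ Γ) : ℝ :=
  Real.sqrt (f.coeff.sum fun g c => ((1 + ℓ g) ^ s * ‖c‖) ^ 2)

/-- rapid decay inequality with respect to the function `ℓ`: the operator norm of left
convolution by `f` on `ℓ²(Γ)` is at most `C ‖f‖_{H^s}` -/
def RDWith {Γ : Type*} [Group Γ] (ℓ : Γ → ℝ) : Prop :=
  ∃ C s : ℝ, 0 ≤ s ∧ ∀ f g : MonoidAlgebra ℂ Γ, norm2 (f * g) ≤ C * sobolev ℓ s f * norm2 g

/-- property (RD) -/
def PropertyRD (Γ : Type*) [Group Γ] : Prop := ∃ ℓ : Γ → ℝ, IsLength ℓ ∧ RDWith ℓ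

end RapidDecay
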