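import Mathlib
import Pool.Agent.Lib.MP_fee02f_an.Defs

/-!
Admissible topological groups (MP_fee02f_an).
-/

namespace RapidDecay

/-- a topological group which acts on finitely many hive spaces, and on a set with compact open
stabilisers and finitely many orbits, such that every stabiliser of a family of points of the hive
spaces is contained in one of these compact open subgroups -/
def Adm.{u, w} (G : Type w) [Group G] [TopologicalSpace G] : Prop :=
  ∃ (κ : Type) (_ : Fintype κ) (X : κ → Type u) (_ : ∀ k, MulAction G (X k))
    (_ : ∀ k, HiveSpace G (X k)) (Y : Type u) (_ : MulAction G Y),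
    (∀ k, Nonempty (X k)) ∧ (∀ y : Y, IsOpen (MulAction.stabilizer G y : Set G)) ∧
    (∀ y : Y, IsCompact (MulAction.stabilizer G y : Set G)) ∧
    Finite (MulAction.orbitRel.Quotient G Y) ∧
    ∀ z : (∀ k, X k), ∃ y : Y, MulAction.stabilizer G z ≤ MulAction.stabilizer G y

end RapidDecay
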