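import Mathlib

/-!
Cocompact discrete subgroups have bounded stabilisers (MP_fee02f_an, module M5).
-/

namespace RapidDecay

theorem bounded_stab {G Y : Type*} [Group G] [TopologicalSpace G] [IsTopologicalGroup G]
    [T2Space G] [MulAction G Y]
    (hopen : ∀ y : Y, IsOpen (MulAction.stabilizer G y : Set G))
    (hcomp : ∀ y : Y, IsCompact (MulAction.stabilizer G y : Set G))
    (hfin : Finite (MulAction.orbitRel.Quotient G Y))
    (Γ : Subgroup G) [DiscreteTopology Γ] [CompactSpace (G ⧸ Γ)] :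
    ∃ b : ℕ, ∀ y : Y, Finite (MulAction.stabilizer Γ y) ∧
      Nat.card (MulAction.stabilizer Γ y) ≤ b := by
  classical
  -- stabilisers are finite
  have hF : ∀ y : Y, Finite (MulAction.stabilizer Γ y) := by
    intro y
    have hcl : IsClosed (Γ : Set G) := Subgroup.isClosed_of_discrete
    have hpre : IsCompact ((Subtype.val : Γ → G) ⁻¹' (MulAction.stabilizer G y : Set G)) :=
      hcl.isClosedEmbedding_subtypeVal.isCompact_preimage (hcomp y)
    have hfin' : ((Subtype.val : Γ → G) ⁻¹' (MulAction.stabilizer G y : Set G)).Finite :=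
      isCompact_iff_finite.mp hpre
    have h2 : ((MulAction.stabilizer Γ y : Subgroup Γ) : Set Γ) ⊆
        ((Subtype.val : Γ → G) ⁻¹' (MulAction.stabilizer G y : Set G)) := by
      intro g hg
      exact hg
    exact (hfin'.subset h2).to_subtype
  -- finitely many orbits of `Γ` on every orbit of `G`
  have hO : ∀ y0 : Y, ∃ R : Finset Y, ∀ g : G, ∃ γ : Γ, γ • (g • y0) ∈ R := by
    intro y0
    have hop : ∀ h : G, IsOpen ((QuotientGroup.mk : G → G ⧸ Γ) ''
        {x | x * h⁻¹ ∈ MulAction.stabilizer G y0}) := by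
      intro h
      apply QuotientGroup.isOpenMap_coe
      exact (hopen y0).preimage (continuous_mul_const h⁻¹)
    have hcov : (Set.univ : Set (G ⧸ Γ)) ⊆ ⋃ h : G, ((QuotientGroup.mk : G → G ⧸ Γ) ''
        {x | x * h⁻¹ ∈ MulAction.stabilizer G y0}) := by
      intro q _
      obtain ⟨x, rfl⟩ := QuotientGroup.mk_surjective q
      rw [Set.mem_iUnion]
      refine ⟨x, x, ?_, rfl⟩
      simp
    obtain ⟨t, ht⟩ := isCompact_univ.elim_finite_subcover _ hop hcov
    refine ⟨t.image (fun h => h⁻¹ • y0), ?_⟩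
    intro g
    have h1 := ht (Set.mem_univ (QuotientGroup.mk (s := Γ) g⁻¹))
    simp only [Set.mem_iUnion] at h1
    obtain ⟨h, hh, x, hx, hxg⟩ := h1
    rw [QuotientGroup.eq] at hxg
    -- x⁻¹ * g⁻¹ ∈ Γ
    refine ⟨⟨x⁻¹ * g⁻¹, hxg⟩, ?_⟩
    rw [Finset.mem_image]
    refine ⟨h, hh, ?_⟩
    have hx' : (x * h⁻¹) • y0 = y0 := hx
    have h3 : h⁻¹ • y0 = x⁻¹ • y0 := by
      rw [eq_inv_smul_iff, smul_smul, hx']
    rw [h3]
    change x⁻¹ • y0 = (x⁻¹ * g⁻¹) • (g • y0)
    rw [smul_smul, mul_assoc, inv_mul_cancel, mul_one]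
  choose R hR using hO
  have := hfin
  have : Fintype (MulAction.orbitRel.Quotient G Y) := Fintype.ofFinite _
  set S : Finset Y := Finset.univ.biUnion
    (fun q : MulAction.orbitRel.Quotient G Y => R (Quotient.out q)) with hS
  have hall : ∀ y : Y, ∃ γ : Γ, γ • y ∈ S := by
    intro y
    have h1 : MulAction.orbitRel G Y y
        (Quotient.out (Quotient.mk (MulAction.orbitRel G Y) y)) :=
      (MulAction.orbitRel G Y).symm' (Quotient.mk_out (s := MulAction.orbitRel G Y) y)
    obtain ⟨g, hg⟩ := h1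
    obtain ⟨γ, hγ⟩ := hR (Quotient.out (Quotient.mk (MulAction.orbitRel G Y) y)) g
    refine ⟨γ, ?_⟩
    rw [hS, Finset.mem_biUnion]
    refine ⟨Quotient.mk (MulAction.orbitRel G Y) y, Finset.mem_univ _, ?_⟩
    have hg' : g • (Quotient.out (Quotient.mk (MulAction.orbitRel G Y) y)) = y := hg
    rw [hg'] at hγ
    exact hγ
  refine ⟨∑ y ∈ S, Nat.card (MulAction.stabilizer Γ y), ?_⟩
  intro y
  refine ⟨hF y, ?_⟩
  obtain ⟨γ, hγ⟩ := hall y
  have h1 : Nat.card (MulAction.stabilizer Γ y) = Nat.card (MulAction.stabilizer Γ (γ • y)) := by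
    apply Nat.card_congr
    exact (MulAction.stabilizerEquivStabilizer (g := γ) (a := y) (b := γ • y) rfl).toEquiv
  rw [h1]
  exact Finset.single_le_sum (f := fun y => Nat.card (MulAction.stabilizer Γ y))
    (fun _ _ => Nat.zero_le _) hγ

end RapidDecay
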