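import Pool.Agent.Lib.MP_fee02f_an.Defs

/-!
R1: weights with total mass one on orbits and the mass transport principle.
-/

open scoped ENNReal

namespace RapidDecay

variable {Γ Y : Type*} [Group Γ] [MulAction Γ Y]

theorem exists_wt (hfin : ∀ y : Y, Finite (MulAction.stabilizer Γ y)) :
    ∃ w : Y → ℝ≥0∞, IsWt Γ w := by
  classical
  let rep : Y → Y := fun y => Quotient.out (Quotient.mk (MulAction.orbitRel Γ Y) y)
  have hrep : ∀ (g : Γ) (y : Y), rep (g • y) = rep y := by
    intro g y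
    have h : (Quotient.mk (MulAction.orbitRel Γ Y) (g • y)) =
        Quotient.mk (MulAction.orbitRel Γ Y) y := by
      apply Quotient.sound
      exact ⟨g, rfl⟩
    simp only [rep]
    rw [h]
  have hmem : ∀ y : Y, ∃ g : Γ, g • rep y = y := by
    intro y
    have h : (Quotient.mk (MulAction.orbitRel Γ Y) (rep y)) =
        Quotient.mk (MulAction.orbitRel Γ Y) y := Quotient.out_eq _
    have h2 : (MulAction.orbitRel Γ Y).r y (rep y) := Quotient.exact h.symm
    exact h2
  have hrr : ∀ y : Y, rep (rep y) = rep y := by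
    intro y
    obtain ⟨g, hg⟩ := hmem y
    have := hrep g (rep y)
    rw [hg] at this
    exact this.symm
  refine ⟨fun y => if y = rep y then ((Nat.card (MulAction.stabilizer Γ y) : ℝ≥0∞))⁻¹ else 0,
    fun y => ?_⟩
  obtain ⟨g0, hg0⟩ := hmem y
  set r := rep y with hr
  have hrr' : rep r = r := hrr y
  have h1 : ∑' g : Γ, (fun y => if y = rep y then
      ((Nat.card (MulAction.stabilizer Γ y) : ℝ≥0∞))⁻¹ else 0) (g • y) =
      ∑' g : Γ, (fun y => if y = rep y then
      ((Nat.card (MulAction.stabilizer Γ y) : ℝ≥0∞))⁻¹ else 0) (g • r) := by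
    rw [← Equiv.tsum_eq (Equiv.mulRight g0)
      (fun g : Γ => (fun y => if y = rep y then
      ((Nat.card (MulAction.stabilizer Γ y) : ℝ≥0∞))⁻¹ else 0) (g • r))]
    refine tsum_congr fun g => ?_
    rw [Equiv.coe_mulRight, mul_smul, hg0]
  have h2 : ∑' g : Γ, (fun y => if y = rep y then
      ((Nat.card (MulAction.stabilizer Γ y) : ℝ≥0∞))⁻¹ else 0) (g • r) =
      ∑' g : Γ, (MulAction.stabilizer Γ r : Set Γ).indicator
        (fun _ => ((Nat.card (MulAction.stabilizer Γ r) : ℝ≥0∞))⁻¹) g := by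
    refine tsum_congr fun g => ?_
    simp only [Set.indicator, SetLike.mem_coe, MulAction.mem_stabilizer_iff]
    rw [hrep, hrr']
    by_cases h : g • r = r
    · rw [if_pos h, if_pos h, h]
    · rw [if_neg h, if_neg h]
  rw [h1, h2, ← tsum_subtype (MulAction.stabilizer Γ r : Set Γ)
    (fun _ => ((Nat.card (MulAction.stabilizer Γ r) : ℝ≥0∞))⁻¹)]
  have := hfin r
  have := Fintype.ofFinite (MulAction.stabilizer Γ r)
  have h3 : ∑' _g : (MulAction.stabilizer Γ r : Set Γ),
      ((Nat.card (MulAction.stabilizer Γ r) : ℝ≥0∞))⁻¹ =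
      ∑' _g : MulAction.stabilizer Γ r, ((Nat.card (MulAction.stabilizer Γ r) : ℝ≥0∞))⁻¹ := rfl
  rw [h3, tsum_fintype, Finset.sum_const, nsmul_eq_mul, Finset.card_univ, Nat.card_eq_fintype_card]
  apply ENNReal.mul_inv_cancel
  · exact_mod_cast Fintype.card_ne_zero
  · exact ENNReal.natCast_ne_top _

theorem tsum_transport {w : Y → ℝ≥0∞} (hw : IsWt Γ w) {Z : Type*} [MulAction Γ Z]
    (p q : Z → Y) (hp : ∀ (g : Γ) (z : Z), p (g • z) = g • p z)
    (hq : ∀ (g : Γ) (z : Z), q (g • z) = g • q z)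
    (f : Z → ℝ≥0∞) (hf : ∀ (g : Γ) (z : Z), f (g • z) = f z) :
    ∑' z, w (p z) * f z = ∑' z, w (q z) * f z := by
  have h1 : ∑' z, w (p z) * f z = ∑' z, ∑' g : Γ, w (p z) * f z * w (g • q z) := by
    refine tsum_congr fun z => ?_
    rw [ENNReal.tsum_mul_left, hw, mul_one]
  rw [h1, ENNReal.tsum_comm]
  have h2 : ∀ g : Γ, ∑' z, w (p z) * f z * w (g • q z) =
      ∑' z, w (g⁻¹ • p z) * (w (q z) * f z) := by
    intro g
    rw [← Equiv.tsum_eq (MulAction.toPerm g⁻¹) (fun z => w (p z) * f z * w (g • q z))]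
    refine tsum_congr fun z => ?_
    rw [MulAction.toPerm_apply, hp, hq, hf, smul_smul, mul_inv_cancel, one_smul]
    ring
  rw [tsum_congr h2, ENNReal.tsum_comm]
  refine tsum_congr fun z => ?_
  rw [ENNReal.tsum_mul_right]
  have h3 : ∑' g : Γ, w (g⁻¹ • p z) = 1 := by
    rw [← hw (p z), ← Equiv.tsum_eq (Equiv.inv Γ) (fun g : Γ => w (g • p z))]
    rfl
  rw [h3, one_mul]

/-- the second vertex may carry the weight -/
theorem nn_transport {w : Y → ℝ≥0∞} (hw : IsWt Γ w) {f : Y → Y → ℝ≥0∞} (hf : Inv2 Γ f) :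
    nn w (fun x y => f y x) = nn w f := by
  unfold nn
  rw [← ENNReal.tsum_prod (f := fun x y => w x * f y x ^ 2)]
  rw [tsum_transport hw (Z := Y × Y) (fun z => z.1) (fun z => z.2) (fun g z => rfl)
    (fun g z => rfl) (fun z => f z.2 z.1 ^ 2) (fun g z => by
      show f (g • z.2) (g • z.1) ^ 2 = f z.2 z.1 ^ 2
      rw [hf])]
  rw [ENNReal.tsum_prod (f := fun x y => w y * f y x ^ 2), ENNReal.tsum_comm]

end RapidDecay
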