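import Pool.Agent.Lib.MP_fee02f_an.Defs

/-!
K0a: basic facts on hives.
-/

set_option autoImplicit false

namespace RapidDecay

variable {P : Type*} {H : P → P → P → P → ℝ}

theorem sl_nonneg (hH : IsHive H) (a b c s t : P) : 0 ≤ sl H a b c s t := by
  have h := hH.pl s t a a b c
  unfold sl
  rcases min_le_iff.1 h with h | h <;> linarith

theorem sl_swap (hH : IsHive H) (a b c s t : P) : sl H a c b s t = sl H a b c s t := by
  unfold sl
  rw [hH.s34 s t c b]
  ring

theorem sl_swap' (hH : IsHive H) (a b c s t : P) : sl H a b c t s = sl H a b c s t := by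
  unfold sl
  rw [hH.s12 t s a a, hH.s12 t s b c, hH.s12 t s a b, hH.s12 t s a c]

theorem ds_comm (hH : IsHive H) (a b s t : P) : ds H b a s t = ds H a b s t := by
  unfold ds
  rw [hH.s34 s t b a]
  ring

theorem ds_swap (hH : IsHive H) (a b s t : P) : ds H a b t s = ds H a b s t := by
  unfold ds
  rw [hH.s12 t s a a, hH.s12 t s b b, hH.s12 t s a b]

theorem ds_eq (hH : IsHive H) (a b c s t : P) :
    ds H a b s t = sl H a b c s t + sl H b a c s t := by
  unfold ds sl
  rw [hH.s34 s t b a]
  ring

theorem om_eq (hH : IsHive H) (u a b c : P) :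
    sl H a b c u b - sl H a b c u c = om H u a b c := by
  unfold sl om
  have e1 : H u b a a = H u a a b := by
    rw [hH.s23 u b a a, hH.s34 u a b a]
  have e2 : H u b a b = H u a b b := hH.s23 u b a b
  have e3 : H u b a c = H u c a b := by
    rw [hH.s23 u b a c, hH.s34 u a b c, hH.s23 u a c b]
  have e4 : H u c b c = H u b c c := hH.s23 u c b c
  have e5 : H u c a c = H u c c a := hH.s34 u c a c
  rw [e1, e2, e3, e4, e5]
  ring

theorem om_rot (u a b c : P) : om H u b c a = om H u a b c := by
  unfold om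
  ring

theorem om_flip (hH : IsHive H) (u a b c : P) : om H u a c b = - om H u a b c := by
  unfold om
  have e1 : ∀ x y : P, H u x x y = H u y x x := by
    intro x y
    rw [hH.s34 u x x y, hH.s23 u x y x]
  rw [e1 a c, e1 c b, e1 b a, e1 a b, e1 b c, e1 c a]
  ring

theorem ds_nonneg (hH : IsHive H) (a b s t : P) : 0 ≤ ds H a b s t := by
  rw [ds_eq hH a b a s t]
  exact add_nonneg (sl_nonneg hH a b a s t) (sl_nonneg hH b a a s t)

theorem dst_eq (hH : IsHive H) (a b : P) :
    dst H a b = ds H a b a a + ds H a b a b + ds H a b b b := by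
  unfold dst ds
  have e1 : H a b a a = H a a a b := by
    rw [hH.s23 a b a a, hH.s34 a a b a]
  have e2 : H a b a b = H a a b b := hH.s23 a b a b
  have e3 : H b b a a = H a a b b := by
    rw [hH.s23 b b a a, hH.s12 b a b a, hH.s34 a b b a, hH.s23 a b a b]
  have e4 : H b b a b = H a b b b := by
    rw [hH.s23 b b a b, hH.s12 b a b b]
  rw [e1, e2, e3, e4]
  ring

theorem dst_comm (hH : IsHive H) (a b : P) : dst H b a = dst H a b := by
  unfold dst
  have e1 : H b b b a = H a b b b := by
    rw [hH.s34 b b b a, hH.s23 b b a b, hH.s12 b a b b]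
  have e2 : H b a a a = H a a a b := by
    rw [hH.s12 b a a a, hH.s23 a b a a, hH.s34 a a b a]
  rw [e1, e2]
  ring

theorem dst_self (hH : IsHive H) (a : P) : dst H a a = 0 := by
  unfold dst
  ring

theorem dst_nonneg (hH : IsHive H) (a b : P) : 0 ≤ dst H a b := by
  rw [dst_eq hH]
  have h1 := ds_nonneg hH a b a a
  have h2 := ds_nonneg hH a b a b
  have h3 := ds_nonneg hH a b b b
  linarith

/-- the part of the distance of `a`, `b` at the word `u v` in terms of other slacks -/
theorem K0a_ds (hH : IsHive H) (a b u v : P) :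
    ds H a b u v = sl H a b u b v + sl H b a u a v := by
  unfold ds sl
  have e1 : H a v b b = H b v a b := by
    rw [hH.s23 a v b b, hH.s12 a b v b, hH.s34 b a v b, hH.s23 b a b v, hH.s34 b b a v,
      hH.s23 b b v a, hH.s34 b v b a]
  have e2 : H b v a a = H a v b a := by
    rw [hH.s23 b v a a, hH.s12 b a v a, hH.s34 a b v a, hH.s23 a b a v, hH.s34 a a b v,
      hH.s23 a a v b, hH.s34 a v a b]
  have e3 : H b v b u = H u v b b := by
    rw [hH.s34 b v b u, hH.s23 b v u b, hH.s12 b u v b, hH.s23 u b v b]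
  have e4 : H a v a u = H u v a a := by
    rw [hH.s34 a v a u, hH.s23 a v u a, hH.s12 a u v a, hH.s23 u a v a]
  have e5 : H b v a u = H u v a b := by
    rw [hH.s34 b v a u, hH.s23 b v u a, hH.s12 b u v a, hH.s23 u b v a, hH.s34 u v b a]
  have e6 : H a v b u = H u v a b := by
    rw [hH.s34 a v b u, hH.s23 a v u b, hH.s12 a u v b, hH.s23 u a v b]
  rw [e1, e2, e3, e4, e5, e6]
  ring

theorem K0a_sl_le_ds (hH : IsHive H) (a b c s t : P) : sl H a b c s t ≤ ds H a b s t := by
  rw [ds_eq hH a b c s t]
  have := sl_nonneg hH b a c s t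
  linarith

theorem K0a_sl_le_ds' (hH : IsHive H) (a b c s t : P) : sl H b a c s t ≤ ds H a b s t := by
  rw [ds_eq hH a b c s t]
  have := sl_nonneg hH a b c s t
  linarith

theorem ds_le_dst (hH : IsHive H) (a b s t : P) : ds H a b s t ≤ dst H a b := by
  have h1 := K0a_ds hH a b s t
  have h2 := K0a_sl_le_ds hH a b s b t
  have h3 := K0a_sl_le_ds' hH a b s a t
  have h4 := K0a_ds hH a b t b
  have h5 := K0a_ds hH a b t a
  rw [ds_swap hH a b b t] at h4
  rw [ds_swap hH a b a t] at h5
  have h6 := K0a_sl_le_ds hH a b t b b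
  have h7 := K0a_sl_le_ds' hH a b t a a
  have h8 := ds_eq hH a b t a b
  have h9 := sl_swap' hH a b t a b
  have h10 := dst_eq hH a b
  linarith

theorem sl_le_dst (hH : IsHive H) (a b c s t : P) : sl H a b c s t ≤ dst H a b :=
  (K0a_sl_le_ds hH a b c s t).trans (ds_le_dst hH a b s t)

theorem om_le (hH : IsHive H) (u a b c : P) : |om H u a b c| ≤ dst H a b := by
  rw [← om_eq hH, abs_le]
  have h1 := sl_nonneg hH a b c u b
  have h2 := sl_nonneg hH a b c u c
  have h3 := sl_le_dst hH a b c u b
  have h4 := sl_le_dst hH a b c u c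
  constructor <;> linarith

end RapidDecay
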