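import Pool.Agent.Lib.MP_fee02f_an.Defs
import Pool.Agent.Lib.MP_fee02f_an.K0a

/-!
K0b: triangle inequality, the perimeter in terms of core and arms.
-/

set_option autoImplicit false

namespace RapidDecay

variable {P : Type*} {H : P → P → P → P → ℝ}

theorem dst_triangle (hH : IsHive H) (a b c : P) : dst H a c ≤ dst H a b + dst H b c := by
  have h1 := sl_nonneg hH b a c a a
  have h2 := sl_nonneg hH b a c c c
  have h3 := sl_nonneg hH b a c b b
  have h4 := sl_nonneg hH b a c a b
  have h5 := sl_nonneg hH b a c b c
  have e : dst H a b + dst H b c - dst H a c = sl H b a c a a + sl H b a c c c +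
      2 * sl H b a c b b + sl H b a c a b + sl H b a c b c := by
    unfold dst sl
    simp only [hH.s12, hH.s23, hH.s34]
    ring
  linarith

theorem K0b_pm (hH : IsHive H) (a b c : P) : pm H a b c =
    (2 * sl H a b c a a + sl H a b c a b + sl H a b c a c + sl H a b c b b + sl H a b c c c) +
    (2 * sl H b c a b b + sl H b c a b c + sl H b c a b a + sl H b c a c c + sl H b c a a a) +
    (2 * sl H c a b c c + sl H c a b c a + sl H c a b c b + sl H c a b a a + sl H c a b b b) := by
  unfold pm dst sl
  simp only [hH.s12, hH.s23, hH.s34]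
  ring

theorem K0b_min2 (s t x : ℝ) (h : s - t = x) : s + t = 2 * min s t + |x| := by
  rw [← h, ← max_sub_min_eq_abs']
  have := min_add_max s t
  linarith

theorem K0b_min3 (s t u y z : ℝ) (h1 : s - t = y) (h2 : t - u = z) :
    s + u = 2 * min s (min t u) + 2 * max 0 (max (-y) z) + y - z := by
  have hs : s = t + y := by linarith
  have hu : u = t - z := by linarith
  subst hs hu
  rcases le_total y 0 with hy | hy <;> rcases le_total 0 z with hz | hz
  · rw [min_eq_right (by linarith : t - z ≤ t)]
    rcases le_total (-y) z with h | h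
    · rw [min_eq_right (by linarith : t - z ≤ t + y), max_eq_right h, max_eq_right hz]
      ring
    · rw [min_eq_left (by linarith : t + y ≤ t - z), max_eq_left h,
        max_eq_right (by linarith : (0 : ℝ) ≤ -y)]
      ring
  · rw [min_eq_left (by linarith : t ≤ t - z), min_eq_left (by linarith : t + y ≤ t),
      max_eq_left (by linarith : z ≤ -y), max_eq_right (by linarith : (0 : ℝ) ≤ -y)]
    ring
  · rw [min_eq_right (by linarith : t - z ≤ t), min_eq_right (by linarith : t - z ≤ t + y),
      max_eq_right (by linarith : -y ≤ z), max_eq_right hz]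
    ring
  · rw [min_eq_left (by linarith : t ≤ t - z), min_eq_right (by linarith : t ≤ t + y),
      max_eq_left (max_le (by linarith) hz)]
    ring

theorem K0b_gm2 (hH : IsHive H) (a b c : P) :
    sl H a b c a b + sl H a b c a c = 2 * gm2 H a b c + |om H a a b c| :=
  K0b_min2 _ _ _ (om_eq hH a a b c)

theorem K0b_gm1 (hH : IsHive H) (a b c : P) :
    sl H a b c b b + sl H a b c c c = 2 * gm1 H a b c +
      2 * max 0 (max (-(om H b a b c)) (om H c a b c)) + om H b a b c - om H c a b c := by
  refine K0b_min3 _ _ _ _ _ (om_eq hH b a b c) ?_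
  rw [← om_eq hH c a b c, sl_swap' hH a b c b c]

theorem pm_eq (hH : IsHive H) (a b c : P) : pm H a b c = cs H a b c + 2 * ar H a b c := by
  have h0 := K0b_pm hH a b c
  have a1 := K0b_gm1 hH a b c
  have a2 := K0b_gm2 hH a b c
  have b1 := K0b_gm1 hH b c a
  have b2 := K0b_gm2 hH b c a
  have c1 := K0b_gm1 hH c a b
  have c2 := K0b_gm2 hH c a b
  have r1 : ∀ u, om H u b c a = om H u a b c := fun u => om_rot u a b c
  have r2 : ∀ u, om H u c a b = om H u a b c := fun u => (om_rot u b c a).trans (om_rot u a b c)
  rw [r1, r1] at b1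
  rw [r1] at b2
  rw [r2, r2] at c1
  rw [r2] at c2
  unfold cs Fc ar gm3
  linarith

theorem cs_nonneg (H : P → P → P → P → ℝ) (a b c : P) : 0 ≤ cs H a b c := by
  unfold cs Fc
  have h1 := abs_nonneg (om H a a b c)
  have h2 := abs_nonneg (om H b a b c)
  have h3 := abs_nonneg (om H c a b c)
  have h4 := le_max_left 0 (max (-(om H b a b c)) (om H c a b c))
  have h5 := le_max_left 0 (max (-(om H c a b c)) (om H a a b c))
  have h6 := le_max_left 0 (max (-(om H a a b c)) (om H b a b c))
  linarith

theorem cs_rot (H : P → P → P → P → ℝ) (a b c : P) : cs H b c a = cs H a b c := by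
  have r1 : ∀ u, om H u b c a = om H u a b c := fun u => om_rot u a b c
  unfold cs Fc
  rw [r1, r1, r1]
  ring

theorem pm_rot (H : P → P → P → P → ℝ) (a b c : P) : pm H b c a = pm H a b c := by
  unfold pm
  ring

end RapidDecay
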