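import Pool.Agent.Lib.MP_fee02f_an.Defs
import Pool.Agent.Lib.MP_fee02f_an.K0a
import Pool.Agent.Lib.MP_fee02f_an.K0b

/-!
R3: consequences of the move axioms.
-/

set_option autoImplicit false

namespace RapidDecay

variable {Γ X : Type*} [Group Γ] [MulAction Γ X] (S : HiveSpace Γ X)

theorem mv_slack (r k : ℕ) (a b c : X) (h : GroupGe S.H a b c r k)
    (u v w s t : Fin 3) (huv : u ≠ v) (hvw : v ≠ w) (huw : u ≠ w) :
    tsl S.H ![S.mv r k a b, b, c] (u, v, w, s, t)
        = tsl S.H ![a, b, c] (u, v, w, s, t)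
          - (if u = 0 ∧ (if s = 0 then 1 else 0) + (if t = 0 then 1 else 0) + 1 = r
              then (k : ℝ) else 0) := S.mv_sl r k a b c h u v w s t huv hvw huw

section slacks

variable {S} {r k : ℕ} {a b c : X}

/-- slacks of the moved vertex at words without the moved vertex -/
theorem R3_a1 (h : GroupGe S.H a b c r k) :
    sl S.H (S.mv r k a b) b c b b = sl S.H a b c b b - (if r = 1 then (k : ℝ) else 0) ∧
    sl S.H (S.mv r k a b) b c b c = sl S.H a b c b c - (if r = 1 then (k : ℝ) else 0) ∧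
    sl S.H (S.mv r k a b) b c c b = sl S.H a b c c b - (if r = 1 then (k : ℝ) else 0) ∧
    sl S.H (S.mv r k a b) b c c c = sl S.H a b c c c - (if r = 1 then (k : ℝ) else 0) := by
  have e : ∀ r' : ℕ, ((1 = r') = (r' = 1)) := fun r' => propext eq_comm
  have h1 := mv_slack S r k a b c h 0 1 2 1 1 (by decide) (by decide) (by decide)
  have h2 := mv_slack S r k a b c h 0 1 2 1 2 (by decide) (by decide) (by decide)
  have h3 := mv_slack S r k a b c h 0 1 2 2 1 (by decide) (by decide) (by decide)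
  have h4 := mv_slack S r k a b c h 0 1 2 2 2 (by decide) (by decide) (by decide)
  simp [tsl, e] at h1 h2 h3 h4
  exact ⟨h1, h2, h3, h4⟩

theorem R3_a2 (h : GroupGe S.H a b c r k) :
    sl S.H (S.mv r k a b) b c (S.mv r k a b) b =
      sl S.H a b c a b - (if r = 2 then (k : ℝ) else 0) ∧
    sl S.H (S.mv r k a b) b c (S.mv r k a b) c =
      sl S.H a b c a c - (if r = 2 then (k : ℝ) else 0) := by
  have e : ∀ r' : ℕ, ((1 + 1 = r') = (r' = 2)) := fun r' => propext eq_comm
  have h1 := mv_slack S r k a b c h 0 1 2 0 1 (by decide) (by decide) (by decide)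
  have h2 := mv_slack S r k a b c h 0 1 2 0 2 (by decide) (by decide) (by decide)
  simp only [tsl, true_and] at h1 h2
  simp [e] at h1 h2
  exact ⟨h1, h2⟩

theorem R3_a3 (h : GroupGe S.H a b c r k) :
    sl S.H (S.mv r k a b) b c (S.mv r k a b) (S.mv r k a b) =
      sl S.H a b c a a - (if r = 3 then (k : ℝ) else 0) := by
  have e : ∀ r' : ℕ, ((1 + 1 + 1 = r') = (r' = 3)) := fun r' => propext eq_comm
  have h1 := mv_slack S r k a b c h 0 1 2 0 0 (by decide) (by decide) (by decide)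
  simp only [tsl, true_and] at h1
  simp [e] at h1
  exact h1

theorem R3_b (h : GroupGe S.H a b c r k) :
    sl S.H b (S.mv r k a b) c b b = sl S.H b a c b b ∧
    sl S.H b (S.mv r k a b) c (S.mv r k a b) b = sl S.H b a c a b ∧
    sl S.H b (S.mv r k a b) c (S.mv r k a b) (S.mv r k a b) = sl S.H b a c a a := by
  have h1 := mv_slack S r k a b c h 1 0 2 1 1 (by decide) (by decide) (by decide)
  have h2 := mv_slack S r k a b c h 1 0 2 0 1 (by decide) (by decide) (by decide)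
  have h3 := mv_slack S r k a b c h 1 0 2 0 0 (by decide) (by decide) (by decide)
  simp [tsl] at h1 h2 h3
  exact ⟨h1, h2, h3⟩

end slacks

theorem mv_gm (r k : ℕ) (a b c : X) (h : GroupGe S.H a b c r k) :
    gm1 S.H (S.mv r k a b) b c = gm1 S.H a b c - (if r = 1 then (k : ℝ) else 0) ∧
    gm2 S.H (S.mv r k a b) b c = gm2 S.H a b c - (if r = 2 then (k : ℝ) else 0) ∧
    gm3 S.H (S.mv r k a b) b c = gm3 S.H a b c - (if r = 3 then (k : ℝ) else 0) := by
  obtain ⟨h1, h2, _, h4⟩ := R3_a1 h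
  obtain ⟨h5, h6⟩ := R3_a2 h
  have h7 := R3_a3 h
  refine ⟨?_, ?_, h7⟩
  · unfold gm1
    rw [h1, h2, h4, min_sub_sub_right, min_sub_sub_right]
  · unfold gm2
    rw [h5, h6, min_sub_sub_right]

theorem mv_ds (r k : ℕ) (a b c : X) (h : GroupGe S.H a b c r k) :
    ds S.H (S.mv r k a b) b b b = ds S.H a b b b - (if r = 1 then (k : ℝ) else 0) ∧
    ds S.H (S.mv r k a b) b (S.mv r k a b) b = ds S.H a b a b - (if r = 2 then (k : ℝ) else 0) ∧
    ds S.H (S.mv r k a b) b (S.mv r k a b) (S.mv r k a b)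
      = ds S.H a b a a - (if r = 3 then (k : ℝ) else 0) := by
  obtain ⟨h1, _, _, _⟩ := R3_a1 h
  obtain ⟨h5, _⟩ := R3_a2 h
  have h7 := R3_a3 h
  obtain ⟨b1, b2, b3⟩ := R3_b h
  refine ⟨?_, ?_, ?_⟩
  · rw [ds_eq S.hive _ _ c, ds_eq S.hive a b c, h1, b1]
    ring
  · rw [ds_eq S.hive _ _ c, ds_eq S.hive a b c, h5, b2]
    ring
  · rw [ds_eq S.hive _ _ c, ds_eq S.hive a b c, h7, b3]
    ring

theorem R3_groupGe_swap {P : Type*} {H : P → P → P → P → ℝ} (hH : IsHive H) {a b c : P} {r : ℕ}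
    {k : ℝ} (h : GroupGe H a b c r k) : GroupGe H a c b r k := by
  have e1 : gm1 H a c b = gm1 H a b c := by
    unfold gm1
    rw [sl_swap hH a b c c c, sl_swap hH a b c c b, sl_swap hH a b c b b, sl_swap' hH a b c b c,
      min_comm (sl H a b c b c) (sl H a b c b b), min_left_comm,
      min_comm (sl H a b c c c) (sl H a b c b c)]
  have e2 : gm2 H a c b = gm2 H a b c := by
    unfold gm2
    rw [sl_swap hH a b c a c, sl_swap hH a b c a b, min_comm]
  have e3 : gm3 H a c b = gm3 H a b c := by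
    unfold gm3
    rw [sl_swap hH a b c a a]
  unfold GroupGe
  rw [e1, e2, e3]
  exact h

theorem R3_r {P : Type*} {H : P → P → P → P → ℝ} {a b c : P} {r : ℕ}
    {k : ℝ} (h : GroupGe H a b c r k) : r = 1 ∨ r = 2 ∨ r = 3 := by
  rcases h with h | h | h
  · exact Or.inl h.1
  · exact Or.inr (Or.inl h.1)
  · exact Or.inr (Or.inr h.1)

theorem R3_dst (r k : ℕ) (a b c : X) (h : GroupGe S.H a b c r k) :
    dst S.H (S.mv r k a b) b = dst S.H a b - k := by
  obtain ⟨h1, h2, h3⟩ := mv_ds S r k a b c h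
  rw [dst_eq S.hive, dst_eq S.hive a b, h1, h2, h3]
  rcases R3_r h with hr | hr | hr <;> subst hr <;> simp <;> ring

theorem R3_om (r k : ℕ) (a b c : X) (h : GroupGe S.H a b c r k) :
    om S.H (S.mv r k a b) (S.mv r k a b) b c = om S.H a a b c ∧
    om S.H b (S.mv r k a b) b c = om S.H b a b c ∧
    om S.H c (S.mv r k a b) b c = om S.H c a b c := by
  obtain ⟨h1, h2, h3, h4⟩ := R3_a1 h
  obtain ⟨h5, h6⟩ := R3_a2 h
  refine ⟨?_, ?_, ?_⟩
  · rw [← om_eq S.hive, ← om_eq S.hive, h5, h6]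
    ring
  · rw [← om_eq S.hive, ← om_eq S.hive, h1, h2]
    ring
  · rw [← om_eq S.hive, ← om_eq S.hive, h3, h4]
    ring

theorem mv_pm (r k : ℕ) (a b c : X) (h : GroupGe S.H a b c r k) :
    dst S.H (S.mv r k a b) b = dst S.H a b - k ∧ dst S.H (S.mv r k a b) c = dst S.H a c - k ∧
    pm S.H (S.mv r k a b) b c = pm S.H a b c - 2 * k ∧
    cs S.H (S.mv r k a b) b c = cs S.H a b c := by
  have h1 := R3_dst S r k a b c h
  have h2 : dst S.H (S.mv r k a b) c = dst S.H a c - k := by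
    rw [S.mv_eq r k a b c h]
    exact R3_dst S r k a c b (R3_groupGe_swap S.hive h)
  refine ⟨h1, h2, ?_, ?_⟩
  · unfold pm
    rw [h1, dst_comm S.hive (S.mv r k a b) c, h2, dst_comm S.hive a c]
    ring
  · obtain ⟨o1, o2, o3⟩ := R3_om S r k a b c h
    unfold cs
    rw [o1, o2, o3]

/-- invariance of everything under the group -/
theorem inv_tsl (g : Γ) (a b c : X) (i : Fin 3 × Fin 3 × Fin 3 × Fin 3 × Fin 3) :
    tsl S.H ![g • a, g • b, g • c] i = tsl S.H ![a, b, c] i := by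
  have e : ∀ j : Fin 3, (![g • a, g • b, g • c] : Fin 3 → X) j = g • (![a, b, c] : Fin 3 → X) j := by
    intro j
    fin_cases j <;> rfl
  unfold tsl
  rw [e, e, e, e, e]
  exact S.inv g _ _ _ _ _

theorem inv_ds (g : Γ) (a b s t : X) :
    ds S.H (g • a) (g • b) (g • s) (g • t) = ds S.H a b s t := by
  rw [ds_eq S.hive _ _ (g • a), ds_eq S.hive a b a, S.inv, S.inv]

theorem inv_dst (g : Γ) (a b : X) : dst S.H (g • a) (g • b) = dst S.H a b := by
  rw [dst_eq S.hive, dst_eq S.hive a b, inv_ds, inv_ds, inv_ds]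

theorem inv_om (g : Γ) (u a b c : X) :
    om S.H (g • u) (g • a) (g • b) (g • c) = om S.H u a b c := by
  rw [← om_eq S.hive, ← om_eq S.hive, S.inv, S.inv]

theorem inv_pm (g : Γ) (a b c : X) : pm S.H (g • a) (g • b) (g • c) = pm S.H a b c := by
  unfold pm
  rw [inv_dst, inv_dst, inv_dst]

theorem inv_cs (g : Γ) (a b c : X) : cs S.H (g • a) (g • b) (g • c) = cs S.H a b c := by
  unfold cs
  rw [inv_om, inv_om, inv_om]

theorem inv_gm (g : Γ) (a b c : X) :
    gm1 S.H (g • a) (g • b) (g • c) = gm1 S.H a b c ∧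
    gm2 S.H (g • a) (g • b) (g • c) = gm2 S.H a b c ∧
    gm3 S.H (g • a) (g • b) (g • c) = gm3 S.H a b c := by
  refine ⟨?_, ?_, ?_⟩
  · unfold gm1
    rw [S.inv, S.inv, S.inv]
  · unfold gm2
    rw [S.inv, S.inv]
  · unfold gm3
    rw [S.inv]

end RapidDecay
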