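import Mathlib
import Pool.Agent.Lib.MP_fee02f_an.R3

/-!
# R10a : moving the far vertex
-/

open scoped ENNReal

namespace RapidDecay

/-- one factor: moving the far vertex `z` in all three groups -/
theorem move_three {Γ X : Type*} [Group Γ] [MulAction Γ X] (S : HiveSpace Γ X)
    (k1 k2 k3 : ℕ) (z x y : X) (h1 : GroupGe S.H z x y 1 k1) (h2 : GroupGe S.H z x y 2 k2)
    (h3 : GroupGe S.H z x y 3 k3) :
    S.mv 3 k3 (S.mv 2 k2 (S.mv 1 k1 z x) x) x = S.mv 3 k3 (S.mv 2 k2 (S.mv 1 k1 z y) y) y ∧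
    dst S.H (S.mv 3 k3 (S.mv 2 k2 (S.mv 1 k1 z x) x) x) x = dst S.H z x - k1 - k2 - k3 ∧
    dst S.H (S.mv 3 k3 (S.mv 2 k2 (S.mv 1 k1 z x) x) x) y = dst S.H z y - k1 - k2 - k3 := by
  have h2' : (k2 : ℝ) ≤ gm2 S.H z x y := by
    rcases h2 with h | h | h
    · exact absurd h.1 (by norm_num)
    · exact h.2
    · exact absurd h.1 (by norm_num)
  have h3' : (k3 : ℝ) ≤ gm3 S.H z x y := by
    rcases h3 with h | h | h
    · exact absurd h.1 (by norm_num)
    · exact absurd h.1 (by norm_num)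
    · exact h.2
  -- first move
  have e1 := S.mv_eq 1 k1 z x y h1
  obtain ⟨-, g12, g13⟩ := mv_gm S 1 k1 z x y h1
  obtain ⟨d1, d1', -, -⟩ := mv_pm S 1 k1 z x y h1
  rw [if_neg (by norm_num), sub_zero] at g12 g13
  rw [← e1]
  generalize S.mv 1 k1 z x = z1 at g12 g13 d1 d1' ⊢
  -- second move
  have G2 : GroupGe S.H z1 x y 2 k2 := Or.inr (Or.inl ⟨rfl, by rw [g12]; exact h2'⟩)
  have e2 := S.mv_eq 2 k2 z1 x y G2
  obtain ⟨-, -, g23⟩ := mv_gm S 2 k2 z1 x y G2
  obtain ⟨d2, d2', -, -⟩ := mv_pm S 2 k2 z1 x y G2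
  rw [if_neg (by norm_num), sub_zero] at g23
  rw [← e2]
  generalize S.mv 2 k2 z1 x = z2 at g23 d2 d2' ⊢
  -- third move
  have G3 : GroupGe S.H z2 x y 3 k3 := Or.inr (Or.inr ⟨rfl, by rw [g23, g13]; exact h3'⟩)
  have e3 := S.mv_eq 3 k3 z2 x y G3
  obtain ⟨d3, d3', -, -⟩ := mv_pm S 3 k3 z2 x y G3
  exact ⟨e3, by rw [d3, d2, d1], by rw [d3', d2', d1']⟩

/-- the slacks at the far vertex are at least the gaps minus `4 R` -/
theorem far_groups {P : Type*} {H : P → P → P → P → ℝ} (hH : IsHive H) (x y z : P) (R : ℝ)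
    (hR : dst H x y ≤ R) :
    (ds H z x x x - 4 * R ≤ gm1 H z x y ∧ ds H z x z x - 4 * R ≤ gm2 H z x y ∧
      ds H z x z z - 4 * R ≤ gm3 H z x y) ∧
    (|ds H z x x x - ds H z y y y| ≤ 4 * R ∧ |ds H z x z x - ds H z y z y| ≤ 4 * R ∧
      |ds H z x z z - ds H z y z z| ≤ 4 * R) := by
  have hR0 : 0 ≤ R := (dst_nonneg hH x y).trans hR
  have hxy : ∀ s t, 0 ≤ sl H x z y s t ∧ sl H x z y s t ≤ R := by
    intro s t
    refine ⟨sl_nonneg hH _ _ _ _ _, ?_⟩
    rw [sl_swap hH x y z s t]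
    exact (sl_le_dst hH x y z s t).trans hR
  have hyx : ∀ s t, 0 ≤ sl H y z x s t ∧ sl H y z x s t ≤ R := by
    intro s t
    refine ⟨sl_nonneg hH _ _ _ _ _, ?_⟩
    rw [sl_swap hH y x z s t]
    refine (sl_le_dst hH y x z s t).trans ?_
    rw [dst_comm hH]
    exact hR
  have hom : ∀ u, |om H u z x y| ≤ R := by
    intro u
    rw [← om_rot u z x y]
    exact (om_le hH u x y z).trans hR
  have d1 : ∀ s t, ds H z x s t = sl H z x y s t + sl H x z y s t := fun s t =>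
    ds_eq hH z x y s t
  have d2 : ∀ s t, ds H z y s t = sl H z x y s t + sl H y z x s t := fun s t => by
    rw [ds_eq hH z y x s t, sl_swap hH z x y s t]
  have o : ∀ u, sl H z x y u x - sl H z x y u y = om H u z x y := fun u => om_eq hH u z x y
  have ox := o x
  have oy := o y
  have oz := o z
  rw [sl_swap' hH z x y x y] at oy
  have ax := abs_le.1 (hom x)
  have ay := abs_le.1 (hom y)
  have az := abs_le.1 (hom z)
  have b1 := hxy x x
  have b2 := hxy z x
  have b3 := hxy z z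
  have c1 := hyx y y
  have c2 := hyx z y
  have c3 := hyx z z
  rw [d1 x x, d1 z x, d1 z z, d2 y y, d2 z y, d2 z z]
  unfold gm1 gm2 gm3
  refine ⟨⟨?_, ?_, ?_⟩, ?_, ?_, ?_⟩
  · refine le_min (by linarith) (le_min (by linarith) (by linarith))
  · refine le_min (by linarith) (by linarith)
  · linarith
  · rw [abs_le]
    constructor <;> linarith
  · rw [abs_le]
    constructor <;> linarith
  · rw [abs_le]
    constructor <;> linarith

end RapidDecay
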