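import Pool.Agent.Lib.MP_fee02f_an.R1

/-!
R2: elementary properties of the bound `Bd`.
-/

open scoped ENNReal

namespace RapidDecay

variable {Γ Y : Type*} [Group Γ] [MulAction Γ Y] {w : Y → ℝ≥0∞}

theorem R2_sqrt_sq (N : ℝ≥0∞) : (N ^ (1 / 2 : ℝ)) ^ 2 = N := by
  rw [← ENNReal.rpow_natCast, ← ENNReal.rpow_mul]
  norm_num

theorem R2_le_iff (L C N : ℝ≥0∞) : L ^ 2 ≤ C ^ 2 * N ↔ L ≤ C * N ^ (1 / 2 : ℝ) := by
  constructor
  · intro h
    rw [← R2_sqrt_sq N, ← mul_pow] at h
    have h2 : (L ^ 2) ^ (1 / 2 : ℝ) ≤ ((C * (N ^ (1 / 2 : ℝ)) ) ^ 2) ^ (1 / 2 : ℝ) :=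
      ENNReal.rpow_le_rpow h (by norm_num)
    rw [← ENNReal.rpow_natCast, ← ENNReal.rpow_mul, ← ENNReal.rpow_natCast, ← ENNReal.rpow_mul] at h2
    norm_num at h2
    exact h2
  · intro h
    calc L ^ 2 ≤ (C * N ^ (1 / 2 : ℝ)) ^ 2 := by gcongr
      _ = C ^ 2 * N := by rw [mul_pow, R2_sqrt_sq]

theorem R2_LL_mono {T T' : Set (Y × Y × Y)} (h : T ⊆ T') (f g k : Y → Y → ℝ≥0∞) :
    LL w T f g k ≤ LL w T' f g k := by
  classical
  unfold LL
  refine ENNReal.tsum_le_tsum fun x => ENNReal.tsum_le_tsum fun y => ENNReal.tsum_le_tsum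
    fun z => ?_
  by_cases hx : (x, y, z) ∈ T
  · rw [if_pos hx, if_pos (h hx)]
  · rw [if_neg hx]
    exact zero_le

theorem Bd.mono {T T' : Set (Y × Y × Y)} {C C' : ℝ≥0∞} (hB : Bd Γ w T' C) (h : T ⊆ T')
    (hC : C ≤ C') : Bd Γ w T C' := by
  intro f g k hf hg hk nf ng nk
  calc LL w T f g k ^ 2 ≤ LL w T' f g k ^ 2 := by
        gcongr
        exact R2_LL_mono h f g k
    _ ≤ C ^ 2 * (nn w f * nn w g * nn w k) := hB f g k hf hg hk nf ng nk
    _ ≤ C' ^ 2 * (nn w f * nn w g * nn w k) := by gcongr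

theorem Bd.cover {J : Type*} (s : Finset J) (T : J → Set (Y × Y × Y)) (C : J → ℝ≥0∞)
    (hB : ∀ j ∈ s, Bd Γ w (T j) (C j)) {T0 : Set (Y × Y × Y)}
    (hT : ∀ t ∈ T0, ∃ j ∈ s, t ∈ T j) : Bd Γ w T0 (∑ j ∈ s, C j) := by
  classical
  intro f g k hf hg hk nf ng nk
  rw [R2_le_iff, Finset.sum_mul]
  have h1 : LL w T0 f g k ≤ ∑ j ∈ s, LL w (T j) f g k := by
    unfold LL
    rw [← Summable.tsum_finsetSum (fun _ _ => ENNReal.summable)]
    refine ENNReal.tsum_le_tsum fun x => ?_
    rw [← Summable.tsum_finsetSum (fun _ _ => ENNReal.summable)]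
    refine ENNReal.tsum_le_tsum fun y => ?_
    rw [← Summable.tsum_finsetSum (fun _ _ => ENNReal.summable)]
    refine ENNReal.tsum_le_tsum fun z => ?_
    by_cases hx : (x, y, z) ∈ T0
    · obtain ⟨j, hj, hj2⟩ := hT _ hx
      rw [if_pos hx]
      refine le_trans ?_ (Finset.single_le_sum (f := fun j => if (x, y, z) ∈ T j then
        w x * (f x y * g y z * k x z) else 0) (fun _ _ => zero_le) hj)
      rw [if_pos hj2]
    · rw [if_neg hx]
      exact zero_le
  refine h1.trans (Finset.sum_le_sum fun j hj => ?_)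
  rw [← R2_le_iff]
  exact hB j hj f g k hf hg hk nf ng nk

theorem Bd.rot (hw : IsWt Γ w) {T : Set (Y × Y × Y)} (hT : InvT Γ T) {C : ℝ≥0∞}
    (hB : Bd Γ w T C) : Bd Γ w {t | (t.2.1, t.2.2, t.1) ∈ T} C := by
  classical
  intro f g k hf hg hk nf ng nk
  have hf' : Inv2 Γ (fun a b => f b a) := fun γ x y => hf γ y x
  have hk' : Inv2 Γ (fun a b => k b a) := fun γ x y => hk γ y x
  have h1 := hB g (fun a b => k b a) (fun a b => f b a) hg hk' hf' ng
    (by rw [nn_transport hw hk]; exact nk) (by rw [nn_transport hw hf]; exact nf)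
  rw [nn_transport hw hk, nn_transport hw hf] at h1
  have h2 : LL w {t | (t.2.1, t.2.2, t.1) ∈ T} f g k =
      LL w T g (fun a b => k b a) (fun a b => f b a) := by
    have e1 : LL w {t | (t.2.1, t.2.2, t.1) ∈ T} f g k = ∑' z : Y × Y × Y, w z.1 *
        (if (z.2.1, z.2.2, z.1) ∈ T then f z.1 z.2.1 * g z.2.1 z.2.2 * k z.1 z.2.2 else 0) := by
      rw [ENNReal.tsum_prod' (f := fun z : Y × Y × Y => w z.1 *
        (if (z.2.1, z.2.2, z.1) ∈ T then f z.1 z.2.1 * g z.2.1 z.2.2 * k z.1 z.2.2 else 0))]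
      unfold LL
      refine tsum_congr fun x => ?_
      rw [ENNReal.tsum_prod']
      refine tsum_congr fun y => tsum_congr fun z => ?_
      simp only [Set.mem_ofPred_eq]
      split_ifs
      · rfl
      · rw [mul_zero]
    have e2 : LL w T g (fun a b => k b a) (fun a b => f b a) = ∑' z : Y × Y × Y, w z.1 *
        (if (z.1, z.2.1, z.2.2) ∈ T then
          g z.1 z.2.1 * k z.2.2 z.2.1 * f z.2.2 z.1 else 0) := by
      rw [ENNReal.tsum_prod' (f := fun z : Y × Y × Y => w z.1 *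
        (if (z.1, z.2.1, z.2.2) ∈ T then
          g z.1 z.2.1 * k z.2.2 z.2.1 * f z.2.2 z.1 else 0))]
      unfold LL
      refine tsum_congr fun x => ?_
      rw [ENNReal.tsum_prod']
      refine tsum_congr fun y => tsum_congr fun z => ?_
      split_ifs
      · rfl
      · rw [mul_zero]
    rw [e1, tsum_transport hw (Z := Y × Y × Y) (fun z => z.1) (fun z => z.2.1)
      (fun γ z => rfl) (fun γ z => rfl) _ (fun γ z => by
        show (if (γ • z.2.1, γ • z.2.2, γ • z.1) ∈ T then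
          f (γ • z.1) (γ • z.2.1) * g (γ • z.2.1) (γ • z.2.2) * k (γ • z.1) (γ • z.2.2) else 0) = _
        rw [hf, hg, hk]
        simp only [hT γ z.2.1 z.2.2 z.1]), e2]
    let e : Y × Y × Y ≃ Y × Y × Y :=
      { toFun := fun z => (z.2.2, z.1, z.2.1)
        invFun := fun z => (z.2.1, z.2.2, z.1)
        left_inv := fun z => rfl
        right_inv := fun z => rfl }
    rw [← Equiv.tsum_eq e]
    refine tsum_congr fun z => ?_
    simp only [e, Equiv.coe_fn_mk]
    split_ifs
    · ring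
    · rfl
  rw [h2]
  calc _ ≤ C ^ 2 * (nn w g * nn w k * nn w f) := h1
    _ = _ := by ring

theorem Bd.sInf {T : Set (Y × Y × Y)} (h : ∃ C, Bd Γ w T C) :
    Bd Γ w T (sInf {C | Bd Γ w T C}) := by
  intro f g k hf hg hk nf ng nk
  rw [R2_le_iff]
  have hN : (nn w f * nn w g * nn w k) ^ (1 / 2 : ℝ) ≠ ∞ :=
    ENNReal.rpow_ne_top_of_nonneg (by norm_num) (ENNReal.mul_ne_top (ENNReal.mul_ne_top nf ng) nk)
  have hC : ∀ C, Bd Γ w T C → LL w T f g k ≤ C * (nn w f * nn w g * nn w k) ^ (1 / 2 : ℝ) := by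
    intro C hC
    rw [← R2_le_iff]
    exact hC f g k hf hg hk nf ng nk
  by_cases h0 : (nn w f * nn w g * nn w k) ^ (1 / 2 : ℝ) = 0
  · obtain ⟨C, hC'⟩ := h
    have := hC C hC'
    rw [h0, mul_zero] at this
    rw [h0, mul_zero]
    exact this
  · rw [← ENNReal.div_le_iff h0 hN]
    refine le_sInf fun C hC' => ?_
    rw [ENNReal.div_le_iff h0 hN]
    exact hC C hC'

theorem Bd.top (hw : IsWt Γ w) (T : Set (Y × Y × Y)) : Bd Γ w T ∞ := by
  classical
  intro f g k hf hg hk nf ng nk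
  by_cases h0 : nn w f * nn w g * nn w k = 0
  · have hz : ∀ q : Y → Y → ℝ≥0∞, nn w q = 0 → ∀ x y, w x = 0 ∨ q x y = 0 := by
      intro q hq x y
      unfold nn at hq
      rw [ENNReal.tsum_eq_zero] at hq
      have h1 := hq x
      rw [ENNReal.tsum_eq_zero] at h1
      have h2 := h1 y
      rw [mul_eq_zero] at h2
      rcases h2 with h2 | h2
      · exact Or.inl h2
      · exact Or.inr (pow_eq_zero_iff (two_ne_zero) |>.1 h2)
    have hL : LL w T f g k = 0 := by
      unfold LL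
      rw [ENNReal.tsum_eq_zero]
      intro x
      rw [ENNReal.tsum_eq_zero]
      intro y
      rw [ENNReal.tsum_eq_zero]
      intro z
      split_ifs with hx
      · rw [mul_eq_zero, mul_eq_zero] at h0
        rcases h0 with (h0 | h0) | h0
        · rcases hz f h0 x y with h | h
          · rw [h, zero_mul]
          · rw [h, zero_mul, zero_mul, mul_zero]
        · have h1 : g y z = 0 := by
            by_contra hne
            have h2 : ∀ γ : Γ, w (γ • y) = 0 := by
              intro γ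
              rcases hz g h0 (γ • y) (γ • z) with h | h
              · exact h
              · rw [hg] at h
                exact absurd h hne
            have h3 := hw y
            simp only [h2, tsum_zero] at h3
            exact zero_ne_one h3
          rw [h1, mul_zero, zero_mul, mul_zero]
        · rcases hz k h0 x z with h | h
          · rw [h, zero_mul]
          · rw [h, mul_zero, mul_zero]
      · rfl
    rw [hL]
    simp
  · have : (∞ : ℝ≥0∞) ^ 2 * (nn w f * nn w g * nn w k) = ∞ := by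
      rw [ENNReal.top_pow (by norm_num), ENNReal.top_mul h0]
    rw [this]
    exact le_top

end RapidDecay
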