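import Pool.Agent.Lib.MP_fee02f_an.R1

/-!
R4: moving a vertex.
-/

open scoped ENNReal

namespace RapidDecay

/-- Cauchy-Schwarz -/
theorem R4_cs {I : Type*} (a b : I → ℝ≥0∞) :
    ∑' i, a i * b i ≤ (∑' i, a i ^ 2) ^ (1 / 2 : ℝ) * (∑' i, b i ^ 2) ^ (1 / 2 : ℝ) := by
  rw [ENNReal.tsum_eq_iSup_sum]
  refine iSup_le (fun s => ?_)
  have h := ENNReal.inner_le_Lp_mul_Lq s a b (p := 2) (q := 2) Real.HolderConjugate.two_two
  refine h.trans ?_
  have h2 : ∀ c : I → ℝ≥0∞, ∑ i ∈ s, c i ^ (2 : ℝ) ≤ ∑' i, c i ^ 2 := by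
    intro c
    have : ∀ i, c i ^ (2 : ℝ) = c i ^ 2 := fun i => by
      rw [← ENNReal.rpow_natCast]; norm_num
    simp only [this]
    exact ENNReal.sum_le_tsum s
  gcongr
  · exact h2 a
  · exact h2 b

theorem R4_rt (x : ℝ≥0∞) : (x ^ (1 / 2 : ℝ)) ^ 2 = x := by
  rw [← ENNReal.rpow_natCast, ← ENNReal.rpow_mul]
  norm_num

theorem R4_rt' (x : ℝ≥0∞) : (x ^ 2) ^ (1 / 2 : ℝ) = x := by
  rw [← ENNReal.rpow_natCast, ← ENNReal.rpow_mul]
  norm_num

/-- Cauchy-Schwarz, squared -/
theorem R4_cs' {I : Type*} (a b : I → ℝ≥0∞) :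
    (∑' i, a i * b i) ^ 2 ≤ (∑' i, a i ^ 2) * (∑' i, b i ^ 2) := by
  calc (∑' i, a i * b i) ^ 2
      ≤ ((∑' i, a i ^ 2) ^ (1 / 2 : ℝ) * (∑' i, b i ^ 2) ^ (1 / 2 : ℝ)) ^ 2 := by
        gcongr
        exact R4_cs a b
    _ = _ := by rw [mul_pow, R4_rt, R4_rt]

section R4
variable {Γ Y : Type*} [Group Γ] [MulAction Γ Y] {w : Y → ℝ≥0∞}

open Classical in
/-- the trilinear form as a sum over triples -/
theorem R4_LL_prod (w : Y → ℝ≥0∞) (T : Set (Y × Y × Y)) (f g k : Y → Y → ℝ≥0∞) :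
    LL w T f g k = ∑' t : Y × Y × Y, w t.1 *
      (if t ∈ T then f t.1 t.2.1 * g t.2.1 t.2.2 * k t.1 t.2.2 else 0) := by
  unfold LL
  rw [ENNReal.tsum_prod']
  refine tsum_congr (fun x => ?_)
  rw [ENNReal.tsum_prod']
  refine tsum_congr (fun y => tsum_congr (fun z => ?_))
  split_ifs <;> simp

open Classical in
/-- the weight may be put at any vertex -/
theorem R4_LL_any (hw : IsWt Γ w) {T : Set (Y × Y × Y)} (hT : InvT Γ T) {f g k : Y → Y → ℝ≥0∞}
    (hf : Inv2 Γ f) (hg : Inv2 Γ g) (hk : Inv2 Γ k) (q : Y × Y × Y → Y)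
    (hq : ∀ (γ : Γ) (t : Y × Y × Y), q (γ • t) = γ • q t) :
    LL w T f g k = ∑' t : Y × Y × Y, w (q t) *
      (if t ∈ T then f t.1 t.2.1 * g t.2.1 t.2.2 * k t.1 t.2.2 else 0) := by
  rw [R4_LL_prod]
  refine tsum_transport hw (fun t : Y × Y × Y => t.1) q (fun _ _ => rfl) hq
    (fun t => if t ∈ T then f t.1 t.2.1 * g t.2.1 t.2.2 * k t.1 t.2.2 else 0) ?_
  intro γ t
  have h1 : γ • t ∈ T ↔ t ∈ T := hT γ t.1 t.2.1 t.2.2
  change (if γ • t ∈ T then f (γ • t.1) (γ • t.2.1) * g (γ • t.2.1) (γ • t.2.2) *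
    k (γ • t.1) (γ • t.2.2) else 0) = _
  rw [hf, hg, hk]
  simp only [h1]

open Classical in
/-- the weight at the second vertex, order of summation `y, z, x` -/
theorem R4_LL_mid (hw : IsWt Γ w) {T : Set (Y × Y × Y)} (hT : InvT Γ T) {f g k : Y → Y → ℝ≥0∞}
    (hf : Inv2 Γ f) (hg : Inv2 Γ g) (hk : Inv2 Γ k) :
    LL w T f g k = ∑' y, ∑' z, ∑' x, w y *
      (if (x, y, z) ∈ T then f x y * g y z * k x z else 0) := by
  rw [R4_LL_any hw hT hf hg hk (fun t => t.2.1) (fun _ _ => rfl), ENNReal.tsum_prod']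
  rw [ENNReal.tsum_comm, ENNReal.tsum_prod']

theorem Bd.move (hw : IsWt Γ w) {T T' : Set (Y × Y × Y)} (hT : InvT Γ T) (hT' : InvT Γ T')
    (μ ν : Y → Y → Y) (hμ : ∀ (g : Γ) (x y : Y), μ (g • x) (g • y) = g • μ x y)
    (hν : ∀ (g : Γ) (x y : Y), ν (g • x) (g • y) = g • ν x y)
    (h : ∀ x y z, (x, y, z) ∈ T → μ x y = ν x z ∧ (μ x y, y, z) ∈ T')
    {C : ℝ≥0∞} (hB : Bd Γ w T' C) : Bd Γ w T C := by
  classical
  -- the pushed forward kernels
  set push : (Y → Y → Y) → (Y → Y → ℝ≥0∞) → Y → Y → ℝ≥0∞ := fun μ f x' y =>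
    (∑' x, if μ x y = x' then f x y ^ 2 else 0) ^ (1 / 2 : ℝ) with hpush
  have hinv : ∀ (μ : Y → Y → Y) (f : Y → Y → ℝ≥0∞),
      (∀ (g : Γ) (x y : Y), μ (g • x) (g • y) = g • μ x y) → Inv2 Γ f → Inv2 Γ (push μ f) := by
    intro μ f hμ hf γ x' y
    simp only [hpush]
    congr 1
    rw [← (MulAction.toPerm γ : Equiv.Perm Y).tsum_eq]
    refine tsum_congr (fun x => ?_)
    simp only [MulAction.toPerm_apply]
    rw [hμ, hf]
    simp only [smul_left_cancel_iff]
  have hnn : ∀ (μ : Y → Y → Y) (f : Y → Y → ℝ≥0∞),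
      (∀ (g : Γ) (x y : Y), μ (g • x) (g • y) = g • μ x y) → Inv2 Γ f →
      nn w (push μ f) = nn w f := by
    intro μ f hμ hf
    rw [← nn_transport hw (hinv μ f hμ hf), ← nn_transport hw hf]
    unfold nn
    refine tsum_congr (fun y => ?_)
    simp only [hpush, R4_rt]
    rw [ENNReal.tsum_mul_left, ENNReal.tsum_mul_left, ENNReal.tsum_comm]
    congr 1
    refine tsum_congr (fun x => ?_)
    rw [tsum_eq_single (μ x y)]
    · rw [if_pos rfl]
    · intro x' hx'
      rw [if_neg (Ne.symm hx')]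
  intro f g k hf hg hk hnf hng hnk
  have hf' := hinv μ f hμ hf
  have hk' := hinv ν k hν hk
  have hle : LL w T f g k ≤ LL w T' (push μ f) g (push ν k) := by
    rw [R4_LL_mid hw hT hf hg hk, R4_LL_mid hw hT' hf' hg hk']
    refine ENNReal.tsum_le_tsum (fun y => ENNReal.tsum_le_tsum (fun z => ?_))
    rw [ENNReal.tsum_mul_left, ENNReal.tsum_mul_left]
    gcongr ?_ * ?_
    · exact le_rfl
    calc ∑' x, (if (x, y, z) ∈ T then f x y * g y z * k x z else 0)
        ≤ ∑' x, ∑' x', (if (x', y, z) ∈ T' then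
            g y z * ((if μ x y = x' then f x y else 0) * (if ν x z = x' then k x z else 0)) else 0) := by
          refine ENNReal.tsum_le_tsum (fun x => ?_)
          by_cases hx : (x, y, z) ∈ T
          · obtain ⟨h1, h2⟩ := h x y z hx
            refine le_trans ?_ (ENNReal.le_tsum (μ x y))
            rw [if_pos hx, if_pos h2, if_pos rfl, if_pos h1.symm]
            apply le_of_eq
            ring
          · rw [if_neg hx]
            exact zero_le
      _ = ∑' x', ∑' x, (if (x', y, z) ∈ T' then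
            g y z * ((if μ x y = x' then f x y else 0) * (if ν x z = x' then k x z else 0)) else 0) :=
          ENNReal.tsum_comm
      _ ≤ ∑' x', (if (x', y, z) ∈ T' then push μ f x' y * g y z * push ν k x' z else 0) := by
          refine ENNReal.tsum_le_tsum (fun x' => ?_)
          by_cases hx : (x', y, z) ∈ T'
          · simp only [if_pos hx]
            rw [ENNReal.tsum_mul_left]
            have hcs := R4_cs (fun x => if μ x y = x' then f x y else 0)
              (fun x => if ν x z = x' then k x z else 0)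
            have e1 : ∀ x, (if μ x y = x' then f x y else 0) ^ 2 =
                (if μ x y = x' then f x y ^ 2 else 0) := fun x => by
              split_ifs <;> simp
            have e2 : ∀ x, (if ν x z = x' then k x z else 0) ^ 2 =
                (if ν x z = x' then k x z ^ 2 else 0) := fun x => by
              split_ifs <;> simp
            simp only [e1, e2] at hcs
            calc g y z * ∑' x, ((if μ x y = x' then f x y else 0) * (if ν x z = x' then k x z else 0))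
                ≤ g y z * (push μ f x' y * push ν k x' z) := by
                  gcongr
              _ = push μ f x' y * g y z * push ν k x' z := by ring
          · simp only [if_neg hx, tsum_zero, le_refl]
  calc LL w T f g k ^ 2 ≤ LL w T' (push μ f) g (push ν k) ^ 2 := by gcongr
    _ ≤ C ^ 2 * (nn w (push μ f) * nn w g * nn w (push ν k)) := by
        refine hB _ _ _ hf' hg hk' ?_ hng ?_
        · rwa [hnn μ f hμ hf]
        · rwa [hnn ν k hν hk]
    _ = C ^ 2 * (nn w f * nn w g * nn w k) := by rw [hnn μ f hμ hf, hnn ν k hν hk]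
end R4

end RapidDecay
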