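import Pool.Agent.Lib.MP_fee02f_an.Defs
import Pool.Agent.Lib.MP_fee02f_an.K0a
import Pool.Agent.Lib.MP_fee02f_an.K0b
import Pool.Agent.Lib.MP_fee02f_an.R3

/-!
R7a: basic facts on products.
-/

set_option autoImplicit false

namespace RapidDecay

variable {Γ : Type*} [Group Γ] {ι : Type*} [Fintype ι] {X : ι → Type*} [∀ i, MulAction Γ (X i)]
  (S : ∀ i, HiveSpace Γ (X i))

theorem dY_nonneg (x y : ∀ i, X i) : 0 ≤ dY S x y :=
  Finset.sum_nonneg (fun i _ => dst_nonneg (S i).hive _ _)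

theorem dY_comm (x y : ∀ i, X i) : dY S y x = dY S x y :=
  Finset.sum_congr rfl (fun i _ => dst_comm (S i).hive _ _)

theorem dY_triangle (x y z : ∀ i, X i) : dY S x z ≤ dY S x y + dY S y z := by
  unfold dY
  rw [← Finset.sum_add_distrib]
  exact Finset.sum_le_sum (fun i _ => dst_triangle (S i).hive _ _ _)

theorem dY_smul (g : Γ) (x y : ∀ i, X i) : dY S (g • x) (g • y) = dY S x y :=
  Finset.sum_congr rfl (fun i _ => inv_dst (S i) g _ _)

theorem R7a_pY_smul (g : Γ) (x y z : ∀ i, X i) :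
    pY S (g • x, g • y, g • z) = pY S (x, y, z) :=
  Finset.sum_congr rfl (fun i _ => inv_pm (S i) g _ _ _)

theorem R7a_cY_smul (g : Γ) (x y z : ∀ i, X i) :
    cY S (g • x, g • y, g • z) = cY S (x, y, z) :=
  Finset.sum_congr rfl (fun i _ => inv_cs (S i) g _ _ _)

theorem invT_TP (m : ℝ) : InvT Γ (TP S m) := by
  intro g x y z
  show pY S (g • x, g • y, g • z) ≤ m ↔ pY S (x, y, z) ≤ m
  rw [R7a_pY_smul]

theorem invT_TS (s m : ℝ) : InvT Γ (TS S s m) := by
  intro g x y z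
  show (cY S (g • x, g • y, g • z) ≤ s ∧ pY S (g • x, g • y, g • z) ≤ m) ↔
    (cY S (x, y, z) ≤ s ∧ pY S (x, y, z) ≤ m)
  rw [R7a_pY_smul, R7a_cY_smul]

theorem pY_eq (x y z : ∀ i, X i) : pY S (x, y, z) = dY S x y + dY S y z + dY S z x := by
  unfold pY dY pm
  rw [Finset.sum_add_distrib, Finset.sum_add_distrib]

theorem cY_nonneg (t : (∀ i, X i) × (∀ i, X i) × (∀ i, X i)) : 0 ≤ cY S t :=
  Finset.sum_nonneg (fun _ _ => cs_nonneg _ _ _ _)

theorem R7a_ar_nonneg {P : Type*} {H : P → P → P → P → ℝ} (hH : IsHive H) (a b c : P) :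
    0 ≤ ar H a b c := by
  have h1 : ∀ a b c : P, 0 ≤ gm1 H a b c := fun a b c =>
    le_min (sl_nonneg hH _ _ _ _ _) (le_min (sl_nonneg hH _ _ _ _ _) (sl_nonneg hH _ _ _ _ _))
  have h2 : ∀ a b c : P, 0 ≤ gm2 H a b c := fun a b c =>
    le_min (sl_nonneg hH _ _ _ _ _) (sl_nonneg hH _ _ _ _ _)
  have h3 : ∀ a b c : P, 0 ≤ gm3 H a b c := fun a b c => sl_nonneg hH _ _ _ _ _
  unfold ar
  have := h1 a b c
  have := h1 b c a
  have := h1 c a b
  have := h2 a b c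
  have := h2 b c a
  have := h2 c a b
  have := h3 a b c
  have := h3 b c a
  have := h3 c a b
  linarith

theorem cY_le_pY (t : (∀ i, X i) × (∀ i, X i) × (∀ i, X i)) : cY S t ≤ pY S t := by
  refine Finset.sum_le_sum (fun i _ => ?_)
  rw [pm_eq (S i).hive]
  have := R7a_ar_nonneg (S i).hive (t.1 i) (t.2.1 i) (t.2.2 i)
  linarith

end RapidDecay
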