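import Mathlib
import Pool.Agent.Lib.MP_fee02f_an.R2
import Pool.Agent.Lib.MP_fee02f_an.R4
import Pool.Agent.Lib.MP_fee02f_an.R7a
import Pool.Agent.Lib.MP_fee02f_an.R10a

/-!
# R10b : long arms
-/

open scoped ENNReal

namespace RapidDecay

/-- the gaps of the two points at the three words -/
noncomputable def R10b_gap {P : Type*} (H : P → P → P → P → ℝ) (r : Fin 3) (z x : P) : ℝ :=
  if r = 0 then ds H z x x x else if r = 1 then ds H z x z x else ds H z x z z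

theorem R10b_gap0 {P : Type*} (H : P → P → P → P → ℝ) (z x : P) :
    R10b_gap H 0 z x = ds H z x x x := if_pos rfl

theorem R10b_gap1 {P : Type*} (H : P → P → P → P → ℝ) (z x : P) :
    R10b_gap H 1 z x = ds H z x z x := by
  unfold R10b_gap
  rw [if_neg (by decide), if_pos rfl]

theorem R10b_gap2 {P : Type*} (H : P → P → P → P → ℝ) (z x : P) :
    R10b_gap H 2 z x = ds H z x z z := by
  unfold R10b_gap
  rw [if_neg (by decide), if_neg (by decide)]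

/-- three moves -/
def R10b_mv {Γ X : Type*} [Group Γ] [MulAction Γ X] (S : HiveSpace Γ X) (k : Fin 3 → ℕ)
    (z x : X) : X := S.mv 3 (k 2) (S.mv 2 (k 1) (S.mv 1 (k 0) z x) x) x

theorem R10b_mv_smul {Γ X : Type*} [Group Γ] [MulAction Γ X] (S : HiveSpace Γ X) (k : Fin 3 → ℕ)
    (g : Γ) (z x : X) : R10b_mv S k (g • z) (g • x) = g • R10b_mv S k z x := by
  unfold R10b_mv
  rw [S.mv_smul, S.mv_smul, S.mv_smul]

theorem R10b_gap_smul {Γ X : Type*} [Group Γ] [MulAction Γ X] (S : HiveSpace Γ X) (r : Fin 3)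
    (g : Γ) (z x : X) : R10b_gap S.H r (g • z) (g • x) = R10b_gap S.H r z x := by
  unfold R10b_gap
  rw [inv_ds, inv_ds, inv_ds]

/-- the numbers of steps -/
noncomputable def R10b_k {P : Type*} (H : P → P → P → P → ℝ) (c : Fin 3 → ℤ) (z x : P)
    (r : Fin 3) : ℕ := (⌊R10b_gap H r z x⌋ - c r).toNat

theorem R10b_toNat (a : ℝ) (c : ℤ) : (a - 1 - c : ℝ) ≤ ((⌊a⌋ - c).toNat : ℝ) := by
  have h1 : ((⌊a⌋ - c : ℤ) : ℝ) ≤ ((⌊a⌋ - c).toNat : ℝ) := by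
    have := Int.self_le_toNat (⌊a⌋ - c)
    exact_mod_cast this
  have h2 := Int.sub_one_lt_floor a
  push_cast at h1
  linarith

theorem R10b_toNat' (a g : ℝ) (c : ℕ) (hg : 0 ≤ g) (h : a - c ≤ g) :
    ((⌊a⌋ - (c : ℤ)).toNat : ℝ) ≤ g := by
  rcases le_total (⌊a⌋ - (c : ℤ)) 0 with h1 | h1
  · rw [Int.toNat_of_nonpos h1]
    exact_mod_cast hg
  · have h2 : ((⌊a⌋ - (c : ℤ)).toNat : ℝ) = ((⌊a⌋ - (c : ℤ) : ℤ) : ℝ) := by
      have := Int.toNat_of_nonneg h1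
      exact_mod_cast this
    rw [h2]
    have h3 := Int.floor_le a
    push_cast
    linarith

/-- one factor -/
theorem R10b_one {Γ X : Type*} [Group Γ] [MulAction Γ X] (S : HiveSpace Γ X) (R : ℕ) (x y z : X)
    (hR : dst S.H x y ≤ R) :
    R10b_mv S (R10b_k S.H (fun _ => ((4 * R : ℕ) : ℤ)) z x) z x =
      R10b_mv S (R10b_k S.H (fun _ => ((4 * R : ℕ) : ℤ)) z x) z y ∧
    dst S.H (R10b_mv S (R10b_k S.H (fun _ => ((4 * R : ℕ) : ℤ)) z x) z x) x ≤ 3 * (4 * R + 1) ∧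
    dst S.H (R10b_mv S (R10b_k S.H (fun _ => ((4 * R : ℕ) : ℤ)) z x) z x) y
      ≤ 3 * (4 * R + 1) + R := by
  have hH := S.hive
  obtain ⟨⟨f1, f2, f3⟩, -⟩ := far_groups hH x y z R hR
  have g1 : 0 ≤ gm1 S.H z x y :=
    le_min (sl_nonneg hH _ _ _ _ _) (le_min (sl_nonneg hH _ _ _ _ _) (sl_nonneg hH _ _ _ _ _))
  have g2 : 0 ≤ gm2 S.H z x y := le_min (sl_nonneg hH _ _ _ _ _) (sl_nonneg hH _ _ _ _ _)
  have g3 : 0 ≤ gm3 S.H z x y := sl_nonneg hH _ _ _ _ _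
  have c4 : ((4 * R : ℕ) : ℝ) = 4 * R := by push_cast; ring
  have k1 : ((R10b_k S.H (fun _ => ((4 * R : ℕ) : ℤ)) z x 0 : ℕ) : ℝ) ≤ gm1 S.H z x y := by
    unfold R10b_k
    refine R10b_toNat' _ _ _ g1 ?_
    rw [R10b_gap0, c4]
    exact f1
  have k2 : ((R10b_k S.H (fun _ => ((4 * R : ℕ) : ℤ)) z x 1 : ℕ) : ℝ) ≤ gm2 S.H z x y := by
    unfold R10b_k
    refine R10b_toNat' _ _ _ g2 ?_
    rw [R10b_gap1, c4]
    exact f2
  have k3 : ((R10b_k S.H (fun _ => ((4 * R : ℕ) : ℤ)) z x 2 : ℕ) : ℝ) ≤ gm3 S.H z x y := by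
    unfold R10b_k
    refine R10b_toNat' _ _ _ g3 ?_
    rw [R10b_gap2, c4]
    exact f3
  have l1 := R10b_toNat (R10b_gap S.H 0 z x) ((4 * R : ℕ) : ℤ)
  have l2 := R10b_toNat (R10b_gap S.H 1 z x) ((4 * R : ℕ) : ℤ)
  have l3 := R10b_toNat (R10b_gap S.H 2 z x) ((4 * R : ℕ) : ℤ)
  have m1 : ds S.H z x x x - 1 - 4 * R ≤
      ((R10b_k S.H (fun _ => ((4 * R : ℕ) : ℤ)) z x 0 : ℕ) : ℝ) := by
    rw [R10b_gap0] at l1
    unfold R10b_k
    rw [R10b_gap0]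
    push_cast at l1 ⊢
    exact l1
  have m2 : ds S.H z x z x - 1 - 4 * R ≤
      ((R10b_k S.H (fun _ => ((4 * R : ℕ) : ℤ)) z x 1 : ℕ) : ℝ) := by
    rw [R10b_gap1] at l2
    unfold R10b_k
    rw [R10b_gap1]
    push_cast at l2 ⊢
    exact l2
  have m3 : ds S.H z x z z - 1 - 4 * R ≤
      ((R10b_k S.H (fun _ => ((4 * R : ℕ) : ℤ)) z x 2 : ℕ) : ℝ) := by
    rw [R10b_gap2] at l3
    unfold R10b_k
    rw [R10b_gap2]
    push_cast at l3 ⊢
    exact l3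
  generalize R10b_k S.H (fun _ => ((4 * R : ℕ) : ℤ)) z x = k at k1 k2 k3 m1 m2 m3 ⊢
  obtain ⟨e, d1, d2⟩ := move_three S (k 0) (k 1) (k 2) z x y (Or.inl ⟨rfl, k1⟩)
    (Or.inr (Or.inl ⟨rfl, k2⟩)) (Or.inr (Or.inr ⟨rfl, k3⟩))
  have hz := dst_eq hH z x
  have htri := dst_triangle hH z x y
  unfold R10b_mv
  refine ⟨e, ?_, ?_⟩
  · rw [d1]
    linarith
  · rw [d2]
    linarith

section
variable {Γ : Type*} [Group Γ] {ι : Type*} [Fintype ι] {X : ι → Type*} [∀ i, MulAction Γ (X i)]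
  (S : ∀ i, HiveSpace Γ (X i)) {w : (∀ i, X i) → ℝ≥0∞}

/-- the classes: triples `(z, x, y)` with `x`, `y` close -/
def R10b_T (R : ℝ) (d : ι → Fin 3 → ℤ) : Set ((∀ i, X i) × (∀ i, X i) × (∀ i, X i)) :=
  {t | dY S t.2.1 t.2.2 ≤ R ∧ ∀ i r, ⌊R10b_gap (S i).H r (t.1 i) (t.2.2 i)⌋ -
    ⌊R10b_gap (S i).H r (t.1 i) (t.2.1 i)⌋ = d i r}

theorem R10b_invT (R : ℝ) (d : ι → Fin 3 → ℤ) : InvT Γ (R10b_T S R d) := by
  intro g x y z
  unfold R10b_T
  simp only [Set.mem_ofPred_eq, Pi.smul_apply, R10b_gap_smul]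
  rw [dY_smul]

theorem R10b_dst_le (x y : ∀ i, X i) (i : ι) : dst (S i).H (x i) (y i) ≤ dY S x y :=
  Finset.single_le_sum (f := fun j => dst (S j).H (x j) (y j))
    (fun j _ => dst_nonneg (S j).hive (x j) (y j)) (Finset.mem_univ i)

theorem R10b_class (hw : IsWt Γ w) (R : ℝ) (hR : 0 ≤ R) (d : ι → Fin 3 → ℤ) {C : ℝ≥0∞}
    (hB : Bd Γ w (TP S ((31 * Fintype.card ι + 1) * (R + 1))) C) :
    Bd Γ w (R10b_T S R d) C := by
  set R' : ℕ := ⌈R⌉₊ with hR'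
  have hRR' : R ≤ R' := Nat.le_ceil R
  have hR'R : (R' : ℝ) ≤ R + 1 := (Nat.ceil_lt_add_one hR).le
  refine Bd.move hw (R10b_invT S R d) (invT_TP S _)
    (fun z x i => R10b_mv (S i) (R10b_k (S i).H (fun _ => ((4 * R' : ℕ) : ℤ)) (z i) (x i))
      (z i) (x i))
    (fun z y i => R10b_mv (S i) (R10b_k (S i).H (fun r => d i r + ((4 * R' : ℕ) : ℤ)) (z i) (y i))
      (z i) (y i)) ?_ ?_ ?_ hB
  · intro g z x
    funext i
    simp only [Pi.smul_apply]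
    have : R10b_k (S i).H (fun _ => ((4 * R' : ℕ) : ℤ)) (g • z i) (g • x i) =
        R10b_k (S i).H (fun _ => ((4 * R' : ℕ) : ℤ)) (z i) (x i) := by
      funext r
      unfold R10b_k
      rw [R10b_gap_smul]
    rw [this, R10b_mv_smul]
  · intro g z x
    funext i
    simp only [Pi.smul_apply]
    have : R10b_k (S i).H (fun r => d i r + ((4 * R' : ℕ) : ℤ)) (g • z i) (g • x i) =
        R10b_k (S i).H (fun r => d i r + ((4 * R' : ℕ) : ℤ)) (z i) (x i) := by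
      funext r
      unfold R10b_k
      rw [R10b_gap_smul]
    rw [this, R10b_mv_smul]
  · intro z x y ht
    obtain ⟨h1, h2⟩ := ht
    have hdxy : dY S x y ≤ R := h1
    have hcl : ∀ i r, ⌊R10b_gap (S i).H r (z i) (y i)⌋ -
      ⌊R10b_gap (S i).H r (z i) (x i)⌋ = d i r := h2
    have hone := fun i => R10b_one (S i) R' (x i) (y i) (z i)
      (((R10b_dst_le S x y i).trans hdxy).trans hRR')
    have hk : ∀ i, R10b_k (S i).H (fun r => d i r + ((4 * R' : ℕ) : ℤ)) (z i) (y i) =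
        R10b_k (S i).H (fun _ => ((4 * R' : ℕ) : ℤ)) (z i) (x i) := by
      intro i
      funext r
      unfold R10b_k
      congr 1
      have := hcl i r
      linarith
    refine ⟨?_, ?_⟩
    · funext i
      rw [hk i]
      exact (hone i).1
    · change pY S _ ≤ _
      rw [pY_eq]
      have e1 : dY S (fun i => R10b_mv (S i)
          (R10b_k (S i).H (fun _ => ((4 * R' : ℕ) : ℤ)) (z i) (x i)) (z i) (x i)) x ≤
          ∑ _i : ι, 3 * (4 * (R' : ℝ) + 1) :=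
        Finset.sum_le_sum fun i _ => (hone i).2.1
      have e2 : dY S (fun i => R10b_mv (S i)
          (R10b_k (S i).H (fun _ => ((4 * R' : ℕ) : ℤ)) (z i) (x i)) (z i) (x i)) y ≤
          ∑ _i : ι, (3 * (4 * (R' : ℝ) + 1) + R') :=
        Finset.sum_le_sum fun i _ => (hone i).2.2
      rw [dY_comm S _ y]
      rw [Finset.sum_const, Finset.card_univ, nsmul_eq_mul] at e1 e2
      have hc : (0 : ℝ) ≤ Fintype.card ι := Nat.cast_nonneg _
      have b1 : (Fintype.card ι : ℝ) * (3 * (4 * (R' : ℝ) + 1)) ≤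
          (Fintype.card ι : ℝ) * (15 * (R + 1)) :=
        mul_le_mul_of_nonneg_left (by linarith) hc
      have b2 : (Fintype.card ι : ℝ) * (3 * (4 * (R' : ℝ) + 1) + R') ≤
          (Fintype.card ι : ℝ) * (16 * (R + 1)) :=
        mul_le_mul_of_nonneg_left (by linarith) hc
      have b3 : (31 * (Fintype.card ι : ℝ) + 1) * (R + 1) =
          (Fintype.card ι : ℝ) * (15 * (R + 1)) + (Fintype.card ι : ℝ) * (16 * (R + 1))
            + (R + 1) := by ring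
      rw [b3]
      linarith

theorem R10b_floor (a b : ℝ) (c : ℕ) (h : |a - b| ≤ c) : |⌊a⌋ - ⌊b⌋| ≤ (c : ℤ) + 1 := by
  obtain ⟨h1, h2⟩ := abs_le.1 h
  have h3 := Int.floor_le a
  have h4 := Int.lt_floor_add_one a
  have h5 := Int.floor_le b
  have h6 := Int.lt_floor_add_one b
  rw [abs_le]
  constructor
  · have : (-((c : ℤ) + 1) : ℝ) ≤ ((⌊a⌋ - ⌊b⌋ : ℤ) : ℝ) := by
      push_cast
      linarith
    exact_mod_cast this
  · have : ((⌊a⌋ - ⌊b⌋ : ℤ) : ℝ) ≤ (((c : ℤ) + 1 : ℤ) : ℝ) := by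
      push_cast
      linarith
    exact_mod_cast this

theorem R10b_cover (R : ℝ) (hR : 0 ≤ R) (t : (∀ i, X i) × (∀ i, X i) × (∀ i, X i))
    (ht : dY S t.2.1 t.2.2 ≤ R) :
    ∀ i r, |⌊R10b_gap (S i).H r (t.1 i) (t.2.2 i)⌋ -
      ⌊R10b_gap (S i).H r (t.1 i) (t.2.1 i)⌋| ≤ ((4 * ⌈R⌉₊ : ℕ) : ℤ) + 1 := by
  intro i r
  have hRR' : R ≤ ⌈R⌉₊ := Nat.le_ceil R
  obtain ⟨-, f1, f2, f3⟩ := far_groups (S i).hive (t.2.1 i) (t.2.2 i) (t.1 i) ⌈R⌉₊
    (((R10b_dst_le S t.2.1 t.2.2 i).trans ht).trans hRR')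
  refine R10b_floor _ _ _ ?_
  rw [abs_sub_comm]
  have c4 : ((4 * ⌈R⌉₊ : ℕ) : ℝ) = 4 * ⌈R⌉₊ := by push_cast; ring
  rw [c4]
  fin_cases r
  · change |R10b_gap (S i).H 0 _ _ - R10b_gap (S i).H 0 _ _| ≤ _
    rw [R10b_gap0, R10b_gap0]
    exact f1
  · change |R10b_gap (S i).H 1 _ _ - R10b_gap (S i).H 1 _ _| ≤ _
    rw [R10b_gap1, R10b_gap1]
    exact f2
  · change |R10b_gap (S i).H 2 _ _ - R10b_gap (S i).H 2 _ _| ≤ _
    rw [R10b_gap2, R10b_gap2]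
    exact f3

theorem long_arms (hw : IsWt Γ w) (D E : ℝ) (hD : 0 ≤ D) (hE : 0 ≤ E)
    (hB : ∀ m, 0 ≤ m → Bd Γ w (TP S m) (ENNReal.ofReal (E * (m + 1) ^ D))) :
    ∃ D' E' : ℝ, 0 ≤ D' ∧ 0 ≤ E' ∧ ∀ R, 0 ≤ R →
      Bd Γ w {t | dY S t.1 t.2.1 ≤ R} (ENNReal.ofReal (E' * (R + 1) ^ D')) := by
  classical
  set n := Fintype.card ι with hn
  refine ⟨D + (3 * n : ℕ), (11 : ℝ) ^ (3 * n) * (E * (31 * n + 2) ^ D), by positivity,
    by positivity, ?_⟩
  intro R hR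
  set M : ℝ := (31 * n + 1) * (R + 1) with hM
  have hM0 : 0 ≤ M := by positivity
  set N : ℤ := ((4 * ⌈R⌉₊ : ℕ) : ℤ) + 1 with hN
  have hN0 : 0 ≤ N := by positivity
  set s : Finset (ι → Fin 3 → ℤ) :=
    Fintype.piFinset fun _ => Fintype.piFinset fun _ => Finset.Icc (-N) N with hs
  have hcard : s.card = (2 * N + 1).toNat ^ (3 * n) := by
    rw [hs, Fintype.card_piFinset]
    simp only [Fintype.card_piFinset, Int.card_Icc, Finset.prod_const, Finset.card_univ,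
      Fintype.card_fin]
    rw [← pow_mul]
    congr 2
    ring
  set T0 : Set ((∀ i, X i) × (∀ i, X i) × (∀ i, X i)) := {t | dY S t.2.1 t.2.2 ≤ R} with hT0
  have hI0 : InvT Γ T0 := by
    intro g x y z
    change dY S (g • y) (g • z) ≤ R ↔ dY S y z ≤ R
    rw [dY_smul]
  have hcov : Bd Γ w T0 (∑ _d ∈ s, ENNReal.ofReal (E * (M + 1) ^ D)) := by
    refine Bd.cover s (R10b_T S R) (fun _ => ENNReal.ofReal (E * (M + 1) ^ D)) ?_ ?_
    · intro d _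
      exact R10b_class S hw R hR d (hB M hM0)
    · intro t ht
      refine ⟨fun i r => ⌊R10b_gap (S i).H r (t.1 i) (t.2.2 i)⌋ -
        ⌊R10b_gap (S i).H r (t.1 i) (t.2.1 i)⌋, ?_, ht, fun i r => rfl⟩
      rw [hs, Fintype.mem_piFinset]
      intro i
      rw [Fintype.mem_piFinset]
      intro r
      rw [Finset.mem_Icc]
      exact abs_le.1 (R10b_cover S R hR t ht i r)
  rw [Finset.sum_const, nsmul_eq_mul] at hcov
  have hI1 : InvT Γ {t : (∀ i, X i) × (∀ i, X i) × (∀ i, X i) | (t.2.1, t.2.2, t.1) ∈ T0} := by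
    intro g a b c
    exact hI0 g b c a
  have h2 := Bd.rot hw hI1 (Bd.rot hw hI0 hcov)
  refine h2.mono ?_ ?_
  · intro t ht
    exact ht
  · rw [← ENNReal.ofReal_natCast, ← ENNReal.ofReal_mul (Nat.cast_nonneg _)]
    refine ENNReal.ofReal_le_ofReal ?_
    have hR1 : (0 : ℝ) < R + 1 := by linarith
    have hc : (s.card : ℝ) ≤ (11 * (R + 1)) ^ (3 * n) := by
      rw [hcard]
      push_cast
      refine pow_le_pow_left₀ (Nat.cast_nonneg _) ?_ _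
      have h3 : (((2 * N + 1).toNat : ℕ) : ℝ) = ((2 * N + 1 : ℤ) : ℝ) := by
        have := Int.toNat_of_nonneg (show 0 ≤ 2 * N + 1 by omega)
        exact_mod_cast this
      rw [h3, hN]
      push_cast
      have h4 : (⌈R⌉₊ : ℝ) ≤ R + 1 := (Nat.ceil_lt_add_one hR).le
      linarith
    have hMle : M + 1 ≤ (31 * n + 2) * (R + 1) := by
      rw [hM]
      nlinarith
    have hpow : (M + 1) ^ D ≤ (31 * n + 2) ^ D * (R + 1) ^ D := by
      rw [← Real.mul_rpow (by positivity) hR1.le]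
      exact Real.rpow_le_rpow (by positivity) hMle hD
    have hR1D : (R + 1) ^ (D + ((3 * n : ℕ) : ℝ)) = (R + 1) ^ D * (R + 1) ^ (3 * n) := by
      rw [Real.rpow_add hR1, Real.rpow_natCast]
    rw [hR1D]
    calc (s.card : ℝ) * (E * (M + 1) ^ D)
        ≤ (11 * (R + 1)) ^ (3 * n) * (E * ((31 * n + 2) ^ D * (R + 1) ^ D)) := by
          gcongr
      _ = 11 ^ (3 * n) * (E * (31 * n + 2) ^ D) * ((R + 1) ^ D * (R + 1) ^ (3 * n)) := by
          rw [mul_pow]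
          ring

end

end RapidDecay
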