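import Pool.Agent.Lib.MP_fee02f_an.R1

/-!
R11a: from the trilinear bound on the space to convolution on the group.
-/

open scoped ENNReal

namespace RapidDecay

open Classical in
/-- the kernel of a function on the group -/
noncomputable def R11a_K {Γ Y : Type*} [Group Γ] [MulAction Γ Y] (x0 : Y) (f : Γ → ℝ≥0∞)
    (p q : Y) : ℝ≥0∞ :=
  ∑' a : Γ, ∑' b : Γ, if a • x0 = p ∧ b • x0 = q then f (a⁻¹ * b) else 0

theorem R11a_inv {Γ Y : Type*} [Group Γ] [MulAction Γ Y] (x0 : Y) (f : Γ → ℝ≥0∞) :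
    Inv2 Γ (R11a_K x0 f) := by
  classical
  intro γ p q
  unfold R11a_K
  rw [← Equiv.tsum_eq (Equiv.mulLeft γ)]
  refine tsum_congr fun a => ?_
  rw [← Equiv.tsum_eq (Equiv.mulLeft γ)]
  refine tsum_congr fun b => ?_
  simp only [Equiv.coe_mulLeft, mul_smul, smul_left_cancel_iff, mul_inv_rev]
  rw [show a⁻¹ * γ⁻¹ * (γ * b) = a⁻¹ * b by group]

theorem R11a_count {Γ Y : Type*} [Group Γ] [MulAction Γ Y] (x0 : Y)
    (hx0 : Finite (MulAction.stabilizer Γ x0)) (p : Y) [DecidableEq Y] :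
    ∑' a : Γ, (if a • x0 = p then (1 : ℝ≥0∞) else 0) ≤
      (Nat.card (MulAction.stabilizer Γ x0) : ℝ≥0∞) := by
  classical
  by_cases hp : ∃ g0 : Γ, g0 • x0 = p
  · obtain ⟨g0, hg0⟩ := hp
    rw [← Equiv.tsum_eq (Equiv.mulLeft g0)]
    have h2 : ∀ a : Γ, (if (Equiv.mulLeft g0) a • x0 = p then (1 : ℝ≥0∞) else 0) =
        (MulAction.stabilizer Γ x0 : Set Γ).indicator (fun _ => (1 : ℝ≥0∞)) a := by
      intro a
      simp only [Set.indicator, SetLike.mem_coe, MulAction.mem_stabilizer_iff, Equiv.coe_mulLeft,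
        mul_smul, ← hg0, smul_left_cancel_iff]
    rw [tsum_congr h2, ← tsum_subtype (MulAction.stabilizer Γ x0 : Set Γ)
      (fun _ => (1 : ℝ≥0∞))]
    have := Fintype.ofFinite (MulAction.stabilizer Γ x0)
    have h3 : ∑' _g : (MulAction.stabilizer Γ x0 : Set Γ), (1 : ℝ≥0∞) =
        ∑' _g : MulAction.stabilizer Γ x0, (1 : ℝ≥0∞) := rfl
    rw [h3, tsum_fintype, Finset.sum_const, nsmul_eq_mul, Finset.card_univ,
      Nat.card_eq_fintype_card, mul_one]
  · push Not at hp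
    have h2 : ∀ a : Γ, (if a • x0 = p then (1 : ℝ≥0∞) else 0) = 0 := fun a => if_neg (hp a)
    rw [tsum_congr h2, tsum_zero]
    exact zero_le

/-- elementary Cauchy-Schwarz with a lossy constant -/
theorem R11a_cs {ι : Type*} (χ u : ι → ℝ≥0∞) :
    (∑' i, χ i * u i) ^ 2 ≤ 2 * (∑' i, χ i) * ∑' i, χ i * u i ^ 2 := by
  have h1 : ∀ a b : ℝ≥0∞, a * b ≤ a ^ 2 + b ^ 2 := by
    intro a b
    rcases le_total a b with h | h
    · calc a * b ≤ b * b := by gcongr
        _ = b ^ 2 := by ring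
        _ ≤ _ := le_add_self
    · calc a * b ≤ a * a := by gcongr
        _ = a ^ 2 := by ring
        _ ≤ _ := le_self_add
  calc (∑' i, χ i * u i) ^ 2 = ∑' i, ∑' j, χ i * χ j * (u i * u j) := by
        rw [sq, ← ENNReal.tsum_mul_right]
        refine tsum_congr fun i => ?_
        rw [← ENNReal.tsum_mul_left]
        refine tsum_congr fun j => ?_
        ring
    _ ≤ ∑' i, ∑' j, (χ i * χ j * u i ^ 2 + χ i * χ j * u j ^ 2) := by
        refine ENNReal.tsum_le_tsum fun i => ENNReal.tsum_le_tsum fun j => ?_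
        rw [← mul_add]
        gcongr
        exact h1 _ _
    _ = ∑' i, ∑' j, (χ i * u i ^ 2) * χ j + ∑' i, ∑' j, χ i * (χ j * u j ^ 2) := by
        rw [← ENNReal.tsum_add]
        refine tsum_congr fun i => ?_
        rw [← ENNReal.tsum_add]
        refine tsum_congr fun j => ?_
        ring
    _ = _ := by
        have e1 : ∑' i, ∑' j, (χ i * u i ^ 2) * χ j = (∑' i, χ i * u i ^ 2) * ∑' j, χ j := by
          rw [← ENNReal.tsum_mul_right]
          exact tsum_congr fun i => ENNReal.tsum_mul_left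
        have e2 : ∑' i, ∑' j, χ i * (χ j * u j ^ 2) = (∑' i, χ i) * ∑' j, χ j * u j ^ 2 := by
          rw [← ENNReal.tsum_mul_right]
          exact tsum_congr fun i => ENNReal.tsum_mul_left
        rw [e1, e2]
        ring

theorem R11a_fiber {G Z : Type*} (π : G → Z) [DecidableEq Z] (Φ : G → ℝ≥0∞) :
    ∑' P : Z, ∑' g : G, (if π g = P then Φ g else 0) = ∑' g, Φ g := by
  rw [ENNReal.tsum_comm]
  refine tsum_congr fun g => ?_
  rw [tsum_eq_single (π g)]
  · rw [if_pos rfl]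
  · intro b hb
    rw [if_neg (Ne.symm hb)]

theorem R11a_nn {Γ Y : Type*} [Group Γ] [MulAction Γ Y] {w : Y → ℝ≥0∞} (hw : IsWt Γ w)
    (x0 : Y) (hx0 : Finite (MulAction.stabilizer Γ x0)) (f : Γ → ℝ≥0∞) :
    nn w (R11a_K x0 f) ≤ 2 * (Nat.card (MulAction.stabilizer Γ x0) : ℝ≥0∞) ^ 2 *
      ∑' a, f a ^ 2 := by
  classical
  set b : ℝ≥0∞ := (Nat.card (MulAction.stabilizer Γ x0) : ℝ≥0∞) with hb
  have h1 : ∀ p q : Y, R11a_K x0 f p q ^ 2 ≤ 2 * b ^ 2 *
      ∑' G : Γ × Γ, (if (G.1 • x0, G.2 • x0) = (p, q) then f (G.1⁻¹ * G.2) ^ 2 else 0) := by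
    intro p q
    have e1 : R11a_K x0 f p q = ∑' G : Γ × Γ,
        (if (G.1 • x0, G.2 • x0) = (p, q) then (1 : ℝ≥0∞) else 0) * f (G.1⁻¹ * G.2) := by
      rw [ENNReal.tsum_prod' (f := fun G : Γ × Γ =>
        (if (G.1 • x0, G.2 • x0) = (p, q) then (1 : ℝ≥0∞) else 0) * f (G.1⁻¹ * G.2))]
      unfold R11a_K
      refine tsum_congr fun a => tsum_congr fun c => ?_
      simp only [Prod.mk.injEq]
      split_ifs
      · rw [one_mul]
      · rw [zero_mul]
    have e2 : ∑' G : Γ × Γ, (if (G.1 • x0, G.2 • x0) = (p, q) then (1 : ℝ≥0∞) else 0) ≤ b ^ 2 := by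
      have e3 : ∑' G : Γ × Γ, (if (G.1 • x0, G.2 • x0) = (p, q) then (1 : ℝ≥0∞) else 0) =
          (∑' a : Γ, (if a • x0 = p then (1 : ℝ≥0∞) else 0)) *
            ∑' a : Γ, (if a • x0 = q then (1 : ℝ≥0∞) else 0) := by
        rw [ENNReal.tsum_prod' (f := fun G : Γ × Γ =>
          (if (G.1 • x0, G.2 • x0) = (p, q) then (1 : ℝ≥0∞) else 0)), ← ENNReal.tsum_mul_right]
        refine tsum_congr fun a => ?_
        rw [← ENNReal.tsum_mul_left]
        refine tsum_congr fun c => ?_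
        simp only [Prod.mk.injEq]
        by_cases h1 : a • x0 = p
        · by_cases h2 : c • x0 = q
          · rw [if_pos ⟨h1, h2⟩, if_pos h1, if_pos h2, mul_one]
          · rw [if_neg (fun h => h2 h.2), if_neg h2, mul_zero]
        · rw [if_neg (fun h => h1 h.1), if_neg h1, zero_mul]
      rw [e3, sq]
      exact mul_le_mul' (R11a_count x0 hx0 p) (R11a_count x0 hx0 q)
    rw [e1]
    refine (R11a_cs _ _).trans ?_
    refine mul_le_mul' (mul_le_mul' le_rfl e2) (le_of_eq ?_)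
    refine tsum_congr fun G => ?_
    split_ifs
    · rw [one_mul]
    · rw [zero_mul]
  calc nn w (R11a_K x0 f) ≤ ∑' p, ∑' q, w p * (2 * b ^ 2 *
      ∑' G : Γ × Γ, (if (G.1 • x0, G.2 • x0) = (p, q) then f (G.1⁻¹ * G.2) ^ 2 else 0)) := by
        unfold nn
        refine ENNReal.tsum_le_tsum fun p => ENNReal.tsum_le_tsum fun q => ?_
        gcongr
        exact h1 p q
    _ = 2 * b ^ 2 * ∑' P : Y × Y, ∑' G : Γ × Γ, (if (G.1 • x0, G.2 • x0) = P then
        w (G.1 • x0) * f (G.1⁻¹ * G.2) ^ 2 else 0) := by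
        rw [ENNReal.tsum_prod' (f := fun P : Y × Y => ∑' G : Γ × Γ,
          (if (G.1 • x0, G.2 • x0) = P then w (G.1 • x0) * f (G.1⁻¹ * G.2) ^ 2 else 0)),
          ← ENNReal.tsum_mul_left]
        refine tsum_congr fun p => ?_
        rw [← ENNReal.tsum_mul_left]
        refine tsum_congr fun q => ?_
        rw [mul_left_comm, ← ENNReal.tsum_mul_left]
        congr 1
        refine tsum_congr fun G => ?_
        split_ifs with h
        · rw [Prod.mk.injEq] at h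
          rw [h.1]
        · rw [mul_zero]
    _ = 2 * b ^ 2 * ∑' G : Γ × Γ, w (G.1 • x0) * f (G.1⁻¹ * G.2) ^ 2 := by
        rw [R11a_fiber (fun G : Γ × Γ => (G.1 • x0, G.2 • x0))
          (fun G : Γ × Γ => w (G.1 • x0) * f (G.1⁻¹ * G.2) ^ 2)]
    _ = 2 * b ^ 2 * ∑' a, f a ^ 2 := by
        congr 1
        rw [ENNReal.tsum_prod' (f := fun G : Γ × Γ => w (G.1 • x0) * f (G.1⁻¹ * G.2) ^ 2)]
        have e4 : ∀ a : Γ, ∑' c : Γ, w (a • x0) * f (a⁻¹ * c) ^ 2 =
            w (a • x0) * ∑' c, f c ^ 2 := by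
          intro a
          rw [ENNReal.tsum_mul_left, ← Equiv.tsum_eq (Equiv.mulLeft a⁻¹) (fun c => f c ^ 2)]
          rfl
        rw [tsum_congr e4, ENNReal.tsum_mul_right, hw x0, one_mul]

theorem R11a_LL {Γ Y : Type*} [Group Γ] [MulAction Γ Y] {w : Y → ℝ≥0∞} (hw : IsWt Γ w)
    (x0 : Y) (T : Set (Y × Y × Y)) (f g h : Γ → ℝ≥0∞)
    (hf : ∀ a b c : Γ, f (a⁻¹ * b) ≠ 0 → (a • x0, b • x0, c • x0) ∈ T) :
    ∑' a, ∑' b, f a * g b * h (a * b) ≤ LL w T (R11a_K x0 f) (R11a_K x0 g) (R11a_K x0 h) := by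
  classical
  have e1 : ∑' a, ∑' b, f a * g b * h (a * b) = ∑' G : Γ × Γ × Γ, w (G.1 • x0) *
      (f (G.1⁻¹ * G.2.1) * g (G.2.1⁻¹ * G.2.2) * h (G.1⁻¹ * G.2.2)) := by
    rw [ENNReal.tsum_prod' (f := fun G : Γ × Γ × Γ => w (G.1 • x0) *
      (f (G.1⁻¹ * G.2.1) * g (G.2.1⁻¹ * G.2.2) * h (G.1⁻¹ * G.2.2)))]
    have e2 : ∀ c : Γ, ∑' G : Γ × Γ, w (c • x0) *
        (f (c⁻¹ * G.1) * g (G.1⁻¹ * G.2) * h (c⁻¹ * G.2)) =
        w (c • x0) * ∑' a, ∑' b, f a * g b * h (a * b) := by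
      intro c
      rw [ENNReal.tsum_mul_left]
      congr 1
      rw [ENNReal.tsum_prod' (f := fun G : Γ × Γ =>
        (f (c⁻¹ * G.1) * g (G.1⁻¹ * G.2) * h (c⁻¹ * G.2)))]
      rw [← Equiv.tsum_eq (Equiv.mulLeft c) (fun a => ∑' b,
        (f (c⁻¹ * a) * g (a⁻¹ * b) * h (c⁻¹ * b)))]
      refine tsum_congr fun a => ?_
      rw [← Equiv.tsum_eq (Equiv.mulLeft (c * a))]
      refine tsum_congr fun b => ?_
      simp only [Equiv.coe_mulLeft]
      rw [show c⁻¹ * (c * a) = a by group, show (c * a)⁻¹ * (c * a * b) = b by group,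
        show c⁻¹ * (c * a * b) = a * b by group]
    rw [tsum_congr e2, ENNReal.tsum_mul_right, hw x0, one_mul]
  rw [e1, ← R11a_fiber (fun G : Γ × Γ × Γ => (G.1 • x0, G.2.1 • x0, G.2.2 • x0))]
  have e3 : LL w T (R11a_K x0 f) (R11a_K x0 g) (R11a_K x0 h) = ∑' P : Y × Y × Y,
      if P ∈ T then w P.1 * (R11a_K x0 f P.1 P.2.1 * R11a_K x0 g P.2.1 P.2.2 *
        R11a_K x0 h P.1 P.2.2) else 0 := by
    rw [ENNReal.tsum_prod' (f := fun P : Y × Y × Y =>
      if P ∈ T then w P.1 * (R11a_K x0 f P.1 P.2.1 * R11a_K x0 g P.2.1 P.2.2 *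
        R11a_K x0 h P.1 P.2.2) else 0)]
    unfold LL
    refine tsum_congr fun p => ?_
    rw [ENNReal.tsum_prod']
  rw [e3]
  refine ENNReal.tsum_le_tsum fun P => ?_
  obtain ⟨p, q, r⟩ := P
  by_cases hP : (p, q, r) ∈ T
  · rw [if_pos hP]
    rw [ENNReal.tsum_prod' (f := fun G : Γ × Γ × Γ =>
      if (G.1 • x0, G.2.1 • x0, G.2.2 • x0) = (p, q, r) then w (G.1 • x0) *
      (f (G.1⁻¹ * G.2.1) * g (G.2.1⁻¹ * G.2.2) * h (G.1⁻¹ * G.2.2)) else 0)]
    have hh : ∀ a c : Γ, a • x0 = p → c • x0 = r → h (a⁻¹ * c) ≤ R11a_K x0 h p r := by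
      intro a c ha hc
      unfold R11a_K
      refine le_trans ?_ (ENNReal.le_tsum a)
      refine le_trans ?_ (ENNReal.le_tsum c)
      rw [if_pos ⟨ha, hc⟩]
    have hg : ∀ a : Γ, a • x0 = q → ∑' c : Γ, (if c • x0 = r then g (a⁻¹ * c) else 0) ≤
        R11a_K x0 g q r := by
      intro a ha
      unfold R11a_K
      refine le_trans (le_of_eq ?_) (ENNReal.le_tsum a)
      refine tsum_congr fun c => ?_
      by_cases hc : c • x0 = r
      · rw [if_pos hc, if_pos ⟨ha, hc⟩]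
      · rw [if_neg hc, if_neg (fun h => hc h.2)]
    calc ∑' a : Γ, ∑' G : Γ × Γ, (if (a • x0, G.1 • x0, G.2 • x0) = (p, q, r) then w (a • x0) *
          (f (a⁻¹ * G.1) * g (G.1⁻¹ * G.2) * h (a⁻¹ * G.2)) else 0)
        ≤ ∑' a : Γ, ∑' b : Γ, (if a • x0 = p ∧ b • x0 = q then f (a⁻¹ * b) else 0) *
          (w p * R11a_K x0 g q r * R11a_K x0 h p r) := by
          refine ENNReal.tsum_le_tsum fun a => ?_
          rw [ENNReal.tsum_prod' (f := fun G : Γ × Γ =>
            if (a • x0, G.1 • x0, G.2 • x0) = (p, q, r) then w (a • x0) *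
            (f (a⁻¹ * G.1) * g (G.1⁻¹ * G.2) * h (a⁻¹ * G.2)) else 0)]
          refine ENNReal.tsum_le_tsum fun b => ?_
          by_cases hab : a • x0 = p ∧ b • x0 = q
          · rw [if_pos hab]
            calc ∑' c : Γ, (if (a • x0, b • x0, c • x0) = (p, q, r) then w (a • x0) *
                  (f (a⁻¹ * b) * g (b⁻¹ * c) * h (a⁻¹ * c)) else 0)
                ≤ ∑' c : Γ, (f (a⁻¹ * b) * (w p * R11a_K x0 h p r)) *
                    (if c • x0 = r then g (b⁻¹ * c) else 0) := by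
                  refine ENNReal.tsum_le_tsum fun c => ?_
                  by_cases hc : c • x0 = r
                  · rw [if_pos hc, if_pos (by rw [hab.1, hab.2, hc]), hab.1]
                    calc w p * (f (a⁻¹ * b) * g (b⁻¹ * c) * h (a⁻¹ * c))
                        ≤ w p * (f (a⁻¹ * b) * g (b⁻¹ * c) * R11a_K x0 h p r) := by
                          gcongr
                          exact hh a c hab.1 hc
                      _ = _ := by ring
                  · rw [if_neg (fun h => hc (by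
                      rw [Prod.mk.injEq, Prod.mk.injEq] at h
                      exact h.2.2))]
                    exact zero_le
              _ = (f (a⁻¹ * b) * (w p * R11a_K x0 h p r)) *
                  ∑' c : Γ, (if c • x0 = r then g (b⁻¹ * c) else 0) := ENNReal.tsum_mul_left
              _ ≤ (f (a⁻¹ * b) * (w p * R11a_K x0 h p r)) * R11a_K x0 g q r := by
                  gcongr
                  exact hg b hab.2
              _ = _ := by ring
          · have h0 : ∀ c : Γ, (if (a • x0, b • x0, c • x0) = (p, q, r) then w (a • x0) *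
                (f (a⁻¹ * b) * g (b⁻¹ * c) * h (a⁻¹ * c)) else 0) = 0 := by
              intro c
              rw [if_neg]
              intro h
              rw [Prod.mk.injEq, Prod.mk.injEq] at h
              exact hab ⟨h.1, h.2.1⟩
            rw [tsum_congr h0, tsum_zero]
            exact zero_le
      _ = R11a_K x0 f p q * (w p * R11a_K x0 g q r * R11a_K x0 h p r) := by
          unfold R11a_K
          rw [← ENNReal.tsum_mul_right]
          exact tsum_congr fun a => ENNReal.tsum_mul_right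
      _ = _ := by ring
  · rw [if_neg hP]
    have h0 : ∀ G : Γ × Γ × Γ, (if (G.1 • x0, G.2.1 • x0, G.2.2 • x0) = (p, q, r) then
        w (G.1 • x0) * (f (G.1⁻¹ * G.2.1) * g (G.2.1⁻¹ * G.2.2) * h (G.1⁻¹ * G.2.2)) else 0)
        = 0 := by
      intro G
      split_ifs with hG
      · have h1 : f (G.1⁻¹ * G.2.1) = 0 := by
          by_contra hne
          have := hf G.1 G.2.1 G.2.2 hne
          rw [hG] at this
          exact hP this
        rw [h1, zero_mul, zero_mul, mul_zero]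
      · rfl
    rw [tsum_congr h0, tsum_zero]

/-- (module R11a) -/
theorem conv_bound {Γ Y : Type*} [Group Γ] [MulAction Γ Y] {w : Y → ℝ≥0∞} (hw : IsWt Γ w)
    (x0 : Y) (hx0 : Finite (MulAction.stabilizer Γ x0)) : ∃ B : ℝ≥0∞, B ≠ ∞ ∧
      ∀ (T : Set (Y × Y × Y)) (C : ℝ≥0∞), Bd Γ w T C → ∀ f g h : Γ → ℝ≥0∞,
      (∀ a b c : Γ, f (a⁻¹ * b) ≠ 0 → (a • x0, b • x0, c • x0) ∈ T) →
      ∑' a, f a ^ 2 ≠ ∞ → ∑' a, g a ^ 2 ≠ ∞ → ∑' a, h a ^ 2 ≠ ∞ →
      (∑' a, ∑' b, f a * g b * h (a * b)) ^ 2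
        ≤ (B * C) ^ 2 * ((∑' a, f a ^ 2) * (∑' a, g a ^ 2) * (∑' a, h a ^ 2)) := by
  set M : ℝ≥0∞ := 2 * (Nat.card (MulAction.stabilizer Γ x0) : ℝ≥0∞) ^ 2 with hM
  have hMtop : M ≠ ∞ := ENNReal.mul_ne_top (by norm_num)
    (ENNReal.pow_ne_top (ENNReal.natCast_ne_top _))
  have hM1 : 1 ≤ M := by
    have h1 : 1 ≤ Nat.card (MulAction.stabilizer Γ x0) := Nat.card_pos
    have h2 : (1 : ℝ≥0∞) ≤ (Nat.card (MulAction.stabilizer Γ x0) : ℝ≥0∞) := by exact_mod_cast h1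
    calc (1 : ℝ≥0∞) ≤ 2 * 1 ^ 2 := by norm_num
      _ ≤ M := by
        rw [hM]
        gcongr
  refine ⟨M ^ 2, ENNReal.pow_ne_top hMtop, fun T C hB f g h hf nf ng nh => ?_⟩
  have kf := R11a_nn hw x0 hx0 f
  have kg := R11a_nn hw x0 hx0 g
  have kh := R11a_nn hw x0 hx0 h
  have h1 := hB _ _ _ (R11a_inv x0 f) (R11a_inv x0 g) (R11a_inv x0 h)
    (ne_top_of_le_ne_top (ENNReal.mul_ne_top hMtop nf) kf)
    (ne_top_of_le_ne_top (ENNReal.mul_ne_top hMtop ng) kg)
    (ne_top_of_le_ne_top (ENNReal.mul_ne_top hMtop nh) kh)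
  calc (∑' a, ∑' b, f a * g b * h (a * b)) ^ 2
      ≤ LL w T (R11a_K x0 f) (R11a_K x0 g) (R11a_K x0 h) ^ 2 := by
        gcongr
        exact R11a_LL hw x0 T f g h hf
    _ ≤ C ^ 2 * (nn w (R11a_K x0 f) * nn w (R11a_K x0 g) * nn w (R11a_K x0 h)) := h1
    _ ≤ C ^ 2 * ((M * ∑' a, f a ^ 2) * (M * ∑' a, g a ^ 2) * (M * ∑' a, h a ^ 2)) := by
        gcongr
    _ = (M ^ 3 * C ^ 2) * ((∑' a, f a ^ 2) * (∑' a, g a ^ 2) * (∑' a, h a ^ 2)) := by ring
    _ ≤ (M ^ 4 * C ^ 2) * ((∑' a, f a ^ 2) * (∑' a, g a ^ 2) * (∑' a, h a ^ 2)) := by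
        gcongr
        norm_num
    _ = _ := by ring

end RapidDecay
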