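import Pool.Agent.Lib.MP_fee02f_an.R2
import Pool.Agent.Lib.MP_fee02f_an.R11a

/-!
R11b: from the bound for functions supported in balls to the rapid decay inequality.
-/

open scoped ENNReal

namespace RapidDecay

theorem R11b_mul_le (a b : ℝ≥0∞) : a * b ≤ a ^ 2 + b ^ 2 := by
  rcases le_total a b with h | h
  · calc a * b ≤ b * b := by gcongr
      _ = b ^ 2 := by ring
      _ ≤ _ := le_add_self
  · calc a * b ≤ a * a := by gcongr
      _ = a ^ 2 := by ring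
      _ ≤ _ := le_self_add

/-- Cauchy-Schwarz with a lossy constant -/
theorem R11b_cs (a b : ℕ → ℝ≥0∞) :
    (∑' i, a i * b i) ^ 2 ≤ 2 * (∑' i, a i ^ 2) * ∑' i, b i ^ 2 := by
  calc (∑' i, a i * b i) ^ 2 = ∑' i, ∑' j, (a i * b j) * (a j * b i) := by
        rw [sq, ← ENNReal.tsum_mul_right]
        refine tsum_congr fun i => ?_
        rw [← ENNReal.tsum_mul_left]
        refine tsum_congr fun j => ?_
        ring
    _ ≤ ∑' i, ∑' j, ((a i * b j) ^ 2 + (a j * b i) ^ 2) := by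
        refine ENNReal.tsum_le_tsum fun i => ENNReal.tsum_le_tsum fun j => ?_
        exact R11b_mul_le _ _
    _ = ∑' i, ∑' j, a i ^ 2 * b j ^ 2 + ∑' i, ∑' j, b i ^ 2 * a j ^ 2 := by
        rw [← ENNReal.tsum_add]
        refine tsum_congr fun i => ?_
        rw [← ENNReal.tsum_add]
        refine tsum_congr fun j => ?_
        ring
    _ = _ := by
        have e1 : ∑' i, ∑' j, a i ^ 2 * b j ^ 2 = (∑' i, a i ^ 2) * ∑' j, b j ^ 2 := by
          rw [← ENNReal.tsum_mul_right]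
          exact tsum_congr fun i => ENNReal.tsum_mul_left
        have e2 : ∑' i, ∑' j, b i ^ 2 * a j ^ 2 = (∑' i, b i ^ 2) * ∑' j, a j ^ 2 := by
          rw [← ENNReal.tsum_mul_right]
          exact tsum_congr fun i => ENNReal.tsum_mul_left
        rw [e1, e2]
        ring

theorem R11b_finsupp {Γ : Type*} (f : Γ →₀ ℂ) (c : Γ → ℝ) (hc : ∀ a, 0 ≤ c a) :
    ∑' a, (ENNReal.ofReal (c a) * ENNReal.ofReal ‖f a‖) ^ 2 =
      ENNReal.ofReal (f.sum fun a z => (c a * ‖z‖) ^ 2) := by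
  rw [tsum_eq_sum (s := f.support) (fun a ha => by
    rw [Finsupp.notMem_support_iff] at ha
    rw [ha, norm_zero, ENNReal.ofReal_zero, mul_zero]
    norm_num), Finsupp.sum, ENNReal.ofReal_sum_of_nonneg (fun a _ => by positivity)]
  refine Finset.sum_congr rfl fun a _ => ?_
  rw [← ENNReal.ofReal_mul (hc a), ENNReal.ofReal_pow (mul_nonneg (hc a) (norm_nonneg _))]

theorem R11b_Z : ∑' k : ℕ, (ENNReal.ofReal (1 / ((k : ℝ) + 1))) ^ 2 ≠ ∞ := by
  have h1 : ∀ k : ℕ, (ENNReal.ofReal (1 / ((k : ℝ) + 1))) ^ 2 =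
      ENNReal.ofReal (1 / ((k : ℝ) + 1) ^ 2) := by
    intro k
    rw [← ENNReal.ofReal_pow (by positivity)]
    congr 1
    rw [div_pow, one_pow]
  rw [tsum_congr h1, ← ENNReal.ofReal_tsum_of_nonneg (fun k => by positivity)]
  · exact ENNReal.ofReal_ne_top
  · have h2 : Summable fun k : ℕ => 1 / ((k : ℝ)) ^ 2 :=
      Real.summable_one_div_nat_pow.2 (by norm_num)
    have h3 := (summable_nat_add_iff 1).2 h2
    refine h3.congr fun k => ?_
    push_cast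
    rfl

/-- the main estimate for nonnegative functions -/
theorem R11b_main {Γ : Type*} [Group Γ] (ℓ : Γ → ℝ) (hℓ : ∀ g, 0 ≤ ℓ g)
    (D E : ℝ) (hD : 0 ≤ D) (hE : 0 ≤ E) (B : ℝ≥0∞)
    (hconv : ∀ k : ℕ, ∀ F G H : Γ → ℝ≥0∞, (∀ a, F a ≠ 0 → ℓ a ≤ (k : ℝ) + 1) →
      ∑' a, F a ^ 2 ≠ ∞ → ∑' a, G a ^ 2 ≠ ∞ → ∑' a, H a ^ 2 ≠ ∞ →
      (∑' a, ∑' b, F a * G b * H (a * b)) ^ 2 ≤
        (B * ENNReal.ofReal (E * ((k : ℝ) + 1 + 1) ^ D)) ^ 2 *
          ((∑' a, F a ^ 2) * (∑' a, G a ^ 2) * (∑' a, H a ^ 2)))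
    (F G H : Γ → ℝ≥0∞) (hH : ∀ c, H c ≤ ∑' a, F a * G (a⁻¹ * c))
    (nF : ∑' a, F a ^ 2 ≠ ∞) (nG : ∑' a, G a ^ 2 ≠ ∞) (nH : ∑' a, H a ^ 2 ≠ ∞) :
    ∑' a, H a ^ 2 ≤ B ^ 2 * (2 * (∑' k : ℕ, (ENNReal.ofReal (1 / ((k : ℝ) + 1))) ^ 2) *
      (ENNReal.ofReal (E * 2 ^ D)) ^ 2) *
      ((∑' a, (ENNReal.ofReal ((1 + ℓ a) ^ (D + 1)) * F a) ^ 2) * ∑' a, G a ^ 2) := by
  classical
  set NF : ℝ≥0∞ := ∑' a, F a ^ 2 with hNF
  set NG : ℝ≥0∞ := ∑' a, G a ^ 2 with hNG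
  set NH : ℝ≥0∞ := ∑' a, H a ^ 2 with hNH
  set Z : ℝ≥0∞ := ∑' k : ℕ, (ENNReal.ofReal (1 / ((k : ℝ) + 1))) ^ 2 with hZ
  set Sb : ℝ≥0∞ := ∑' a, (ENNReal.ofReal ((1 + ℓ a) ^ (D + 1)) * F a) ^ 2 with hSb
  set Fk : ℕ → Γ → ℝ≥0∞ := fun k a => if ⌊ℓ a⌋₊ = k then F a else 0 with hFk
  set NFk : ℕ → ℝ≥0∞ := fun k => ∑' a, Fk k a ^ 2 with hNFk
  set c : ℕ → ℝ≥0∞ := fun k => ENNReal.ofReal (E * ((k : ℝ) + 1 + 1) ^ D) with hcdef
  have hle : ∀ k, NFk k ≤ NF := by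
    intro k
    refine ENNReal.tsum_le_tsum fun a => ?_
    simp only [hFk]
    split_ifs
    · exact le_rfl
    · simp
  have hsplit : ∀ (u : Γ → ℝ≥0∞), ∑' k : ℕ, ∑' a, (if ⌊ℓ a⌋₊ = k then u a else 0) = ∑' a, u a := by
    intro u
    rw [ENNReal.tsum_comm]
    refine tsum_congr fun a => ?_
    rw [tsum_eq_single ⌊ℓ a⌋₊]
    · rw [if_pos rfl]
    · intro k hk
      rw [if_neg (Ne.symm hk)]
  -- step 1
  have h1 : NH ≤ ∑' a, ∑' b, F a * G b * H (a * b) := by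
    calc NH ≤ ∑' x, ∑' a, F a * G (a⁻¹ * x) * H x := by
          refine ENNReal.tsum_le_tsum fun x => ?_
          rw [ENNReal.tsum_mul_right, sq]
          gcongr
          exact hH x
      _ = ∑' a, ∑' x, F a * G (a⁻¹ * x) * H x := ENNReal.tsum_comm
      _ = _ := by
          refine tsum_congr fun a => ?_
          rw [← Equiv.tsum_eq (Equiv.mulLeft a)]
          refine tsum_congr fun b => ?_
          simp only [Equiv.coe_mulLeft, inv_mul_cancel_left]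
  -- step 2
  have h2 : ∑' a, ∑' b, F a * G b * H (a * b) =
      ∑' k, ∑' a, ∑' b, Fk k a * G b * H (a * b) := by
    have e1 : ∀ k : ℕ, ∑' a, ∑' b, Fk k a * G b * H (a * b) =
        ∑' a, (if ⌊ℓ a⌋₊ = k then (∑' b, F a * G b * H (a * b)) else 0) := by
      intro k
      refine tsum_congr fun a => ?_
      simp only [hFk]
      split_ifs
      · rfl
      · simp
    rw [tsum_congr e1, hsplit]
  -- step 3
  have h3 : ∀ k, ∑' a, ∑' b, Fk k a * G b * H (a * b) ≤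
      (B * (NG * NH) ^ (1 / 2 : ℝ)) * (c k * NFk k ^ (1 / 2 : ℝ)) := by
    intro k
    have h4 := hconv k (Fk k) G H (fun a ha => by
      simp only [hFk] at ha
      have h5 : ⌊ℓ a⌋₊ = k := by
        by_contra hne
        rw [if_neg hne] at ha
        exact ha rfl
      rw [← h5]
      exact (Nat.lt_floor_add_one (ℓ a)).le) (ne_top_of_le_ne_top nF (hle k)) nG nH
    rw [R2_le_iff] at h4
    refine h4.trans (le_of_eq ?_)
    rw [mul_assoc (∑' a, Fk k a ^ 2), ENNReal.mul_rpow_of_nonneg _ _ (by norm_num)]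
    ring
  have h6 : NH ≤ (B * (NG * NH) ^ (1 / 2 : ℝ)) * ∑' k, c k * NFk k ^ (1 / 2 : ℝ) := by
    rw [← ENNReal.tsum_mul_left]
    calc NH ≤ _ := h1
      _ = _ := h2
      _ ≤ _ := ENNReal.tsum_le_tsum h3
  -- step 4
  have h7 : (∑' k, c k * NFk k ^ (1 / 2 : ℝ)) ^ 2 ≤
      2 * Z * ((ENNReal.ofReal (E * 2 ^ D)) ^ 2 * Sb) := by
    have e1 : ∀ k : ℕ, c k * NFk k ^ (1 / 2 : ℝ) = ENNReal.ofReal (1 / ((k : ℝ) + 1)) *
        (ENNReal.ofReal ((k : ℝ) + 1) * (c k * NFk k ^ (1 / 2 : ℝ))) := by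
      intro k
      rw [← mul_assoc, ← ENNReal.ofReal_mul (by positivity),
        show (1 / ((k : ℝ) + 1) * ((k : ℝ) + 1)) = 1 from one_div_mul_cancel (by positivity),
        ENNReal.ofReal_one, one_mul]
    rw [tsum_congr e1]
    refine (R11b_cs _ _).trans ?_
    refine mul_le_mul' le_rfl ?_
    rw [hSb, ← ENNReal.tsum_mul_left, ← hsplit (fun a => ENNReal.ofReal (E * 2 ^ D) ^ 2 *
      (ENNReal.ofReal ((1 + ℓ a) ^ (D + 1)) * F a) ^ 2)]
    refine ENNReal.tsum_le_tsum fun k => ?_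
    rw [mul_pow, mul_pow, R2_sqrt_sq]
    simp only [hNFk]
    rw [← ENNReal.tsum_mul_left, ← ENNReal.tsum_mul_left]
    refine ENNReal.tsum_le_tsum fun a => ?_
    simp only [hFk]
    split_ifs with hk
    · have h8 : (k : ℝ) ≤ ℓ a := by
        rw [← hk]
        exact Nat.floor_le (hℓ a)
      have hk0 : (0 : ℝ) ≤ k := Nat.cast_nonneg k
      have hl := hℓ a
      have h9 : ((k : ℝ) + 1) * (E * ((k : ℝ) + 1 + 1) ^ D) ≤ E * 2 ^ D * (1 + ℓ a) ^ (D + 1) := by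
        have h10 : ((k : ℝ) + 1 + 1) ^ D ≤ 2 ^ D * (1 + ℓ a) ^ D := by
          rw [← Real.mul_rpow (by norm_num) (by linarith)]
          exact Real.rpow_le_rpow (by linarith) (by linarith) hD
        rw [Real.rpow_add (by linarith : (0 : ℝ) < 1 + ℓ a), Real.rpow_one]
        calc ((k : ℝ) + 1) * (E * ((k : ℝ) + 1 + 1) ^ D)
            ≤ (1 + ℓ a) * (E * (2 ^ D * (1 + ℓ a) ^ D)) := by
              refine mul_le_mul (by linarith) ?_ (by positivity) (by linarith)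
              exact mul_le_mul_of_nonneg_left h10 hE
          _ = _ := by ring
      have h11 : ENNReal.ofReal ((k : ℝ) + 1) * c k ≤
          ENNReal.ofReal (E * 2 ^ D) * ENNReal.ofReal ((1 + ℓ a) ^ (D + 1)) := by
        simp only [hcdef]
        rw [← ENNReal.ofReal_mul (by positivity), ← ENNReal.ofReal_mul (by positivity)]
        exact ENNReal.ofReal_le_ofReal h9
      calc ENNReal.ofReal ((k : ℝ) + 1) ^ 2 * (c k ^ 2 * F a ^ 2)
          = (ENNReal.ofReal ((k : ℝ) + 1) * c k) ^ 2 * F a ^ 2 := by ring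
        _ ≤ (ENNReal.ofReal (E * 2 ^ D) * ENNReal.ofReal ((1 + ℓ a) ^ (D + 1))) ^ 2 *
            F a ^ 2 := by gcongr
        _ = _ := by ring
    · simp
  -- conclusion
  by_cases h0 : NH = 0
  · rw [h0]
    exact zero_le
  rw [← ENNReal.mul_le_mul_iff_right h0 nH]
  calc NH * NH = NH ^ 2 := (sq NH).symm
    _ ≤ ((B * (NG * NH) ^ (1 / 2 : ℝ)) * ∑' k, c k * NFk k ^ (1 / 2 : ℝ)) ^ 2 := by gcongr
    _ = B ^ 2 * (NG * NH) * (∑' k, c k * NFk k ^ (1 / 2 : ℝ)) ^ 2 := by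
        rw [mul_pow, mul_pow, R2_sqrt_sq]
    _ ≤ B ^ 2 * (NG * NH) * (2 * Z * ((ENNReal.ofReal (E * 2 ^ D)) ^ 2 * Sb)) := by gcongr
    _ = _ := by ring

/-- (module R11b) -/
theorem rd_of_bd {Γ Y : Type*} [Group Γ] [MulAction Γ Y] {w : Y → ℝ≥0∞} (hw : IsWt Γ w)
    (x0 : Y) (hx0 : Finite (MulAction.stabilizer Γ x0)) (ℓ : Γ → ℝ) (hℓ : ∀ g, 0 ≤ ℓ g)
    (D E : ℝ) (hD : 0 ≤ D) (hE : 0 ≤ E)
    (hB : ∀ R, 0 ≤ R → ∃ T : Set (Y × Y × Y), InvT Γ T ∧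
      (∀ a b c : Γ, ℓ (a⁻¹ * b) ≤ R → (a • x0, b • x0, c • x0) ∈ T) ∧
      Bd Γ w T (ENNReal.ofReal (E * (R + 1) ^ D))) : RDWith ℓ := by
  classical
  obtain ⟨B, hBtop, hconv⟩ := conv_bound hw x0 hx0
  set K : ℝ≥0∞ := B ^ 2 * (2 * (∑' k : ℕ, (ENNReal.ofReal (1 / ((k : ℝ) + 1))) ^ 2) *
      (ENNReal.ofReal (E * 2 ^ D)) ^ 2) with hK
  have hKtop : K ≠ ∞ := by
    refine ENNReal.mul_ne_top (ENNReal.pow_ne_top hBtop) (ENNReal.mul_ne_top
      (ENNReal.mul_ne_top (by norm_num) R11b_Z) (ENNReal.pow_ne_top ENNReal.ofReal_ne_top))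
  refine ⟨Real.sqrt K.toReal, D + 1, by linarith, fun f g => ?_⟩
  have hone : ∀ u : Γ →₀ ℂ, ∑' a, ENNReal.ofReal ‖u a‖ ^ 2 =
      ENNReal.ofReal (u.sum fun _ z => ‖z‖ ^ 2) := by
    intro u
    have := R11b_finsupp u (fun _ => 1) (fun _ => zero_le_one)
    simp only [ENNReal.ofReal_one, one_mul] at this
    exact this
  have hmain := R11b_main ℓ hℓ D E hD hE B (fun k F G H hF nF nG nH => by
    obtain ⟨T, hT, hmem, hbd⟩ := hB ((k : ℝ) + 1) (by positivity)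
    exact hconv T _ hbd F G H (fun a b c hab => hmem a b c (hF _ hab)) nF nG nH)
    (fun a => ENNReal.ofReal ‖f.coeff a‖) (fun a => ENNReal.ofReal ‖g.coeff a‖)
    (fun a => ENNReal.ofReal ‖(f * g).coeff a‖) (fun x => by
      rw [MonoidAlgebra.coeff_mul_apply_left, Finsupp.sum]
      refine le_trans (ENNReal.ofReal_le_ofReal (norm_sum_le _ _)) ?_
      rw [ENNReal.ofReal_sum_of_nonneg (fun _ _ => norm_nonneg _)]
      refine le_trans (le_of_eq ?_) (ENNReal.sum_le_tsum f.coeff.support)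
      refine Finset.sum_congr rfl fun a _ => ?_
      rw [norm_mul, ENNReal.ofReal_mul (norm_nonneg _)])
    (by rw [hone]; exact ENNReal.ofReal_ne_top) (by rw [hone]; exact ENNReal.ofReal_ne_top)
    (by rw [hone]; exact ENNReal.ofReal_ne_top)
  rw [hone, hone, R11b_finsupp f.coeff (fun a => (1 + ℓ a) ^ (D + 1))
    (fun a => Real.rpow_nonneg (by linarith [hℓ a]) _), ← hK] at hmain
  have hnn : ∀ u : Γ →₀ ℂ, 0 ≤ u.sum fun _ z => ‖z‖ ^ 2 := fun u =>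
    Finset.sum_nonneg fun _ _ => by positivity
  have hs : 0 ≤ f.coeff.sum fun a z => ((1 + ℓ a) ^ (D + 1) * ‖z‖) ^ 2 :=
    Finset.sum_nonneg fun _ _ => by positivity
  have hreal : ((f * g).coeff.sum fun _ z => ‖z‖ ^ 2) ≤ K.toReal *
      ((f.coeff.sum fun a z => ((1 + ℓ a) ^ (D + 1) * ‖z‖) ^ 2) *
        (g.coeff.sum fun _ z => ‖z‖ ^ 2)) := by
    clear_value K
    have h1 := ENNReal.toReal_mono (ENNReal.mul_ne_top hKtop
      (ENNReal.mul_ne_top ENNReal.ofReal_ne_top ENNReal.ofReal_ne_top)) hmain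
    rw [ENNReal.toReal_mul, ENNReal.toReal_mul, ENNReal.toReal_ofReal (hnn _),
      ENNReal.toReal_ofReal (hnn _), ENNReal.toReal_ofReal hs] at h1
    exact h1
  unfold norm2 sobolev
  rw [← Real.sqrt_mul ENNReal.toReal_nonneg, ← Real.sqrt_mul (mul_nonneg ENNReal.toReal_nonneg hs)]
  apply Real.sqrt_le_sqrt
  rw [mul_assoc]
  exact hreal

end RapidDecay
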