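import Pool.Agent.Lib.MP_fee02f_an.R4

/-!
R6: the trivial bound.
-/

open scoped ENNReal

namespace RapidDecay

section R6
variable {Γ Y : Type*} [Group Γ] [MulAction Γ Y] {w : Y → ℝ≥0∞}

open Classical in
theorem R6_stab (y : Y) (hfin : Finite (MulAction.stabilizer Γ y)) (a : ℝ≥0∞) :
    ∑' g : Γ, (if g • y = y then a else 0) =
      ((Nat.card (MulAction.stabilizer Γ y) : ℕ) : ℝ≥0∞) * a := by
  have e : ∀ c : Γ, (if c • y = y then a else 0) =
      (MulAction.stabilizer Γ y : Set Γ).indicator (fun _ => a) c := by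
    intro c
    by_cases hc : c • y = y
    · rw [if_pos hc, Set.indicator_of_mem]
      exact hc
    · rw [if_neg hc, Set.indicator_of_notMem]
      exact hc
  simp only [e]
  rw [← tsum_subtype (MulAction.stabilizer Γ y : Set Γ) (fun _ => a)]
  have hft : Fintype (MulAction.stabilizer Γ y) := Fintype.ofFinite _
  change ∑' _x : (MulAction.stabilizer Γ y), a = _
  rw [tsum_fintype, Finset.sum_const, nsmul_eq_mul, Finset.card_univ, Nat.card_eq_fintype_card]

/-- a sum over an orbit -/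
theorem R6_orbit (b : ℕ) (y : Y) (hfin : Finite (MulAction.stabilizer Γ y))
    (hb : Nat.card (MulAction.stabilizer Γ y) ≤ b) (φ : Y → ℝ≥0∞) :
    ∑' g : Γ, φ (g • y) ≤ (b : ℝ≥0∞) * ∑' y', φ y' := by
  classical
  have h1 : ∀ g : Γ, φ (g • y) = ∑' y', (if g • y = y' then φ y' else 0) := by
    intro g
    rw [tsum_eq_single (g • y)]
    · rw [if_pos rfl]
    · intro y' hy'
      rw [if_neg (Ne.symm hy')]
  simp only [h1]
  rw [ENNReal.tsum_comm, ← ENNReal.tsum_mul_left]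
  refine ENNReal.tsum_le_tsum (fun y' => ?_)
  by_cases hy' : ∃ g₀ : Γ, g₀ • y = y'
  · obtain ⟨g₀, hg₀⟩ := hy'
    rw [← (Equiv.mulLeft g₀).tsum_eq]
    have e : ∀ g : Γ, (if (Equiv.mulLeft g₀) g • y = y' then φ y' else 0) =
        (if g • y = y then φ y' else 0) := by
      intro g
      have : (Equiv.mulLeft g₀) g • y = y' ↔ g • y = y := by
        rw [Equiv.coe_mulLeft, mul_smul, ← hg₀, smul_left_cancel_iff]
      simp only [this]
    simp only [e]
    rw [R6_stab y hfin]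
    gcongr
  · push Not at hy'
    have e : ∀ g : Γ, (if g • y = y' then φ y' else 0) = 0 := fun g => if_neg (hy' g)
    simp only [e, tsum_zero]
    exact zero_le

theorem Bd.trivial (hw : IsWt Γ w) (b : ℕ)
    (hb : ∀ y : Y, Finite (MulAction.stabilizer Γ y) ∧ Nat.card (MulAction.stabilizer Γ y) ≤ b)
    {T : Set (Y × Y × Y)} (hT : InvT Γ T) (K : ℕ)
    (hK : ∀ x z, {y | (x, y, z) ∈ T}.Finite ∧ {y | (x, y, z) ∈ T}.ncard ≤ K) :
    Bd Γ w T ((K * b : ℕ) : ℝ≥0∞) := by
  classical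
  intro f g k hf hg hk hnf hng hnk
  -- the inner sum
  set S : Y → Y → ℝ≥0∞ := fun x z => ∑' y, (if (x, y, z) ∈ T then f x y * g y z else 0) with hS
  have hSle : ∀ x z, S x z ^ 2 ≤ K * ∑' y, f x y ^ 2 * g y z ^ 2 := by
    intro x z
    have h1 : S x z = ∑' y, (if (x, y, z) ∈ T then (1 : ℝ≥0∞) else 0) * (f x y * g y z) := by
      simp only [hS]
      refine tsum_congr (fun y => ?_)
      split_ifs <;> simp
    have h2 := R4_cs' (fun y => (if (x, y, z) ∈ T then (1 : ℝ≥0∞) else 0)) (fun y => f x y * g y z)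
    rw [← h1] at h2
    refine h2.trans ?_
    have h3 : ∑' y, (if (x, y, z) ∈ T then (1 : ℝ≥0∞) else 0) ^ 2 ≤ K := by
      have e : ∀ y, (if (x, y, z) ∈ T then (1 : ℝ≥0∞) else 0) ^ 2 =
          {y | (x, y, z) ∈ T}.indicator (fun _ => (1 : ℝ≥0∞)) y := by
        intro y
        by_cases hy : (x, y, z) ∈ T
        · rw [if_pos hy, one_pow, Set.indicator_of_mem]
          exact hy
        · rw [if_neg hy, Set.indicator_of_notMem]
          · simp
          · exact hy
      simp only [e]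
      rw [← tsum_subtype {y | (x, y, z) ∈ T} (fun _ => (1 : ℝ≥0∞))]
      have hft : Fintype {y | (x, y, z) ∈ T} := (hK x z).1.fintype
      rw [tsum_fintype, Finset.sum_const, nsmul_eq_mul, mul_one, Finset.card_univ,
        ← Nat.card_eq_fintype_card, Nat.card_coe_set_eq]
      exact_mod_cast (hK x z).2
    have h4 : ∀ y, (f x y * g y z) ^ 2 = f x y ^ 2 * g y z ^ 2 := fun y => mul_pow _ _ _
    simp only [h4]
    gcongr
  have hLL : LL w T f g k = ∑' p : Y × Y, (w p.1 ^ (1 / 2 : ℝ) * k p.1 p.2) *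
      (w p.1 ^ (1 / 2 : ℝ) * S p.1 p.2) := by
    unfold LL
    rw [ENNReal.tsum_prod']
    refine tsum_congr (fun x => ?_)
    rw [ENNReal.tsum_comm]
    refine tsum_congr (fun z => ?_)
    have e1 : (w x ^ (1 / 2 : ℝ) * k x z) * (w x ^ (1 / 2 : ℝ) * S x z) = (w x * k x z) * S x z := by
      have := R4_rt (w x)
      rw [pow_two] at this
      calc (w x ^ (1 / 2 : ℝ) * k x z) * (w x ^ (1 / 2 : ℝ) * S x z)
          = (w x ^ (1 / 2 : ℝ) * w x ^ (1 / 2 : ℝ)) * k x z * S x z := by ring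
        _ = (w x * k x z) * S x z := by rw [this]
    change _ = (w x ^ (1 / 2 : ℝ) * k x z) * (w x ^ (1 / 2 : ℝ) * S x z)
    rw [e1]
    simp only [hS]
    rw [← ENNReal.tsum_mul_left]
    refine tsum_congr (fun y => ?_)
    split_ifs
    · ring
    · simp
  have hk2 : ∑' p : Y × Y, (w p.1 ^ (1 / 2 : ℝ) * k p.1 p.2) ^ 2 = nn w k := by
    unfold nn
    rw [ENNReal.tsum_prod']
    refine tsum_congr (fun x => tsum_congr (fun y => ?_))
    rw [mul_pow, R4_rt]
  have hS2 : ∑' p : Y × Y, (w p.1 ^ (1 / 2 : ℝ) * S p.1 p.2) ^ 2 ≤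
      K * ∑' t : Y × Y × Y, w t.1 * (f t.1 t.2.1 ^ 2 * g t.2.1 t.2.2 ^ 2) := by
    rw [ENNReal.tsum_prod', ENNReal.tsum_prod', ← ENNReal.tsum_mul_left]
    refine ENNReal.tsum_le_tsum (fun x => ?_)
    rw [ENNReal.tsum_prod', ENNReal.tsum_comm (f := fun y z => w (x, y, z).1 *
      (f (x, y, z).1 (x, y, z).2.1 ^ 2 * g (x, y, z).2.1 (x, y, z).2.2 ^ 2)), ← ENNReal.tsum_mul_left]
    refine ENNReal.tsum_le_tsum (fun z => ?_)
    change (w x ^ (1 / 2 : ℝ) * S x z) ^ 2 ≤ K * ∑' y, w x * (f x y ^ 2 * g y z ^ 2)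
    rw [mul_pow, R4_rt, ENNReal.tsum_mul_left]
    calc w x * S x z ^ 2 ≤ w x * (K * ∑' y, f x y ^ 2 * g y z ^ 2) := by
          gcongr
          exact hSle x z
      _ = K * (w x * ∑' y, f x y ^ 2 * g y z ^ 2) := by ring
  have htr : ∑' t : Y × Y × Y, w t.1 * (f t.1 t.2.1 ^ 2 * g t.2.1 t.2.2 ^ 2) =
      ∑' y, w y * ((∑' x, f x y ^ 2) * (∑' z, g y z ^ 2)) := by
    rw [tsum_transport hw (fun t : Y × Y × Y => t.1) (fun t => t.2.1) (fun _ _ => rfl) (fun _ _ => rfl)
      (fun t => f t.1 t.2.1 ^ 2 * g t.2.1 t.2.2 ^ 2) (fun γ t => by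
        change f (γ • t.1) (γ • t.2.1) ^ 2 * g (γ • t.2.1) (γ • t.2.2) ^ 2 = _
        rw [hf, hg])]
    rw [ENNReal.tsum_prod', ENNReal.tsum_comm, ENNReal.tsum_prod']
    refine tsum_congr (fun y => ?_)
    change ∑' z, ∑' x, w y * (f x y ^ 2 * g y z ^ 2) = _
    have e : ∀ z x, w y * (f x y ^ 2 * g y z ^ 2) = (w y * f x y ^ 2) * g y z ^ 2 := fun z x => by ring
    simp only [e, ENNReal.tsum_mul_right, ENNReal.tsum_mul_left]
    ring
  have hG : ∀ y, ∑' z, g y z ^ 2 ≤ b * nn w g := by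
    intro y
    have hGinv : ∀ γ : Γ, ∑' z, g (γ • y) z ^ 2 = ∑' z, g y z ^ 2 := by
      intro γ
      rw [← (MulAction.toPerm γ : Equiv.Perm Y).tsum_eq]
      refine tsum_congr (fun z => ?_)
      simp only [MulAction.toPerm_apply]
      rw [hg]
    have h1 : ∑' z, g y z ^ 2 = ∑' γ : Γ, w (γ • y) * ∑' z, g (γ • y) z ^ 2 := by
      simp only [hGinv]
      rw [ENNReal.tsum_mul_right, hw, one_mul]
    rw [h1]
    refine (R6_orbit b y (hb y).1 (hb y).2 (fun y' => w y' * ∑' z, g y' z ^ 2)).trans (le_of_eq ?_)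
    unfold nn
    congr 1
    exact tsum_congr (fun x => (ENNReal.tsum_mul_left).symm)
  have hfin : ∑' y, w y * ((∑' x, f x y ^ 2) * (∑' z, g y z ^ 2)) ≤ b * nn w g * nn w f := by
    calc ∑' y, w y * ((∑' x, f x y ^ 2) * (∑' z, g y z ^ 2))
        ≤ ∑' y, (b * nn w g) * (w y * ∑' x, f x y ^ 2) := by
          refine ENNReal.tsum_le_tsum (fun y => ?_)
          calc w y * ((∑' x, f x y ^ 2) * (∑' z, g y z ^ 2))
              ≤ w y * ((∑' x, f x y ^ 2) * (b * nn w g)) := by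
                gcongr
                exact hG y
            _ = (b * nn w g) * (w y * ∑' x, f x y ^ 2) := by ring
      _ = (b * nn w g) * nn w (fun x y => f y x) := by
          rw [ENNReal.tsum_mul_left]
          unfold nn
          congr 1
          exact tsum_congr (fun x => (ENNReal.tsum_mul_left).symm)
      _ = b * nn w g * nn w f := by rw [nn_transport hw hf]
  calc LL w T f g k ^ 2
      ≤ (∑' p : Y × Y, (w p.1 ^ (1 / 2 : ℝ) * k p.1 p.2) ^ 2) *
        (∑' p : Y × Y, (w p.1 ^ (1 / 2 : ℝ) * S p.1 p.2) ^ 2) := by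
        rw [hLL]
        exact R4_cs' _ _
    _ ≤ nn w k * (K * (b * nn w g * nn w f)) := by
        rw [hk2]
        gcongr
        refine hS2.trans ?_
        rw [htr]
        gcongr
    _ = ((K * b : ℕ) : ℝ≥0∞) * (nn w f * nn w g * nn w k) := by
        push_cast
        ring
    _ ≤ ((K * b : ℕ) : ℝ≥0∞) ^ 2 * (nn w f * nn w g * nn w k) := by
        gcongr
        have : K * b ≤ (K * b) ^ 2 := Nat.le_self_pow (by norm_num) _
        exact_mod_cast this
end R6

end RapidDecay
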