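import Pool.Agent.Lib.MP_fee02f_an.Defs
import Pool.Agent.Lib.MP_fee02f_an.K0a
import Pool.Agent.Lib.MP_fee02f_an.R2
import Pool.Agent.Lib.MP_fee02f_an.R6
import Pool.Agent.Lib.MP_fee02f_an.R7a

/-!
R7b: growth of the product and the trivial bound for the triples of perimeter at most `m`.
-/

set_option autoImplicit false

open scoped ENNReal

namespace RapidDecay

variable {Γ : Type*} [Group Γ] {ι : Type*} [Fintype ι] {X : ι → Type*} [∀ i, MulAction Γ (X i)]
  (S : ∀ i, HiveSpace Γ (X i))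

theorem dY_growth : ∃ C : ℕ, ∀ (x : ∀ i, X i) (m : ℕ),
    {y | dY S x y ≤ m}.Finite ∧ {y | dY S x y ≤ m}.ncard ≤ C ^ (m + 1) := by
  classical
  choose C hC using fun i => (S i).growth
  refine ⟨∏ i, C i, fun x m => ?_⟩
  set A : ∀ i, Finset (X i) := fun i => (hC i (x i) m).1.toFinset with hA
  have hsub : {y | dY S x y ≤ m} ⊆ (Fintype.piFinset A : Set (∀ i, X i)) := by
    intro y hy
    have hy' : ∑ i, dst (S i).H (x i) (y i) ≤ m := hy
    rw [Finset.mem_coe, Fintype.mem_piFinset]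
    intro i
    rw [hA, Set.Finite.mem_toFinset]
    have h1 := Finset.single_le_sum (f := fun i => dst (S i).H (x i) (y i))
      (fun i _ => dst_nonneg (S i).hive _ _) (Finset.mem_univ i)
    exact h1.trans hy'
  have hfin : (Fintype.piFinset A : Set (∀ i, X i)).Finite := Finset.finite_toSet _
  refine ⟨hfin.subset hsub, ?_⟩
  have h1 := Set.ncard_le_ncard hsub hfin
  rw [Set.ncard_coe_finset, Fintype.card_piFinset] at h1
  refine h1.trans ?_
  rw [← Finset.prod_pow]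
  apply Finset.prod_le_prod'
  intro i _
  have h2 := (hC i (x i) m).2
  rwa [Set.ncard_eq_toFinset_card _ (hC i (x i) m).1] at h2

theorem TP_trivial (b : ℕ)
    (hb : ∀ y : (∀ i, X i), Finite (MulAction.stabilizer Γ y) ∧
      Nat.card (MulAction.stabilizer Γ y) ≤ b) :
    ∃ C : ℝ, 0 ≤ C ∧ ∀ w : (∀ i, X i) → ℝ≥0∞, IsWt Γ w → ∀ m : ℝ, 0 ≤ m →
      Bd Γ w (TP S m) (ENNReal.ofReal (Real.exp (C * (m + 1)))) := by
  obtain ⟨C₀, hC₀⟩ := dY_growth S
  set L : ℝ := Real.log ((C₀ : ℝ) + 1) with hL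
  have hL0 : 0 ≤ L := Real.log_nonneg (by
    have : (0 : ℝ) ≤ C₀ := Nat.cast_nonneg _
    linarith)
  refine ⟨2 * L + b, by positivity, ?_⟩
  intro w hw m hm
  set M : ℕ := ⌈m⌉₊ with hM
  have hmM : m ≤ M := Nat.le_ceil m
  have hMm : (M : ℝ) < m + 1 := Nat.ceil_lt_add_one hm
  have hsub : ∀ x z, {y | (x, y, z) ∈ TP S m} ⊆ {y | dY S x y ≤ M} := by
    intro x z y hy
    have h1 : pY S (x, y, z) ≤ m := hy
    rw [pY_eq] at h1
    have h2 := dY_nonneg S y z
    have h3 := dY_nonneg S z x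
    have h4 : dY S x y ≤ M := by linarith
    exact h4
  have h := Bd.trivial hw b hb (invT_TP S m) (C₀ ^ (M + 1)) (fun x z =>
    ⟨(hC₀ x M).1.subset (hsub x z), (Set.ncard_le_ncard (hsub x z) (hC₀ x M).1).trans (hC₀ x M).2⟩)
  refine Bd.mono h (fun t ht => ht) ?_
  rw [← ENNReal.ofReal_natCast]
  apply ENNReal.ofReal_le_ofReal
  push_cast
  have h1 : (C₀ : ℝ) ^ (M + 1) ≤ Real.exp (2 * L * (m + 1)) := by
    have h2 : (C₀ : ℝ) ^ (M + 1) ≤ ((C₀ : ℝ) + 1) ^ (M + 1) :=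
      pow_le_pow_left₀ (Nat.cast_nonneg _) (by linarith) _
    have h3 : ((C₀ : ℝ) + 1) ^ (M + 1) = Real.exp (((M + 1 : ℕ) : ℝ) * L) := by
      rw [Real.exp_nat_mul, hL, Real.exp_log (by positivity)]
    rw [h3] at h2
    refine h2.trans ?_
    rw [Real.exp_le_exp]
    push_cast
    nlinarith
  have h2 : (b : ℝ) ≤ Real.exp (b * (m + 1)) := by
    have h3 : (b : ℝ) ≤ Real.exp b := by
      have := Real.add_one_le_exp (b : ℝ)
      linarith
    refine h3.trans ?_
    rw [Real.exp_le_exp]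
    have : (0 : ℝ) ≤ b := Nat.cast_nonneg _
    nlinarith
  have h3 : Real.exp ((2 * L + b) * (m + 1)) =
      Real.exp (2 * L * (m + 1)) * Real.exp (b * (m + 1)) := by
    rw [← Real.exp_add]
    congr 1
    ring
  rw [h3]
  exact mul_le_mul h1 h2 (Nat.cast_nonneg _) (Real.exp_pos _).le

end RapidDecay
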