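import Mathlib
import Pool.Agent.Lib.MP_fee02f_an.Defs

/-!
Module K1: the contraction inequality.
-/

namespace RapidDecay

theorem K1_parts (x : ℝ) : (0 ≤ x ∧ |x| = x ∧ max x 0 = x ∧ max (-x) 0 = 0) ∨
    (x ≤ 0 ∧ |x| = -x ∧ max x 0 = 0 ∧ max (-x) 0 = -x) := by
  rcases le_total 0 x with h | h
  · exact Or.inl ⟨h, abs_of_nonneg h, max_eq_left h, max_eq_right (neg_nonpos.mpr h)⟩
  · exact Or.inr ⟨h, abs_of_nonpos h, max_eq_right h, max_eq_left (neg_nonneg.mpr h)⟩

theorem Uc_sum_le (x y z : ℝ) : Uc x y z + Uc y z x + Uc z x y ≤ 24 / 25 * (6 * Fc x y z) := by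
  unfold Uc Fc
  have a1 := le_max_left 0 (max (-y) z)
  have a2 := (le_max_left (-y) z).trans (le_max_right 0 (max (-y) z))
  have a3 := (le_max_right (-y) z).trans (le_max_right 0 (max (-y) z))
  have b1 := le_max_left 0 (max (-z) x)
  have b2 := (le_max_left (-z) x).trans (le_max_right 0 (max (-z) x))
  have b3 := (le_max_right (-z) x).trans (le_max_right 0 (max (-z) x))
  have c1 := le_max_left 0 (max (-x) y)
  have c2 := (le_max_left (-x) y).trans (le_max_right 0 (max (-x) y))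
  have c3 := (le_max_right (-x) y).trans (le_max_right 0 (max (-x) y))
  have d1 := min_le_left (max (-x) 0) (max y 0)
  have d2 := min_le_right (max (-x) 0) (max y 0)
  have d3 := min_le_left (max (-x) 0) (max z 0)
  have d4 := min_le_right (max (-x) 0) (max z 0)
  have d5 := min_le_left (max (-y) 0) (max z 0)
  have d6 := min_le_right (max (-y) 0) (max z 0)
  have d7 := min_le_left (max (-y) 0) (max x 0)
  have d8 := min_le_right (max (-y) 0) (max x 0)
  have d9 := min_le_left (max (-z) 0) (max x 0)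
  have d10 := min_le_right (max (-z) 0) (max x 0)
  have d11 := min_le_left (max (-z) 0) (max y 0)
  have d12 := min_le_right (max (-z) 0) (max y 0)
  rcases K1_parts x with ⟨hx, x1, x2, x3⟩ | ⟨hx, x1, x2, x3⟩ <;>
  rcases K1_parts y with ⟨hy, y1, y2, y3⟩ | ⟨hy, y1, y2, y3⟩ <;>
  rcases K1_parts z with ⟨hz, z1, z2, z3⟩ | ⟨hz, z1, z2, z3⟩ <;>
  linarith

/-- a function of one variable -/
theorem K1_one (x x' a b : ℝ) (ha : 0 ≤ a) (hb : 0 ≤ b) :
    4 * max x' 0 + 2 * min (max (-x') 0) a + 12 * min (max (-x') 0) b ≤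
      4 * max x 0 + 2 * min (max (-x) 0) a + 12 * min (max (-x) 0) b + 14 * |x' - x| := by
  have h1 := le_abs_self (x' - x)
  have h2 := neg_abs_le (x' - x)
  have d1 := min_le_left (max (-x') 0) a
  have d2 := min_le_right (max (-x') 0) a
  have d3 := min_le_left (max (-x') 0) b
  have d4 := min_le_right (max (-x') 0) b
  have e1 : 0 ≤ min (max (-x) 0) a := le_min (le_max_right _ _) ha
  have e2 : 0 ≤ min (max (-x) 0) b := le_min (le_max_right _ _) hb
  rcases K1_parts x with ⟨hx, x1, x2, x3⟩ | ⟨hx, x1, x2, x3⟩ <;>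
  rcases K1_parts x' with ⟨hy, y1, y2, y3⟩ | ⟨hy, y1, y2, y3⟩ <;>
  rcases min_choice (max (-x) 0) a with m1 | m1 <;>
  rcases min_choice (max (-x) 0) b with m2 | m2 <;>
  linarith

theorem K1_abs (y y' a b : ℝ) (ha : 0 ≤ a) (hb : 0 ≤ b) :
    4 * |y'| + 2 * min a (max y' 0) + 2 * min (max (-y') 0) b ≤
      4 * |y| + 2 * min a (max y 0) + 2 * min (max (-y) 0) b + 14 * |y' - y| := by
  have h1 := le_abs_self (y' - y)
  have h2 := neg_abs_le (y' - y)
  have d1 := min_le_left a (max y' 0)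
  have d2 := min_le_right a (max y' 0)
  have d3 := min_le_left (max (-y') 0) b
  have d4 := min_le_right (max (-y') 0) b
  have e1 : 0 ≤ min a (max y 0) := le_min ha (le_max_right _ _)
  have e2 : 0 ≤ min (max (-y) 0) b := le_min (le_max_right _ _) hb
  rcases K1_parts y with ⟨hx, x1, x2, x3⟩ | ⟨hx, x1, x2, x3⟩ <;>
  rcases K1_parts y' with ⟨hy, y1, y2, y3⟩ | ⟨hy, y1, y2, y3⟩ <;>
  rcases min_choice a (max y 0) with m1 | m1 <;>
  rcases min_choice (max (-y) 0) b with m2 | m2 <;>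
  linarith

theorem Uc_lip (x y z x' y' z' : ℝ) :
    Uc x' y' z' ≤ Uc x y z + 14 * (|x' - x| + |y' - y| + |z' - z|) := by
  have h1 := K1_one x x' (max y' 0) (max z' 0) (le_max_right _ _) (le_max_right _ _)
  have h2 := K1_abs y y' (max (-x) 0) (max z' 0) (le_max_right _ _) (le_max_right _ _)
  have h3 := K1_one (-z) (-z') (max (-y) 0) (max (-x) 0) (le_max_right _ _) (le_max_right _ _)
  rw [neg_neg, neg_neg, show (-z' - -z) = -(z' - z) by ring, abs_neg,
    min_comm (max z' 0) (max (-y) 0), min_comm (max z' 0) (max (-x) 0),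
    min_comm (max z 0) (max (-y) 0), min_comm (max z 0) (max (-x) 0)] at h3
  unfold Uc
  linarith

theorem Fc_smul (t x y z : ℝ) (ht : 0 ≤ t) : Fc (t * x) (t * y) (t * z) = t * Fc x y z := by
  have h : ∀ a b : ℝ, max 0 (max (-(t * a)) (t * b)) = t * max 0 (max (-a) b) := by
    intro a b
    rw [mul_max_of_nonneg _ _ ht, mul_max_of_nonneg _ _ ht, mul_zero, mul_neg]
  unfold Fc
  rw [h, h, h, abs_mul, abs_mul, abs_mul, abs_of_nonneg ht]
  ring

theorem Uc_smul (t x y z : ℝ) (ht : 0 ≤ t) : Uc (t * x) (t * y) (t * z) = t * Uc x y z := by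
  have h1 : ∀ a : ℝ, max (t * a) 0 = t * max a 0 := by
    intro a
    rw [mul_max_of_nonneg _ _ ht, mul_zero]
  have h2 : ∀ a : ℝ, max (-(t * a)) 0 = t * max (-a) 0 := by
    intro a
    rw [mul_max_of_nonneg _ _ ht, mul_zero, mul_neg]
  have h3 : ∀ a b : ℝ, min (t * a) (t * b) = t * min a b := by
    intro a b
    rw [mul_min_of_nonneg _ _ ht]
  unfold Uc
  rw [h1, h1, h1, h2, h2, h2, h3, h3, h3, abs_mul, abs_of_nonneg ht]
  ring

theorem Fc_cont : Continuous fun p : ℝ × ℝ × ℝ => Fc p.1 p.2.1 p.2.2 := by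
  unfold Fc
  fun_prop

theorem Uc_cont : Continuous fun p : ℝ × ℝ × ℝ => Uc p.1 p.2.1 p.2.2 := by
  unfold Uc
  fun_prop

end RapidDecay
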