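import Mathlib
import Pool.Agent.Lib.MP_fee02f_an.Defs

/-!
K2b: the numerical form of the key inequality (RD.md, proof of (3.2)).
-/

namespace RapidDecay

/-- the minimum of the three numbers is attained at least twice -/
def TwMin (p q r : ℝ) : Prop := min p q ≤ r ∧ min p r ≤ q ∧ min q r ≤ p

theorem Fc_zero (t : ℝ) : Fc 0 t (-t) = max (-4 * t) (6 * t) := by
  unfold Fc
  rcases le_total 0 t with h | h
  · rw [abs_zero, abs_of_nonneg h, abs_of_nonpos (by linarith : -t ≤ 0), max_self,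
      max_eq_left (by linarith : -t ≤ 0), neg_neg, max_eq_left h, max_eq_right h, neg_zero,
      max_eq_right h, max_eq_right h, max_eq_right (by linarith : -4 * t ≤ 6 * t)]
    ring
  · rw [abs_zero, abs_of_nonpos h, abs_of_nonneg (by linarith : 0 ≤ -t), max_self,
      max_eq_right (by linarith : 0 ≤ -t), neg_neg, max_eq_right h, max_self, neg_zero,
      max_eq_left h, max_self, max_eq_left (by linarith : 6 * t ≤ -4 * t)]
    ring

theorem Fc_symm1 (x y z : ℝ) : Fc (-x) (-z) (-y) = Fc x y z := by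
  unfold Fc
  rw [abs_neg, abs_neg, abs_neg, neg_neg, neg_neg, neg_neg, max_comm z (-y), max_comm y (-x),
    max_comm x (-z)]
  ring

theorem Uc_symm (x y z : ℝ) : Uc (-z) (-y) (-x) = Uc x y z := by
  unfold Uc
  rw [abs_neg, neg_neg, neg_neg, neg_neg, min_comm (max z 0) (max (-y) 0),
    min_comm (max y 0) (max (-x) 0), min_comm (max z 0) (max (-x) 0)]
  ring

theorem Fc_N1 (d t : ℝ) (hd : 0 ≤ d) (ht : 0 ≤ t) : Fc d (-t) t = 3 * d + 4 * t := by
  unfold Fc
  rw [neg_neg, max_self, abs_neg, abs_of_nonneg hd, abs_of_nonneg ht, max_eq_right ht,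
    max_eq_right (by linarith : -t ≤ d), max_eq_right hd, max_eq_left]
  · ring
  · exact max_le (by linarith) (by linarith)

theorem Fc_N2 (d p : ℝ) (hd : 0 ≤ d) (hp : d ≤ p) : Fc 0 (d - p) p = 4 * p - d := by
  unfold Fc
  rw [abs_zero, abs_of_nonpos (by linarith : d - p ≤ 0), abs_of_nonneg (by linarith : 0 ≤ p),
    neg_sub, max_eq_right (by linarith : p - d ≤ p), max_eq_right (by linarith : 0 ≤ p),
    max_eq_right (by linarith : -p ≤ 0), max_self, neg_zero,
    max_eq_left (by linarith : d - p ≤ 0), max_self]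
  ring

theorem le_Uc (x y z : ℝ) : 4 * (max x 0 + |y| + max (-z) 0) ≤ Uc x y z := by
  unfold Uc
  have h1 : 0 ≤ min (max (-x) 0) (max y 0) := le_min (le_max_right _ _) (le_max_right _ _)
  have h2 : 0 ≤ min (max (-y) 0) (max z 0) := le_min (le_max_right _ _) (le_max_right _ _)
  have h3 : 0 ≤ min (max (-x) 0) (max z 0) := le_min (le_max_right _ _) (le_max_right _ _)
  linarith

/-- nonsymmetric case -/
theorem key_N (x y z B a b g E2 E4 G2 G4 K1 K2 K3 : ℝ)
    (hB : B = max 0 (max (-z) x)) (ha : x ≤ a) (hb : -z ≤ b) (hb' : b ≤ B)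
    (hg : 0 ≤ g) (hE2 : TwMin g a E2) (hE4 : TwMin g a E4) (hG2 : TwMin g b G2)
    (hG4 : TwMin g b G4) (hE : |E2 - E4| ≤ B - g)
    (hE2u : E2 ≤ a + max (-y) 0)
    (hK1 : K1 = min (max (-y) 0 + G2) (max y 0 + E2))
    (hK3 : K3 = min (max (-y) 0 + G4) (max y 0 + E4))
    (hK : TwMin (E2 + G4) (g + K2) (E4 + G2)) (hlt : E4 < E2) :
    Fc (E2 - E4) (-max (-y) 0 + K1 - K2 + E4 - a) (max (-y) 0 + K2 - K3 + a - E2)
      + Fc (G2 - G4) (-max y 0 + K1 - K2 + G4 - b) (max y 0 + K2 - K3 + b - G2) ≤ Uc x y z := by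
  obtain ⟨e1, e2, e3⟩ := hE2
  obtain ⟨f1, f2, f3⟩ := hE4
  have hga : g = a := by
    rcases lt_trichotomy g a with h | h | h
    · rw [min_eq_left h.le] at e1 f1
      have : min a E2 ≤ g := e3
      rcases min_le_iff.mp this with h' | h' <;> linarith
    · exact h
    · rw [min_eq_right h.le] at e1 f1
      rcases min_le_iff.mp e2 with h' | h' <;> linarith
  subst hga
  rw [min_self] at e1 f1
  have hE' : E2 - E4 ≤ B - g := (le_abs_self _).trans hE
  have hgB : g < B := by linarith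
  have hBz : B = -z := by
    rcases max_choice 0 (max (-z) x) with h | h
    · rw [h] at hB; linarith
    · rcases max_choice (-z) x with h' | h'
      · rw [h, h'] at hB; exact hB
      · rw [h, h'] at hB; linarith
  have hbB : b = B := le_antisymm hb' (by linarith)
  subst hbB
  obtain ⟨g1, g2, g3⟩ := hG2
  obtain ⟨k1, k2, k3⟩ := hG4
  rw [min_eq_left hgB.le] at g1 k1
  have hG2' : G2 = g := by
    rcases min_le_iff.mp g3 with h' | h' <;> linarith
  have hG4' : G4 = g := by
    rcases min_le_iff.mp k3 with h' | h' <;> linarith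
  subst hG2'
  subst hG4'
  have hy : y < 0 := by
    by_contra hy
    rw [max_eq_right (by linarith : -y ≤ 0)] at hE2u
    linarith
  rw [max_eq_left (by linarith : 0 ≤ -y)] at hE2u hK1 hK3 ⊢
  rw [max_eq_right hy.le] at hK1 hK3 ⊢
  rw [min_eq_right (by linarith)] at hK1 hK3
  have hK2 : K2 = E4 := by
    obtain ⟨l1, l2, l3⟩ := hK
    rw [min_eq_right (by linarith)] at l2
    rcases min_le_iff.mp l1 with h' | h'
    · linarith
    · linarith
  subst hK2
  have hU := le_Uc x y z
  rw [hK1, hK3, sub_self]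
  have e4 : (- -y + (0 + E2) - K2 + K2 - G4) = -(-y - (E2 - G4)) := by ring
  have e5 : (-y + K2 - (0 + K2) + G4 - E2) = -y - (E2 - G4) := by ring
  have e6 : (-0 + (0 + E2) - K2 + G4 - b) = (E2 - K2) - (b - G4) := by ring
  have e7 : (0 + K2 - (0 + K2) + b - G4) = b - G4 := by ring
  rw [e4, e5, e6, e7, Fc_N1 _ _ (by linarith) (by linarith), Fc_N2 _ _ (by linarith) hE']
  rw [abs_of_neg hy, max_eq_left (by linarith : 0 ≤ -z)] at hU
  have hx : 0 ≤ max x 0 := le_max_right _ _
  linarith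

theorem le_Uc2 (x y z : ℝ) : 4 * (max x 0 + |y| + max (-z) 0)
    + 2 * min (max (-x) 0) (max y 0) ≤ Uc x y z := by
  unfold Uc
  have h2 : 0 ≤ min (max (-y) 0) (max z 0) := le_min (le_max_right _ _) (le_max_right _ _)
  have h3 : 0 ≤ min (max (-x) 0) (max z 0) := le_min (le_max_right _ _) (le_max_right _ _)
  linarith

/-- symmetric case, `p` positive -/
theorem key_S1 (x y z B a b g E G p q : ℝ)
    (hB : B = max 0 (max (-z) x)) (ha : x ≤ a) (hb : -z ≤ b) (hb' : b ≤ B)
    (hg : 0 ≤ g) (hg' : g ≤ B) (hE2 : TwMin g a E) (hG2 : TwMin g b G)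
    (hG2l : b - max (-z) 0 ≤ G) (hpa : p ≤ g - a) (hpq : p - q = y + (b - G) - (a - E))
    (hp2 : p ≤ y + (g - G) + (E - a)) (hpos : 0 < p) (hq : q ≤ 0) :
    6 * p - 4 * q ≤ Uc x y z := by
  have hU := le_Uc2 x y z
  have hya : y ≤ |y| := le_abs_self y
  have hga : a < g := by linarith
  obtain ⟨e1, e2, e3⟩ := hE2
  rw [min_eq_right hga.le] at e1
  have hEa : E = a := by
    rcases min_le_iff.mp e2 with h' | h' <;> linarith
  subst hEa
  obtain ⟨g1, g2, g3⟩ := hG2
  have hx0 : 0 ≤ max x 0 := le_max_right _ _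
  have hxB : x < B := by linarith
  rcases le_total z 0 with hz | hz
  · -- `B = -z`
    rw [max_eq_left (by linarith : 0 ≤ -z)] at hU hG2l
    have hBz : B = -z := by
      rcases max_choice 0 (max (-z) x) with h | h
      · have h1 : -z ≤ max 0 (max (-z) x) := (le_max_left _ _).trans (le_max_right _ _)
        rw [h] at hB h1
        linarith
      · rcases max_choice (-z) x with h' | h'
        · rw [h, h'] at hB; exact hB
        · rw [h, h'] at hB; linarith
    have hbB : b = B := le_antisymm hb' (by linarith)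
    subst hbB
    rw [min_eq_left hg'] at g1
    rcases le_total x 0 with hx | hx
    · have hx' : max (-x) 0 = -x := max_eq_left (by linarith)
      have h5 : p - g ≤ min (max (-x) 0) (max y 0) := by
        rw [hx']
        refine le_min (by linarith) ?_
        exact (by linarith : p - g ≤ y).trans (le_max_left _ _)
      linarith
    · have h5 : 0 ≤ min (max (-x) 0) (max y 0) := le_min (le_max_right _ _) (le_max_right _ _)
      linarith
  · have hz' : max (-z) 0 = 0 := max_eq_right (by linarith)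
    rw [hz'] at hU hG2l
    have hB0 : B = 0 := by
      rcases max_choice 0 (max (-z) x) with h | h
      · rw [h] at hB; exact hB
      · rcases max_choice (-z) x with h' | h'
        · rw [h, h'] at hB; linarith
        · rw [h, h'] at hB; linarith
    subst hB0
    have hg0 : g = 0 := le_antisymm hg' hg
    subst hg0
    have h5 : p ≤ min (max (-x) 0) (max y 0) := by
      refine le_min ((by linarith : p ≤ -x).trans (le_max_left _ _)) ?_
      exact (by linarith : p ≤ y).trans (le_max_left _ _)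
    linarith

/-- symmetric case, both positive -/
theorem key_S2 (x y z B a b g E G p q : ℝ)
    (hB : B = max 0 (max (-z) x)) (ha : x ≤ a) (hb : -z ≤ b)
    (hg : 0 ≤ g) (hg' : g ≤ B) (hE2 : TwMin g a E) (hG2 : TwMin g b G)
    (hpa : p ≤ g - a) (hqa : q ≤ g - b) (hpq : p - q = y + (b - G) - (a - E))
    (hp : 0 < p) (hq : 0 < q) :
    6 * p + 6 * q ≤ Uc x y z := by
  have hga : a < g := by linarith
  have hgb : b < g := by linarith
  obtain ⟨e1, e2, e3⟩ := hE2
  rw [min_eq_right hga.le] at e1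
  have hEa : E = a := by
    rcases min_le_iff.mp e2 with h' | h' <;> linarith
  obtain ⟨g1, g2, g3⟩ := hG2
  rw [min_eq_right hgb.le] at g1
  have hGb : G = b := by
    rcases min_le_iff.mp g2 with h' | h' <;> linarith
  subst hEa
  subst hGb
  have hB0 : B = 0 := by
    rcases max_choice 0 (max (-z) x) with h | h
    · rw [h] at hB; exact hB
    · rcases max_choice (-z) x with h' | h'
      · rw [h, h'] at hB; linarith
      · rw [h, h'] at hB; linarith
  subst hB0
  have hg0 : g = 0 := le_antisymm hg' hg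
  subst hg0
  have hx : x < 0 := by linarith
  have hz : 0 < z := by linarith
  unfold Uc
  rw [max_eq_right hx.le, max_eq_right (by linarith : -z ≤ 0), max_eq_left (by linarith : 0 ≤ -x),
    max_eq_left hz.le]
  rcases le_total 0 y with hy | hy
  · rw [abs_of_nonneg hy, max_eq_left hy, max_eq_right (by linarith : -y ≤ 0),
      min_eq_left hz.le]
    rcases le_total (-x) y with h1 | h1
    · rw [min_eq_left h1]
      rcases le_total (-x) z with h2 | h2
      · rw [min_eq_left h2]; linarith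
      · rw [min_eq_right h2]; linarith
    · rw [min_eq_right h1]
      rcases le_total (-x) z with h2 | h2
      · rw [min_eq_left h2]; linarith
      · rw [min_eq_right h2]; linarith
  · rw [abs_of_nonpos hy, max_eq_right hy, max_eq_left (by linarith : 0 ≤ -y),
      min_eq_right (by linarith : (0 : ℝ) ≤ -x)]
    rcases le_total (-y) z with h1 | h1
    · rw [min_eq_left h1]
      rcases le_total (-x) z with h2 | h2
      · rw [min_eq_left h2]; linarith
      · rw [min_eq_right h2]; linarith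
    · rw [min_eq_right h1]
      rcases le_total (-x) z with h2 | h2
      · rw [min_eq_left h2]; linarith
      · rw [min_eq_right h2]; linarith

/-- symmetric case -/
theorem key_S (x y z B a b g E G K1 K2 : ℝ)
    (hB : B = max 0 (max (-z) x)) (ha : x ≤ a) (ha' : a ≤ B) (hb : -z ≤ b) (hb' : b ≤ B)
    (hg : 0 ≤ g) (hg' : g ≤ B) (hE2 : TwMin g a E) (hG2 : TwMin g b G)
    (hE2l : a - max x 0 ≤ E)
    (hG2l : b - max (-z) 0 ≤ G)
    (hK1 : K1 = min (max (-y) 0 + G) (max y 0 + E))
    (hK : E + G ≤ g + K2) (h1 : K2 ≤ K1) :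
    Fc 0 (-max (-y) 0 + K1 - K2 + E - a) (-(-max (-y) 0 + K1 - K2 + E - a))
      + Fc 0 (-max y 0 + K1 - K2 + G - b) (-(-max y 0 + K1 - K2 + G - b)) ≤ Uc x y z := by
  rw [Fc_zero, Fc_zero]
  have hU := le_Uc x y z
  have hyy : max y 0 + max (-y) 0 = |y| := by
    rcases le_total 0 y with h | h
    · rw [max_eq_left h, max_eq_right (by linarith : -y ≤ 0), abs_of_nonneg h, add_zero]
    · rw [max_eq_right h, max_eq_left (by linarith : 0 ≤ -y), abs_of_nonpos h, zero_add]
  have hyd : max y 0 - max (-y) 0 = y := by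
    rcases le_total 0 y with h | h
    · rw [max_eq_left h, max_eq_right (by linarith : -y ≤ 0), sub_zero]
    · rw [max_eq_right h, max_eq_left (by linarith : 0 ≤ -y)]; ring
  have hK1a : K1 ≤ max (-y) 0 + G := hK1 ▸ min_le_left _ _
  have hK1b : K1 ≤ max y 0 + E := hK1 ▸ min_le_right _ _
  have hBs : B = max 0 (max (- -x) (-z)) := by rw [hB, neg_neg, max_comm (-z) x]
  generalize max y 0 = yp at *
  generalize max (-y) 0 = ym at *
  have h2 : -ym + K1 - K2 + E - a ≤ g - a := by linarith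
  have h3 : -yp + K1 - K2 + G - b ≤ g - b := by linarith
  have h4 : (-ym + K1 - K2 + E - a) - (-yp + K1 - K2 + G - b) = y + (b - G) - (a - E) := by
    linarith
  have h5 : (-ym + K1 - K2 + E - a) ≤ y + (g - G) + (E - a) := by linarith
  have h6 : (-yp + K1 - K2 + G - b) ≤ -y + (g - E) + (G - b) := by linarith
  have h7 : - (-ym + K1 - K2 + E - a) - (-yp + K1 - K2 + G - b)
      ≤ max x 0 + |y| + max (-z) 0 := by linarith
  generalize -ym + K1 - K2 + E - a = p at *
  generalize -yp + K1 - K2 + G - b = q at *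
  rcases le_or_gt p 0 with hp | hp
  · rw [max_eq_left (by linarith : 6 * p ≤ -4 * p)]
    rcases le_or_gt q 0 with hq | hq
    · rw [max_eq_left (by linarith : 6 * q ≤ -4 * q)]
      linarith
    · rw [max_eq_right (by linarith : -4 * q ≤ 6 * q)]
      have h8 := key_S1 (-z) (-y) (-x) B b a g G E q p hBs hb (by linarith) ha' hg hg' hG2 hE2
        (by rw [neg_neg]; exact hE2l) h3 (by linarith) h6 hq hp
      rw [Uc_symm] at h8
      linarith
  · rw [max_eq_right (by linarith : -4 * p ≤ 6 * p)]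
    rcases le_or_gt q 0 with hq | hq
    · rw [max_eq_left (by linarith : 6 * q ≤ -4 * q)]
      have h8 := key_S1 x y z B a b g E G p q hB ha hb hb' hg hg' hE2 hG2 hG2l h2 h4 h5
        hp hq
      linarith
    · rw [max_eq_right (by linarith : -4 * q ≤ 6 * q)]
      exact key_S2 x y z B a b g E G p q hB ha hb hg hg' hE2 hG2 h2 h3 h4 hp hq

/-- (module K2b) numerical form of the key inequality -/
theorem key_numeric (x y z B a b g E2 E4 G2 G4 K1 K2 K3 : ℝ)
    (hB : B = max 0 (max (-z) x)) (ha : x ≤ a) (ha' : a ≤ B) (hb : -z ≤ b) (hb' : b ≤ B)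
    (hg : 0 ≤ g) (hg' : g ≤ B) (hE2 : TwMin g a E2) (hE4 : TwMin g a E4) (hG2 : TwMin g b G2)
    (hG4 : TwMin g b G4) (hE : |E2 - E4| ≤ B - g) (hG : |G2 - G4| ≤ B - g)
    (hE2l : a - max x 0 ≤ E2) (hE2u : E2 ≤ a + max (-y) 0)
    (hE4l : a - max x 0 ≤ E4) (hE4u : E4 ≤ a + max (-y) 0)
    (hG2l : b - max (-z) 0 ≤ G2) (hG2u : G2 ≤ b + max y 0)
    (hG4l : b - max (-z) 0 ≤ G4) (hG4u : G4 ≤ b + max y 0)
    (hK1 : K1 = min (max (-y) 0 + G2) (max y 0 + E2))
    (hK3 : K3 = min (max (-y) 0 + G4) (max y 0 + E4))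
    (hK : TwMin (E2 + G4) (g + K2) (E4 + G2))
    (h1 : K2 ≤ K1 + E4 - E2) (h2 : K2 ≤ K3 + E2 - E4) (h3 : K2 ≤ K1 + G4 - G2)
    (h4 : K2 ≤ K3 + G2 - G4) :
    Fc (E2 - E4) (-max (-y) 0 + K1 - K2 + E4 - a) (max (-y) 0 + K2 - K3 + a - E2)
      + Fc (G2 - G4) (-max y 0 + K1 - K2 + G4 - b) (max y 0 + K2 - K3 + b - G2) ≤ Uc x y z := by
  have hBs : B = max 0 (max (- -x) (-z)) := by rw [hB, neg_neg, max_comm (-z) x]
  -- the case `E4 < E2` for all values
  have keyE : ∀ (x y z a b g E2 E4 G2 G4 K1 K2 K3 : ℝ),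
      B = max 0 (max (-z) x) → x ≤ a → -z ≤ b → b ≤ B →
      0 ≤ g → TwMin g a E2 → TwMin g a E4 → TwMin g b G2 →
      TwMin g b G4 → |E2 - E4| ≤ B - g →
      E2 ≤ a + max (-y) 0 → E4 ≤ a + max (-y) 0 →
      K1 = min (max (-y) 0 + G2) (max y 0 + E2) →
      K3 = min (max (-y) 0 + G4) (max y 0 + E4) →
      TwMin (E2 + G4) (g + K2) (E4 + G2) → E2 ≠ E4 →
      Fc (E2 - E4) (-max (-y) 0 + K1 - K2 + E4 - a) (max (-y) 0 + K2 - K3 + a - E2)
      + Fc (G2 - G4) (-max y 0 + K1 - K2 + G4 - b) (max y 0 + K2 - K3 + b - G2) ≤ Uc x y z := by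
    intro x y z a b g E2 E4 G2 G4 K1 K2 K3 hB ha hb hb' hg hE2 hE4 hG2 hG4 hE hE2u hE4u hK1 hK3
      hK hne
    rcases lt_or_gt_of_ne hne with h | h
    · have h8 := key_N x y z B a b g E4 E2 G4 G2 K3 K2 K1 hB ha hb hb' hg hE4 hE2 hG4 hG2
        (by rw [abs_sub_comm]; exact hE) hE4u hK3 hK1
        ⟨by rw [min_comm]; exact hK.2.2, by rw [min_comm]; exact hK.2.1,
          by rw [min_comm]; exact hK.1⟩ h
      rw [← Fc_symm1 (E4 - E2), ← Fc_symm1 (G4 - G2)] at h8
      convert h8 using 3 <;> ring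
    · exact key_N x y z B a b g E2 E4 G2 G4 K1 K2 K3 hB ha hb hb' hg hE2 hE4 hG2 hG4 hE hE2u
        hK1 hK3 hK h
  by_cases hEE : E2 = E4
  · by_cases hGG : G2 = G4
    · subst hEE
      subst hGG
      have hK13 : K3 = K1 := by rw [hK1, hK3]
      subst hK13
      have h8 := key_S x y z B a b g E2 G2 K3 K2 hB ha ha' hb hb' hg hg' hE2 hG2 hE2l hG2l hK1
        (by
          have := hK.2.1
          rwa [min_self] at this) (by linarith)
      convert h8 using 3 <;> ring
    · have h8 := keyE (-z) (-y) (-x) b a g G2 G4 E2 E4 K1 K2 K3 hBs hb (by linarith) ha' hg hG2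
        hG4 hE2 hE4 hG (by rw [neg_neg]; exact hG2u) (by rw [neg_neg]; exact hG4u)
        (by rw [neg_neg, min_comm]; exact hK1) (by rw [neg_neg, min_comm]; exact hK3)
        ⟨by rw [add_comm G2, add_comm G4, min_comm]; exact hK.2.2,
          by rw [add_comm G2, add_comm G4, min_comm]; exact hK.2.1,
          by rw [add_comm G2, add_comm G4, min_comm]; exact hK.1⟩ hGG
      rw [Uc_symm, neg_neg] at h8
      linarith
  · exact keyE x y z a b g E2 E4 G2 G4 K1 K2 K3 hB ha hb hb' hg hE2 hE4 hG2 hG4 hE hE2u hE4u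
      hK1 hK3 hK hEE

end RapidDecay
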