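import Mathlib
import Pool.Agent.Lib.MP_fee02f_an.Defs
import Pool.Agent.Lib.MP_fee02f_an.K2b

/-!
Module K2a: the exact key inequality for hives, read off from the numerical inequality.
-/

namespace RapidDecay

theorem K2a_tw_shift {p q r p' q' r' t : ℝ} (h : TwMin p q r) (hp : p' + t = p) (hq : q' + t = q)
    (hr : r' + t = r) : TwMin p' q' r' := by
  subst hp hq hr
  obtain ⟨h1, h2, h3⟩ := h
  rw [min_add_add_right] at h1 h2 h3
  exact ⟨by linarith, by linarith, by linarith⟩

theorem K2a_sl {P : Type*} {H : P → P → P → P → ℝ} (hH : IsHive H) (a b c s t : P) :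
    0 ≤ H s t a a + H s t b c - H s t a b - H s t a c := by
  have h1 := hH.pl s t a a b c
  rw [add_comm (H s t a c) (H s t a b), min_self] at h1
  linarith

theorem K2a_tw {P : Type*} {H : P → P → P → P → ℝ} (hH : IsHive H) (s t a b c d : P) :
    TwMin (H s t a b + H s t c d) (H s t a c + H s t b d) (H s t a d + H s t b c) := by
  have h1 := hH.pl s t a b c d
  have h2 := hH.pl s t a c b d
  have h3 := hH.pl s t a d b c
  rw [hH.s34 s t c b] at h2
  rw [hH.s34 s t d c, hH.s34 s t d b] at h3
  exact ⟨h3, h2, h1⟩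

/-- two nonnegative numbers with minimum zero and given difference -/
theorem K2a_two {p q x : ℝ} (hp : 0 ≤ p) (hq : 0 ≤ q) (h : min p q ≤ 0) (hx : p - q = x) :
    p = max x 0 ∧ q = max (-x) 0 := by
  rcases min_le_iff.1 h with h1 | h1
  · have h2 : p = 0 := le_antisymm h1 hp
    rw [max_eq_right (by linarith), max_eq_left (by linarith)]
    exact ⟨h2, by linarith⟩
  · have h2 : q = 0 := le_antisymm h1 hq
    rw [max_eq_left (by linarith), max_eq_right (by linarith)]
    exact ⟨by linarith, h2⟩

theorem K2a_three {p q r B y z : ℝ} (hp : 0 ≤ p) (hq : 0 ≤ q) (hr : 0 ≤ r)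
    (h : min p (min q r) ≤ 0) (h1 : p = B + y) (h2 : q = B) (h3 : r = B - z) :
    B = max 0 (max (-y) z) := by
  subst h1 h2 h3
  apply le_antisymm
  · rcases min_le_iff.1 h with h4 | h4
    · exact le_trans (by linarith) (le_trans (le_max_left _ _) (le_max_right _ _))
    · rcases min_le_iff.1 h4 with h5 | h5
      · exact le_trans h5 (le_max_left _ _)
      · exact le_trans (by linarith) (le_trans (le_max_right _ _) (le_max_right _ _))
  · exact max_le hq (max_le (by linarith) (by linarith))

/-- (module K2a) -/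
theorem key_exact {P : Type*} {H : P → P → P → P → ℝ} (hH : IsHive H) (a b c d : P)
    (hclose : SlClose H a b c a d c 0) (hcore : CoreLe H a b c 0) :
    cs H a b d + cs H c b d ≤ uc H a b c := by
  have S := K2a_sl hH
  have T := K2a_tw hH
  -- equal faces
  have hc : ∀ i, tsl H ![a, b, c] i = tsl H ![a, d, c] i := by
    intro i
    have h1 := abs_nonpos_iff.1 (hclose i)
    linarith
  have c1 := hc (0, 1, 2, 0, 0)
  have c2 := hc (0, 1, 2, 0, 2)
  have c3 := hc (2, 0, 1, 2, 2)
  have c4 := hc (0, 1, 1, 0, 0)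
  have c5 := hc (0, 1, 1, 2, 2)
  have c6 := hc (0, 1, 1, 0, 2)
  have c7 := hc (0, 1, 1, 0, 1)
  have c8 := hc (2, 1, 1, 2, 1)
  have c9 := hc (0, 1, 1, 1, 1)
  simp only [tsl, sl, Matrix.cons_val_zero, Matrix.cons_val_one, Matrix.cons_val] at c1 c2 c3 c4 c5 c6 c7 c8 c9
  obtain ⟨g11, g12, g13, g21, g22, g23, g31, g32, g33⟩ := hcore
  simp only [gm1, gm2, gm3, sl] at g11 g12 g13 g21 g22 g23 g31 g32 g33
  -- slacks of the face
  have a1 := S a b c b b
  have a2 := S a b c b c
  have a3 := S a b c c c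
  have a4 := S a b c a b
  have a5 := S a b c a c
  have a6 := S a b c a a
  have b1 := S b c a c c
  have b2 := S b c a c a
  have b3 := S b c a a a
  have b4 := S b c a b c
  have b5 := S b c a b a
  have b6 := S b c a b b
  have d1 := S c a b a a
  have d2 := S c a b a b
  have d3 := S c a b b b
  have d4 := S c a b c a
  have d5 := S c a b c b
  have d6 := S c a b c c
  -- further slacks
  have s1 := S a b d a a
  have s2 := S b a d a a
  have s3 := S c b d c c
  have s4 := S b c d c c
  have s5 := S b a d a c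
  have s6 := S d c b a b
  have s7 := S b c d a d
  have s8 := S d a b b c
  have s9 := S b a d c d
  have s10 := S a b d a b
  have s11 := S b a d a b
  have s12 := S a b d a d
  have s13 := S d a b a d
  have s14 := S c b d b c
  have s15 := S b c d b c
  have s16 := S c b d c d
  have s17 := S d c b c d
  have s18 := S b a d b b
  have s19 := S b c d b b
  have s20 := S d a b d d
  have s21 := S d c b d d
  have s22 := S b a d b d
  have s23 := S d a b b d
  have s24 := S b c d b d
  have s25 := S d c b b d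
  have p1 := hH.pl a c a c b d
  have p2 := hH.pl b b a c b d
  have p3 := hH.pl d d a c b d
  have t1 := T a b a b d c
  have t2 := T a d a d b c
  have t3 := T b c b c a d
  have t4 := T c d c d b a
  have t5 := T b d a b c d
  have o1 : om H a a b c = (H a a a b - H a a b b) + (H a b b c - H a b c c) + (H a c c a - H a c a a) := rfl
  have o2 : om H b a b c = (H b a a b - H b a b b) + (H b b b c - H b b c c) + (H b c c a - H b c a a) := rfl
  have o3 : om H c a b c = (H c a a b - H c a b b) + (H c b b c - H c b c c) + (H c c c a - H c c a a) := rfl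
  have q1 : om H a a b d = (H a a a b - H a a b b) + (H a b b d - H a b d d) + (H a d d a - H a d a a) := rfl
  have q2 : om H b a b d = (H b a a b - H b a b b) + (H b b b d - H b b d d) + (H b d d a - H b d a a) := rfl
  have q3 : om H d a b d = (H d a a b - H d a b b) + (H d b b d - H d b d d) + (H d d d a - H d d a a) := rfl
  have q4 : om H c c b d = (H c c c b - H c c b b) + (H c b b d - H c b d d) + (H c d d c - H c d c c) := rfl
  have q5 : om H b c b d = (H b c c b - H b c b b) + (H b b b d - H b b d d) + (H b d d c - H b d c c) := rfl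
  have q6 : om H d c b d = (H d c c b - H d c b b) + (H d b b d - H d b d d) + (H d d d c - H d d c c) := rfl
  have k12 := hH.s12
  have k23 := hH.s23
  have k34 := hH.s34
  clear hclose S T hc
  simp only [k12, k23, k34] at c1 c2 c3 c4 c5 c6 c7 c8 c9
  simp only [k12, k23, k34] at g11 g12 g13 g21 g22 g23 g31 g32 g33
  simp only [k12, k23, k34] at a1 a2 a3 a4 a5 a6 b1 b2 b3 b4 b5 b6 d1 d2 d3 d4 d5 d6
  simp only [k12, k23, k34] at s1 s2 s3 s4 s5 s6 s7 s8 s9 s10 s11 s12 s13 s14 s15 s16 s17 s18
  simp only [k12, k23, k34] at s19 s20 s21 s22 s23 s24 s25 p1 p2 p3 t1 t2 t3 t4 t5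
  simp only [k12, k23, k34] at o1 o2 o3 q1 q2 q3 q4 q5 q6
  unfold cs uc
  clear k12 k23 k34 hH
  generalize om H a a b c = x at *
  generalize om H b a b c = y at *
  generalize om H c a b c = z at *
  generalize om H a a b d = r1 at *
  generalize om H b a b d = r2 at *
  generalize om H d a b d = r3 at *
  generalize om H c c b d = r4 at *
  generalize om H b c b d = r5 at *
  generalize om H d c b d = r6 at *
  generalize H a a a a = n1111 at *
  generalize H a a a b = n1112 at *
  generalize H a a a c = n1113 at *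
  generalize H a a a d = n1114 at *
  generalize H a a b b = n1122 at *
  generalize H a a b c = n1123 at *
  generalize H a a b d = n1124 at *
  generalize H a a c c = n1133 at *
  generalize H a a c d = n1134 at *
  generalize H a a d d = n1144 at *
  generalize H a b b b = n1222 at *
  generalize H a b b c = n1223 at *
  generalize H a b b d = n1224 at *
  generalize H a b c c = n1233 at *
  generalize H a b c d = n1234 at *
  generalize H a b d d = n1244 at *
  generalize H a c c c = n1333 at *
  generalize H a c c d = n1334 at *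
  generalize H a c d d = n1344 at *
  generalize H a d d d = n1444 at *
  generalize H b b b b = n2222 at *
  generalize H b b b c = n2223 at *
  generalize H b b b d = n2224 at *
  generalize H b b c c = n2233 at *
  generalize H b b c d = n2234 at *
  generalize H b b d d = n2244 at *
  generalize H b c c c = n2333 at *
  generalize H b c c d = n2334 at *
  generalize H b c d d = n2344 at *
  generalize H b d d d = n2444 at *
  generalize H c c c c = n3333 at *
  generalize H c c c d = n3334 at *
  generalize H c c d d = n3344 at *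
  generalize H c d d d = n3444 at *
  generalize H d d d d = n4444 at *
  -- weights of the normalisation
  obtain ⟨w1, w2, w3, w4, e1, e2, e3, e4⟩ : ∃ w1 w2 w3 w4 : ℝ, n1123 + 2 * w1 + w2 + w3 = 0 ∧
      n1223 + w1 + 2 * w2 + w3 = 0 ∧ n1233 + w1 + w2 + 2 * w3 = 0 ∧
      n1134 + 2 * w1 + w3 + w4 = 0 :=
    ⟨-n1123 + (n1123 + n1223 + n1233) / 4, -n1223 + (n1123 + n1223 + n1233) / 4,
      -n1233 + (n1123 + n1223 + n1233) / 4,
      -n1134 - 2 * (-n1123 + (n1123 + n1223 + n1233) / 4)
        - (-n1233 + (n1123 + n1223 + n1233) / 4), by ring, by ring, by ring, by ring⟩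
  -- the core
  obtain ⟨B1, hB1⟩ : ∃ t, t = n1123 + n2233 - n1223 - n1233 := ⟨_, rfl⟩
  obtain ⟨B2, hB2⟩ : ∃ t, t = n1223 + n1133 - n1123 - n1233 := ⟨_, rfl⟩
  obtain ⟨B3, hB3⟩ : ∃ t, t = n1233 + n1122 - n1123 - n1223 := ⟨_, rfl⟩
  have m2 : B2 = max 0 (max (-z) x) :=
    K2a_three b1 b2 b3 g21 (by linarith) (by linarith) (by linarith)
  obtain ⟨u1, u2⟩ := K2a_two a4 a5 g12 (x := x) (by linarith)
  obtain ⟨u3, u4⟩ := K2a_two b4 b5 g22 (x := y) (by linarith)
  obtain ⟨u5, u6⟩ := K2a_two d4 d5 g32 (x := z) (by linarith)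
  have v1 : n1111 = n1112 + n1113 - n1123 := by linarith
  have v2 : n2222 = n2223 + n1222 - n1223 := by linarith
  have v3 : n3333 = n1333 + n2333 - n1233 := by linarith
  -- the numbers
  obtain ⟨A', hA'⟩ : ∃ t, t = n1124 + 2 * w1 + w2 + w4 - (B3 - B2) := ⟨_, rfl⟩
  obtain ⟨B', hB'⟩ : ∃ t, t = n2334 + w2 + 2 * w3 + w4 - (B1 - B2) := ⟨_, rfl⟩
  obtain ⟨G', hG'⟩ : ∃ t, t = n1234 + w1 + w2 + w3 + w4 + B2 := ⟨_, rfl⟩
  obtain ⟨E2, hE2⟩ : ∃ t, t = n1224 + w1 + 2 * w2 + w4 - (B3 - B2) := ⟨_, rfl⟩
  obtain ⟨E4, hE4⟩ : ∃ t, t = n1244 + w1 + w2 + 2 * w4 - (B3 - B2) := ⟨_, rfl⟩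
  obtain ⟨G2, hG2⟩ : ∃ t, t = n2234 + 2 * w2 + w3 + w4 - (B1 - B2) := ⟨_, rfl⟩
  obtain ⟨G4, hG4⟩ : ∃ t, t = n2344 + w2 + w3 + 2 * w4 - (B1 - B2) := ⟨_, rfl⟩
  obtain ⟨K1, hK1⟩ : ∃ t, t = n2224 + 3 * w2 + w4 - (B1 + B3 - B2) := ⟨_, rfl⟩
  obtain ⟨K2, hK2⟩ : ∃ t, t = n2244 + 2 * w2 + 2 * w4 - (B1 + B3 - B2) := ⟨_, rfl⟩
  obtain ⟨K3, hK3⟩ : ∃ t, t = n2444 + w2 + 3 * w4 - (B1 + B3 - B2) := ⟨_, rfl⟩
  have f1 : 0 ≤ G' := by
    rcases min_le_iff.1 p1 with h | h <;> linarith
  have k1 : K1 = min (max (-y) 0 + G2) (max y 0 + E2) := by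
    apply le_antisymm
    · exact le_min (by linarith) (by linarith)
    · rcases min_le_iff.1 p2 with h | h
      · exact (min_le_left _ _).trans (by linarith)
      · exact (min_le_right _ _).trans (by linarith)
  have k3 : K3 = min (max (-y) 0 + G4) (max y 0 + E4) := by
    apply le_antisymm
    · exact le_min (by linarith) (by linarith)
    · rcases min_le_iff.1 p3 with h | h
      · exact (min_le_right _ _).trans (by linarith)
      · exact (min_le_left _ _).trans (by linarith)
  have key := key_numeric x y z B2 A' B' G' E2 E4 G2 G4 K1 K2 K3 m2 (by linarith) (by linarith)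
    (by linarith) (by linarith) f1 (by linarith)
    (K2a_tw_shift t1 (t := -w1 * 3 - w2 * 3 - w3 - w4 + (B3 - B2)) (by linarith) (by linarith) (by linarith))
    (K2a_tw_shift t2 (t := -w1 * 3 - w2 - w3 - w4 * 3 + (B3 - B2)) (by linarith) (by linarith) (by linarith))
    (K2a_tw_shift t3 (t := -w1 - w2 * 3 - w3 * 3 - w4 + (B1 - B2)) (by linarith) (by linarith) (by linarith))
    (K2a_tw_shift t4 (t := -w1 - w2 - w3 * 3 - w4 * 3 + (B1 - B2)) (by linarith) (by linarith) (by linarith))
    (abs_le.2 ⟨by linarith, by linarith⟩) (abs_le.2 ⟨by linarith, by linarith⟩)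
    (by linarith) (by linarith) (by linarith) (by linarith)
    (by linarith) (by linarith) (by linarith) (by linarith) k1 k3
    (K2a_tw_shift t5 (t := -w1 - w2 * 3 - w3 - w4 * 3 + (B1 + B3 - 2 * B2)) (by linarith) (by linarith) (by linarith))
    (by linarith) (by linarith) (by linarith) (by linarith)
  have r1' : r1 = E2 - E4 := by linarith
  have r2' : r2 = -max (-y) 0 + K1 - K2 + E4 - A' := by linarith
  have r3' : r3 = max (-y) 0 + K2 - K3 + A' - E2 := by linarith
  have r4' : r4 = G2 - G4 := by linarith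
  have r5' : r5 = -max y 0 + K1 - K2 + G4 - B' := by linarith
  have r6' : r6 = max y 0 + K2 - K3 + B' - G2 := by linarith
  rw [r1', r2', r3', r4', r5', r6']
  exact key

end RapidDecay
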