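import Pool.Agent.Lib.MP_fee02f_an.K0a
import Pool.Agent.Lib.MP_fee02f_an.K1
import Pool.Agent.Lib.MP_fee02f_an.K2a

/-!
Module K3: the approximate key inequality, by compactness.
-/

set_option autoImplicit false

open scoped ENNReal

namespace RapidDecay

/-! ### normalisation -/

/-- the normalised function on four letters -/
noncomputable def K3_nf {P : Type*} (H : P → P → P → P → ℝ) (p : Fin 4 → P) (m : ℝ) :
    Fin 4 → Fin 4 → Fin 4 → Fin 4 → ℝ := fun i j k l =>
  m⁻¹ * (H (p i) (p j) (p k) (p l) - (H (p i) (p i) (p i) (p i) + H (p j) (p j) (p j) (p j) +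
    H (p k) (p k) (p k) (p k) + H (p l) (p l) (p l) (p l)) / 4)

section nf

variable {P : Type*} (H : P → P → P → P → ℝ) (p : Fin 4 → P) (m : ℝ)

theorem K3_sl (a b c s t : Fin 4) :
    sl (K3_nf H p m) a b c s t = m⁻¹ * sl H (p a) (p b) (p c) (p s) (p t) := by
  unfold sl K3_nf
  ring

theorem K3_ds (a b s t : Fin 4) :
    ds (K3_nf H p m) a b s t = m⁻¹ * ds H (p a) (p b) (p s) (p t) := by
  unfold ds K3_nf
  ring

theorem K3_dst (a b : Fin 4) : dst (K3_nf H p m) a b = m⁻¹ * dst H (p a) (p b) := by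
  unfold dst K3_nf
  ring

theorem K3_om (u a b c : Fin 4) :
    om (K3_nf H p m) u a b c = m⁻¹ * om H (p u) (p a) (p b) (p c) := by
  unfold om K3_nf
  ring

theorem K3_hive {H : P → P → P → P → ℝ} (hH : IsHive H) (hm : 0 < m) :
    IsHive (K3_nf H p m) := by
  have hm' : 0 ≤ m⁻¹ := (inv_pos.2 hm).le
  constructor
  · intro a b c d
    unfold K3_nf
    rw [hH.s12]
    ring
  · intro a b c d
    unfold K3_nf
    rw [hH.s23]
    ring
  · intro a b c d
    unfold K3_nf
    rw [hH.s34]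
    ring
  · intro s t a b c d
    have h := hH.pl (p s) (p t) (p a) (p b) (p c) (p d)
    set D : Fin 4 → ℝ := fun i => H (p i) (p i) (p i) (p i) with hD
    set L : ℝ := (2 * D s + 2 * D t + D a + D b + D c + D d) / 4 with hL
    have e1 : K3_nf H p m s t a c + K3_nf H p m s t b d =
        m⁻¹ * ((H (p s) (p t) (p a) (p c) + H (p s) (p t) (p b) (p d)) - L) := by
      unfold K3_nf
      simp only [hL, hD]
      ring
    have e2 : K3_nf H p m s t a d + K3_nf H p m s t b c =
        m⁻¹ * ((H (p s) (p t) (p a) (p d) + H (p s) (p t) (p b) (p c)) - L) := by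
      unfold K3_nf
      simp only [hL, hD]
      ring
    have e3 : K3_nf H p m s t a b + K3_nf H p m s t c d =
        m⁻¹ * ((H (p s) (p t) (p a) (p b) + H (p s) (p t) (p c) (p d)) - L) := by
      unfold K3_nf
      simp only [hL, hD]
      ring
    rw [e1, e2, e3]
    rcases min_le_iff.1 h with h1 | h1
    · refine (min_le_left _ _).trans ?_
      apply mul_le_mul_of_nonneg_left _ hm'
      linarith
    · refine (min_le_right _ _).trans ?_
      apply mul_le_mul_of_nonneg_left _ hm'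
      linarith

theorem K3_diag (i : Fin 4) : K3_nf H p m i i i i = 0 := by
  unfold K3_nf
  ring

end nf

/-! ### the compact set -/

/-- normalised hives with four letters, of diameter at most `4`, which violate the key inequality -/
def K3_S (δ : ℝ) : Set (Fin 4 → Fin 4 → Fin 4 → Fin 4 → ℝ) :=
  {G | IsHive G ∧ (∀ i, G i i i i = 0) ∧ (∀ i j, dst G i j ≤ 4) ∧
    uc G 0 1 2 + δ ≤ cs G 0 1 3 + cs G 2 1 3}

theorem K3_perm {P : Type*} {H : P → P → P → P → ℝ} (hH : IsHive H) (a b c d : P) :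
    H a b c d = H c d a b := by
  rw [hH.s23, hH.s12, hH.s34, hH.s23]

theorem K3_bound {δ : ℝ} {G : Fin 4 → Fin 4 → Fin 4 → Fin 4 → ℝ} (hG : G ∈ K3_S δ)
    (s t a b : Fin 4) : |G s t a b| ≤ 8 := by
  obtain ⟨hH, h0, hd, _⟩ := hG
  -- two letters
  have h2 : ∀ a b : Fin 4, -4 ≤ G a a b b ∧ G a a b b ≤ 0 := by
    intro a b
    have e1 : dst G a b = - G a a a b - G a b b b := by
      unfold dst
      rw [h0 a, h0 b]
      ring
    have e2 : ds G a b a b = G a a a b + G a b b b - 2 * G a a b b := by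
      unfold ds
      rw [hH.s12 a b a a, hH.s23 b a a a, hH.s34 b a a a]
      have h1 : G b a a a = G a a a b := by
        rw [hH.s12, hH.s23, hH.s34]
      have h3 : G a b a b = G a a b b := hH.s23 a b a b
      rw [h1, h3]
    have h4 := ds_nonneg hH a b a b
    have h5 := ds_le_dst hH a b a b
    have h6 := dst_nonneg hH a b
    have h7 := hd a b
    constructor
    · linarith
    · linarith
  have h3 : ∀ a s t : Fin 4, -6 ≤ G a a s t ∧ G a a s t ≤ 0 := by
    intro a s t
    have e1 : ds G s t a a = G a a s s + G a a t t - 2 * G a a s t := rfl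
    have h4 := ds_nonneg hH s t a a
    have h5 := ds_le_dst hH s t a a
    have h7 := hd s t
    have h8 := h2 a s
    have h9 := h2 a t
    constructor
    · linarith
    · linarith
  have e1 : ds G a b s t = G s t a a + G s t b b - 2 * G s t a b := rfl
  have h4 := ds_nonneg hH a b s t
  have h5 := ds_le_dst hH a b s t
  have h7 := hd a b
  have h8 := h3 a s t
  have h9 := h3 b s t
  rw [← K3_perm hH s t a a] at h8
  rw [← K3_perm hH s t b b] at h9
  rw [abs_le]
  constructor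
  · linarith
  · linarith

theorem K3_cont (i j k l : Fin 4) :
    Continuous fun G : Fin 4 → Fin 4 → Fin 4 → Fin 4 → ℝ => G i j k l := by fun_prop

theorem K3_sl_cont (a b c s t : Fin 4) :
    Continuous fun G : Fin 4 → Fin 4 → Fin 4 → Fin 4 → ℝ => sl G a b c s t := by
  unfold sl
  fun_prop

theorem K3_dst_cont (a b : Fin 4) :
    Continuous fun G : Fin 4 → Fin 4 → Fin 4 → Fin 4 → ℝ => dst G a b := by
  unfold dst
  fun_prop

theorem K3_om_cont (u a b c : Fin 4) :
    Continuous fun G : Fin 4 → Fin 4 → Fin 4 → Fin 4 → ℝ => om G u a b c := by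
  unfold om
  fun_prop

theorem K3_cs_cont (a b c : Fin 4) :
    Continuous fun G : Fin 4 → Fin 4 → Fin 4 → Fin 4 → ℝ => cs G a b c := by
  have h1 := K3_om_cont a a b c
  have h2 := K3_om_cont b a b c
  have h3 := K3_om_cont c a b c
  unfold cs Fc
  fun_prop

theorem K3_uc_cont (a b c : Fin 4) :
    Continuous fun G : Fin 4 → Fin 4 → Fin 4 → Fin 4 → ℝ => uc G a b c := by
  have h1 := K3_om_cont a a b c
  have h2 := K3_om_cont b a b c
  have h3 := K3_om_cont c a b c
  unfold uc Uc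
  fun_prop

theorem K3_closed (δ : ℝ) : IsClosed (K3_S δ) := by
  have e : K3_S δ = {G | (∀ a b c d, G a b c d = G b a c d) ∧ (∀ a b c d, G a b c d = G a c b d) ∧
      (∀ a b c d, G a b c d = G a b d c) ∧
      (∀ s t a b c d, min (G s t a c + G s t b d) (G s t a d + G s t b c)
        ≤ G s t a b + G s t c d) ∧ (∀ i, G i i i i = 0) ∧ (∀ i j, dst G i j ≤ 4) ∧
      uc G 0 1 2 + δ ≤ cs G 0 1 3 + cs G 2 1 3} := by
    ext G
    constructor
    · rintro ⟨⟨h1, h2, h3, h4⟩, h5, h6, h7⟩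
      exact ⟨h1, h2, h3, h4, h5, h6, h7⟩
    · rintro ⟨h1, h2, h3, h4, h5, h6, h7⟩
      exact ⟨⟨h1, h2, h3, h4⟩, h5, h6, h7⟩
  rw [e]
  simp only [Set.ofPred_and, Set.ofPred_forall]
  refine IsClosed.inter ?_ (IsClosed.inter ?_ (IsClosed.inter ?_ (IsClosed.inter ?_
    (IsClosed.inter ?_ (IsClosed.inter ?_ ?_)))))
  · exact isClosed_iInter fun a => isClosed_iInter fun b => isClosed_iInter fun c =>
      isClosed_iInter fun d => isClosed_eq (K3_cont _ _ _ _) (K3_cont _ _ _ _)
  · exact isClosed_iInter fun a => isClosed_iInter fun b => isClosed_iInter fun c =>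
      isClosed_iInter fun d => isClosed_eq (K3_cont _ _ _ _) (K3_cont _ _ _ _)
  · exact isClosed_iInter fun a => isClosed_iInter fun b => isClosed_iInter fun c =>
      isClosed_iInter fun d => isClosed_eq (K3_cont _ _ _ _) (K3_cont _ _ _ _)
  · refine isClosed_iInter fun s => isClosed_iInter fun t => isClosed_iInter fun a =>
      isClosed_iInter fun b => isClosed_iInter fun c => isClosed_iInter fun d => ?_
    apply isClosed_le
    · exact ((K3_cont _ _ _ _).add (K3_cont _ _ _ _)).min ((K3_cont _ _ _ _).add (K3_cont _ _ _ _))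
    · exact (K3_cont _ _ _ _).add (K3_cont _ _ _ _)
  · exact isClosed_iInter fun a => isClosed_eq (K3_cont _ _ _ _) continuous_const
  · exact isClosed_iInter fun a => isClosed_iInter fun b =>
      isClosed_le (K3_dst_cont _ _) continuous_const
  · exact isClosed_le ((K3_uc_cont _ _ _).add continuous_const)
      ((K3_cs_cont _ _ _).add (K3_cs_cont _ _ _))

theorem K3_compact (δ : ℝ) : IsCompact (K3_S δ) := by
  apply Metric.isCompact_of_isClosed_isBounded (K3_closed δ)
  rw [Metric.isBounded_iff_subset_closedBall 0]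
  refine ⟨8, fun G hG => ?_⟩
  rw [mem_closedBall_zero_iff]
  refine (pi_norm_le_iff_of_nonneg (by norm_num)).2 fun s => ?_
  refine (pi_norm_le_iff_of_nonneg (by norm_num)).2 fun t => ?_
  refine (pi_norm_le_iff_of_nonneg (by norm_num)).2 fun a => ?_
  refine (pi_norm_le_iff_of_nonneg (by norm_num)).2 fun b => ?_
  rw [Real.norm_eq_abs]
  exact K3_bound hG s t a b

/-- the part of the compact set in which the hypotheses hold up to `k` -/
def K3_T (δ k : ℝ) : Set (Fin 4 → Fin 4 → Fin 4 → Fin 4 → ℝ) :=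
  {G | G ∈ K3_S δ ∧ SlClose G 0 1 2 0 3 2 k ∧ CoreLe G 0 1 2 k}

theorem K3_T_closed (δ k : ℝ) : IsClosed (K3_T δ k) := by
  have h1 : ∀ q : Fin 3 → Fin 4, ∀ i, Continuous fun G : Fin 4 → Fin 4 → Fin 4 → Fin 4 → ℝ =>
      tsl G q i := fun q i => K3_sl_cont _ _ _ _ _
  have g1 : ∀ a b c : Fin 4, Continuous fun G : Fin 4 → Fin 4 → Fin 4 → Fin 4 → ℝ =>
      gm1 G a b c := fun a b c =>
    (K3_sl_cont _ _ _ _ _).min ((K3_sl_cont _ _ _ _ _).min (K3_sl_cont _ _ _ _ _))
  have g2 : ∀ a b c : Fin 4, Continuous fun G : Fin 4 → Fin 4 → Fin 4 → Fin 4 → ℝ =>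
      gm2 G a b c := fun a b c => (K3_sl_cont _ _ _ _ _).min (K3_sl_cont _ _ _ _ _)
  have g3 : ∀ a b c : Fin 4, Continuous fun G : Fin 4 → Fin 4 → Fin 4 → Fin 4 → ℝ =>
      gm3 G a b c := fun a b c => K3_sl_cont _ _ _ _ _
  unfold K3_T SlClose CoreLe
  simp only [Set.ofPred_and, Set.ofPred_forall]
  refine IsClosed.inter (K3_closed δ) (IsClosed.inter ?_ ?_)
  · exact isClosed_iInter fun i => isClosed_le ((h1 _ _).sub (h1 _ _)).abs continuous_const
  · refine IsClosed.inter ?_ (IsClosed.inter ?_ (IsClosed.inter ?_ (IsClosed.inter ?_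
      (IsClosed.inter ?_ (IsClosed.inter ?_ (IsClosed.inter ?_ (IsClosed.inter ?_ ?_)))))))
    · exact isClosed_le (g1 _ _ _) continuous_const
    · exact isClosed_le (g2 _ _ _) continuous_const
    · exact isClosed_le (g3 _ _ _) continuous_const
    · exact isClosed_le (g1 _ _ _) continuous_const
    · exact isClosed_le (g2 _ _ _) continuous_const
    · exact isClosed_le (g3 _ _ _) continuous_const
    · exact isClosed_le (g1 _ _ _) continuous_const
    · exact isClosed_le (g2 _ _ _) continuous_const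
    · exact isClosed_le (g3 _ _ _) continuous_const

theorem K3_CoreLe_mono {P : Type*} {H : P → P → P → P → ℝ} {a b c : P} {k k' : ℝ} (h : k ≤ k')
    (hc : CoreLe H a b c k) : CoreLe H a b c k' := by
  obtain ⟨h1, h2, h3, h4, h5, h6, h7, h8, h9⟩ := hc
  exact ⟨h1.trans h, h2.trans h, h3.trans h, h4.trans h, h5.trans h, h6.trans h, h7.trans h,
    h8.trans h, h9.trans h⟩

theorem K3_T_mono {δ k k' : ℝ} (h : k ≤ k') : K3_T δ k ⊆ K3_T δ k' :=
  fun _ hG => ⟨hG.1, fun i => (hG.2.1 i).trans h, K3_CoreLe_mono h hG.2.2⟩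

theorem K3_empty {δ : ℝ} (hδ : 0 < δ) : ∃ n : ℕ, K3_T δ (1 / ((n : ℝ) + 1)) = ∅ := by
  by_contra hcon
  push Not at hcon
  have h1 := IsCompact.nonempty_iInter_of_sequence_nonempty_isCompact_isClosed
    (fun n : ℕ => K3_T δ (1 / ((n : ℝ) + 1)))
    (fun n => K3_T_mono (by
      apply one_div_le_one_div_of_le
      · positivity
      · push_cast
        linarith))
    hcon
    ((K3_compact δ).of_isClosed_subset (K3_T_closed δ _) (fun G hG => hG.1))
    (fun n => K3_T_closed δ _)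
  obtain ⟨G, hG⟩ := h1
  rw [Set.mem_iInter] at hG
  have hlim : ∀ r : ℝ, (∀ n : ℕ, r ≤ 1 / ((n : ℝ) + 1)) → r ≤ 0 := by
    intro r hr
    by_contra hr0
    push Not at hr0
    obtain ⟨n, hn⟩ := exists_nat_one_div_lt hr0
    exact absurd (hr n) (not_le.2 hn)
  have h2 := (hG 0).1
  obtain ⟨hH, _, _, h3⟩ := h2
  have h4 : SlClose G 0 1 2 0 3 2 0 := fun i => hlim _ (fun n => (hG n).2.1 i)
  have h5 : CoreLe G 0 1 2 0 := by
    refine ⟨?_, ?_, ?_, ?_, ?_, ?_, ?_, ?_, ?_⟩
    · exact hlim _ (fun n => (hG n).2.2.1)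
    · exact hlim _ (fun n => (hG n).2.2.2.1)
    · exact hlim _ (fun n => (hG n).2.2.2.2.1)
    · exact hlim _ (fun n => (hG n).2.2.2.2.2.1)
    · exact hlim _ (fun n => (hG n).2.2.2.2.2.2.1)
    · exact hlim _ (fun n => (hG n).2.2.2.2.2.2.2.1)
    · exact hlim _ (fun n => (hG n).2.2.2.2.2.2.2.2.1)
    · exact hlim _ (fun n => (hG n).2.2.2.2.2.2.2.2.2.1)
    · exact hlim _ (fun n => (hG n).2.2.2.2.2.2.2.2.2.2)
  have h6 := key_exact hH 0 1 2 3 h4 h5
  linarith

theorem key_approx (δ : ℝ) (hδ : 0 < δ) :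
    ∃ κ : ℝ, 0 < κ ∧ ∀ (P : Type*) (H : P → P → P → P → ℝ), IsHive H →
      ∀ (m : ℝ), 0 < m → ∀ a b c d : P,
      dst H a b ≤ 4 * m → dst H a c ≤ 4 * m → dst H a d ≤ 4 * m → dst H b c ≤ 4 * m →
      dst H b d ≤ 4 * m → dst H c d ≤ 4 * m →
      SlClose H a b c a d c (κ * m) → CoreLe H a b c (κ * m) →
      cs H a b d + cs H c b d ≤ uc H a b c + δ * m := by
  obtain ⟨n, hn⟩ := K3_empty hδ
  refine ⟨1 / ((n : ℝ) + 1), by positivity, ?_⟩
  intro P H hH m hm a b c d hab hac had hbc hbd hcd hcl hco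
  by_contra hcon
  push Not at hcon
  have hm' : 0 < m⁻¹ := inv_pos.2 hm
  have hmm : m⁻¹ * m = 1 := inv_mul_cancel₀ hm.ne'
  set p : Fin 4 → P := ![a, b, c, d] with hp
  have hcs : ∀ i j k : Fin 4, cs (K3_nf H p m) i j k = m⁻¹ * cs H (p i) (p j) (p k) := by
    intro i j k
    unfold cs
    rw [K3_om, K3_om, K3_om, Fc_smul _ _ _ _ hm'.le]
  have huc : ∀ i j k : Fin 4, uc (K3_nf H p m) i j k = m⁻¹ * uc H (p i) (p j) (p k) := by
    intro i j k
    unfold uc
    rw [K3_om, K3_om, K3_om, Uc_smul _ _ _ _ hm'.le]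
  have hd4 : ∀ i j : Fin 4, dst H (p i) (p j) ≤ 4 * m := by
    have h0 : ∀ x : P, dst H x x ≤ 4 * m := fun x => by rw [dst_self hH]; positivity
    intro i j
    fin_cases i <;> fin_cases j
    · exact h0 a
    · exact hab
    · exact hac
    · exact had
    · exact (dst_comm hH a b).le.trans hab
    · exact h0 b
    · exact hbc
    · exact hbd
    · exact (dst_comm hH a c).le.trans hac
    · exact (dst_comm hH b c).le.trans hbc
    · exact h0 c
    · exact hcd
    · exact (dst_comm hH a d).le.trans had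
    · exact (dst_comm hH b d).le.trans hbd
    · exact (dst_comm hH c d).le.trans hcd
    · exact h0 d
  have hscale : ∀ r k : ℝ, r ≤ k * m → m⁻¹ * r ≤ k := by
    intro r k hr
    calc m⁻¹ * r ≤ m⁻¹ * (k * m) := mul_le_mul_of_nonneg_left hr hm'.le
      _ = k := by rw [mul_comm k m, ← mul_assoc, hmm, one_mul]
  have hg1 : ∀ i j k : Fin 4, gm1 (K3_nf H p m) i j k = m⁻¹ * gm1 H (p i) (p j) (p k) := by
    intro i j k
    unfold gm1
    rw [K3_sl, K3_sl, K3_sl, mul_min_of_nonneg _ _ hm'.le, mul_min_of_nonneg _ _ hm'.le]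
  have hg2 : ∀ i j k : Fin 4, gm2 (K3_nf H p m) i j k = m⁻¹ * gm2 H (p i) (p j) (p k) := by
    intro i j k
    unfold gm2
    rw [K3_sl, K3_sl, mul_min_of_nonneg _ _ hm'.le]
  have hg3 : ∀ i j k : Fin 4, gm3 (K3_nf H p m) i j k = m⁻¹ * gm3 H (p i) (p j) (p k) := by
    intro i j k
    unfold gm3
    rw [K3_sl]
  have hmem : K3_nf H p m ∈ K3_T δ (1 / ((n : ℝ) + 1)) := by
    refine ⟨⟨K3_hive p m hH hm, K3_diag H p m, ?_, ?_⟩, ?_, ?_⟩
    · intro i j
      rw [K3_dst]
      exact hscale _ _ (hd4 i j)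
    · rw [hcs, hcs, huc]
      have h1 : m⁻¹ * (uc H a b c + δ * m) ≤ m⁻¹ * (cs H a b d + cs H c b d) :=
        mul_le_mul_of_nonneg_left hcon.le hm'.le
      have h2 : m⁻¹ * (δ * m) = δ := by rw [mul_comm δ m, ← mul_assoc, hmm, one_mul]
      rw [mul_add, mul_add, h2] at h1
      exact h1
    · intro i
      have e : ∀ q : Fin 3 → Fin 4, tsl (K3_nf H p m) q i = m⁻¹ * tsl H (fun x => p (q x)) i := by
        intro q
        unfold tsl
        rw [K3_sl]
      rw [e, e, ← mul_sub, abs_mul, abs_of_pos hm']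
      apply hscale
      have e1 : (fun x => p ((![0, 1, 2] : Fin 3 → Fin 4) x)) = ![a, b, c] := by
        funext x
        fin_cases x <;> rfl
      have e2 : (fun x => p ((![0, 3, 2] : Fin 3 → Fin 4) x)) = ![a, d, c] := by
        funext x
        fin_cases x <;> rfl
      rw [e1, e2]
      exact hcl i
    · obtain ⟨h1, h2, h3, h4, h5, h6, h7, h8, h9⟩ := hco
      refine ⟨?_, ?_, ?_, ?_, ?_, ?_, ?_, ?_, ?_⟩
      · rw [hg1]; exact hscale _ _ h1
      · rw [hg2]; exact hscale _ _ h2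
      · rw [hg3]; exact hscale _ _ h3
      · rw [hg1]; exact hscale _ _ h4
      · rw [hg2]; exact hscale _ _ h5
      · rw [hg3]; exact hscale _ _ h6
      · rw [hg1]; exact hscale _ _ h7
      · rw [hg2]; exact hscale _ _ h8
      · rw [hg3]; exact hscale _ _ h9
  rw [hn] at hmem
  exact hmem

end RapidDecay
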