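import Mathlib
import Pool.Agent.Lib.MP_fee02f_an.R2
import Pool.Agent.Lib.MP_fee02f_an.R4
import Pool.Agent.Lib.MP_fee02f_an.R3
import Pool.Agent.Lib.MP_fee02f_an.R7a

/-!
# R8a : one group of one factor is long
-/

open scoped ENNReal

namespace RapidDecay

section
variable {Γ : Type*} [Group Γ] {ι : Type*} [Fintype ι] {X : ι → Type*} [∀ i, MulAction Γ (X i)]
  (S : ∀ i, HiveSpace Γ (X i)) {w : (∀ i, X i) → ℝ≥0∞}

theorem R8a_sum {ι : Type*} [Fintype ι] (f g : ι → ℝ) (i : ι) (h : ∀ j, j ≠ i → f j = g j) :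
    ∑ j, f j = ∑ j, g j + (f i - g i) := by
  classical
  rw [← Finset.add_sum_erase Finset.univ f (Finset.mem_univ i),
    ← Finset.add_sum_erase Finset.univ g (Finset.mem_univ i)]
  have : ∑ j ∈ Finset.univ.erase i, f j = ∑ j ∈ Finset.univ.erase i, g j :=
    Finset.sum_congr rfl fun j hj => h j (Finset.ne_of_mem_erase hj)
  rw [this]
  ring

/-- first vertex -/
theorem move_long (hw : IsWt Γ w) {T T' : Set ((∀ i, X i) × (∀ i, X i) × (∀ i, X i))}
    (hT : InvT Γ T) (hT' : InvT Γ T') (i : ι) (r k : ℕ)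
    (h : ∀ x y z, (x, y, z) ∈ T → GroupGe (S i).H (x i) (y i) (z i) r k ∧
      ∀ x' : ∀ j, X j, (∀ j, j ≠ i → x' j = x j) → x' i = (S i).mv r k (x i) (y i) →
        pY S (x', y, z) = pY S (x, y, z) - 2 * k → cY S (x', y, z) = cY S (x, y, z) →
        (x', y, z) ∈ T')
    {C : ℝ≥0∞} (hB : Bd Γ w T' C) : Bd Γ w T C := by
  classical
  set μ : (∀ i, X i) → (∀ i, X i) → (∀ i, X i) :=
    fun x y => Function.update x i ((S i).mv r k (x i) (y i)) with hμ
  have hμs : ∀ (g : Γ) (x y : ∀ i, X i), μ (g • x) (g • y) = g • μ x y := by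
    intro g x y
    funext j
    by_cases hj : j = i
    · subst hj
      rw [hμ]
      simp only [Function.update_self, Pi.smul_apply]
      exact (S j).mv_smul g r k (x j) (y j)
    · rw [hμ]
      simp only [Function.update_of_ne hj, Pi.smul_apply]
  refine Bd.move hw hT hT' μ μ hμs hμs ?_ hB
  intro x y z hxyz
  obtain ⟨hG, hmem⟩ := h x y z hxyz
  refine ⟨?_, ?_⟩
  · rw [hμ]
    simp only
    rw [(S i).mv_eq r k (x i) (y i) (z i) hG]
  · have hi : μ x y i = (S i).mv r k (x i) (y i) := by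
      rw [hμ]
      simp only [Function.update_self]
    have hj : ∀ j, j ≠ i → μ x y j = x j := by
      intro j hj
      rw [hμ]
      simp only [Function.update_of_ne hj]
    obtain ⟨-, -, hp, hc⟩ := mv_pm (S i) r k (x i) (y i) (z i) hG
    refine hmem (μ x y) hj hi ?_ ?_
    · unfold pY
      simp only
      rw [R8a_sum (fun j => pm (S j).H (μ x y j) (y j) (z j))
        (fun j => pm (S j).H (x j) (y j) (z j)) i (fun j hj' => by rw [hj j hj']), hi, hp]
      ring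
    · unfold cY
      simp only
      rw [R8a_sum (fun j => cs (S j).H (μ x y j) (y j) (z j))
        (fun j => cs (S j).H (x j) (y j) (z j)) i (fun j hj' => by rw [hj j hj']), hi, hc]
      ring

theorem R8a_pY_rot (x y z : ∀ i, X i) : pY S (y, z, x) = pY S (x, y, z) := by
  unfold pY
  exact Finset.sum_congr rfl fun i _ => pm_rot (S i).H (x i) (y i) (z i)

theorem R8a_cY_rot (x y z : ∀ i, X i) : cY S (y, z, x) = cY S (x, y, z) := by
  unfold cY
  exact Finset.sum_congr rfl fun i _ => cs_rot (S i).H (x i) (y i) (z i)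

theorem R8a_first (hw : IsWt Γ w) {T T' : Set ((∀ i, X i) × (∀ i, X i) × (∀ i, X i))}
    (hT : InvT Γ T) (hT' : InvT Γ T') (i : ι) (r k : ℕ)
    (hmem : ∀ t ∈ T, ∀ t', pY S t' = pY S t - 2 * k → cY S t' = cY S t → t' ∈ T')
    (h : ∀ t ∈ T, GroupGe (S i).H (t.1 i) (t.2.1 i) (t.2.2 i) r k)
    {C : ℝ≥0∞} (hB : Bd Γ w T' C) : Bd Γ w T C := by
  refine move_long S hw hT hT' i r k ?_ hB
  intro x y z hxyz
  exact ⟨h _ hxyz, fun x' _ _ hp hc => hmem _ hxyz _ hp hc⟩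

/-- a long group at any of the three vertices -/
theorem R8a_any (hw : IsWt Γ w) {T T' : Set ((∀ i, X i) × (∀ i, X i) × (∀ i, X i))}
    (hT : InvT Γ T) (hT' : InvT Γ T') (i : ι) (r k : ℕ)
    (hmem : ∀ t ∈ T, ∀ t', pY S t' = pY S t - 2 * k → cY S t' = cY S t → t' ∈ T')
    (h : (∀ t ∈ T, GroupGe (S i).H (t.1 i) (t.2.1 i) (t.2.2 i) r k) ∨
      (∀ t ∈ T, GroupGe (S i).H (t.2.1 i) (t.2.2 i) (t.1 i) r k) ∨
      (∀ t ∈ T, GroupGe (S i).H (t.2.2 i) (t.1 i) (t.2.1 i) r k))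
    {C : ℝ≥0∞} (hB : Bd Γ w T' C) : Bd Γ w T C := by
  rcases h with h | h | h
  · exact R8a_first S hw hT hT' i r k hmem h hB
  · -- the triples `(y, z, x)`
    set T2 : Set ((∀ i, X i) × (∀ i, X i) × (∀ i, X i)) := {t | (t.2.2, t.1, t.2.1) ∈ T} with hT2
    have hI2 : InvT Γ T2 := by
      intro g a b c
      exact hT g c a b
    have hB2 : Bd Γ w T2 C := by
      refine R8a_first S hw hI2 hT' i r k ?_ ?_ hB
      · rintro ⟨a, b, c⟩ ht t' hp hc
        refine hmem _ ht t' ?_ ?_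
        · rw [hp, ← R8a_pY_rot S c a b]
        · rw [hc, ← R8a_cY_rot S c a b]
      · rintro ⟨a, b, c⟩ ht
        exact h _ ht
    exact Bd.rot hw hI2 hB2
  · set T2 : Set ((∀ i, X i) × (∀ i, X i) × (∀ i, X i)) := {t | (t.2.1, t.2.2, t.1) ∈ T} with hT2
    have hI2 : InvT Γ T2 := by
      intro g a b c
      exact hT g b c a
    have hB2 : Bd Γ w T2 C := by
      refine R8a_first S hw hI2 hT' i r k ?_ ?_ hB
      · rintro ⟨a, b, c⟩ ht t' hp hc
        refine hmem _ ht t' ?_ ?_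
        · rw [hp, R8a_pY_rot S a b c]
        · rw [hc, R8a_cY_rot S a b c]
      · rintro ⟨a, b, c⟩ ht
        exact h _ ht
    have hI3 : InvT Γ {t : (∀ i, X i) × (∀ i, X i) × (∀ i, X i) | (t.2.1, t.2.2, t.1) ∈ T2} := by
      intro g a b c
      exact hT g c a b
    exact Bd.rot hw hI3 (Bd.rot hw hI2 hB2)

/-- triples of perimeter at most `m` all of which have a long group, at the vertex `e` -/
theorem case_move (hw : IsWt Γ w) {T : Set ((∀ i, X i) × (∀ i, X i) × (∀ i, X i))}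
    (hT : InvT Γ T) (m : ℝ) (hm : T ⊆ TP S m) (i : ι) (r ε : ℕ)
    (h : (∀ t ∈ T, GroupGe (S i).H (t.1 i) (t.2.1 i) (t.2.2 i) r ε) ∨
      (∀ t ∈ T, GroupGe (S i).H (t.2.1 i) (t.2.2 i) (t.1 i) r ε) ∨
      (∀ t ∈ T, GroupGe (S i).H (t.2.2 i) (t.1 i) (t.2.1 i) r ε))
    {C : ℝ≥0∞} (hB : Bd Γ w (TP S (m - 2 * ε)) C) : Bd Γ w T C := by
  refine R8a_any S hw hT (invT_TP S _) i r ε ?_ h hB
  intro t ht t' hp _
  have h1 : pY S t ≤ m := hm ht
  change pY S t' ≤ m - 2 * ε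
  linarith

end

end RapidDecay
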