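import Mathlib
import Pool.Agent.Lib.MP_fee02f_an.Defs

/-!
Module K0c: rotation of cores and closeness; the core parameters of close triples.
-/

namespace RapidDecay

variable {P : Type*} {H : P → P → P → P → ℝ}

theorem CoreLe_rot (H : P → P → P → P → ℝ) (a b c : P) (k : ℝ) :
    CoreLe H b c a k ↔ CoreLe H a b c k := by
  unfold CoreLe
  tauto

theorem SlClose_rot (H : P → P → P → P → ℝ) (a b c a' b' c' : P) (k : ℝ)
    (h : SlClose H a b c a' b' c' k) : SlClose H b c a b' c' a' k := by
  have e : ∀ (x y z : P) (i : Fin 3), (![y, z, x] : Fin 3 → P) i = ![x, y, z] (i + 1) := by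
    intro x y z i
    fin_cases i <;> rfl
  intro i
  have h1 := h (i.1 + 1, i.2.1 + 1, i.2.2.1 + 1, i.2.2.2.1 + 1, i.2.2.2.2 + 1)
  unfold tsl at h1 ⊢
  rw [e a b c i.1, e a b c i.2.1, e a b c i.2.2.1, e a b c i.2.2.2.1, e a b c i.2.2.2.2,
    e a' b' c' i.1, e a' b' c' i.2.1, e a' b' c' i.2.2.1, e a' b' c' i.2.2.2.1,
    e a' b' c' i.2.2.2.2]
  exact h1

/-- the core parameter is a difference of two slacks -/
theorem K0c_om (hH : IsHive H) (u a b c : P) :
    sl H a b c u b - sl H a b c u c = om H u a b c := by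
  unfold sl om
  have e1 : H u b a a = H u a a b := by rw [hH.s23 u b a a, hH.s34 u a b a]
  have e2 : H u b b c = H u b b c := rfl
  have e3 : H u b a b = H u a b b := by rw [hH.s23 u b a b]
  have e4 : H u b a c = H u b a c := rfl
  have e5 : H u c a a = H u c a a := rfl
  have e6 : H u c b c = H u b c c := by rw [hH.s23 u c b c]
  have e7 : H u c a b = H u b a c := by
    rw [hH.s23 u c a b, hH.s34 u a c b, hH.s23 u a b c]
  have e8 : H u c a c = H u c a c := rfl
  have e9 : H u c c a = H u c a c := by rw [hH.s34 u c c a]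
  rw [e1, e3, e6, e7, e9]
  ring

theorem om_close (hH : IsHive H) (a b c a' b' c' : P) (k : ℝ)
    (h : SlClose H a b c a' b' c' k) :
    |om H a a b c - om H a' a' b' c'| ≤ 2 * k ∧ |om H b a b c - om H b' a' b' c'| ≤ 2 * k ∧
      |om H c a b c - om H c' a' b' c'| ≤ 2 * k := by
  have key : ∀ i : Fin 3, |om H (![a, b, c] i) a b c - om H (![a', b', c'] i) a' b' c'| ≤ 2 * k := by
    intro i
    have h1 := abs_le.mp (h (0, 1, 2, i, 1))
    have h2 := abs_le.mp (h (0, 1, 2, i, 2))
    unfold tsl at h1 h2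
    have e1 := K0c_om hH (![a, b, c] i) a b c
    have e2 := K0c_om hH (![a', b', c'] i) a' b' c'
    simp only [Matrix.cons_val_zero, Matrix.cons_val_one, Matrix.cons_val_two, Matrix.cons_val,
      Matrix.head_cons, Matrix.tail_cons] at h1 h2
    rw [abs_le]
    constructor <;> linarith [h1.1, h1.2, h2.1, h2.2]
  exact ⟨key 0, key 1, key 2⟩

end RapidDecay
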