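import Mathlib
import Pool.Agent.Lib.MP_fee02f_an.R8a

/-!
# R8b : reduction of arms
-/

open scoped ENNReal

namespace RapidDecay

section
variable {Γ : Type*} [Group Γ] {ι : Type*} [Fintype ι] {X : ι → Type*} [∀ i, MulAction Γ (X i)]
  (S : ∀ i, HiveSpace Γ (X i)) {w : (∀ i, X i) → ℝ≥0∞}

/-- the triple rotated so that the vertex `e` comes first -/
def R8b_v (e : Fin 3) (t : (∀ i, X i) × (∀ i, X i) × (∀ i, X i)) :
    (∀ i, X i) × (∀ i, X i) × (∀ i, X i) :=
  if e = 0 then t else if e = 1 then (t.2.1, t.2.2, t.1) else (t.2.2, t.1, t.2.1)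

/-- triples with a long group -/
def R8b_T (s M : ℝ) (ε : ℕ) : Option (ι × Fin 3 × Fin 3) →
    Set ((∀ i, X i) × (∀ i, X i) × (∀ i, X i))
  | none => TS S s M
  | some (i, e, q) => {t | t ∈ TS S s (M + 2 * ε) ∧
      GroupGe (S i).H ((R8b_v e t).1 i) ((R8b_v e t).2.1 i) ((R8b_v e t).2.2 i) (q.val + 1) ε}

theorem R8b_mem_some (s M : ℝ) (ε : ℕ) (i : ι) (e q : Fin 3)
    (t : (∀ i, X i) × (∀ i, X i) × (∀ i, X i)) :
    t ∈ R8b_T S s M ε (some (i, e, q)) ↔ (t ∈ TS S s (M + 2 * ε) ∧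
      GroupGe (S i).H ((R8b_v e t).1 i) ((R8b_v e t).2.1 i) ((R8b_v e t).2.2 i)
        (q.val + 1) ε) := Iff.rfl

theorem R8b_v0 (t : (∀ i, X i) × (∀ i, X i) × (∀ i, X i)) : R8b_v 0 t = t := if_pos rfl

theorem R8b_v1 (t : (∀ i, X i) × (∀ i, X i) × (∀ i, X i)) :
    R8b_v 1 t = (t.2.1, t.2.2, t.1) := by
  unfold R8b_v
  rw [if_neg (by decide), if_pos rfl]

theorem R8b_v2 (t : (∀ i, X i) × (∀ i, X i) × (∀ i, X i)) :
    R8b_v 2 t = (t.2.2, t.1, t.2.1) := by
  unfold R8b_v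
  rw [if_neg (by decide), if_neg (by decide)]

theorem R8b_inv_group (g : Γ) (i : ι) (a b c : X i) (r : ℕ) (k : ℝ) :
    GroupGe (S i).H (g • a) (g • b) (g • c) r k ↔ GroupGe (S i).H a b c r k := by
  obtain ⟨h1, h2, h3⟩ := inv_gm (S i) g a b c
  unfold GroupGe
  rw [h1, h2, h3]


theorem R8b_inv_v (g : Γ) (e : Fin 3) (x y z : ∀ i, X i) :
    R8b_v e (g • x, g • y, g • z) =
      (g • (R8b_v e (x, y, z)).1, g • (R8b_v e (x, y, z)).2.1, g • (R8b_v e (x, y, z)).2.2) := by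
  unfold R8b_v
  split_ifs <;> rfl

theorem R8b_invT (s M : ℝ) (ε : ℕ) (o : Option (ι × Fin 3 × Fin 3)) :
    InvT Γ (R8b_T S s M ε o) := by
  rcases o with _ | ⟨i, e, q⟩
  · exact invT_TS S s M
  · intro g x y z
    rw [R8b_mem_some, R8b_mem_some, invT_TS S s (M + 2 * ε) g x y z, R8b_inv_v]
    simp only [Pi.smul_apply]
    rw [R8b_inv_group S g i]

theorem R8b_big {P : Type*} (H : P → P → P → P → ℝ) (a b c : P) (k : ℝ)
    (h : 9 * k < ar H a b c) :
    (∃ q : Fin 3, GroupGe H a b c (q.val + 1) k) ∨ (∃ q : Fin 3, GroupGe H b c a (q.val + 1) k) ∨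
      (∃ q : Fin 3, GroupGe H c a b (q.val + 1) k) := by
  by_contra hcon
  push Not at hcon
  obtain ⟨h1, h2, h3⟩ := hcon
  have key : ∀ a b c : P, (∀ q : Fin 3, ¬ GroupGe H a b c (q.val + 1) k) →
      gm1 H a b c < k ∧ gm2 H a b c < k ∧ gm3 H a b c < k := by
    intro a b c h
    refine ⟨?_, ?_, ?_⟩
    · by_contra hc
      rw [not_lt] at hc
      exact h 0 (Or.inl ⟨rfl, hc⟩)
    · by_contra hc
      rw [not_lt] at hc
      exact h 1 (Or.inr (Or.inl ⟨rfl, hc⟩))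
    · by_contra hc
      rw [not_lt] at hc
      exact h 2 (Or.inr (Or.inr ⟨rfl, hc⟩))
  obtain ⟨a1, a2, a3⟩ := key a b c h1
  obtain ⟨b1, b2, b3⟩ := key b c a h2
  obtain ⟨c1, c2, c3⟩ := key c a b h3
  unfold ar at h
  linarith

theorem R8b_pY (t : (∀ i, X i) × (∀ i, X i) × (∀ i, X i)) :
    pY S t = cY S t + 2 * ∑ i, ar (S i).H (t.1 i) (t.2.1 i) (t.2.2 i) := by
  unfold pY cY
  rw [Finset.mul_sum, ← Finset.sum_add_distrib]
  exact Finset.sum_congr rfl fun i _ => pm_eq (S i).hive (t.1 i) (t.2.1 i) (t.2.2 i)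

theorem TS_arms (hw : IsWt Γ w) (s M : ℝ) (ε : ℕ) (hM : s + 18 * Fintype.card ι * ε ≤ M)
    {C : ℝ≥0∞} (hB : Bd Γ w (TS S s M) C) :
    Bd Γ w (TS S s (M + 2 * ε)) ((9 * Fintype.card ι + 1 : ℕ) * C) := by
  classical
  have hcov : ∀ t ∈ TS S s (M + 2 * ε),
      ∃ j ∈ (Finset.univ : Finset (Option (ι × Fin 3 × Fin 3))), t ∈ R8b_T S s M ε j := by
    intro t ht
    by_cases hp : pY S t ≤ M
    · exact ⟨none, Finset.mem_univ _, ht.1, hp⟩
    · rw [not_le] at hp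
      have h1 : cY S t ≤ s := ht.1
      have h2 := R8b_pY S t
      have h3 : ∃ i, 9 * (ε : ℝ) < ar (S i).H (t.1 i) (t.2.1 i) (t.2.2 i) := by
        by_contra hcon
        push Not at hcon
        have h4 : ∑ i, ar (S i).H (t.1 i) (t.2.1 i) (t.2.2 i) ≤
            ∑ _i : ι, 9 * (ε : ℝ) := Finset.sum_le_sum fun i _ => hcon i
        rw [Finset.sum_const, Finset.card_univ, nsmul_eq_mul] at h4
        nlinarith
      obtain ⟨i, hi⟩ := h3
      rcases R8b_big (S i).H _ _ _ _ hi with ⟨q, hq⟩ | ⟨q, hq⟩ | ⟨q, hq⟩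
      · refine ⟨some (i, 0, q), Finset.mem_univ _, ?_⟩
        rw [R8b_mem_some, R8b_v0]
        exact ⟨ht, hq⟩
      · refine ⟨some (i, 1, q), Finset.mem_univ _, ?_⟩
        rw [R8b_mem_some, R8b_v1]
        exact ⟨ht, hq⟩
      · refine ⟨some (i, 2, q), Finset.mem_univ _, ?_⟩
        rw [R8b_mem_some, R8b_v2]
        exact ⟨ht, hq⟩
  have hBj : ∀ j ∈ (Finset.univ : Finset (Option (ι × Fin 3 × Fin 3))),
      Bd Γ w (R8b_T S s M ε j) C := by
    intro j _
    rcases j with _ | ⟨i, e, q⟩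
    · exact hB
    · refine R8a_any S hw (R8b_invT S s M ε _) (invT_TS S s M) i (q.val + 1) ε ?_ ?_ hB
      · intro t ht t' hp hc
        rw [R8b_mem_some] at ht
        obtain ⟨⟨ht1, ht2⟩, -⟩ := ht
        refine ⟨?_, ?_⟩
        · rw [hc]; exact ht1
        · rw [hp]; linarith
      · by_cases h0 : e = 0
        · subst h0
          refine Or.inl fun t ht => ?_
          rw [R8b_mem_some, R8b_v0] at ht
          exact ht.2
        · by_cases h1 : e = 1
          · subst h1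
            refine Or.inr (Or.inl fun t ht => ?_)
            rw [R8b_mem_some, R8b_v1] at ht
            exact ht.2
          · have h2 : e = 2 := by omega
            subst h2
            refine Or.inr (Or.inr fun t ht => ?_)
            rw [R8b_mem_some, R8b_v2] at ht
            exact ht.2
  have h := Bd.cover (Finset.univ : Finset (Option (ι × Fin 3 × Fin 3))) (R8b_T S s M ε)
    (fun _ => C) hBj hcov
  have hsum : ∑ _j : Option (ι × Fin 3 × Fin 3), C = ((9 * Fintype.card ι + 1 : ℕ) : ℝ≥0∞) * C := by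
    rw [Finset.sum_const, Finset.card_univ, nsmul_eq_mul]
    congr 2
    simp only [Fintype.card_option, Fintype.card_prod, Fintype.card_fin]
    ring
  rwa [hsum] at h

theorem TS_le (hw : IsWt Γ w) (s m : ℝ) (ε : ℕ) (n : ℕ)
    (hm : m ≤ s + (18 * Fintype.card ι + 2 * n) * ε)
    {C : ℝ≥0∞} (hB : Bd Γ w (TP S (s + 18 * Fintype.card ι * ε)) C) :
    Bd Γ w (TS S s m) ((9 * Fintype.card ι + 1 : ℕ) ^ n * C) := by
  induction n generalizing m with
  | zero =>
    rw [pow_zero, one_mul]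
    refine hB.mono ?_ le_rfl
    rintro t ⟨-, ht⟩
    change pY S t ≤ _
    push_cast at hm
    linarith
  | succ n ih =>
    have h1 := ih (s + (18 * Fintype.card ι + 2 * n) * ε) le_rfl
    have hM : s + 18 * Fintype.card ι * ε ≤ s + (18 * Fintype.card ι + 2 * n) * ε := by
      have : (0 : ℝ) ≤ n * ε := by positivity
      nlinarith
    have h2 := TS_arms S hw s (s + (18 * Fintype.card ι + 2 * n) * ε) ε hM h1
    rw [pow_succ', mul_assoc]
    refine h2.mono ?_ le_rfl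
    rintro t ⟨ht1, ht2⟩
    refine ⟨ht1, ?_⟩
    push_cast at hm
    nlinarith

end

end RapidDecay
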