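import Pool.Agent.Lib.MP_fee02f_an.R5a

/-!
R5b: flipping the middle vertex.
-/

open scoped ENNReal

namespace RapidDecay

section R5
variable {Γ Y : Type*} [Group Γ] [MulAction Γ Y] {w : Y → ℝ≥0∞}

theorem R5b_nn (w : Y → ℝ≥0∞) (u : Y → Y → ℝ≥0∞) :
    nn w u = ∑' p : Y × Y, w p.1 * u p.1 p.2 ^ 2 := by
  unfold nn
  rw [ENNReal.tsum_prod']

/-- weighted Cauchy-Schwarz -/
theorem R5b_cs (w : Y → ℝ≥0∞) (a b : Y → Y → ℝ≥0∞) :
    ∑' p : Y × Y, w p.1 * (a p.1 p.2 * b p.1 p.2) ≤ nn w a ^ (1 / 2 : ℝ) * nn w b ^ (1 / 2 : ℝ) := by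
  have h := R4_cs (fun p : Y × Y => w p.1 ^ (1 / 2 : ℝ) * a p.1 p.2)
    (fun p : Y × Y => w p.1 ^ (1 / 2 : ℝ) * b p.1 p.2)
  have e1 : ∀ c : Y → Y → ℝ≥0∞, ∑' p : Y × Y, (w p.1 ^ (1 / 2 : ℝ) * c p.1 p.2) ^ 2 = nn w c := by
    intro c
    rw [R5b_nn]
    refine tsum_congr (fun p => ?_)
    rw [mul_pow, R4_rt]
  rw [e1, e1] at h
  refine le_trans (le_of_eq ?_) h
  refine tsum_congr (fun p => ?_)
  have := R4_rt (w p.1)
  rw [pow_two] at this
  calc w p.1 * (a p.1 p.2 * b p.1 p.2)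
      = (w p.1 ^ (1 / 2 : ℝ) * w p.1 ^ (1 / 2 : ℝ)) * (a p.1 p.2 * b p.1 p.2) := by rw [this]
    _ = _ := by ring

open Classical in
/-- the trilinear form, squared -/
theorem R5b_LL (w : Y → ℝ≥0∞) (T : Set (Y × Y × Y)) (f g k : Y → Y → ℝ≥0∞) :
    LL w T f g k ^ 2 ≤ nn w k * ∑' p : Y × Y, w p.1 *
      (∑' y, (if (p.1, y, p.2) ∈ T then f p.1 y * g y p.2 else 0)) ^ 2 := by
  have h1 : LL w T f g k = ∑' p : Y × Y, w p.1 * (k p.1 p.2 *
      (fun x z => ∑' y, (if (x, y, z) ∈ T then f x y * g y z else 0)) p.1 p.2) := by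
    unfold LL
    rw [ENNReal.tsum_prod']
    refine tsum_congr (fun x => ?_)
    rw [ENNReal.tsum_comm]
    refine tsum_congr (fun z => ?_)
    change _ = w x * (k x z * ∑' y, (if (x, y, z) ∈ T then f x y * g y z else 0))
    rw [← mul_assoc, ← ENNReal.tsum_mul_left]
    refine tsum_congr (fun y => ?_)
    split_ifs
    · ring
    · simp
  have h2 := R5b_cs w k (fun x z => ∑' y, (if (x, y, z) ∈ T then f x y * g y z else 0))
  rw [← h1] at h2
  calc LL w T f g k ^ 2
      ≤ (nn w k ^ (1 / 2 : ℝ) *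
        nn w (fun x z => ∑' y, (if (x, y, z) ∈ T then f x y * g y z else 0)) ^ (1 / 2 : ℝ)) ^ 2 := by
        gcongr
    _ = nn w k * nn w (fun x z => ∑' y, (if (x, y, z) ∈ T then f x y * g y z else 0)) := by
        rw [mul_pow, R4_rt, R4_rt]
    _ = _ := by rw [R5b_nn w (fun x z => ∑' y, (if (x, y, z) ∈ T then f x y * g y z else 0))]

open Classical in
/-- the kernel obtained by summing over the first vertex -/
theorem R5b_A (hw : IsWt Γ w) {T : Set (Y × Y × Y)} (hT : InvT Γ T) {C : ℝ≥0∞} (hB : Bd Γ w T C)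
    {f : Y → Y → ℝ≥0∞} (hf : Inv2 Γ f) (hnf : nn w f ≠ ∞) :
    Inv2 Γ (fun y y' => ∑' x, (if (x, y, y') ∈ T then f x y * f x y' else 0)) ∧
    nn w (fun y y' => ∑' x, (if (x, y, y') ∈ T then f x y * f x y' else 0)) ≤ (C * nn w f) ^ 2 := by
  have hinv : Inv2 Γ (fun y y' => ∑' x, (if (x, y, y') ∈ T then f x y * f x y' else 0)) := by
    intro γ y y'
    change ∑' x, (if (x, γ • y, γ • y') ∈ T then f x (γ • y) * f x (γ • y') else 0) = _
    rw [← (MulAction.toPerm γ : Equiv.Perm Y).tsum_eq]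
    refine tsum_congr (fun x => ?_)
    simp only [MulAction.toPerm_apply]
    rw [hf, hf]
    have := hT γ x y y'
    simp only [this]
  refine ⟨hinv, nn_le_of_dual hw hinv (C * nn w f) ?_⟩
  intro u hu hnu
  have h1 : ∑' y, ∑' y', w y * ((∑' x, (if (x, y, y') ∈ T then f x y * f x y' else 0)) * u y y') =
      LL w T f u f := by
    rw [R4_LL_mid hw hT hf hu hf]
    refine tsum_congr (fun y => tsum_congr (fun y' => ?_))
    rw [← ENNReal.tsum_mul_right, ← ENNReal.tsum_mul_left]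
    refine tsum_congr (fun x => ?_)
    split_ifs
    · ring
    · simp
  rw [h1]
  refine (hB f u f hf hu hf hnf hnu hnf).trans (le_of_eq ?_)
  ring

theorem Bd.flip (hw : IsWt Γ w) {T : Set (Y × Y × Y)} (hT : InvT Γ T) {J : Type*} (s : Finset J)
    (T1 T2 : J → Set (Y × Y × Y)) (hT1 : ∀ j ∈ s, InvT Γ (T1 j)) (hT2 : ∀ j ∈ s, InvT Γ (T2 j))
    (C1 C2 : J → ℝ≥0∞)
    (h : ∀ x y y' z, (x, y, z) ∈ T → (x, y', z) ∈ T →
      ∃ j ∈ s, (x, y, y') ∈ T1 j ∧ (z, y, y') ∈ T2 j)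
    (hB1 : ∀ j ∈ s, Bd Γ w (T1 j) (C1 j)) (hB2 : ∀ j ∈ s, Bd Γ w (T2 j) (C2 j))
    (D : ℝ≥0∞) (hD : ∑ j ∈ s, C1 j * C2 j ≤ D ^ 2) : Bd Γ w T D := by
  classical
  intro f g k hf hg hk hnf hng hnk
  have hg' : Inv2 Γ (fun x y => g y x) := fun γ x y => hg γ y x
  have hng' : nn w (fun x y => g y x) = nn w g := nn_transport hw hg
  set P : J → Y → Y × Y → ℝ≥0∞ := fun j x q => if (x, q.1, q.2) ∈ T1 j then f x q.1 * f x q.2 else 0
    with hP
  set Q : J → Y → Y × Y → ℝ≥0∞ := fun j z q => if (z, q.1, q.2) ∈ T2 j then g q.1 z * g q.2 z else 0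
    with hQ
  have hmain : ∑' p : Y × Y, w p.1 *
      (∑' y, (if (p.1, y, p.2) ∈ T then f p.1 y * g y p.2 else 0)) ^ 2 ≤
      ∑ j ∈ s, (C1 j * nn w f) * (C2 j * nn w g) := by
    calc ∑' p : Y × Y, w p.1 * (∑' y, (if (p.1, y, p.2) ∈ T then f p.1 y * g y p.2 else 0)) ^ 2
        ≤ ∑' p : Y × Y, ∑' q : Y × Y, ∑ j ∈ s, w p.1 * (P j p.1 q * Q j p.2 q) := by
          refine ENNReal.tsum_le_tsum (fun p => ?_)
          have e : (∑' y, (if (p.1, y, p.2) ∈ T then f p.1 y * g y p.2 else 0)) ^ 2 =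
              ∑' q : Y × Y, (if (p.1, q.1, p.2) ∈ T then f p.1 q.1 * g q.1 p.2 else 0) *
                (if (p.1, q.2, p.2) ∈ T then f p.1 q.2 * g q.2 p.2 else 0) := by
            rw [ENNReal.tsum_prod', pow_two, ← ENNReal.tsum_mul_right]
            refine tsum_congr (fun y => ?_)
            rw [← ENNReal.tsum_mul_left]
          rw [e, ← ENNReal.tsum_mul_left]
          refine ENNReal.tsum_le_tsum (fun q => ?_)
          by_cases h1 : (p.1, q.1, p.2) ∈ T
          · by_cases h2 : (p.1, q.2, p.2) ∈ T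
            · obtain ⟨j, hj, h3, h4⟩ := h _ _ _ _ h1 h2
              refine le_trans ?_ (Finset.single_le_sum
                (f := fun j => w p.1 * (P j p.1 q * Q j p.2 q)) (fun _ _ => zero_le) hj)
              simp only [hP, hQ]
              rw [if_pos h1, if_pos h2, if_pos h3, if_pos h4]
              apply le_of_eq
              ring
            · rw [if_neg h2]
              simp
          · rw [if_neg h1]
            simp
      _ = ∑ j ∈ s, ∑' p : Y × Y, ∑' q : Y × Y, w p.1 * (P j p.1 q * Q j p.2 q) := by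
          rw [← Summable.tsum_finsetSum (fun _ _ => ENNReal.summable)]
          refine tsum_congr (fun p => ?_)
          rw [Summable.tsum_finsetSum (fun _ _ => ENNReal.summable)]
      _ ≤ ∑ j ∈ s, (C1 j * nn w f) * (C2 j * nn w g) := by
          refine Finset.sum_le_sum (fun j hj => ?_)
          have ht : ∑' p : Y × Y, ∑' q : Y × Y, w p.1 * (P j p.1 q * Q j p.2 q) =
              ∑' t : (Y × Y) × (Y × Y), w t.2.1 * (P j t.1.1 t.2 * Q j t.1.2 t.2) := by
            rw [← ENNReal.tsum_prod (f := fun (p q : Y × Y) => w p.1 * (P j p.1 q * Q j p.2 q))]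
            refine tsum_transport hw (fun t : (Y × Y) × (Y × Y) => t.1.1) (fun t => t.2.1)
              (fun _ _ => rfl) (fun _ _ => rfl) (fun t => P j t.1.1 t.2 * Q j t.1.2 t.2) ?_
            intro γ t
            have h1 := hT1 j hj γ t.1.1 t.2.1 t.2.2
            have h2 := hT2 j hj γ t.1.2 t.2.1 t.2.2
            change (if (γ • t.1.1, γ • t.2.1, γ • t.2.2) ∈ T1 j then
              f (γ • t.1.1) (γ • t.2.1) * f (γ • t.1.1) (γ • t.2.2) else 0) *
              (if (γ • t.1.2, γ • t.2.1, γ • t.2.2) ∈ T2 j then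
              g (γ • t.2.1) (γ • t.1.2) * g (γ • t.2.2) (γ • t.1.2) else 0) = _
            rw [hf, hf, hg, hg]
            simp only [h1, h2, hP, hQ]
          rw [ht, ENNReal.tsum_prod', ENNReal.tsum_comm]
          obtain ⟨-, hA⟩ := R5b_A hw (hT1 j hj) (hB1 j hj) hf hnf
          obtain ⟨-, hBB⟩ := R5b_A hw (hT2 j hj) (hB2 j hj) hg' (by rw [hng']; exact hng)
          rw [hng'] at hBB
          have e2 : ∀ q : Y × Y, ∑' p : Y × Y, w q.1 * (P j p.1 q * Q j p.2 q) =
              w q.1 * ((∑' x, P j x q) * (∑' z, Q j z q)) := by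
            intro q
            rw [ENNReal.tsum_mul_left, ENNReal.tsum_prod']
            congr 1
            rw [← ENNReal.tsum_mul_right]
            refine tsum_congr (fun x => ?_)
            rw [← ENNReal.tsum_mul_left]
          change ∑' q : Y × Y, ∑' p : Y × Y, w q.1 * (P j p.1 q * Q j p.2 q) ≤ _
          simp only [e2]
          have hcs := R5b_cs w
            (fun y y' => ∑' x, (if (x, y, y') ∈ T1 j then f x y * f x y' else 0))
            (fun y y' => ∑' z, (if (z, y, y') ∈ T2 j then g y z * g y' z else 0))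
          refine le_trans hcs ?_
          have r1 : nn w (fun y y' => ∑' x, (if (x, y, y') ∈ T1 j then f x y * f x y' else 0)) ^
              (1 / 2 : ℝ) ≤ C1 j * nn w f := by
            calc _ ≤ ((C1 j * nn w f) ^ 2) ^ (1 / 2 : ℝ) := ENNReal.rpow_le_rpow hA (by norm_num)
              _ = _ := R4_rt' _
          have r2 : nn w (fun y y' => ∑' z, (if (z, y, y') ∈ T2 j then g y z * g y' z else 0)) ^
              (1 / 2 : ℝ) ≤ C2 j * nn w g := by
            calc _ ≤ ((C2 j * nn w g) ^ 2) ^ (1 / 2 : ℝ) := ENNReal.rpow_le_rpow hBB (by norm_num)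
              _ = _ := R4_rt' _
          exact mul_le_mul' r1 r2
  calc LL w T f g k ^ 2
      ≤ nn w k * ∑' p : Y × Y, w p.1 *
      (∑' y, (if (p.1, y, p.2) ∈ T then f p.1 y * g y p.2 else 0)) ^ 2 := R5b_LL w T f g k
    _ ≤ nn w k * ∑ j ∈ s, (C1 j * nn w f) * (C2 j * nn w g) := by gcongr
    _ = (∑ j ∈ s, C1 j * C2 j) * (nn w f * nn w g * nn w k) := by
        rw [Finset.sum_mul, Finset.mul_sum]
        refine Finset.sum_congr rfl (fun j _ => ?_)
        ring
    _ ≤ D ^ 2 * (nn w f * nn w g * nn w k) := by gcongr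
end R5

end RapidDecay
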