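import Mathlib
import Pool.Agent.Lib.MP_fee02f_an.R5b
import Pool.Agent.Lib.MP_fee02f_an.R7a

/-!
# R8c : the flip of a class without long arms (middle vertex)
-/

open scoped ENNReal

namespace RapidDecay

section
variable {Γ : Type*} [Group Γ] {ι : Type*} [Fintype ι] {X : ι → Type*} [∀ i, MulAction Γ (X i)]
  (S : ∀ i, HiveSpace Γ (X i)) {w : (∀ i, X i) → ℝ≥0∞}

theorem R8c_dst_le (x y : ∀ i, X i) (i : ι) : dst (S i).H (x i) (y i) ≤ dY S x y :=
  Finset.single_le_sum (f := fun j => dst (S j).H (x j) (y j))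
    (fun j _ => dst_nonneg (S j).hive (x j) (y j)) (Finset.mem_univ i)

theorem R8c_ceil {u ε : ℝ} (hε : 0 < ε) (hu : 0 ≤ u) :
    u ≤ ⌈u / ε⌉₊ * ε ∧ (⌈u / ε⌉₊ : ℝ) * ε ≤ u + ε := by
  have h0 : 0 ≤ u / ε := div_nonneg hu hε.le
  have h1 := Nat.le_ceil (u / ε)
  have h2 := (Nat.ceil_lt_add_one h0).le
  constructor
  · exact (div_le_iff₀ hε).1 h1
  · have h3 : (⌈u / ε⌉₊ : ℝ) * ε ≤ (u / ε + 1) * ε := mul_le_mul_of_nonneg_right h2 hε.le
    rwa [add_mul, div_mul_cancel₀ _ hε.ne', one_mul] at h3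

theorem R8c_mem {s M : ℝ} {t : (∀ i, X i) × (∀ i, X i) × (∀ i, X i)} (h1 : cY S t ≤ s)
    (h2 : pY S t ≤ M) : t ∈ TS S s M := ⟨h1, h2⟩

theorem case_flip (hw : IsWt Γ w) (δ κ : ℝ) (hδ : 0 < δ) (hκ : 0 < κ)
    (key : ∀ (i : ι) (m : ℝ), 0 < m → ∀ a b c d : X i,
      dst (S i).H a b ≤ 4 * m → dst (S i).H a c ≤ 4 * m → dst (S i).H a d ≤ 4 * m →
      dst (S i).H b c ≤ 4 * m → dst (S i).H b d ≤ 4 * m → dst (S i).H c d ≤ 4 * m →
      SlClose (S i).H a b c a d c (κ * m) → CoreLe (S i).H a b c (κ * m) →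
      cs (S i).H a b d + cs (S i).H c b d ≤ uc (S i).H a b c + δ * m)
    {T : Set ((∀ i, X i) × (∀ i, X i) × (∀ i, X i))} (hT : InvT Γ T) (m : ℝ) (hm : 0 < m)
    (ε : ℕ) (hε : 1 ≤ ε) (hεm : (ε : ℝ) ≤ κ * m) (h1 : T ⊆ TP S m)
    (h2 : ∀ t ∈ T, ∀ i, CoreLe (S i).H (t.1 i) (t.2.1 i) (t.2.2 i) ε)
    (h3 : ∀ t ∈ T, ∀ t' ∈ T, ∀ i,
      SlClose (S i).H (t.1 i) (t.2.1 i) (t.2.2 i) (t'.1 i) (t'.2.1 i) (t'.2.2 i) ε)
    (A : ℝ) (h4 : ∀ t ∈ T, ∑ i, uc (S i).H (t.1 i) (t.2.1 i) (t.2.2 i) ≤ A)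
    (n : ℕ) (hn : A + Fintype.card ι * δ * m + 2 * ε ≤ n * ε)
    (C : ℕ → ℝ≥0∞) (hC : ∀ j ≤ n, Bd Γ w (TS S (j * ε) (4 * m)) (C j))
    (B : ℝ≥0∞) (hB : ∀ j j' : ℕ, ((j : ℝ) + j') * ε ≤ A + Fintype.card ι * δ * m + 2 * ε →
      C j * C j' ≤ B ^ 2) :
    Bd Γ w T ((n + 1 : ℕ) * B) := by
  classical
  have hε0 : (0 : ℝ) < ε := by exact_mod_cast hε
  set s : Finset (ℕ × ℕ) := (Finset.range (n + 1) ×ˢ Finset.range (n + 1)).filter
    fun q => ((q.1 : ℝ) + q.2) * ε ≤ A + Fintype.card ι * δ * m + 2 * ε with hs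
  have hmem : ∀ q ∈ s, q.1 ≤ n ∧ q.2 ≤ n ∧
      ((q.1 : ℝ) + q.2) * ε ≤ A + Fintype.card ι * δ * m + 2 * ε := by
    intro q hq
    rw [hs, Finset.mem_filter, Finset.mem_product, Finset.mem_range, Finset.mem_range] at hq
    exact ⟨by omega, by omega, hq.2⟩
  refine Bd.flip hw hT s (fun q => TS S (q.1 * ε) (4 * m)) (fun q => TS S (q.2 * ε) (4 * m))
    (fun q _ => invT_TS S _ _) (fun q _ => invT_TS S _ _) (fun q => C q.1) (fun q => C q.2)
    ?_ (fun q hq => hC q.1 (hmem q hq).1) (fun q hq => hC q.2 (hmem q hq).2.1) _ ?_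
  · intro x y y' z ht ht'
    have p1 : pY S (x, y, z) ≤ m := h1 ht
    have p2 : pY S (x, y', z) ≤ m := h1 ht'
    rw [pY_eq] at p1 p2
    have n1 := dY_nonneg S x y
    have n2 := dY_nonneg S y z
    have n3 := dY_nonneg S z x
    have n4 := dY_nonneg S x y'
    have n5 := dY_nonneg S y' z
    have c1 := dY_comm S x y
    have c2 := dY_comm S x y'
    have c3 := dY_comm S x z
    have c4 := dY_comm S y' z
    have c5 := dY_comm S y z
    have t1 := dY_triangle S y x y'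
    have t2 := dY_triangle S y z y'
    -- the two new triples are not too long
    have q1 : pY S (x, y, y') ≤ 4 * m := by
      rw [pY_eq]
      linarith
    have q2 : pY S (z, y, y') ≤ 4 * m := by
      rw [pY_eq]
      linarith
    -- the key inequality in each factor
    have hkey : ∀ i, cs (S i).H (x i) (y i) (y' i) + cs (S i).H (z i) (y i) (y' i) ≤
        uc (S i).H (x i) (y i) (z i) + δ * m := by
      intro i
      have e1 := R8c_dst_le S x y i
      have e2 := R8c_dst_le S x z i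
      have e3 := R8c_dst_le S x y' i
      have e4 := R8c_dst_le S y z i
      have e5 := R8c_dst_le S y y' i
      have e6 := R8c_dst_le S z y' i
      refine key i m hm (x i) (y i) (z i) (y' i) (by linarith) (by linarith) (by linarith)
        (by linarith) (by linarith) (by linarith) ?_ ?_
      · intro k
        exact (h3 _ ht _ ht' i k).trans hεm
      · obtain ⟨a1, a2, a3, a4, a5, a6, a7, a8, a9⟩ := h2 _ ht i
        exact ⟨a1.trans hεm, a2.trans hεm, a3.trans hεm, a4.trans hεm, a5.trans hεm,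
          a6.trans hεm, a7.trans hεm, a8.trans hεm, a9.trans hεm⟩
    have hsum : cY S (x, y, y') + cY S (z, y, y') ≤ A + Fintype.card ι * δ * m := by
      have h5 : cY S (x, y, y') + cY S (z, y, y') ≤
          ∑ i, (uc (S i).H (x i) (y i) (z i) + δ * m) := by
        unfold cY
        rw [← Finset.sum_add_distrib]
        exact Finset.sum_le_sum fun i _ => hkey i
      rw [Finset.sum_add_distrib, Finset.sum_const, Finset.card_univ, nsmul_eq_mul] at h5
      have h6 : ∑ i, uc (S i).H (x i) (y i) (z i) ≤ A := h4 (x, y, z) ht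
      linarith
    have g1 := cY_nonneg S (x, y, y')
    have g2 := cY_nonneg S (z, y, y')
    have ceil1 : cY S (x, y, y') ≤ ⌈cY S (x, y, y') / ε⌉₊ * ε ∧
        (⌈cY S (x, y, y') / ε⌉₊ : ℝ) * ε ≤ cY S (x, y, y') + ε := R8c_ceil hε0 g1
    have ceil2 : cY S (z, y, y') ≤ ⌈cY S (z, y, y') / ε⌉₊ * ε ∧
        (⌈cY S (z, y, y') / ε⌉₊ : ℝ) * ε ≤ cY S (z, y, y') + ε := R8c_ceil hε0 g2
    have m1 := R8c_mem S ceil1.1 q1
    have m2 := R8c_mem S ceil2.1 q2
    have d1 := ceil1.2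
    have d2 := ceil2.2
    clear ceil1 ceil2
    generalize ⌈cY S (x, y, y') / ε⌉₊ = j at m1 d1
    generalize ⌈cY S (z, y, y') / ε⌉₊ = j' at m2 d2
    have hle : ((j : ℝ) + j') * ε ≤ A + Fintype.card ι * δ * m + 2 * ε := by
      rw [add_mul]
      linarith
    have hjn : j + j' ≤ n := by
      have h7 : ((j : ℝ) + j') * ε ≤ n * ε := hle.trans hn
      have h8 : (j : ℝ) + j' ≤ n := le_of_mul_le_mul_right h7 hε0
      exact_mod_cast h8
    refine ⟨(j, j'), ?_, m1, m2⟩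
    rw [hs, Finset.mem_filter, Finset.mem_product, Finset.mem_range, Finset.mem_range]
    exact ⟨⟨by omega, by omega⟩, hle⟩
  · have h5 : ∑ q ∈ s, C q.1 * C q.2 ≤ ∑ q ∈ s, B ^ 2 :=
      Finset.sum_le_sum fun q hq => hB q.1 q.2 (hmem q hq).2.2
    refine h5.trans ?_
    rw [Finset.sum_const, nsmul_eq_mul, mul_pow]
    refine mul_le_mul_left ?_ _
    have h6 : s.card ≤ (n + 1) * (n + 1) := by
      refine (Finset.card_filter_le _ _).trans ?_
      rw [Finset.card_product, Finset.card_range]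
    have h7 : ((s.card : ℕ) : ℝ≥0∞) ≤ (((n + 1) * (n + 1) : ℕ) : ℝ≥0∞) := by
      exact_mod_cast h6
    refine h7.trans (le_of_eq ?_)
    push_cast
    ring

end

end RapidDecay
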