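import Pool.Agent.Lib.MP_fee02f_an.Defs
import Pool.Agent.Lib.MP_fee02f_an.K0a
import Pool.Agent.Lib.MP_fee02f_an.K0b
import Pool.Agent.Lib.MP_fee02f_an.K0c
import Pool.Agent.Lib.MP_fee02f_an.K1
import Pool.Agent.Lib.MP_fee02f_an.R2
import Pool.Agent.Lib.MP_fee02f_an.R7a
import Pool.Agent.Lib.MP_fee02f_an.R8b
import Pool.Agent.Lib.MP_fee02f_an.R8c

/-!
R8d: a class without long arms. Choice of the vertex to be doubled (by `Uc_sum_le` some rotation has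
small `uc`), then `case_flip` and `TS_le`; the other vertices by rotation.
-/

set_option autoImplicit false

open scoped ENNReal

namespace RapidDecay

section

variable {Γ Y : Type*} [Group Γ] [MulAction Γ Y] {w : Y → ℝ≥0∞}

theorem R8d_bd_empty (C : ℝ≥0∞) : Bd Γ w (∅ : Set (Y × Y × Y)) C := by
  intro f g h _ _ _ _ _ _
  have : LL w (∅ : Set (Y × Y × Y)) f g h = 0 := by
    unfold LL
    simp
  rw [this]
  simp

theorem R8d_rot (hw : IsWt Γ w) {T : Set (Y × Y × Y)} {C : ℝ≥0∞}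
    (hT : InvT Γ {t : Y × Y × Y | (t.2.2, t.1, t.2.1) ∈ T})
    (hB : Bd Γ w {t : Y × Y × Y | (t.2.2, t.1, t.2.1) ∈ T} C) : Bd Γ w T C := by
  have h := Bd.rot hw hT hB
  have e : {t : Y × Y × Y | (t.2.1, t.2.2, t.1) ∈ {t : Y × Y × Y | (t.2.2, t.1, t.2.1) ∈ T}} = T := by
    ext ⟨a, b, c⟩
    exact Iff.rfl
  rw [e] at h
  exact h

end

theorem R8d_three {a b c s : ℝ} (h : a + b + c ≤ 3 * s) : a ≤ s ∨ b ≤ s ∨ c ≤ s := by
  by_contra hcon
  push Not at hcon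
  linarith [hcon.1, hcon.2.1, hcon.2.2]

variable {Γ : Type*} [Group Γ] {ι : Type*} [Fintype ι] {X : ι → Type*} [∀ i, MulAction Γ (X i)]
  (S : ∀ i, HiveSpace Γ (X i))

theorem R8d_uc_rot {P : Type*} {H : P → P → P → P → ℝ} (hH : IsHive H) (a b c : P) :
    uc H a b c + uc H b c a + uc H c a b ≤ 144 / 25 * cs H a b c := by
  have h := Uc_sum_le (om H a a b c) (om H b a b c) (om H c a b c)
  have e1 : uc H b c a = Uc (om H b a b c) (om H c a b c) (om H a a b c) := by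
    unfold uc
    rw [om_rot b a b c, om_rot c a b c, om_rot a a b c]
  have e2 : uc H c a b = Uc (om H c a b c) (om H a a b c) (om H b a b c) := by
    unfold uc
    rw [om_rot c b c a, om_rot c a b c, om_rot a b c a, om_rot a a b c, om_rot b b c a,
      om_rot b a b c]
  rw [e1, e2]
  unfold uc cs
  linarith

theorem R8d_uc_close {P : Type*} {H : P → P → P → P → ℝ} (hH : IsHive H) (a b c a' b' c' : P)
    (k : ℝ) (h : SlClose H a b c a' b' c' k) : uc H a' b' c' ≤ uc H a b c + 84 * k := by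
  obtain ⟨h1, h2, h3⟩ := om_close hH a b c a' b' c' k h
  have h4 := Uc_lip (om H a a b c) (om H b a b c) (om H c a b c) (om H a' a' b' c')
    (om H b' a' b' c') (om H c' a' b' c')
  rw [abs_sub_comm] at h1 h2 h3
  unfold uc
  linarith

/-- the parameter `n` and `n'` depend on `κ'` only -/
theorem R8d_one (δ κ : ℝ) (hδ : 0 < δ) (hδ1 : Fintype.card ι * δ ≤ 1 / 100) (hκ : 0 < κ)
    (key : ∀ (i : ι) (m : ℝ), 0 < m → ∀ a b c d : X i,
      dst (S i).H a b ≤ 4 * m → dst (S i).H a c ≤ 4 * m → dst (S i).H a d ≤ 4 * m →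
      dst (S i).H b c ≤ 4 * m → dst (S i).H b d ≤ 4 * m → dst (S i).H c d ≤ 4 * m →
      SlClose (S i).H a b c a d c (κ * m) → CoreLe (S i).H a b c (κ * m) →
      cs (S i).H a b d + cs (S i).H c b d ≤ uc (S i).H a b c + δ * m)
    (κ' : ℝ) (hκ' : 0 < κ') (hκ1 : κ' ≤ κ)
    (hκ2 : (120 * Fintype.card ι + 2) * κ' ≤ 1 / 20) (n n' : ℕ)
    (hn : 4 / κ' + 84 * Fintype.card ι + 2 ≤ n) (hn' : 4 / κ' ≤ n')
    (w : (∀ i, X i) → ℝ≥0∞) (hw : IsWt Γ w) (m : ℝ) (ε : ℕ) (hε1 : 1 ≤ ε)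
    (hε2 : (ε : ℝ) ≤ κ' * m) (hε3 : κ' * m ≤ 2 * ε)
    (T : Set ((∀ i, X i) × (∀ i, X i) × (∀ i, X i))) (hT : InvT Γ T) (hTm : T ⊆ TP S m)
    (hcore : ∀ t ∈ T, ∀ i, CoreLe (S i).H (t.1 i) (t.2.1 i) (t.2.2 i) ε)
    (hclose : ∀ t ∈ T, ∀ t' ∈ T, ∀ i,
        SlClose (S i).H (t.1 i) (t.2.1 i) (t.2.2 i) (t'.1 i) (t'.2.1 i) (t'.2.2 i) ε)
    (N : ℝ → ℝ≥0∞) (hN : ∀ s, Bd Γ w (TP S s) (N s)) (B : ℝ≥0∞)
    (hB : ∀ s s' : ℝ, 0 ≤ s → 0 ≤ s' → s + s' ≤ 2 * (1 - 1 / 100) * m → N s * N s' ≤ B ^ 2)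
    (t₀ : (∀ i, X i) × (∀ i, X i) × (∀ i, X i)) (ht₀ : t₀ ∈ T)
    (huc : ∑ i, uc (S i).H (t₀.1 i) (t₀.2.1 i) (t₀.2.2 i) ≤ 48 / 25 * m) :
    Bd Γ w T ((n + 1 : ℕ) * ((9 * Fintype.card ι + 1 : ℕ) ^ n' * B)) := by
  have hε0 : (0 : ℝ) < ε := by exact_mod_cast hε1
  have hm : 0 < m := by
    by_contra hcon
    push Not at hcon
    have := mul_nonpos_of_nonneg_of_nonpos hκ'.le hcon
    linarith
  have hcard : (0 : ℝ) ≤ Fintype.card ι := Nat.cast_nonneg _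
  have hmε : m ≤ 2 / κ' * ε := by
    have h1 : m = (κ' * m) / κ' := by field_simp
    rw [h1, div_mul_eq_mul_div]
    exact div_le_div_of_nonneg_right hε3 hκ'.le
  set A : ℝ := 48 / 25 * m + 84 * Fintype.card ι * ε with hA
  have hδm : Fintype.card ι * δ * m ≤ 1 / 100 * m := mul_le_mul_of_nonneg_right hδ1 hm.le
  have hsmall : (120 * Fintype.card ι + 2) * (ε : ℝ) ≤ 1 / 20 * m := by
    have h1 : (120 * (Fintype.card ι : ℝ) + 2) * ε ≤ (120 * (Fintype.card ι : ℝ) + 2) * (κ' * m) :=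
      mul_le_mul_of_nonneg_left hε2 (by positivity)
    have h2 := mul_le_mul_of_nonneg_right hκ2 hm.le
    nlinarith
  refine case_flip S hw δ κ hδ hκ key hT m hm ε hε1
    (hε2.trans (mul_le_mul_of_nonneg_right hκ1 hm.le)) hTm hcore hclose A ?_ n ?_
    (fun j => (9 * Fintype.card ι + 1 : ℕ) ^ n' * N (j * ε + 18 * Fintype.card ι * ε)) ?_
    ((9 * Fintype.card ι + 1 : ℕ) ^ n' * B) ?_
  · intro t ht
    have h1 : ∀ i, uc (S i).H (t.1 i) (t.2.1 i) (t.2.2 i) ≤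
        uc (S i).H (t₀.1 i) (t₀.2.1 i) (t₀.2.2 i) + 84 * ε := fun i =>
      R8d_uc_close (S i).hive _ _ _ _ _ _ _ (hclose t₀ ht₀ t ht i)
    have h2 := Finset.sum_le_sum (fun i (_ : i ∈ Finset.univ) => h1 i)
    rw [Finset.sum_add_distrib, Finset.sum_const, Finset.card_univ, nsmul_eq_mul] at h2
    rw [hA]
    linarith
  · have h1 : 193 / 100 * m ≤ 4 / κ' * ε := by
      have h2 : 193 / 100 * m ≤ 2 * m := by linarith
      have h3 : 2 * m ≤ 4 / κ' * ε := by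
        have : 4 / κ' * (ε : ℝ) = 2 * (2 / κ' * ε) := by ring
        rw [this]
        linarith
      linarith
    have h4 := mul_le_mul_of_nonneg_right hn hε0.le
    rw [hA]
    nlinarith
  · intro j _
    refine TS_le S hw (j * ε) (4 * m) ε n' ?_ (hN _)
    have h1 : 4 * m ≤ 8 / κ' * ε := by
      have : 8 / κ' * (ε : ℝ) = 4 * (2 / κ' * ε) := by ring
      rw [this]
      linarith
    have h2 : 8 / κ' * (ε : ℝ) ≤ 2 * n' * ε := by
      have h3 := mul_le_mul_of_nonneg_right hn' hε0.le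
      have h4 : 8 / κ' * (ε : ℝ) = 2 * (4 / κ' * ε) := by ring
      rw [h4]
      linarith
    have h3 : 0 ≤ (j : ℝ) * ε := by positivity
    have h4 : 0 ≤ (18 : ℝ) * Fintype.card ι * ε := by positivity
    nlinarith
  · intro j j' hjj
    have h1 : N (j * ε + 18 * Fintype.card ι * ε) * N (j' * ε + 18 * Fintype.card ι * ε) ≤ B ^ 2 := by
      apply hB
      · positivity
      · positivity
      · rw [hA] at hjj
        nlinarith
    calc ((9 * Fintype.card ι + 1 : ℕ) : ℝ≥0∞) ^ n' * N (j * ε + 18 * Fintype.card ι * ε) *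
          (((9 * Fintype.card ι + 1 : ℕ) : ℝ≥0∞) ^ n' * N (j' * ε + 18 * Fintype.card ι * ε))
        = (((9 * Fintype.card ι + 1 : ℕ) : ℝ≥0∞) ^ n') ^ 2 *
          (N (j * ε + 18 * Fintype.card ι * ε) * N (j' * ε + 18 * Fintype.card ι * ε)) := by ring
      _ ≤ (((9 * Fintype.card ι + 1 : ℕ) : ℝ≥0∞) ^ n') ^ 2 * B ^ 2 := by gcongr
      _ = _ := by ring

/-- a class without long arms: choice of the vertex to be doubled -/
theorem case_core (δ κ : ℝ) (hδ : 0 < δ) (hδ1 : Fintype.card ι * δ ≤ 1 / 100) (hκ : 0 < κ)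
    (key : ∀ (i : ι) (m : ℝ), 0 < m → ∀ a b c d : X i,
      dst (S i).H a b ≤ 4 * m → dst (S i).H a c ≤ 4 * m → dst (S i).H a d ≤ 4 * m →
      dst (S i).H b c ≤ 4 * m → dst (S i).H b d ≤ 4 * m → dst (S i).H c d ≤ 4 * m →
      SlClose (S i).H a b c a d c (κ * m) → CoreLe (S i).H a b c (κ * m) →
      cs (S i).H a b d + cs (S i).H c b d ≤ uc (S i).H a b c + δ * m) :
    ∃ κ' : ℝ, 0 < κ' ∧ κ' ≤ κ ∧ ∃ K : ℕ, ∀ (w : (∀ i, X i) → ℝ≥0∞), IsWt Γ w →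
      ∀ (m : ℝ) (ε : ℕ), 1 ≤ ε → (ε : ℝ) ≤ κ' * m → κ' * m ≤ 2 * ε →
      ∀ T : Set ((∀ i, X i) × (∀ i, X i) × (∀ i, X i)), InvT Γ T → T ⊆ TP S m →
      (∀ t ∈ T, ∀ i, CoreLe (S i).H (t.1 i) (t.2.1 i) (t.2.2 i) ε) →
      (∀ t ∈ T, ∀ t' ∈ T, ∀ i,
        SlClose (S i).H (t.1 i) (t.2.1 i) (t.2.2 i) (t'.1 i) (t'.2.1 i) (t'.2.2 i) ε) →
      ∀ N : ℝ → ℝ≥0∞, (∀ s, Bd Γ w (TP S s) (N s)) →
      ∀ B : ℝ≥0∞, (∀ s s' : ℝ, 0 ≤ s → 0 ≤ s' → s + s' ≤ 2 * (1 - 1 / 100) * m →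
        N s * N s' ≤ B ^ 2) → Bd Γ w T (K * B) := by
  have hcard : (0 : ℝ) ≤ Fintype.card ι := Nat.cast_nonneg _
  have hd : (0 : ℝ) < 20 * (120 * Fintype.card ι + 2) := by positivity
  set κ' : ℝ := min κ (1 / (20 * (120 * Fintype.card ι + 2))) with hκ'
  have hκ'0 : 0 < κ' := lt_min hκ (by positivity)
  have hκ2 : (120 * Fintype.card ι + 2) * κ' ≤ 1 / 20 := by
    have h1 : κ' ≤ 1 / (20 * (120 * (Fintype.card ι : ℝ) + 2)) := min_le_right _ _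
    have h2 := mul_le_mul_of_nonneg_left h1 (by positivity : (0 : ℝ) ≤ 120 * Fintype.card ι + 2)
    refine h2.trans (le_of_eq ?_)
    field_simp
  obtain ⟨n, hn⟩ := exists_nat_ge (4 / κ' + 84 * Fintype.card ι + 2)
  obtain ⟨n', hn'⟩ := exists_nat_ge (4 / κ')
  refine ⟨κ', hκ'0, min_le_left _ _, (n + 1) * (9 * Fintype.card ι + 1) ^ n', ?_⟩
  intro w hw m ε hε1 hε2 hε3 T hT hTm hcore hclose N hN B hB
  have eK : (((n + 1) * (9 * Fintype.card ι + 1) ^ n' : ℕ) : ℝ≥0∞) * B =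
      (n + 1 : ℕ) * ((9 * Fintype.card ι + 1 : ℕ) ^ n' * B) := by
    push_cast
    ring
  rw [eK]
  rcases T.eq_empty_or_nonempty with rfl | ⟨t₀, ht₀⟩
  · exact R8d_bd_empty _
  have hm : 0 < m := by
    by_contra hcon
    push Not at hcon
    have := mul_nonpos_of_nonneg_of_nonpos hκ'0.le hcon
    have hε0 : (0 : ℝ) < ε := by exact_mod_cast hε1
    linarith
  have hsum : (∑ i, uc (S i).H (t₀.1 i) (t₀.2.1 i) (t₀.2.2 i)) +
      (∑ i, uc (S i).H (t₀.2.1 i) (t₀.2.2 i) (t₀.1 i)) +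
      (∑ i, uc (S i).H (t₀.2.2 i) (t₀.1 i) (t₀.2.1 i)) ≤ 3 * (48 / 25 * m) := by
    rw [← Finset.sum_add_distrib, ← Finset.sum_add_distrib]
    have h1 := Finset.sum_le_sum (fun i (_ : i ∈ Finset.univ) =>
      R8d_uc_rot (S i).hive (t₀.1 i) (t₀.2.1 i) (t₀.2.2 i))
    rw [← Finset.mul_sum] at h1
    have h2 : ∑ i, cs (S i).H (t₀.1 i) (t₀.2.1 i) (t₀.2.2 i) ≤ m :=
      (cY_le_pY S t₀).trans (hTm ht₀)
    linarith
  rcases R8d_three hsum with h | h | h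
  · exact R8d_one S δ κ hδ hδ1 hκ key κ' hκ'0 (min_le_left _ _) hκ2 n n' hn hn' w hw m ε hε1 hε2
      hε3 T hT hTm hcore hclose N hN B hB t₀ ht₀ h
  · -- doubled vertex `c`, triples `(b, c, a)`
    have hT' : InvT Γ {t : (∀ i, X i) × (∀ i, X i) × (∀ i, X i) | (t.2.2, t.1, t.2.1) ∈ T} :=
      fun g x y z => hT g z x y
    refine R8d_rot hw hT' ?_
    refine R8d_one S δ κ hδ hδ1 hκ key κ' hκ'0 (min_le_left _ _) hκ2 n n' hn hn' w hw m ε hε1 hε2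
      hε3 _ hT' ?_ ?_ ?_ N hN B hB (t₀.2.1, t₀.2.2, t₀.1) ht₀ h
    · rintro ⟨x, y, z⟩ ht
      have h1 : pY S (z, x, y) ≤ m := hTm ht
      have h2 : pY S (x, y, z) = pY S (z, x, y) := by
        unfold pY
        exact Finset.sum_congr rfl (fun i _ => pm_rot (S i).H (z i) (x i) (y i))
      change pY S (x, y, z) ≤ m
      rw [h2]
      exact h1
    · rintro ⟨x, y, z⟩ ht i
      exact (CoreLe_rot (S i).H (z i) (x i) (y i) ε).2 (hcore _ ht i)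
    · rintro ⟨x, y, z⟩ ht ⟨x', y', z'⟩ ht' i
      exact SlClose_rot (S i).H (z i) (x i) (y i) (z' i) (x' i) (y' i) ε (hclose _ ht _ ht' i)
  · -- doubled vertex `a`, triples `(c, a, b)`
    have hT' : InvT Γ {t : (∀ i, X i) × (∀ i, X i) × (∀ i, X i) | (t.2.2, t.1, t.2.1) ∈ T} :=
      fun g x y z => hT g z x y
    have hT'' : InvT Γ {t : (∀ i, X i) × (∀ i, X i) × (∀ i, X i) |
        (t.2.2, t.1, t.2.1) ∈ {t : (∀ i, X i) × (∀ i, X i) × (∀ i, X i) |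
          (t.2.2, t.1, t.2.1) ∈ T}} :=
      fun g x y z => hT g y z x
    refine R8d_rot hw hT' (R8d_rot hw hT'' ?_)
    refine R8d_one S δ κ hδ hδ1 hκ key κ' hκ'0 (min_le_left _ _) hκ2 n n' hn hn' w hw m ε hε1 hε2
      hε3 _ hT'' ?_ ?_ ?_ N hN B hB (t₀.2.2, t₀.1, t₀.2.1) ht₀ h
    · rintro ⟨x, y, z⟩ ht
      have h1 : pY S (y, z, x) ≤ m := hTm ht
      have h2 : pY S (x, y, z) = pY S (y, z, x) := by
        unfold pY
        refine Finset.sum_congr rfl (fun i _ => ?_)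
        exact (pm_rot (S i).H (x i) (y i) (z i)).symm
      change pY S (x, y, z) ≤ m
      rw [h2]
      exact h1
    · rintro ⟨x, y, z⟩ ht i
      exact (CoreLe_rot (S i).H (x i) (y i) (z i) ε).1 (hcore _ ht i)
    · rintro ⟨x, y, z⟩ ht ⟨x', y', z'⟩ ht' i
      exact SlClose_rot (S i).H (z i) (x i) (y i) (z' i) (x' i) (y' i) ε
        (SlClose_rot (S i).H (y i) (z i) (x i) (y' i) (z' i) (x' i) ε (hclose _ ht _ ht' i))

end RapidDecay
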