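import Pool.Agent.Lib.MP_fee02f_an.Defs
import Pool.Agent.Lib.MP_fee02f_an.K0a
import Pool.Agent.Lib.MP_fee02f_an.K3
import Pool.Agent.Lib.MP_fee02f_an.R2
import Pool.Agent.Lib.MP_fee02f_an.R3
import Pool.Agent.Lib.MP_fee02f_an.R7a
import Pool.Agent.Lib.MP_fee02f_an.R8a
import Pool.Agent.Lib.MP_fee02f_an.R8d

/-!
R8e: the recursion. The triples of perimeter at most `m` are divided into classes according to the
integer parts of slack/ε; in a class either some group is long everywhere (`case_move`) or all group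
minima are at most `ε` (`case_core`).
-/

set_option autoImplicit false

open scoped ENNReal

namespace RapidDecay

/-! ### Slacks of a triple -/

section Triple

variable {P : Type*} {H : P → P → P → P → ℝ}

/-- index of a slack -/
abbrev R8e_I : Type := Fin 3 × Fin 3 × Fin 3 × Fin 3 × Fin 3

theorem R8e_tsl_nonneg (hH : IsHive H) (p : Fin 3 → P) (k : R8e_I) : 0 ≤ tsl H p k :=
  sl_nonneg hH _ _ _ _ _

theorem R8e_dst_le_pm (hH : IsHive H) (a b c : P) (u v : Fin 3) :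
    dst H (![a, b, c] u) (![a, b, c] v) ≤ pm H a b c := by
  have h1 := dst_nonneg hH a b
  have h2 := dst_nonneg hH b c
  have h3 := dst_nonneg hH c a
  have e1 := dst_comm hH a b
  have e2 := dst_comm hH b c
  have e3 := dst_comm hH c a
  have f1 := dst_self hH a
  have f2 := dst_self hH b
  have f3 := dst_self hH c
  unfold pm
  fin_cases u <;> fin_cases v <;> simp <;> linarith

theorem R8e_tsl_le (hH : IsHive H) (a b c : P) (k : R8e_I) :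
    tsl H ![a, b, c] k ≤ pm H a b c :=
  (sl_le_dst hH _ _ _ _ _).trans (R8e_dst_le_pm hH a b c _ _)

/-- the group `(e, r)` is long, in terms of lower bounds for the slacks -/
def R8e_long (f : R8e_I → ℕ) (e : Fin 3) (r : Fin 3) : Prop :=
  (r = 0 ∧ 1 ≤ f (e, e + 1, e + 2, e + 1, e + 1) ∧ 1 ≤ f (e, e + 1, e + 2, e + 1, e + 2) ∧
    1 ≤ f (e, e + 1, e + 2, e + 2, e + 2)) ∨
  (r = 1 ∧ 1 ≤ f (e, e + 1, e + 2, e, e + 1) ∧ 1 ≤ f (e, e + 1, e + 2, e, e + 2)) ∨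
  (r = 2 ∧ 1 ≤ f (e, e + 1, e + 2, e, e))

theorem R8e_groupGe {f : R8e_I → ℕ} {p : Fin 3 → P} {ε : ℕ} (hε : 0 < ε)
    (hf : ∀ k, f k = ⌊tsl H p k / ε⌋₊) {e r : Fin 3} (h : R8e_long f e r) :
    GroupGe H (p e) (p (e + 1)) (p (e + 2)) ((r : ℕ) + 1) ε := by
  have hε' : (0 : ℝ) < ε := by exact_mod_cast hε
  have key : ∀ k, 1 ≤ f k → (ε : ℝ) ≤ tsl H p k := by
    intro k hk
    rw [hf k, Nat.one_le_floor_iff, le_div_iff₀ hε', one_mul] at hk
    exact hk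
  rcases h with ⟨rfl, h1, h2, h3⟩ | ⟨rfl, h1, h2⟩ | ⟨rfl, h1⟩
  · left
    exact ⟨rfl, le_min (key _ h1) (le_min (key _ h2) (key _ h3))⟩
  · right
    left
    exact ⟨rfl, le_min (key _ h1) (key _ h2)⟩
  · right
    right
    exact ⟨rfl, key _ h1⟩

theorem R8e_gm_le {f : R8e_I → ℕ} {p : Fin 3 → P} {ε : ℕ} (hε : 0 < ε)
    (hf : ∀ k, f k = ⌊tsl H p k / ε⌋₊) (e : Fin 3) (h : ∀ r, ¬ R8e_long f e r) :
    gm1 H (p e) (p (e + 1)) (p (e + 2)) ≤ ε ∧ gm2 H (p e) (p (e + 1)) (p (e + 2)) ≤ ε ∧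
      gm3 H (p e) (p (e + 1)) (p (e + 2)) ≤ ε := by
  have hε' : (0 : ℝ) < ε := by exact_mod_cast hε
  have key : ∀ k, ¬ 1 ≤ f k → tsl H p k ≤ ε := by
    intro k hk
    rw [hf k, Nat.one_le_floor_iff, le_div_iff₀ hε', one_mul, not_le] at hk
    exact hk.le
  refine ⟨?_, ?_, ?_⟩
  · have h0 := h 0
    by_cases h1 : 1 ≤ f (e, e + 1, e + 2, e + 1, e + 1)
    · by_cases h2 : 1 ≤ f (e, e + 1, e + 2, e + 1, e + 2)
      · by_cases h3 : 1 ≤ f (e, e + 1, e + 2, e + 2, e + 2)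
        · exact absurd (Or.inl ⟨rfl, h1, h2, h3⟩) h0
        · exact (min_le_right _ _).trans ((min_le_right _ _).trans (key _ h3))
      · exact (min_le_right _ _).trans ((min_le_left _ _).trans (key _ h2))
    · exact (min_le_left _ _).trans (key _ h1)
  · have h0 := h 1
    by_cases h1 : 1 ≤ f (e, e + 1, e + 2, e, e + 1)
    · by_cases h2 : 1 ≤ f (e, e + 1, e + 2, e, e + 2)
      · exact absurd (Or.inr (Or.inl ⟨rfl, h1, h2⟩)) h0
      · exact (min_le_right _ _).trans (key _ h2)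
    · exact (min_le_left _ _).trans (key _ h1)
  · have h0 := h 2
    by_cases h1 : 1 ≤ f (e, e + 1, e + 2, e, e)
    · exact absurd (Or.inr (Or.inr ⟨rfl, h1⟩)) h0
    · exact key _ h1

theorem R8e_coreLe {f : R8e_I → ℕ} {a b c : P} {ε : ℕ} (hε : 0 < ε)
    (hf : ∀ k, f k = ⌊tsl H ![a, b, c] k / ε⌋₊) (h : ∀ e r, ¬ R8e_long f e r) :
    CoreLe H a b c ε := by
  have h0 := R8e_gm_le hε hf 0 (h 0)
  have h1 := R8e_gm_le hε hf 1 (h 1)
  have h2 := R8e_gm_le hε hf 2 (h 2)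
  exact ⟨h0.1, h0.2.1, h0.2.2, h1.1, h1.2.1, h1.2.2, h2.1, h2.2.1, h2.2.2⟩

theorem R8e_close {x y : ℝ} {ε : ℕ} (hε : 0 < ε) (hx : 0 ≤ x) (hy : 0 ≤ y)
    (h : ⌊x / ε⌋₊ = ⌊y / ε⌋₊) : |x - y| ≤ ε := by
  have hε' : (0 : ℝ) < ε := by exact_mod_cast hε
  have h1 := Nat.floor_le (div_nonneg hx hε'.le)
  have h2 := Nat.lt_floor_add_one (x / ε)
  have h3 := Nat.floor_le (div_nonneg hy hε'.le)
  have h4 := Nat.lt_floor_add_one (y / ε)
  rw [h] at h1 h2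
  have h5 : |x / ε - y / ε| ≤ 1 := by
    rw [abs_le]
    constructor <;> linarith
  have h6 : x - y = (x / ε - y / ε) * ε := by field_simp
  rw [h6, abs_mul, abs_of_pos hε']
  nlinarith

end Triple

variable {Γ : Type*} [Group Γ] {ι : Type*} [Fintype ι] {X : ι → Type*} [∀ i, MulAction Γ (X i)]
  (S : ∀ i, HiveSpace Γ (X i))

/-- a class of triples -/
def R8e_cl (m : ℝ) (ε : ℕ) (f : ι → R8e_I → ℕ) : Set ((∀ i, X i) × (∀ i, X i) × (∀ i, X i)) :=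
  {t | t ∈ TP S m ∧ ∀ i k, f i k = ⌊tsl (S i).H ![t.1 i, t.2.1 i, t.2.2 i] k / ε⌋₊}

theorem R8e_inv (m : ℝ) (ε : ℕ) (f : ι → R8e_I → ℕ) : InvT Γ (R8e_cl S m ε f) := by
  intro g x y z
  have h1 := invT_TP S m g x y z
  have h2 : ∀ i k, tsl (S i).H ![(g • x) i, (g • y) i, (g • z) i] k =
      tsl (S i).H ![x i, y i, z i] k := fun i k => inv_tsl (S i) g (x i) (y i) (z i) k
  constructor
  · rintro ⟨h3, h4⟩
    refine ⟨h1.1 h3, fun i k => ?_⟩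
    have h5 := h4 i k
    rw [← h2 i k]
    exact h5
  · rintro ⟨h3, h4⟩
    refine ⟨h1.2 h3, fun i k => ?_⟩
    have h5 := h4 i k
    rw [← h2 i k] at h5
    exact h5

theorem R8e_pm_le {m : ℝ} {t : (∀ i, X i) × (∀ i, X i) × (∀ i, X i)} (ht : t ∈ TP S m) (i : ι) :
    pm (S i).H (t.1 i) (t.2.1 i) (t.2.2 i) ≤ m := by
  have h0 : ∀ i, 0 ≤ pm (S i).H (t.1 i) (t.2.1 i) (t.2.2 i) := by
    intro i
    have h1 := dst_nonneg (S i).hive (t.1 i) (t.2.1 i)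
    have h2 := dst_nonneg (S i).hive (t.2.1 i) (t.2.2 i)
    have h3 := dst_nonneg (S i).hive (t.2.2 i) (t.1 i)
    unfold pm
    linarith
  have h1 := Finset.single_le_sum (f := fun i => pm (S i).H (t.1 i) (t.2.1 i) (t.2.2 i))
    (fun i _ => h0 i) (Finset.mem_univ i)
  exact h1.trans ht

theorem R8e_class (δ κ : ℝ) (hδ : 0 < δ) (κ' c : ℝ) (hc0 : 0 < c) (hc1 : c ≤ κ') (hc2 : c ≤ 1 / 100)
    (K : ℕ) (w : (∀ i, X i) → ℝ≥0∞) (hw : IsWt Γ w)
    (hcc : ∀ (m : ℝ) (ε : ℕ), 1 ≤ ε → (ε : ℝ) ≤ κ' * m → κ' * m ≤ 2 * ε →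
      ∀ T : Set ((∀ i, X i) × (∀ i, X i) × (∀ i, X i)), InvT Γ T → T ⊆ TP S m →
      (∀ t ∈ T, ∀ i, CoreLe (S i).H (t.1 i) (t.2.1 i) (t.2.2 i) ε) →
      (∀ t ∈ T, ∀ t' ∈ T, ∀ i,
        SlClose (S i).H (t.1 i) (t.2.1 i) (t.2.2 i) (t'.1 i) (t'.2.1 i) (t'.2.2 i) ε) →
      ∀ N : ℝ → ℝ≥0∞, (∀ s, Bd Γ w (TP S s) (N s)) →
      ∀ B : ℝ≥0∞, (∀ s s' : ℝ, 0 ≤ s → 0 ≤ s' → s + s' ≤ 2 * (1 - 1 / 100) * m →
        N s * N s' ≤ B ^ 2) → Bd Γ w T (K * B))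
    (m : ℝ) (ε : ℕ) (hε1 : 1 ≤ ε) (hε2 : (ε : ℝ) ≤ κ' * m) (hε3 : κ' * m ≤ 2 * ε) (hm : 0 < m)
    (N : ℝ → ℝ≥0∞) (hN : ∀ s, Bd Γ w (TP S s) (N s)) (B : ℝ≥0∞)
    (hB : ∀ s s' : ℝ, 0 ≤ s → 0 ≤ s' → s + s' ≤ 2 * (1 - c) * m → N s * N s' ≤ B ^ 2)
    (f : ι → R8e_I → ℕ) : Bd Γ w (R8e_cl S m ε f) ((K + 1 : ℕ) * B) := by
  have hsub : R8e_cl S m ε f ⊆ TP S m := fun t ht => ht.1
  by_cases hA : ∃ i e r, R8e_long (f i) e r
  · obtain ⟨i, e, r, hl⟩ := hA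
    have hg : ∀ t ∈ R8e_cl S m ε f, GroupGe (S i).H (![t.1 i, t.2.1 i, t.2.2 i] e)
        (![t.1 i, t.2.1 i, t.2.2 i] (e + 1)) (![t.1 i, t.2.1 i, t.2.2 i] (e + 2))
        ((r : ℕ) + 1) ε := fun t ht => R8e_groupGe hε1 (fun k => ht.2 i k) hl
    set s : ℝ := max 0 (m - 2 * ε) with hs
    have hs0 : 0 ≤ s := le_max_left _ _
    have hNs : N s ≤ B := by
      have h1 := hB s s hs0 hs0 (by
        rcases max_choice (0 : ℝ) (m - 2 * ε) with h | h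
        · rw [hs, h]
          have : 0 ≤ 2 * (1 - c) * m := by
            have : 0 ≤ 1 - c := by linarith
            positivity
          linarith
        · rw [hs, h]
          have h2 : c * m ≤ κ' * m := mul_le_mul_of_nonneg_right hc1 hm.le
          nlinarith)
      by_contra hcon
      push Not at hcon
      have h2 : B ^ 2 < N s * N s := by
        rw [pow_two]
        exact ENNReal.mul_lt_mul hcon hcon
      exact absurd h1 (not_le.2 h2)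
    have hbd : Bd Γ w (TP S (m - 2 * ε)) ((K + 1 : ℕ) * B) := by
      refine Bd.mono (hN s) ?_ ?_
      · intro t ht
        have h2 : pY S t ≤ m - 2 * ε := ht
        exact h2.trans (le_max_right _ _)
      · refine hNs.trans ?_
        refine le_mul_of_one_le_left (by positivity) ?_
        exact_mod_cast Nat.le_add_left 1 K
    refine case_move S hw (R8e_inv S m ε f) m hsub i ((r : ℕ) + 1) ε ?_ hbd
    fin_cases e
    · exact Or.inl hg
    · exact Or.inr (Or.inl hg)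
    · exact Or.inr (Or.inr hg)
  · push Not at hA
    have h1 := hcc m ε hε1 hε2 hε3 (R8e_cl S m ε f) (R8e_inv S m ε f) hsub
      (fun t ht i => R8e_coreLe hε1 (fun k => ht.2 i k) (hA i))
      (fun t ht t' ht' i k => R8e_close hε1 (R8e_tsl_nonneg (S i).hive _ _)
        (R8e_tsl_nonneg (S i).hive _ _) ((ht.2 i k).symm.trans (ht'.2 i k)))
      N hN B (fun s s' hs hs' hss => hB s s' hs hs' (by
        refine hss.trans ?_
        have : (1 - 1 / 100 : ℝ) ≤ 1 - c := by linarith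
        nlinarith))
    refine Bd.mono h1 (fun t ht => ht) ?_
    gcongr
    exact_mod_cast Nat.le_succ K

theorem recursion : ∃ K c m0 : ℝ, 1 ≤ K ∧ 0 < c ∧ c < 1 ∧ 1 ≤ m0 ∧
    ∀ (w : (∀ i, X i) → ℝ≥0∞), IsWt Γ w →
      ∀ N : ℝ → ℝ≥0∞, (∀ s, Bd Γ w (TP S s) (N s)) →
      ∀ m, m0 ≤ m → ∀ B : ℝ≥0∞, (∀ s s' : ℝ, 0 ≤ s → 0 ≤ s' → s + s' ≤ 2 * (1 - c) * m →
        N s * N s' ≤ B ^ 2) → Bd Γ w (TP S m) (ENNReal.ofReal K * B) := by
  classical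
  have hcard : (0 : ℝ) ≤ Fintype.card ι := Nat.cast_nonneg _
  set δ : ℝ := 1 / (100 * (Fintype.card ι + 1)) with hδ
  have hδ0 : 0 < δ := by positivity
  have hδ1 : Fintype.card ι * δ ≤ 1 / 100 := by
    rw [hδ, mul_one_div, div_le_div_iff₀ (by positivity) (by norm_num)]
    nlinarith
  have hkey : ∃ κ : ℝ, 0 < κ ∧ ∀ (i : ι) (m : ℝ), 0 < m → ∀ a b c d : X i,
      dst (S i).H a b ≤ 4 * m → dst (S i).H a c ≤ 4 * m → dst (S i).H a d ≤ 4 * m →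
      dst (S i).H b c ≤ 4 * m → dst (S i).H b d ≤ 4 * m → dst (S i).H c d ≤ 4 * m →
      SlClose (S i).H a b c a d c (κ * m) → CoreLe (S i).H a b c (κ * m) →
      cs (S i).H a b d + cs (S i).H c b d ≤ uc (S i).H a b c + δ * m := by
    obtain ⟨κ, h1, h2⟩ := key_approx δ hδ0
    exact ⟨κ, h1, fun i m hm a b c d => h2 (X i) (S i).H (S i).hive m hm a b c d⟩
  obtain ⟨κ, hκ, key⟩ := hkey
  obtain ⟨κ', hκ', hκ1, K, hK⟩ := case_core S δ κ hδ0 hδ1 hκ key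
  set c : ℝ := min κ' (1 / 100) with hc
  have hc0 : 0 < c := lt_min hκ' (by norm_num)
  have hc1 : c ≤ κ' := min_le_left _ _
  have hc2 : c ≤ 1 / 100 := min_le_right _ _
  obtain ⟨L, hL⟩ := exists_nat_ge (2 / κ')
  set nJ : ℕ := Fintype.card (ι → R8e_I → Fin (L + 1)) with hnJ
  have hnJ1 : 1 ≤ nJ := Fintype.card_pos
  refine ⟨((nJ * (K + 1) : ℕ) : ℝ), c, max 1 (1 / κ'), ?_, hc0, by linarith, le_max_left _ _, ?_⟩
  · have : 1 ≤ nJ * (K + 1) := Nat.one_le_iff_ne_zero.2 (by positivity)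
    exact_mod_cast this
  intro w hw N hN m hm B hB
  have hm1 : 1 ≤ m := (le_max_left _ _).trans hm
  have hm2 : 1 / κ' ≤ m := (le_max_right _ _).trans hm
  have hm0 : 0 < m := by linarith
  have hκm : 1 ≤ κ' * m := by
    rw [div_le_iff₀ hκ'] at hm2
    linarith
  set ε : ℕ := ⌊κ' * m⌋₊ with hε
  have hε1 : 1 ≤ ε := by
    rw [hε, Nat.one_le_floor_iff]
    exact hκm
  have hε2 : (ε : ℝ) ≤ κ' * m := Nat.floor_le (by positivity)
  have hε3 : κ' * m ≤ 2 * ε := by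
    have h1 := Nat.lt_floor_add_one (κ' * m)
    rw [← hε] at h1
    have h2 : (1 : ℝ) ≤ ε := by exact_mod_cast hε1
    linarith
  have hε0 : (0 : ℝ) < ε := by exact_mod_cast hε1
  have hcover := Bd.cover (Γ := Γ) (w := w) (Finset.univ : Finset (ι → R8e_I → Fin (L + 1)))
    (fun f => R8e_cl S m ε (fun i k => (f i k : ℕ))) (fun _ => (K + 1 : ℕ) * B)
    (fun f _ => R8e_class S δ κ hδ0 κ' c hc0 hc1 hc2 K w hw (hK w hw) m ε hε1 hε2 hε3 hm0 N hN B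
      hB _) (T0 := TP S m) (by
      intro t ht
      have hb : ∀ i k, ⌊tsl (S i).H ![t.1 i, t.2.1 i, t.2.2 i] k / ε⌋₊ < L + 1 := by
        intro i k
        rw [Nat.lt_succ_iff]
        apply Nat.floor_le_of_le
        refine le_trans ?_ hL
        rw [div_le_div_iff₀ hε0 hκ']
        have h1 := (R8e_tsl_le (S i).hive (t.1 i) (t.2.1 i) (t.2.2 i) k).trans (R8e_pm_le S ht i)
        have h2 := mul_le_mul_of_nonneg_right h1 hκ'.le
        linarith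
      refine ⟨fun i k => ⟨_, hb i k⟩, Finset.mem_univ _, ht, fun i k => rfl⟩)
  refine Bd.mono hcover (fun t ht => ht) (le_of_eq ?_)
  rw [Finset.sum_const, Finset.card_univ, nsmul_eq_mul, ENNReal.ofReal_natCast, ← mul_assoc]
  push_cast
  rfl

end RapidDecay
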