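import Mathlib
import Pool.Agent.Lib.MP_fee02f_an.Defs

/-!
Module R9a: the recursion gives a polynomial bound (RD.md 5.6).
-/

open scoped ENNReal

namespace RapidDecay

/-- choice of the exponent -/
theorem R9a_exp (K q : ℝ) (hK : 1 ≤ K) (hq : 0 < q) (hq1 : q < 1) :
    ∃ D : ℝ, 0 ≤ D ∧ K * q ^ D ≤ 1 := by
  have hlq : Real.log q < 0 := Real.log_neg hq hq1
  have hlK : 0 ≤ Real.log K := Real.log_nonneg hK
  have hlq0 : Real.log q ≠ 0 := hlq.ne
  have hK0 : 0 < K := by linarith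
  refine ⟨Real.log K / (-Real.log q), div_nonneg hlK (by linarith), ?_⟩
  rw [Real.rpow_def_of_pos hq]
  have e : Real.log q * (Real.log K / (-Real.log q)) = -Real.log K := by
    field_simp
  rw [e, Real.exp_neg, Real.exp_log hK0, mul_inv_cancel₀ hK0.ne']

theorem R9a_step (N : ℝ → ℝ) (hmono : Monotone N) (h1 : ∀ m, 1 ≤ N m)
    (K c m0 D E t : ℝ) (hK : 1 ≤ K) (hc : 0 < c) (hc1 : c < 1) (hm0 : 1 ≤ m0)
    (hD : 0 ≤ D) (hDK : K * (1 - c / 2) ^ D ≤ 1) (hE : N m0 ≤ E) (ht : 0 ≤ t)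
    (hrec : ∀ m, m0 ≤ m → ∀ B : ℝ, 0 ≤ B →
      (∀ s s' : ℝ, 0 ≤ s → 0 ≤ s' → s + s' ≤ 2 * (1 - c) * m → N s * N s' ≤ B ^ 2) →
      N m ≤ K * B)
    (hN : ∀ m, 0 ≤ m → N m ≤ E * (m + 1) ^ D * Real.exp (t * m)) :
    ∀ m, 0 ≤ m → N m ≤ E * (m + 1) ^ D * Real.exp (t * (1 - c) * m) := by
  intro m hm
  have hE0 : 0 < E := by linarith [h1 m0]
  have hexp1 : 1 ≤ Real.exp (t * (1 - c) * m) := by
    apply Real.one_le_exp
    have : 0 ≤ 1 - c := by linarith
    positivity
  rcases lt_or_ge m m0 with hlt | hge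
  · have hpow1 : 1 ≤ (m + 1) ^ D := Real.one_le_rpow (by linarith) hD
    have h2 : N m ≤ E := (hmono hlt.le).trans hE
    have h3 : 1 ≤ (m + 1) ^ D * Real.exp (t * (1 - c) * m) := by nlinarith
    calc N m ≤ E := h2
      _ = E * 1 := by ring
      _ ≤ E * ((m + 1) ^ D * Real.exp (t * (1 - c) * m)) := by
        apply mul_le_mul_of_nonneg_left h3 hE0.le
      _ = _ := by ring
  · have hcm : 0 ≤ (1 - c) * m := by
      have : 0 ≤ 1 - c := by linarith
      positivity
    set B := E * ((1 - c) * m + 1) ^ D * Real.exp (t * ((1 - c) * m)) with hB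
    have hB0 : 0 ≤ B := by
      rw [hB]
      have : (0 : ℝ) ≤ ((1 - c) * m + 1) ^ D := Real.rpow_nonneg (by linarith) D
      positivity
    have h4 := hrec m hge B hB0 (by
      intro s s' hs hs' hss
      have e1 : N s * N s' ≤ (E * (s + 1) ^ D * Real.exp (t * s)) *
          (E * (s' + 1) ^ D * Real.exp (t * s')) := by
        apply mul_le_mul (hN s hs) (hN s' hs') (by linarith [h1 s'])
        have : (0 : ℝ) ≤ (s + 1) ^ D := Real.rpow_nonneg (by linarith) D
        positivity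
      have e2 : (E * (s + 1) ^ D * Real.exp (t * s)) * (E * (s' + 1) ^ D * Real.exp (t * s')) =
          E ^ 2 * ((s + 1) * (s' + 1)) ^ D * Real.exp (t * (s + s')) := by
        rw [Real.mul_rpow (by linarith) (by linarith), mul_add, Real.exp_add]
        ring
      have e3 : B ^ 2 = E ^ 2 * (((1 - c) * m + 1) * ((1 - c) * m + 1)) ^ D *
          Real.exp (t * (2 * (1 - c) * m)) := by
        rw [hB, Real.mul_rpow (by linarith) (by linarith),
          show t * (2 * (1 - c) * m) = t * ((1 - c) * m) + t * ((1 - c) * m) by ring,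
          Real.exp_add]
        ring
      rw [e3]
      refine e1.trans (e2.le.trans ?_)
      have e4 : ((s + 1) * (s' + 1)) ^ D ≤ (((1 - c) * m + 1) * ((1 - c) * m + 1)) ^ D := by
        apply Real.rpow_le_rpow (by positivity) _ hD
        nlinarith [sq_nonneg (s - s')]
      have e5 : Real.exp (t * (s + s')) ≤ Real.exp (t * (2 * (1 - c) * m)) :=
        Real.exp_le_exp.mpr (mul_le_mul_of_nonneg_left hss ht)
      have e6 : (0 : ℝ) ≤ (((1 - c) * m + 1) * ((1 - c) * m + 1)) ^ D :=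
        Real.rpow_nonneg (by positivity) D
      apply mul_le_mul (mul_le_mul_of_nonneg_left e4 (by positivity)) e5 (Real.exp_nonneg _)
      positivity)
    have h5 : ((1 - c) * m + 1) ^ D ≤ (1 - c / 2) ^ D * (m + 1) ^ D := by
      rw [← Real.mul_rpow (by linarith) (by linarith)]
      apply Real.rpow_le_rpow (by linarith) _ hD
      nlinarith
    have hpow0 : (0 : ℝ) ≤ (m + 1) ^ D := Real.rpow_nonneg (by linarith) D
    calc N m ≤ K * B := h4
      _ ≤ K * (E * ((1 - c / 2) ^ D * (m + 1) ^ D) * Real.exp (t * ((1 - c) * m))) := by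
        rw [hB]
        apply mul_le_mul_of_nonneg_left _ (by linarith)
        apply mul_le_mul_of_nonneg_right _ (Real.exp_nonneg _)
        exact mul_le_mul_of_nonneg_left h5 hE0.le
      _ = (K * (1 - c / 2) ^ D) * (E * (m + 1) ^ D * Real.exp (t * (1 - c) * m)) := by
        rw [show t * ((1 - c) * m) = t * (1 - c) * m by ring]
        ring
      _ ≤ 1 * (E * (m + 1) ^ D * Real.exp (t * (1 - c) * m)) := by
        apply mul_le_mul_of_nonneg_right hDK
        positivity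
      _ = _ := one_mul _

theorem poly_of_recursion (N : ℝ → ℝ) (hmono : Monotone N) (h1 : ∀ m, 1 ≤ N m) (C : ℝ)
    (hC : 0 ≤ C) (hexp : ∀ m, 0 ≤ m → N m ≤ Real.exp (C * (m + 1)))
    (K c m0 : ℝ) (hK : 1 ≤ K) (hc : 0 < c) (hc1 : c < 1) (hm0 : 1 ≤ m0)
    (hrec : ∀ m, m0 ≤ m → ∀ B : ℝ, 0 ≤ B →
      (∀ s s' : ℝ, 0 ≤ s → 0 ≤ s' → s + s' ≤ 2 * (1 - c) * m → N s * N s' ≤ B ^ 2) →
      N m ≤ K * B) :
    ∃ D E : ℝ, 0 ≤ D ∧ 0 ≤ E ∧ ∀ m, 0 ≤ m → N m ≤ E * (m + 1) ^ D := by
  obtain ⟨D, hD, hDK⟩ := R9a_exp K (1 - c / 2) hK (by linarith) (by linarith)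
  refine ⟨D, Real.exp (C * (m0 + 1)), hD, Real.exp_nonneg _, ?_⟩
  have key : ∀ k : ℕ, ∀ m, 0 ≤ m →
      N m ≤ Real.exp (C * (m0 + 1)) * (m + 1) ^ D * Real.exp (C * (1 - c) ^ k * m) := by
    intro k
    induction k with
    | zero =>
      intro m hm
      have hpow1 : 1 ≤ (m + 1) ^ D := Real.one_le_rpow (by linarith) hD
      have h3 : Real.exp C ≤ Real.exp (C * (m0 + 1)) := Real.exp_le_exp.mpr (by nlinarith)
      have h4 : Real.exp C ≤ Real.exp (C * (m0 + 1)) * (m + 1) ^ D := by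
        calc Real.exp C ≤ Real.exp (C * (m0 + 1)) := h3
          _ = Real.exp (C * (m0 + 1)) * 1 := by ring
          _ ≤ _ := mul_le_mul_of_nonneg_left hpow1 (Real.exp_nonneg _)
      calc N m ≤ Real.exp (C * (m + 1)) := hexp m hm
        _ = Real.exp C * Real.exp (C * (1 - c) ^ 0 * m) := by
          rw [← Real.exp_add]; congr 1; ring
        _ ≤ _ := mul_le_mul_of_nonneg_right h4 (Real.exp_nonneg _)
    | succ k ih =>
      intro m hm
      have h5 := R9a_step N hmono h1 K c m0 D (Real.exp (C * (m0 + 1))) (C * (1 - c) ^ k) hK hc hc1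
        hm0 hD hDK (hexp m0 (by linarith))
        (mul_nonneg hC (pow_nonneg (by linarith) k)) hrec ih m hm
      have e : C * (1 - c) ^ (k + 1) * m = C * (1 - c) ^ k * (1 - c) * m := by ring
      rw [e]
      exact h5
  intro m hm
  have hlim : Filter.Tendsto (fun k : ℕ => Real.exp (C * (m0 + 1)) * (m + 1) ^ D *
      Real.exp (C * (1 - c) ^ k * m)) Filter.atTop
      (nhds (Real.exp (C * (m0 + 1)) * (m + 1) ^ D * Real.exp (C * 0 * m))) := by
    have h6 : Filter.Tendsto (fun k : ℕ => (1 - c) ^ k) Filter.atTop (nhds 0) :=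
      tendsto_pow_atTop_nhds_zero_of_lt_one (by linarith) (by linarith)
    exact ((Real.continuous_exp.tendsto _).comp ((h6.const_mul C).mul_const m)).const_mul _
  have h7 := ge_of_tendsto' hlim (fun k => key k m hm)
  simpa using h7

end RapidDecay
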