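import Pool.Agent.Lib.MP_fee02f_an.Defs
import Pool.Agent.Lib.MP_fee02f_an.R2
import Pool.Agent.Lib.MP_fee02f_an.R7a
import Pool.Agent.Lib.MP_fee02f_an.R7b
import Pool.Agent.Lib.MP_fee02f_an.R8e
import Pool.Agent.Lib.MP_fee02f_an.R9a

/-!
R9b: the trilinear form of the triples of perimeter at most `m` is bounded by a polynomial in `m`.
-/

set_option autoImplicit false

open scoped ENNReal

namespace RapidDecay

variable {Γ : Type*} [Group Γ] {ι : Type*} [Fintype ι] {X : ι → Type*} [∀ i, MulAction Γ (X i)]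
  (S : ∀ i, HiveSpace Γ (X i))

/-- the best bound -/
noncomputable def R9b_N (w : (∀ i, X i) → ℝ≥0∞) (s : ℝ) : ℝ≥0∞ := sInf {C | Bd Γ w (TP S s) C}

theorem R9b_TP_mono {s t : ℝ} (h : s ≤ t) : TP S s ⊆ TP S t := by
  intro x hx
  have h1 : pY S x ≤ s := hx
  exact h1.trans h

theorem R9b_le (w : (∀ i, X i) → ℝ≥0∞) {s : ℝ} {C : ℝ≥0∞} (h : Bd Γ w (TP S s) C) :
    R9b_N S w s ≤ C := sInf_le h

theorem R9b_mono (w : (∀ i, X i) → ℝ≥0∞) {s t : ℝ} (h : s ≤ t) : R9b_N S w s ≤ R9b_N S w t := by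
  apply sInf_le_sInf
  intro C hC
  exact Bd.mono hC (R9b_TP_mono S h) le_rfl

theorem poly_Bd (b : ℕ)
    (hb : ∀ y : (∀ i, X i), Finite (MulAction.stabilizer Γ y) ∧
      Nat.card (MulAction.stabilizer Γ y) ≤ b)
    {w : (∀ i, X i) → ℝ≥0∞} (hw : IsWt Γ w) :
    ∃ D E : ℝ, 0 ≤ D ∧ 0 ≤ E ∧ ∀ m, 0 ≤ m →
      Bd Γ w (TP S m) (ENNReal.ofReal (E * (m + 1) ^ D)) := by
  obtain ⟨C, hC, hC'⟩ := TP_trivial S b hb
  obtain ⟨K, c, m0, hK, hc, hc1, hm0, hrec⟩ := recursion S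
  have hbound : ∀ m : ℝ, 0 ≤ m → R9b_N S w m ≤ ENNReal.ofReal (Real.exp (C * (m + 1))) :=
    fun m hm => R9b_le S w (hC' w hw m hm)
  have hfin : ∀ s, R9b_N S w s ≠ ∞ := by
    intro s
    have h1 := (R9b_mono S w (le_max_left s 0)).trans (hbound (max s 0) (le_max_right _ _))
    exact ne_top_of_le_ne_top ENNReal.ofReal_ne_top h1
  have hBd : ∀ s, Bd Γ w (TP S s) (R9b_N S w s) := by
    intro s
    refine Bd.sInf ⟨ENNReal.ofReal (Real.exp (C * (max s 0 + 1))), ?_⟩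
    exact Bd.mono (hC' w hw (max s 0) (le_max_right _ _)) (R9b_TP_mono S (le_max_left _ _)) le_rfl
  set N : ℝ → ℝ := fun s => max 1 (R9b_N S w s).toReal with hN
  have hNle : ∀ s, R9b_N S w s ≤ ENNReal.ofReal (N s) := by
    intro s
    rw [← ENNReal.ofReal_toReal (hfin s)]
    exact ENNReal.ofReal_le_ofReal (le_max_right _ _)
  have hNBd : ∀ s, Bd Γ w (TP S s) (ENNReal.ofReal (N s)) := fun s =>
    Bd.mono (hBd s) (fun t ht => ht) (hNle s)
  have hmono : Monotone N := by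
    intro s t hst
    exact max_le_max le_rfl (ENNReal.toReal_mono (hfin t) (R9b_mono S w hst))
  have h1 : ∀ m, 1 ≤ N m := fun m => le_max_left _ _
  have hexp : ∀ m, 0 ≤ m → N m ≤ Real.exp (C * (m + 1)) := by
    intro m hm
    refine max_le (Real.one_le_exp (by positivity)) ?_
    have h2 := ENNReal.toReal_mono ENNReal.ofReal_ne_top (hbound m hm)
    rwa [ENNReal.toReal_ofReal (Real.exp_pos _).le] at h2
  obtain ⟨D, E, hD, hE, hDE⟩ := poly_of_recursion N hmono h1 C hC hexp K c m0 hK hc hc1 hm0 (by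
    intro m hm B hB hNB
    have hm' : 0 ≤ m := by linarith
    have h2 : 1 ≤ B := by
      have h3 := hNB 0 0 le_rfl le_rfl (by
        have : 0 ≤ 1 - c := by linarith
        have : 0 ≤ 2 * (1 - c) * m := by positivity
        linarith)
      have h4 : 1 ≤ N 0 * N 0 := by nlinarith [h1 0]
      nlinarith
    have h3 := hrec w hw (fun s => ENNReal.ofReal (N s)) hNBd m hm (ENNReal.ofReal B) (by
      intro s s' hs hs' hss
      rw [← ENNReal.ofReal_mul (by linarith [h1 s]), ← ENNReal.ofReal_pow hB]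
      exact ENNReal.ofReal_le_ofReal (hNB s s' hs hs' hss))
    rw [← ENNReal.ofReal_mul (by linarith)] at h3
    have h4 := ENNReal.toReal_mono ENNReal.ofReal_ne_top (R9b_le S w h3)
    rw [ENNReal.toReal_ofReal (by positivity)] at h4
    refine max_le ?_ h4
    nlinarith)
  refine ⟨D, E, hD, hE, fun m hm => ?_⟩
  exact Bd.mono (hNBd m) (fun t ht => ht) (ENNReal.ofReal_le_ofReal (hDE m hm))

end RapidDecay
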