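import Pool.Agent.Lib.MP_fee02f_an.Defs
import Pool.Agent.Lib.MP_fee02f_an.R1
import Pool.Agent.Lib.MP_fee02f_an.R7a
import Pool.Agent.Lib.MP_fee02f_an.R9b
import Pool.Agent.Lib.MP_fee02f_an.R10b
import Pool.Agent.Lib.MP_fee02f_an.R11b

/-!
R12: rapid decay for groups acting on products of hive spaces.
-/

set_option autoImplicit false

open scoped ENNReal

namespace RapidDecay

variable {Γ : Type*} [Group Γ] {ι : Type*} [Fintype ι] {X : ι → Type*} [∀ i, MulAction Γ (X i)]
  (S : ∀ i, HiveSpace Γ (X i))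

theorem R12_shift (a b : Γ) (x0 : ∀ i, X i) :
    dY S (a • x0) (b • x0) = dY S x0 ((a⁻¹ * b) • x0) := by
  have h := dY_smul S a x0 ((a⁻¹ * b) • x0)
  rw [← h, smul_smul, mul_inv_cancel_left]

theorem rd_of_hive (x0 : ∀ i, X i) (b : ℕ)
    (hb : ∀ y : (∀ i, X i), Finite (MulAction.stabilizer Γ y) ∧
      Nat.card (MulAction.stabilizer Γ y) ≤ b) :
    IsLength (fun g : Γ => dY S x0 (g • x0)) ∧ RDWith (fun g : Γ => dY S x0 (g • x0)) := by
  constructor
  · refine ⟨fun g => dY_nonneg S _ _, fun g => ?_, fun g h => ?_⟩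
    · have h1 := R12_shift S g 1 x0
      rw [one_smul, mul_one] at h1
      rw [← h1]
      exact (dY_comm S (g • x0) x0).symm
    · have h1 := dY_triangle S x0 (g • x0) ((g * h) • x0)
      have h2 := R12_shift S g (g * h) x0
      rw [inv_mul_cancel_left] at h2
      rw [h2] at h1
      exact h1
  · obtain ⟨w, hw⟩ := exists_wt (Γ := Γ) (Y := ∀ i, X i) (fun y => (hb y).1)
    obtain ⟨D, E, hD, hE, hDE⟩ := poly_Bd S b hb hw
    obtain ⟨D', E', hD', hE', hDE'⟩ := long_arms S hw D E hD hE hDE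
    refine rd_of_bd hw x0 (hb x0).1 _ (fun g => dY_nonneg S _ _) D' E' hD' hE' ?_
    intro R hR
    refine ⟨{t | dY S t.1 t.2.1 ≤ R}, ?_, ?_, hDE' R hR⟩
    · intro g x y z
      change dY S (g • x) (g • y) ≤ R ↔ dY S x y ≤ R
      rw [dY_smul]
    · intro a b c h
      change dY S (a • x0) (b • x0) ≤ R
      rw [R12_shift]
      exact h

end RapidDecay
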