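import Mathlib
import Pool.Agent.Lib.MP_fee02f_an.Defs
import Pool.Agent.Lib.MP_fee02f_an.DefsA
import Pool.Agent.Lib.MP_fee02f_an.M5
import Pool.Agent.Lib.MP_fee02f_an.R12

/-!
Module A1 of MP_fee02f_an: cocompact discrete subgroups of admissible groups have property (RD).
-/

namespace RapidDecay

/-- restriction of a hive space to a subgroup -/
def A1_restrict {G X : Type*} [Group G] [MulAction G X] (S : HiveSpace G X) (Γ : Subgroup G) :
    HiveSpace Γ X where
  H := S.H
  hive := S.hive
  inv := fun g a b c s t => S.inv (g : G) a b c s t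
  mv := S.mv
  mv_smul := fun g r k a b => S.mv_smul (g : G) r k a b
  mv_eq := S.mv_eq
  mv_sl := S.mv_sl
  growth := S.growth

/-- (module A1) -/
theorem Adm.rd.{u, w} {G : Type w} [Group G] [TopologicalSpace G] [IsTopologicalGroup G] [T2Space G]
    (hG : Adm.{u, w} G) (Γ : Subgroup G) [DiscreteTopology Γ] [CompactSpace (G ⧸ Γ)] :
    PropertyRD Γ := by
  obtain ⟨κ, _, X, _, S, Y, _, hne, hopen, hcomp, hfin, hstab⟩ := hG
  obtain ⟨b, hb⟩ := bounded_stab (Y := Y) hopen hcomp hfin Γ
  have hb' : ∀ z : (∀ k, X k), Finite (MulAction.stabilizer Γ z) ∧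
      Nat.card (MulAction.stabilizer Γ z) ≤ b := by
    intro z
    obtain ⟨y, hy⟩ := hstab z
    have hle : MulAction.stabilizer Γ z ≤ MulAction.stabilizer Γ y := by
      intro g hg
      have h1 : (g : G) ∈ MulAction.stabilizer G z := by
        rw [MulAction.mem_stabilizer_iff] at hg ⊢
        exact hg
      have h2 := hy h1
      rw [MulAction.mem_stabilizer_iff] at h2 ⊢
      exact h2
    obtain ⟨hf, hc⟩ := hb y
    have hinj := Subgroup.inclusion_injective hle
    exact ⟨Finite.of_injective _ hinj, le_trans (Nat.card_le_card_of_injective _ hinj) hc⟩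
  have x0 : ∀ k, X k := fun k => (hne k).some
  have := rd_of_hive (fun k => A1_restrict (S k) Γ) x0 b hb'
  exact ⟨_, this.1, this.2⟩

end RapidDecay
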