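import Pool.Agent.Lib.MP_fee02f_an.DefsA

/-!
A2: finite products of admissible topological groups.
-/

namespace RapidDecay

/-- a hive space for `G` is a hive space for every group acting through `G` -/
def A2_comp {G G' X : Type*} [Group G] [Group G'] [MulAction G X] [MulAction G' X]
    (φ : G' → G) (h : ∀ (g : G') (x : X), g • x = φ g • x) (S : HiveSpace G X) :
    HiveSpace G' X where
  H := S.H
  hive := S.hive
  inv := by
    intro g a b c s t
    rw [h, h, h, h, h]
    exact S.inv (φ g) a b c s t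
  mv := S.mv
  mv_smul := by
    intro g r k a b
    rw [h, h, h]
    exact S.mv_smul (φ g) r k a b
  mv_eq := S.mv_eq
  mv_sl := S.mv_sl
  growth := S.growth

/-- (module A2) -/
theorem Adm.pi.{u, w} {ι : Type} [Fintype ι] (G : ι → Type w) [∀ i, Group (G i)]
    [∀ i, TopologicalSpace (G i)] (hG : ∀ i, Adm.{u, w} (G i)) : Adm.{u, w} (∀ i, G i) := by
  classical
  choose κ fκ X aX hX Y aY hne hop hcomp hfin hstab using hG
  let aX' : ∀ p : Σ i, κ i, MulAction (∀ i, G i) (X p.1 p.2) := fun p =>
    MulAction.compHom (X p.1 p.2) (Pi.evalMonoidHom G p.1)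
  refine ⟨Σ i, κ i, inferInstance, fun p => X p.1 p.2, aX', fun p =>
    A2_comp (fun g : (∀ i, G i) => g p.1) (fun g x => rfl) (hX p.1 p.2), (∀ i, Y i), inferInstance,
    fun p => hne p.1 p.2, fun y => ?_, fun y => ?_, ?_, fun z => ?_⟩
  · have h : (MulAction.stabilizer (∀ i, G i) y : Set (∀ i, G i)) =
        Set.pi Set.univ (fun i => (MulAction.stabilizer (G i) (y i) : Set (G i))) := by
      ext g
      simp only [SetLike.mem_coe, MulAction.mem_stabilizer_iff, Set.mem_pi, Set.mem_univ,
        forall_true_left]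
      exact funext_iff
    rw [h]
    exact isOpen_set_pi Set.finite_univ fun i _ => hop i (y i)
  · have h : (MulAction.stabilizer (∀ i, G i) y : Set (∀ i, G i)) =
        Set.pi Set.univ (fun i => (MulAction.stabilizer (G i) (y i) : Set (G i))) := by
      ext g
      simp only [SetLike.mem_coe, MulAction.mem_stabilizer_iff, Set.mem_pi, Set.mem_univ,
        forall_true_left]
      exact funext_iff
    rw [h]
    exact isCompact_univ_pi fun i => hcomp i (y i)
  · have : ∀ i, Finite (MulAction.orbitRel.Quotient (G i) (Y i)) := hfin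
    let f : (∀ i, MulAction.orbitRel.Quotient (G i) (Y i)) →
        MulAction.orbitRel.Quotient (∀ i, G i) (∀ i, Y i) :=
      fun q => Quotient.mk (MulAction.orbitRel (∀ i, G i) (∀ i, Y i)) (fun i => (q i).out)
    apply Finite.of_surjective f
    intro q
    induction q using Quotient.inductionOn with
    | h y =>
      refine ⟨fun i => Quotient.mk (MulAction.orbitRel (G i) (Y i)) (y i), ?_⟩
      apply Quotient.sound
      have h1 : ∀ i, ∃ g : G i, g • y i =
          (Quotient.mk (MulAction.orbitRel (G i) (Y i)) (y i)).out := by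
        intro i
        exact Quotient.exact (Quotient.out_eq (Quotient.mk (MulAction.orbitRel (G i) (Y i)) (y i)))
      choose g hg using h1
      exact ⟨g, funext hg⟩
  · have h1 : ∀ i, ∃ y : Y i, MulAction.stabilizer (G i) (fun k => z ⟨i, k⟩) ≤
        MulAction.stabilizer (G i) y := fun i => hstab i (fun k => z ⟨i, k⟩)
    choose y hy using h1
    refine ⟨y, fun g hg => ?_⟩
    rw [MulAction.mem_stabilizer_iff] at hg ⊢
    funext i
    have h2 : g i ∈ MulAction.stabilizer (G i) (fun k => z ⟨i, k⟩) := by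
      rw [MulAction.mem_stabilizer_iff]
      funext k
      exact congrFun hg ⟨i, k⟩
    exact hy i h2

/-- (module A2) -/
theorem Adm.prod.{u, w} {G H : Type w} [Group G] [TopologicalSpace G] [Group H]
    [TopologicalSpace H] (hG : Adm.{u, w} G) (hH : Adm.{u, w} H) : Adm.{u, w} (G × H) := by
  classical
  obtain ⟨κ1, fκ1, X1, aX1, hX1, Y1, aY1, hne1, hop1, hcomp1, hfin1, hstab1⟩ := hG
  obtain ⟨κ2, fκ2, X2, aX2, hX2, Y2, aY2, hne2, hop2, hcomp2, hfin2, hstab2⟩ := hH
  let bX1 : ∀ k, MulAction (G × H) (X1 k) := fun k =>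
    MulAction.compHom (X1 k) (MonoidHom.fst G H)
  let bX2 : ∀ k, MulAction (G × H) (X2 k) := fun k =>
    MulAction.compHom (X2 k) (MonoidHom.snd G H)
  let bY1 : MulAction (G × H) Y1 := MulAction.compHom Y1 (MonoidHom.fst G H)
  let bY2 : MulAction (G × H) Y2 := MulAction.compHom Y2 (MonoidHom.snd G H)
  have hst : ∀ y : Y1 × Y2, (MulAction.stabilizer (G × H) y : Set (G × H)) =
      (MulAction.stabilizer G y.1 : Set G) ×ˢ (MulAction.stabilizer H y.2 : Set H) := by
    intro y
    ext g
    simp only [SetLike.mem_coe, MulAction.mem_stabilizer_iff, Set.mem_prod]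
    exact Prod.ext_iff
  let bX : ∀ k : κ1 ⊕ κ2, MulAction (G × H) (Sum.elim X1 X2 k) := fun k =>
    Sum.rec (motive := fun k => MulAction (G × H) (Sum.elim X1 X2 k)) bX1 bX2 k
  have hX : ∀ k : κ1 ⊕ κ2, HiveSpace (G × H) (Sum.elim X1 X2 k) := fun k =>
    Sum.rec (motive := fun k => HiveSpace (G × H) (Sum.elim X1 X2 k))
      (fun k => A2_comp (X := X1 k) (fun g : G × H => g.1) (fun g x => rfl) (hX1 k))
      (fun k => A2_comp (X := X2 k) (fun g : G × H => g.2) (fun g x => rfl) (hX2 k)) k
  refine ⟨κ1 ⊕ κ2, inferInstance, Sum.elim X1 X2, bX, hX,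
    Y1 × Y2, inferInstance, ?_, fun y => ?_, fun y => ?_, ?_, fun z => ?_⟩
  · intro k
    match k with
    | Sum.inl k => exact hne1 k
    | Sum.inr k => exact hne2 k
  · rw [hst]
    exact (hop1 y.1).prod (hop2 y.2)
  · rw [hst]
    exact (hcomp1 y.1).prod (hcomp2 y.2)
  · let f : MulAction.orbitRel.Quotient G Y1 × MulAction.orbitRel.Quotient H Y2 →
        MulAction.orbitRel.Quotient (G × H) (Y1 × Y2) :=
      fun q => Quotient.mk (MulAction.orbitRel (G × H) (Y1 × Y2)) (q.1.out, q.2.out)
    apply Finite.of_surjective f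
    intro q
    induction q using Quotient.inductionOn with
    | h y =>
      refine ⟨(Quotient.mk (MulAction.orbitRel G Y1) y.1,
        Quotient.mk (MulAction.orbitRel H Y2) y.2), ?_⟩
      apply Quotient.sound
      obtain ⟨g, hg⟩ := Quotient.exact (Quotient.out_eq (Quotient.mk (MulAction.orbitRel G Y1) y.1))
      obtain ⟨h, hh⟩ := Quotient.exact (Quotient.out_eq (Quotient.mk (MulAction.orbitRel H Y2) y.2))
      exact ⟨(g, h), Prod.ext hg hh⟩
  · let z1 : ∀ k, X1 k := fun k => z (Sum.inl k)
    let z2 : ∀ k, X2 k := fun k => z (Sum.inr k)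
    obtain ⟨y1, hy1⟩ := hstab1 z1
    obtain ⟨y2, hy2⟩ := hstab2 z2
    refine ⟨(y1, y2), fun g hg => ?_⟩
    rw [MulAction.mem_stabilizer_iff] at hg ⊢
    have h1 : g.1 ∈ MulAction.stabilizer G z1 := by
      rw [MulAction.mem_stabilizer_iff]
      funext k
      exact congrFun hg (Sum.inl k)
    have h2 : g.2 ∈ MulAction.stabilizer H z2 := by
      rw [MulAction.mem_stabilizer_iff]
      funext k
      exact congrFun hg (Sum.inr k)
    exact Prod.ext (hy1 h1) (hy2 h2)

end RapidDecay
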