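import Mathlib
import Pool.Agent.Lib.MP_fee02f_an.Defs

/-!
Lattices in `F^4` and their hive function (MP_fee02f_an).
-/

open scoped WithZero MatrixGroups

namespace RapidDecay

section

variable {O F : Type*} [CommRing O] [Field F] [Algebra O F]

/-- the determinant of four vectors -/
def dt (x y z t : Fin 4 → F) : F := Matrix.det (Matrix.of ![x, y, z, t])

theorem dt_eq_update (w x p q r : Fin 4 → F) :
    dt w p q r = (Matrix.updateRow (Matrix.of ![x, p, q, r]) 0 w).det := by
  unfold dt
  congr 1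
  ext i j
  fin_cases i <;> simp [Matrix.updateRow_apply]

theorem dt_add (x y p q r : Fin 4 → F) : dt (x + y) p q r = dt x p q r + dt y p q r := by
  rw [dt_eq_update (x + y) 0, Matrix.det_updateRow_add, ← dt_eq_update, ← dt_eq_update]

theorem dt_smul (c : F) (x p q r : Fin 4 → F) : dt (c • x) p q r = c * dt x p q r := by
  rw [dt_eq_update (c • x) 0, Matrix.det_updateRow_smul, ← dt_eq_update]

/-- values of determinants of vectors from four modules -/
def dvals (v : Valuation F ℤᵐ⁰) (A B C D : Submodule O (Fin 4 → F)) : Set ℤᵐ⁰ :=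
  {a | ∃ x ∈ A, ∃ y ∈ B, ∃ z ∈ C, ∃ t ∈ D, v (dt x y z t) = a}

open Classical in
/-- the largest value of a determinant -/
noncomputable def hd (v : Valuation F ℤᵐ⁰) (A B C D : Submodule O (Fin 4 → F)) : ℤᵐ⁰ :=
  if h : ∃ a, IsGreatest (dvals v A B C D) a then h.choose else 0

/-- the module `g A` -/
def gact (g : Matrix (Fin 4) (Fin 4) F) (A : Submodule O (Fin 4 → F)) :
    Submodule O (Fin 4 → F) :=
  A.map ((Matrix.mulVecLin g).restrictScalars O)

/-- lattices in `F^4` -/
def IsLat (A : Submodule O (Fin 4 → F)) : Prop :=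
  A.FG ∧ Submodule.span F (A : Set (Fin 4 → F)) = ⊤

/-- Gauss value of a polynomial -/
noncomputable def gn (v : Valuation F ℤᵐ⁰) {σ : Type*} (p : MvPolynomial σ F) : ℤᵐ⁰ :=
  p.support.sup fun m => v (p.coeff m)

/-- the submodule of `A` on which the determinants with `P`, `Q`, `R` are at most `h` -/
def cut {v : Valuation F ℤᵐ⁰} (hv : v.Integers O) (A P Q R : Submodule O (Fin 4 → F)) (h : ℤᵐ⁰) :
    Submodule O (Fin 4 → F) where
  carrier := {x | x ∈ A ∧ ∀ p ∈ P, ∀ q ∈ Q, ∀ r ∈ R, v (dt x p q r) ≤ h}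
  add_mem' := by
    rintro x y ⟨hx, hx'⟩ ⟨hy, hy'⟩
    refine ⟨A.add_mem hx hy, fun p hp q hq r hr => ?_⟩
    rw [dt_add]
    exact (v.map_add _ _).trans (max_le (hx' p hp q hq r hr) (hy' p hp q hq r hr))
  zero_mem' := by
    refine ⟨A.zero_mem, fun p hp q hq r hr => ?_⟩
    have h1 : dt 0 p q r = 0 := by
      have h2 := dt_smul (0 : F) 0 p q r
      rwa [zero_smul, zero_mul] at h2
    rw [h1, map_zero]
    exact zero_le
  smul_mem' := by
    rintro c x ⟨hx, hx'⟩
    refine ⟨A.smul_mem c hx, fun p hp q hq r hr => ?_⟩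
    have h2 : c • x = algebraMap O F c • x := by
      ext i
      simp [Algebra.smul_def]
    rw [h2, dt_smul, map_mul]
    calc v (algebraMap O F c) * v (dt x p q r) ≤ 1 * h :=
          mul_le_mul' (hv.map_le_one c) (hx' p hp q hq r hr)
      _ = h := one_mul h

/-- moving the lattice `A` by `k` in the direction of type `r` towards `B` -/
noncomputable def Mv {v : Valuation F ℤᵐ⁰} (hv : v.Integers O) (r k : ℕ)
    (A B : Submodule O (Fin 4 → F)) : Submodule O (Fin 4 → F) :=
  if r = 1 then cut hv A B B B (hd v A B B B * WithZero.exp (-(k : ℤ)))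
  else if r = 2 then cut hv A A B B (hd v A A B B * WithZero.exp (-(k : ℤ)))
  else if r = 3 then cut hv A A A B (hd v A A A B * WithZero.exp (-(k : ℤ)))
  else A

end

section

variable (O F : Type*) [CommRing O] [Field F] [Algebra O F]

/-- the type of lattices in `F^4` -/
abbrev Lat : Type _ := {A : Submodule O (Fin 4 → F) // IsLat A}

/-- homothety of lattices -/
def homSetoid : Setoid (Lat O F) where
  r A B := ∃ c : F, c ≠ 0 ∧ B.1 = gact (Matrix.scalar (Fin 4) c) A.1
  iseqv := by
    refine ⟨fun A => ⟨1, one_ne_zero, ?_⟩, ?_, ?_⟩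
    · unfold gact
      ext x
      simp
    · rintro A B ⟨c, hc, h⟩
      refine ⟨c⁻¹, inv_ne_zero hc, ?_⟩
      rw [h]
      unfold gact
      ext x
      simp [smul_smul, hc]
    · rintro A B C ⟨c, hc, h⟩ ⟨d, hd, h'⟩
      refine ⟨d * c, mul_ne_zero hd hc, ?_⟩
      rw [h', h]
      unfold gact
      ext x
      simp [smul_smul]

/-- vertices: lattices up to homothety -/
def Vtx : Type _ := Quotient (homSetoid O F)

end

section

variable {O F : Type*} [CommRing O] [Field F] [Algebra O F]

/-- the vertex of a lattice -/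
def vt (A : Lat O F) : Vtx O F := Quotient.mk (homSetoid O F) A

theorem gact_mul (g h : Matrix (Fin 4) (Fin 4) F) (A : Submodule O (Fin 4 → F)) :
    gact (g * h) A = gact g (gact h A) := by
  unfold gact
  ext x
  simp

theorem gact_one (A : Submodule O (Fin 4 → F)) : gact (1 : Matrix (Fin 4) (Fin 4) F) A = A := by
  unfold gact
  ext x
  simp

theorem IsLat.gact {A : Submodule O (Fin 4 → F)} (hA : IsLat A) (g : GL (Fin 4) F) :
    IsLat (gact g.1 A) := by
  refine ⟨hA.1.map _, ?_⟩
  unfold RapidDecay.gact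
  have h1 : ((A.map ((Matrix.mulVecLin g.1).restrictScalars O) : Submodule O (Fin 4 → F)) :
      Set (Fin 4 → F)) = (Matrix.mulVecLin g.1) '' (A : Set (Fin 4 → F)) := by
    ext x
    simp
  rw [h1, Submodule.span_image, hA.2, Submodule.map_top, LinearMap.range_eq_top]
  intro x
  refine ⟨(g⁻¹).1.mulVec x, ?_⟩
  rw [Matrix.mulVecLin_apply, Matrix.mulVec_mulVec, ← Units.val_mul, mul_inv_cancel,
    Units.val_one, Matrix.one_mulVec]

/-- `GL_4(F)` acts on lattices -/
instance latAction : MulAction (GL (Fin 4) F) (Lat O F) where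
  smul g A := ⟨gact g.1 A.1, A.2.gact g⟩
  one_smul A := Subtype.ext (gact_one A.1)
  mul_smul g h A := Subtype.ext (gact_mul g.1 h.1 A.1)

theorem latAction_val (g : GL (Fin 4) F) (A : Lat O F) : (g • A).1 = gact g.1 A.1 := rfl

/-- `GL_4(F)` acts on vertices -/
instance vtxAction : MulAction (GL (Fin 4) F) (Vtx O F) where
  smul g := Quotient.map (fun A => g • A) (by
    rintro A B ⟨c, hc, h⟩
    refine ⟨c, hc, ?_⟩
    rw [latAction_val, latAction_val, h, ← gact_mul, ← gact_mul]
    congr 1
    exact (Matrix.scalar_commute c (fun r => mul_comm _ _) g.1).eq.symm)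
  one_smul := by
    rintro ⟨A⟩
    exact congrArg vt (one_smul _ A)
  mul_smul g h := by
    rintro ⟨A⟩
    exact congrArg vt (mul_smul g h A)

theorem smul_vt (g : GL (Fin 4) F) (A : Lat O F) : g • vt A = vt (g • A) := rfl

/-- a lattice in the class of a vertex -/
noncomputable def rep (a : Vtx O F) : Lat O F := Quotient.out a

theorem vt_rep (a : Vtx O F) : vt (rep a) = a := Quotient.out_eq a

/-- the hive function on vertices -/
noncomputable def Hx (v : Valuation F ℤᵐ⁰) (a b c d : Vtx O F) : ℝ :=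
  ((-WithZero.log (hd v (rep a).1 (rep b).1 (rep c).1 (rep d).1) : ℤ) : ℝ)

/-- the slack of `A` towards `B`, `C` at the word `S T` is at least `k` -/
def SlL (v : Valuation F ℤᵐ⁰) (A B C S T : Submodule O (Fin 4 → F)) (k : ℕ) : Prop :=
  hd v S T A A * hd v S T B C ≤ WithZero.exp (-(k : ℤ)) * (hd v S T A B * hd v S T A C)

/-- all slacks of the group `(A, r)` are at least `k` -/
def GrL (v : Valuation F ℤᵐ⁰) (A B C : Submodule O (Fin 4 → F)) (r k : ℕ) : Prop :=
  (r = 1 ∧ SlL v A B C B B k ∧ SlL v A B C B C k ∧ SlL v A B C C C k) ∨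
  (r = 2 ∧ SlL v A B C A B k ∧ SlL v A B C A C k) ∨ (r = 3 ∧ SlL v A B C A A k)

end

end RapidDecay
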