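import Mathlib
import Pool.Agent.Lib.MP_fee02f_an.DefsL

/-!
Local fields (MP_fee02f_an).
-/

open scoped WithZero MatrixGroups
open ValuativeRel

namespace RapidDecay

section

variable (F : Type*) [Field F] [ValuativeRel F] [TopologicalSpace F]
  [IsNonarchimedeanLocalField F]

/-- the normalised valuation of a local field, with values in `ℤᵐ⁰` -/
noncomputable def vLoc : Valuation F ℤᵐ⁰ :=
  (valuation F).map
    (MonoidWithZeroHom.ofClass (IsNonarchimedeanLocalField.valueGroupWithZeroIsoInt F))
    (OrderHomClass.mono (IsNonarchimedeanLocalField.valueGroupWithZeroIsoInt F))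

end

section

variable {F : Type*} [Field F]

/-- the diagonal matrix with entries `c`, `1`, `1`, `1` -/
noncomputable def dg (c : Fˣ) : GL (Fin 4) F :=
  ⟨Matrix.diagonal ![(c : F), 1, 1, 1], Matrix.diagonal ![((c⁻¹ : Fˣ) : F), 1, 1, 1],
    by
      rw [Matrix.diagonal_mul_diagonal, ← Matrix.diagonal_one]
      congr 1
      ext i
      fin_cases i <;> simp,
    by
      rw [Matrix.diagonal_mul_diagonal, ← Matrix.diagonal_one]
      congr 1
      ext i
      fin_cases i <;> simp⟩

end

end RapidDecay
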