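import Pool.Agent.Lib.MP_fee02f_an.L2b

/-!
L4a: the moved lattice does not depend on the target within the group (MP_fee02f_an).
-/

open scoped WithZero MatrixGroups

namespace RapidDecay

/-! ## L4 the moved lattice -/
section L4
variable {O F : Type*} [CommRing O] [Field F] [Algebra O F] {v : Valuation F ℤᵐ⁰}

theorem L4a_mem_cut (hv : v.Integers O) {A P Q R : Submodule O (Fin 4 → F)} {h : ℤᵐ⁰}
    {x : Fin 4 → F} : x ∈ cut hv A P Q R h ↔
      x ∈ A ∧ ∀ p ∈ P, ∀ q ∈ Q, ∀ r ∈ R, v (dt x p q r) ≤ h := Iff.rfl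

theorem L4a_span_fg (x : Fin 4 → F) : (Submodule.span O {x}).FG :=
  Submodule.fg_span (Set.finite_singleton x)

/-- membership in `cut` through `hd` of the module spanned by the vector -/
theorem L4a_mem_iff (hv : v.Integers O) {A P Q R : Submodule O (Fin 4 → F)} (hP : P.FG)
    (hQ : Q.FG) (hR : R.FG) {h : ℤᵐ⁰} {x : Fin 4 → F} : x ∈ cut hv A P Q R h ↔
      x ∈ A ∧ hd v (Submodule.span O {x}) P Q R ≤ h := by
  rw [L4a_mem_cut]
  apply and_congr_right
  intro _
  rw [hd_le_iff hv (L4a_span_fg x) hP hQ hR]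
  constructor
  · intro hh y hy p hp q hq r hr
    obtain ⟨c, rfl⟩ := Submodule.mem_span_singleton.1 hy
    have h2 : c • x = algebraMap O F c • x := by
      ext i
      simp [Algebra.smul_def]
    rw [h2, dt_smul, map_mul]
    calc v (algebraMap O F c) * v (dt x p q r) ≤ 1 * h :=
          mul_le_mul' (hv.map_le_one c) (hh p hp q hq r hr)
      _ = h := one_mul h
  · intro hh p hp q hq r hr
    exact hh x (Submodule.mem_span_singleton_self x) p hp q hq r hr

theorem L4a_sub (hv : v.Integers O) {A B C P Q : Submodule O (Fin 4 → F)} (hA : IsLat A)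
    (hB : IsLat B) (hC : IsLat C) (hP : IsLat P) (hQ : IsLat Q) (k : ℕ)
    (h : SlL v A B C P Q k) :
    cut hv A P Q B (hd v A P Q B * WithZero.exp (-(k : ℤ)))
      ≤ cut hv A P Q C (hd v A P Q C * WithZero.exp (-(k : ℤ))) := by
  intro x hx
  rw [L4a_mem_iff hv hP.1 hQ.1 hB.1] at hx
  rw [L4a_mem_iff hv hP.1 hQ.1 hC.1]
  refine ⟨hx.1, ?_⟩
  have hX := L4a_span_fg (O := O) x
  have hXA : Submodule.span O {x} ≤ A := by
    rw [Submodule.span_singleton_le_iff_mem]
    exact hx.1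
  -- sorting of the words
  have s1 : ∀ U V W Z : Submodule O (Fin 4 → F), hd v U V W Z = hd v V W U Z := fun U V W Z => by
    rw [hd_s12 U V W Z, hd_s23 V U W Z]
  have hpl := hd_pl hv hP.1 hQ.1 hX hC.1 hA.1 hB.1
  have hAB0 : hd v P Q A B ≠ 0 := hd_ne_zero hv hP hQ hA hB
  set κ : ℤᵐ⁰ := WithZero.exp (-(k : ℤ)) with hκ
  have hx2 : hd v P Q (Submodule.span O {x}) B ≤ hd v P Q A B * κ := by
    rw [← s1 (Submodule.span O {x}) P Q B, ← s1 A P Q B]
    exact hx.2
  have hgoal : hd v P Q (Submodule.span O {x}) C ≤ hd v P Q A C * κ := by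
    have h1 : hd v P Q (Submodule.span O {x}) C * hd v P Q A B ≤
        (hd v P Q A C * κ) * hd v P Q A B := by
      refine hpl.trans (max_le ?_ ?_)
      · -- first term
        have h2 : hd v P Q (Submodule.span O {x}) A ≤ hd v P Q A A := by
          rw [← s1 (Submodule.span O {x}) P Q A, ← s1 A P Q A]
          exact hd_mono hv hX hA.1 hP.1 hQ.1 hA.1 hXA
        have h3 : hd v P Q A A * hd v P Q B C ≤ κ * (hd v P Q A B * hd v P Q A C) := h
        calc hd v P Q (Submodule.span O {x}) A * hd v P Q C B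
            ≤ hd v P Q A A * hd v P Q C B := mul_le_mul' h2 le_rfl
          _ = hd v P Q A A * hd v P Q B C := by rw [hd_s34 P Q C B]
          _ ≤ κ * (hd v P Q A B * hd v P Q A C) := h3
          _ = (hd v P Q A C * κ) * hd v P Q A B := by
              rw [mul_comm (hd v P Q A B), ← mul_assoc, mul_comm κ]
      · calc hd v P Q (Submodule.span O {x}) B * hd v P Q C A
            ≤ (hd v P Q A B * κ) * hd v P Q C A := mul_le_mul' hx2 le_rfl
          _ = (hd v P Q A C * κ) * hd v P Q A B := by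
              rw [hd_s34 P Q C A, mul_assoc, mul_comm (hd v P Q A B), mul_comm κ]
    exact le_of_mul_le_mul_right h1 (zero_lt_iff.2 hAB0)
  rw [s1, s1 A P Q C]
  exact hgoal

theorem L4a_slL_symm {A B C P Q : Submodule O (Fin 4 → F)} {k : ℕ} (h : SlL v A B C P Q k) :
    SlL v A C B P Q k := by
  unfold SlL at *
  rw [hd_s34 P Q C B, mul_comm (hd v P Q A C)]
  exact h

theorem L4a_slL_swap {A B C P Q : Submodule O (Fin 4 → F)} {k : ℕ} (h : SlL v A B C P Q k) :
    SlL v A B C Q P k := by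
  unfold SlL at *
  rw [hd_s12 Q P A A, hd_s12 Q P B C, hd_s12 Q P A B, hd_s12 Q P A C]
  exact h

theorem cut_step (hv : v.Integers O) {A B C P Q : Submodule O (Fin 4 → F)} (hA : IsLat A)
    (hB : IsLat B) (hC : IsLat C) (hP : IsLat P) (hQ : IsLat Q) (k : ℕ)
    (h : SlL v A B C P Q k) :
    cut hv A P Q B (hd v A P Q B * WithZero.exp (-(k : ℤ)))
      = cut hv A P Q C (hd v A P Q C * WithZero.exp (-(k : ℤ))) :=
  le_antisymm (L4a_sub hv hA hB hC hP hQ k h) (L4a_sub hv hA hC hB hP hQ k (L4a_slL_symm h))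

/-- the words of `cut` may be permuted -/
theorem L4a_cut_swap23 (hv : v.Integers O) (A P Q R : Submodule O (Fin 4 → F)) (κ : ℤᵐ⁰) :
    cut hv A P Q R (hd v A P Q R * κ) = cut hv A P R Q (hd v A P R Q * κ) := by
  rw [hd_s34 A P R Q]
  ext x
  rw [L4a_mem_cut, L4a_mem_cut]
  apply and_congr_right
  intro _
  have hd : ∀ p q r : Fin 4 → F, v (dt x p q r) = v (dt x p r q) := by
    intro p q r
    have h1 : dt x p r q = - dt x p q r := by
      unfold dt
      have h2 := Matrix.det_permute (Equiv.swap (2 : Fin 4) 3) (Matrix.of ![x, p, q, r])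
      have h3 : (Matrix.of ![x, p, q, r]).submatrix (Equiv.swap (2 : Fin 4) 3) id =
          Matrix.of ![x, p, r, q] := by
        ext1 i j
        fin_cases i <;> rfl
      rw [h3] at h2
      rw [h2, Equiv.Perm.sign_swap (by decide)]
      simp
    rw [h1, Valuation.map_neg]
  constructor
  · intro h p hp r hr q hq
    rw [hd]
    exact h p hp q hq r hr
  · intro h p hp q hq r hr
    rw [hd]
    exact h p hp r hr q hq

theorem L4a_cut_swap12 (hv : v.Integers O) (A P Q R : Submodule O (Fin 4 → F)) (κ : ℤᵐ⁰) :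
    cut hv A P Q R (hd v A P Q R * κ) = cut hv A Q P R (hd v A Q P R * κ) := by
  rw [hd_s23 A Q P R]
  ext x
  rw [L4a_mem_cut, L4a_mem_cut]
  apply and_congr_right
  intro _
  have hd : ∀ p q r : Fin 4 → F, v (dt x p q r) = v (dt x q p r) := by
    intro p q r
    have h1 : dt x q p r = - dt x p q r := by
      unfold dt
      have h2 := Matrix.det_permute (Equiv.swap (1 : Fin 4) 2) (Matrix.of ![x, p, q, r])
      have h3 : (Matrix.of ![x, p, q, r]).submatrix (Equiv.swap (1 : Fin 4) 2) id =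
          Matrix.of ![x, q, p, r] := by
        ext1 i j
        fin_cases i <;> rfl
      rw [h3] at h2
      rw [h2, Equiv.Perm.sign_swap (by decide)]
      simp
    rw [h1, Valuation.map_neg]
  constructor
  · intro h q hq p hp r hr
    rw [hd]
    exact h p hp q hq r hr
  · intro h p hp q hq r hr
    rw [hd]
    exact h q hq p hp r hr

/-- all words of the group define the same module -/
theorem L4a_all (hv : v.Integers O) {A B C : Submodule O (Fin 4 → F)} (hA : IsLat A)
    (hB : IsLat B) (hC : IsLat C) (k : ℕ) :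
    (SlL v A B C B B k → SlL v A B C B C k → SlL v A B C C C k →
      ∀ P Q R : Submodule O (Fin 4 → F), (P = B ∨ P = C) → (Q = B ∨ Q = C) →
      (R = B ∨ R = C) → cut hv A B B B (hd v A B B B * WithZero.exp (-(k : ℤ))) =
        cut hv A P Q R (hd v A P Q R * WithZero.exp (-(k : ℤ)))) ∧
    (SlL v A B C A B k → SlL v A B C A C k → ∀ Q R : Submodule O (Fin 4 → F), (Q = B ∨ Q = C) →
      (R = B ∨ R = C) → cut hv A A B B (hd v A A B B * WithZero.exp (-(k : ℤ))) =
        cut hv A A Q R (hd v A A Q R * WithZero.exp (-(k : ℤ)))) ∧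
    (SlL v A B C A A k → ∀ R : Submodule O (Fin 4 → F),
      (R = B ∨ R = C) → cut hv A A A B (hd v A A A B * WithZero.exp (-(k : ℤ))) =
        cut hv A A A R (hd v A A A R * WithZero.exp (-(k : ℤ)))) := by
  refine ⟨?_, ?_, ?_⟩
  · intro h1 h2 h3
    have e1 := cut_step hv hA hB hC hB hB k h1
    have e2 := cut_step hv hA hB hC hB hC k h2
    have e3 := cut_step hv hA hB hC hC hC k h3
    -- BBB = BBC = BCB = CBB = BCC = CBC = CCB = CCC
    have f1 := L4a_cut_swap23 hv A B B C (WithZero.exp (-(k : ℤ)))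
    have f2 := L4a_cut_swap12 hv A B C B (WithZero.exp (-(k : ℤ)))
    have f3 := L4a_cut_swap12 hv A B C C (WithZero.exp (-(k : ℤ)))
    have f4 := L4a_cut_swap23 hv A C B C (WithZero.exp (-(k : ℤ)))
    rintro P Q R (rfl | rfl) (rfl | rfl) (rfl | rfl)
    · rfl
    · exact e1
    · rw [e1, f1]
    · rw [e1, f1, e2]
    · rw [e1, f1, f2]
    · rw [e1, f1, e2, f3]
    · rw [e1, f1, e2, f3, f4]
    · rw [e1, f1, e2, f3, f4, e3]
  · intro h1 h2
    have e1 := cut_step hv hA hB hC hA hB k h1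
    have e2 := cut_step hv hA hB hC hA hC k h2
    have f1 := L4a_cut_swap23 hv A A B C (WithZero.exp (-(k : ℤ)))
    rintro Q R (rfl | rfl) (rfl | rfl)
    · rfl
    · exact e1
    · rw [e1, f1]
    · rw [e1, f1, e2]
  · intro h1
    have e1 := cut_step hv hA hB hC hA hA k h1
    rintro R (rfl | rfl)
    · rfl
    · exact e1

theorem L4a_Mv1 (hv : v.Integers O) (k : ℕ) (A B : Submodule O (Fin 4 → F)) :
    Mv hv 1 k A B = cut hv A B B B (hd v A B B B * WithZero.exp (-(k : ℤ))) := by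
  unfold Mv; rw [if_pos rfl]

theorem L4a_Mv2 (hv : v.Integers O) (k : ℕ) (A B : Submodule O (Fin 4 → F)) :
    Mv hv 2 k A B = cut hv A A B B (hd v A A B B * WithZero.exp (-(k : ℤ))) := by
  unfold Mv; rw [if_neg (by decide), if_pos rfl]

theorem L4a_Mv3 (hv : v.Integers O) (k : ℕ) (A B : Submodule O (Fin 4 → F)) :
    Mv hv 3 k A B = cut hv A A A B (hd v A A A B * WithZero.exp (-(k : ℤ))) := by
  unfold Mv; rw [if_neg (by decide), if_neg (by decide), if_pos rfl]

theorem Mv_eq (hv : v.Integers O) {A B C : Submodule O (Fin 4 → F)} (hA : IsLat A)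
    (hB : IsLat B) (hC : IsLat C) (r k : ℕ) (h : GrL v A B C r k) :
    Mv hv r k A B = Mv hv r k A C := by
  obtain ⟨a1, a2, a3⟩ := L4a_all hv hA hB hC k
  rcases h with ⟨rfl, h1, h2, h3⟩ | ⟨rfl, h1, h2⟩ | ⟨rfl, h1⟩
  · rw [L4a_Mv1, L4a_Mv1]
    exact a1 h1 h2 h3 C C C (Or.inr rfl) (Or.inr rfl) (Or.inr rfl)
  · rw [L4a_Mv2, L4a_Mv2]
    exact a2 h1 h2 C C (Or.inr rfl) (Or.inr rfl)
  · rw [L4a_Mv3, L4a_Mv3]
    exact a3 h1 C (Or.inr rfl)

/-- the moved lattice satisfies the bound for every word of the group -/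
theorem Mv_bound (hv : v.Integers O) {A B C : Submodule O (Fin 4 → F)} (hA : IsLat A)
    (hB : IsLat B) (hC : IsLat C) (r k : ℕ) (h : GrL v A B C r k) :
    (r = 1 → ∀ P Q R : Submodule O (Fin 4 → F), (P = B ∨ P = C) → (Q = B ∨ Q = C) →
      (R = B ∨ R = C) → Mv hv r k A B ≤ cut hv A P Q R (hd v A P Q R * WithZero.exp (-(k : ℤ)))) ∧
    (r = 2 → ∀ Q R : Submodule O (Fin 4 → F), (Q = B ∨ Q = C) →
      (R = B ∨ R = C) → Mv hv r k A B ≤ cut hv A A Q R (hd v A A Q R * WithZero.exp (-(k : ℤ)))) ∧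
    (r = 3 → ∀ R : Submodule O (Fin 4 → F),
      (R = B ∨ R = C) → Mv hv r k A B ≤ cut hv A A A R (hd v A A A R * WithZero.exp (-(k : ℤ)))) := by
  obtain ⟨a1, a2, a3⟩ := L4a_all hv hA hB hC k
  refine ⟨?_, ?_, ?_⟩
  · rintro rfl P Q R hP hQ hR
    rcases h with ⟨_, h1, h2, h3⟩ | ⟨h0, _⟩ | ⟨h0, _⟩
    · rw [L4a_Mv1, a1 h1 h2 h3 P Q R hP hQ hR]
    · exact absurd h0 (by decide)
    · exact absurd h0 (by decide)
  · rintro rfl Q R hQ hR
    rcases h with ⟨h0, _⟩ | ⟨_, h1, h2⟩ | ⟨h0, _⟩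
    · exact absurd h0 (by decide)
    · rw [L4a_Mv2, a2 h1 h2 Q R hQ hR]
    · exact absurd h0 (by decide)
  · rintro rfl R hR
    rcases h with ⟨h0, _⟩ | ⟨h0, _⟩ | ⟨_, h1⟩
    · exact absurd h0 (by decide)
    · exact absurd h0 (by decide)
    · rw [L4a_Mv3, a3 h1 R hR]

end L4

end RapidDecay
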