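import Mathlib
import Pool.Agent.Lib.MP_fee02f_an.Defs
import Pool.Agent.Lib.MP_fee02f_an.DefsL

/-!
Module L2a: the largest value of a determinant of vectors from four modules.
-/

open scoped WithZero MatrixGroups

namespace RapidDecay

section L2
variable {O F : Type*} [CommRing O] [Field F] [Algebra O F] {v : Valuation F ℤᵐ⁰}

theorem L2a_dt01 (x y z t : Fin 4 → F) : dt y x z t = - dt x y z t := by
  unfold dt
  have h := Matrix.det_permute (Equiv.swap (0 : Fin 4) 1) (Matrix.of ![x, y, z, t])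
  have h2 : (Matrix.of ![x, y, z, t]).submatrix (Equiv.swap (0 : Fin 4) 1) id
      = Matrix.of ![y, x, z, t] := by
    ext i j
    fin_cases i <;> rfl
  rw [h2, Equiv.Perm.sign_swap (by decide)] at h
  rw [h]
  simp

theorem L2a_dt12 (x y z t : Fin 4 → F) : dt x z y t = - dt x y z t := by
  unfold dt
  have h := Matrix.det_permute (Equiv.swap (1 : Fin 4) 2) (Matrix.of ![x, y, z, t])
  have h2 : (Matrix.of ![x, y, z, t]).submatrix (Equiv.swap (1 : Fin 4) 2) id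
      = Matrix.of ![x, z, y, t] := by
    ext i j
    fin_cases i <;> rfl
  rw [h2, Equiv.Perm.sign_swap (by decide)] at h
  rw [h]
  simp

theorem L2a_dt23 (x y z t : Fin 4 → F) : dt x y t z = - dt x y z t := by
  unfold dt
  have h := Matrix.det_permute (Equiv.swap (2 : Fin 4) 3) (Matrix.of ![x, y, z, t])
  have h2 : (Matrix.of ![x, y, z, t]).submatrix (Equiv.swap (2 : Fin 4) 3) id
      = Matrix.of ![x, y, t, z] := by
    ext i j
    fin_cases i <;> rfl
  rw [h2, Equiv.Perm.sign_swap (by decide)] at h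
  rw [h]
  simp

theorem L2a_v01 (x y z t : Fin 4 → F) : v (dt y x z t) = v (dt x y z t) := by
  rw [L2a_dt01, Valuation.map_neg]

theorem L2a_v12 (x y z t : Fin 4 → F) : v (dt x z y t) = v (dt x y z t) := by
  rw [L2a_dt12, Valuation.map_neg]

theorem L2a_v23 (x y z t : Fin 4 → F) : v (dt x y t z) = v (dt x y z t) := by
  rw [L2a_dt23, Valuation.map_neg]

theorem L2a_dt_zero (p q r : Fin 4 → F) : dt 0 p q r = 0 := by
  have h2 := dt_smul (0 : F) 0 p q r
  rwa [zero_smul, zero_mul] at h2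

theorem L2a_span1 (hv : v.Integers O) (s : Set (Fin 4 → F)) (p q r : Fin 4 → F) (h : ℤᵐ⁰)
    (hs : ∀ x ∈ s, v (dt x p q r) ≤ h) :
    ∀ x ∈ Submodule.span O s, v (dt x p q r) ≤ h := by
  intro x hx
  induction hx using Submodule.span_induction with
  | mem x hx => exact hs x hx
  | zero => rw [L2a_dt_zero, map_zero]; exact zero_le
  | add x y _ _ hx hy =>
    rw [dt_add]
    exact (v.map_add _ _).trans (max_le hx hy)
  | smul c x _ hx =>
    have h2 : c • x = algebraMap O F c • x := by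
      ext i
      simp [Algebra.smul_def]
    rw [h2, dt_smul, map_mul]
    calc v (algebraMap O F c) * v (dt x p q r) ≤ 1 * h :=
          mul_le_mul' (hv.map_le_one c) hx
      _ = h := one_mul h

theorem L2a_spanF (s : Set (Fin 4 → F)) (p q r : Fin 4 → F)
    (hs : ∀ x ∈ s, dt x p q r = 0) :
    ∀ x ∈ Submodule.span F s, dt x p q r = 0 := by
  intro x hx
  induction hx using Submodule.span_induction with
  | mem x hx => exact hs x hx
  | zero => exact L2a_dt_zero p q r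
  | add x y _ _ hx hy => rw [dt_add, hx, hy, add_zero]
  | smul c x _ hx => rw [dt_smul, hx, mul_zero]

theorem L2a_bound (hv : v.Integers O) {sA sB sC sD : Set (Fin 4 → F)} (h : ℤᵐ⁰)
    (hh : ∀ x ∈ sA, ∀ y ∈ sB, ∀ z ∈ sC, ∀ t ∈ sD, v (dt x y z t) ≤ h) :
    ∀ x ∈ Submodule.span O sA, ∀ y ∈ Submodule.span O sB, ∀ z ∈ Submodule.span O sC,
      ∀ t ∈ Submodule.span O sD, v (dt x y z t) ≤ h := by
  have h1 : ∀ x ∈ Submodule.span O sA, ∀ y ∈ sB, ∀ z ∈ sC, ∀ t ∈ sD, v (dt x y z t) ≤ h :=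
    fun x hx y hy z hz t ht =>
      L2a_span1 hv sA y z t h (fun x' hx' => hh x' hx' y hy z hz t ht) x hx
  have h2 : ∀ x ∈ Submodule.span O sA, ∀ y ∈ Submodule.span O sB, ∀ z ∈ sC, ∀ t ∈ sD,
      v (dt x y z t) ≤ h := by
    intro x hx y hy z hz t ht
    rw [← L2a_v01]
    apply L2a_span1 hv sB x z t h _ y hy
    intro y' hy'
    rw [L2a_v01]
    exact h1 x hx y' hy' z hz t ht
  have h3 : ∀ x ∈ Submodule.span O sA, ∀ y ∈ Submodule.span O sB, ∀ z ∈ Submodule.span O sC,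
      ∀ t ∈ sD, v (dt x y z t) ≤ h := by
    intro x hx y hy z hz t ht
    rw [← L2a_v12, ← L2a_v01]
    apply L2a_span1 hv sC x y t h _ z hz
    intro z' hz'
    rw [L2a_v01, L2a_v12]
    exact h2 x hx y hy z' hz' t ht
  intro x hx y hy z hz t ht
  rw [← L2a_v23, ← L2a_v12, ← L2a_v01]
  apply L2a_span1 hv sD x y z h _ t ht
  intro t' ht'
  rw [L2a_v01, L2a_v12, L2a_v23]
  exact h3 x hx y hy z hz t' ht'

theorem L2a_exists (hv : v.Integers O) {A B C D : Submodule O (Fin 4 → F)} (hA : A.FG)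
    (hB : B.FG) (hC : C.FG) (hD : D.FG) : ∃ a, IsGreatest (dvals v A B C D) a := by
  classical
  obtain ⟨sA, hsA⟩ := hA
  obtain ⟨sB, hsB⟩ := hB
  obtain ⟨sC, hsC⟩ := hC
  obtain ⟨sD, hsD⟩ := hD
  let V : Finset ℤᵐ⁰ := insert 0 ((sA ×ˢ (sB ×ˢ (sC ×ˢ sD))).image
    (fun p => v (dt p.1 p.2.1 p.2.2.1 p.2.2.2)))
  have hV : V.Nonempty := ⟨0, Finset.mem_insert_self _ _⟩
  refine ⟨V.max' hV, ?_, ?_⟩
  · have h1 := V.max'_mem hV
    rcases Finset.mem_insert.mp h1 with h2 | h2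
    · rw [h2]
      refine ⟨0, A.zero_mem, 0, B.zero_mem, 0, C.zero_mem, 0, D.zero_mem, ?_⟩
      rw [L2a_dt_zero, map_zero]
    · rw [Finset.mem_image] at h2
      obtain ⟨⟨x, y, z, t⟩, hp, hp2⟩ := h2
      simp only [Finset.mem_product] at hp
      refine ⟨x, ?_, y, ?_, z, ?_, t, ?_, hp2⟩
      · rw [← hsA]; exact Submodule.subset_span hp.1
      · rw [← hsB]; exact Submodule.subset_span hp.2.1
      · rw [← hsC]; exact Submodule.subset_span hp.2.2.1
      · rw [← hsD]; exact Submodule.subset_span hp.2.2.2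
  · rintro a ⟨x, hx, y, hy, z, hz, t, ht, rfl⟩
    rw [← hsA] at hx
    rw [← hsB] at hy
    rw [← hsC] at hz
    rw [← hsD] at ht
    refine L2a_bound hv (V.max' hV) ?_ x hx y hy z hz t ht
    intro x hx y hy z hz t ht
    apply Finset.le_max'
    apply Finset.mem_insert_of_mem
    rw [Finset.mem_image]
    refine ⟨(x, y, z, t), ?_, rfl⟩
    simp only [Finset.mem_product]
    exact ⟨hx, hy, hz, ht⟩

theorem hd_isGreatest (hv : v.Integers O) {A B C D : Submodule O (Fin 4 → F)} (hA : A.FG)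
    (hB : B.FG) (hC : C.FG) (hD : D.FG) : IsGreatest (dvals v A B C D) (hd v A B C D) := by
  have h := L2a_exists hv hA hB hC hD
  unfold hd
  rw [dif_pos h]
  exact h.choose_spec

theorem dt_le_hd (hv : v.Integers O) {A B C D : Submodule O (Fin 4 → F)} (hA : A.FG)
    (hB : B.FG) (hC : C.FG) (hD : D.FG) {x y z t : Fin 4 → F} (hx : x ∈ A) (hy : y ∈ B)
    (hz : z ∈ C) (ht : t ∈ D) : v (dt x y z t) ≤ hd v A B C D :=
  (hd_isGreatest hv hA hB hC hD).2 ⟨x, hx, y, hy, z, hz, t, ht, rfl⟩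

theorem hd_le_iff (hv : v.Integers O) {A B C D : Submodule O (Fin 4 → F)} (hA : A.FG)
    (hB : B.FG) (hC : C.FG) (hD : D.FG) (h : ℤᵐ⁰) : hd v A B C D ≤ h ↔
      ∀ x ∈ A, ∀ y ∈ B, ∀ z ∈ C, ∀ t ∈ D, v (dt x y z t) ≤ h := by
  constructor
  · intro h1 x hx y hy z hz t ht
    exact (dt_le_hd hv hA hB hC hD hx hy hz ht).trans h1
  · intro h1
    obtain ⟨x, hx, y, hy, z, hz, t, ht, he⟩ := (hd_isGreatest hv hA hB hC hD).1
    rw [← he]
    exact h1 x hx y hy z hz t ht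

/-- it suffices to test on generators -/
theorem hd_le_of_span (hv : v.Integers O) {sA sB sC sD : Set (Fin 4 → F)} (hA : sA.Finite)
    (hB : sB.Finite) (hC : sC.Finite) (hD : sD.Finite) (h : ℤᵐ⁰)
    (hh : ∀ x ∈ sA, ∀ y ∈ sB, ∀ z ∈ sC, ∀ t ∈ sD, v (dt x y z t) ≤ h) :
    hd v (Submodule.span O sA) (Submodule.span O sB) (Submodule.span O sC)
      (Submodule.span O sD) ≤ h := by
  rw [hd_le_iff hv (Submodule.fg_span hA) (Submodule.fg_span hB) (Submodule.fg_span hC)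
    (Submodule.fg_span hD)]
  exact L2a_bound hv h hh

theorem L2a_hd_congr {A B C D A' B' C' D' : Submodule O (Fin 4 → F)}
    (h : dvals v A B C D = dvals v A' B' C' D') : hd v A B C D = hd v A' B' C' D' := by
  unfold hd
  rw [h]

theorem hd_s12 (A B C D : Submodule O (Fin 4 → F)) : hd v A B C D = hd v B A C D := by
  apply L2a_hd_congr
  ext a
  constructor
  · rintro ⟨x, hx, y, hy, z, hz, t, ht, he⟩
    exact ⟨y, hy, x, hx, z, hz, t, ht, by rw [L2a_v01, he]⟩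
  · rintro ⟨x, hx, y, hy, z, hz, t, ht, he⟩
    exact ⟨y, hy, x, hx, z, hz, t, ht, by rw [L2a_v01, he]⟩

theorem hd_s23 (A B C D : Submodule O (Fin 4 → F)) : hd v A B C D = hd v A C B D := by
  apply L2a_hd_congr
  ext a
  constructor
  · rintro ⟨x, hx, y, hy, z, hz, t, ht, he⟩
    exact ⟨x, hx, z, hz, y, hy, t, ht, by rw [L2a_v12, he]⟩
  · rintro ⟨x, hx, y, hy, z, hz, t, ht, he⟩
    exact ⟨x, hx, z, hz, y, hy, t, ht, by rw [L2a_v12, he]⟩

theorem hd_s34 (A B C D : Submodule O (Fin 4 → F)) : hd v A B C D = hd v A B D C := by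
  apply L2a_hd_congr
  ext a
  constructor
  · rintro ⟨x, hx, y, hy, z, hz, t, ht, he⟩
    exact ⟨x, hx, y, hy, t, ht, z, hz, by rw [L2a_v23, he]⟩
  · rintro ⟨x, hx, y, hy, z, hz, t, ht, he⟩
    exact ⟨x, hx, y, hy, t, ht, z, hz, by rw [L2a_v23, he]⟩

theorem hd_mono (hv : v.Integers O) {A A' B C D : Submodule O (Fin 4 → F)} (hA : A.FG)
    (hA' : A'.FG) (hB : B.FG) (hC : C.FG) (hD : D.FG) (h : A ≤ A') :
    hd v A B C D ≤ hd v A' B C D := by
  rw [hd_le_iff hv hA hB hC hD]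
  intro x hx y hy z hz t ht
  exact dt_le_hd hv hA' hB hC hD (h hx) hy hz ht

theorem hd_ne_zero (hv : v.Integers O) {A B C D : Submodule O (Fin 4 → F)} (hA : IsLat A)
    (hB : IsLat B) (hC : IsLat C) (hD : IsLat D) : hd v A B C D ≠ 0 := by
  intro h0
  have h1 : ∀ x ∈ A, ∀ y ∈ B, ∀ z ∈ C, ∀ t ∈ D, dt x y z t = 0 := by
    intro x hx y hy z hz t ht
    have h2 := dt_le_hd hv hA.1 hB.1 hC.1 hD.1 hx hy hz ht
    rw [h0] at h2
    exact (Valuation.zero_iff v).mp (le_antisymm h2 zero_le)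
  have h2 : ∀ x, ∀ y ∈ B, ∀ z ∈ C, ∀ t ∈ D, dt x y z t = 0 := by
    intro x y hy z hz t ht
    apply L2a_spanF (A : Set (Fin 4 → F)) y z t (fun x' hx' => h1 x' hx' y hy z hz t ht) x
    rw [hA.2]; trivial
  have h3 : ∀ x y, ∀ z ∈ C, ∀ t ∈ D, dt x y z t = 0 := by
    intro x y z hz t ht
    have h4 := L2a_spanF (B : Set (Fin 4 → F)) x z t
      (fun y' hy' => by rw [L2a_dt01, h2 x y' hy' z hz t ht, neg_zero]) y
      (by rw [hB.2]; trivial)
    rw [L2a_dt01, h4, neg_zero]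
  have h5 : ∀ x y z, ∀ t ∈ D, dt x y z t = 0 := by
    intro x y z t ht
    have h4 := L2a_spanF (C : Set (Fin 4 → F)) x y t
      (fun z' hz' => by rw [L2a_dt01, L2a_dt12, h3 x y z' hz' t ht, neg_zero, neg_zero]) z
      (by rw [hC.2]; trivial)
    rw [L2a_dt12, L2a_dt01, h4, neg_zero, neg_zero]
  have h6 : ∀ x y z t : Fin 4 → F, dt x y z t = 0 := by
    intro x y z t
    have h4 := L2a_spanF (D : Set (Fin 4 → F)) x y z
      (fun t' ht' => by
        rw [L2a_dt01, L2a_dt12, L2a_dt23, h5 x y z t' ht', neg_zero, neg_zero, neg_zero]) t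
      (by rw [hD.2]; trivial)
    rw [L2a_dt23, L2a_dt12, L2a_dt01, h4, neg_zero, neg_zero, neg_zero]
  have h7 := h6 ((1 : Matrix (Fin 4) (Fin 4) F) 0) ((1 : Matrix (Fin 4) (Fin 4) F) 1)
    ((1 : Matrix (Fin 4) (Fin 4) F) 2) ((1 : Matrix (Fin 4) (Fin 4) F) 3)
  unfold dt at h7
  have h8 : (Matrix.of ![(1 : Matrix (Fin 4) (Fin 4) F) 0, (1 : Matrix (Fin 4) (Fin 4) F) 1,
      (1 : Matrix (Fin 4) (Fin 4) F) 2, (1 : Matrix (Fin 4) (Fin 4) F) 3]) = 1 := by
    ext i j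
    fin_cases i <;> rfl
  rw [h8, Matrix.det_one] at h7
  exact one_ne_zero h7

theorem L2a_dt_mulVec (g : Matrix (Fin 4) (Fin 4) F) (x y z t : Fin 4 → F) :
    dt (g.mulVec x) (g.mulVec y) (g.mulVec z) (g.mulVec t) = g.det * dt x y z t := by
  unfold dt
  have h1 : Matrix.of ![g.mulVec x, g.mulVec y, g.mulVec z, g.mulVec t]
      = Matrix.of ![x, y, z, t] * g.transpose := by
    ext i j
    rw [Matrix.mul_apply]
    fin_cases i <;> simp [Matrix.mulVec, dotProduct, mul_comm]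
  rw [h1, Matrix.det_mul, Matrix.det_transpose, mul_comm]

theorem L2a_mem_gact (g : Matrix (Fin 4) (Fin 4) F) (A : Submodule O (Fin 4 → F))
    (x : Fin 4 → F) : x ∈ gact g A ↔ ∃ y ∈ A, g.mulVec y = x := by
  unfold gact
  rw [Submodule.mem_map]
  rfl

theorem hd_gact (hv : v.Integers O) (g : Matrix (Fin 4) (Fin 4) F)
    {A B C D : Submodule O (Fin 4 → F)} (hA : A.FG) (hB : B.FG) (hC : C.FG) (hD : D.FG) :
    hd v (gact g A) (gact g B) (gact g C) (gact g D) = v g.det * hd v A B C D := by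
  have h1 := hd_isGreatest hv (A := gact g A) (B := gact g B) (C := gact g C) (D := gact g D)
    (hA.map _) (hB.map _) (hC.map _) (hD.map _)
  refine h1.unique ⟨?_, ?_⟩
  · obtain ⟨x, hx, y, hy, z, hz, t, ht, he⟩ := (hd_isGreatest hv hA hB hC hD).1
    refine ⟨g.mulVec x, (L2a_mem_gact g A _).mpr ⟨x, hx, rfl⟩, g.mulVec y,
      (L2a_mem_gact g B _).mpr ⟨y, hy, rfl⟩, g.mulVec z, (L2a_mem_gact g C _).mpr ⟨z, hz, rfl⟩,
      g.mulVec t, (L2a_mem_gact g D _).mpr ⟨t, ht, rfl⟩, ?_⟩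
    rw [L2a_dt_mulVec, map_mul, he]
  · rintro a ⟨x, hx, y, hy, z, hz, t, ht, rfl⟩
    obtain ⟨x', hx', rfl⟩ := (L2a_mem_gact g A _).mp hx
    obtain ⟨y', hy', rfl⟩ := (L2a_mem_gact g B _).mp hy
    obtain ⟨z', hz', rfl⟩ := (L2a_mem_gact g C _).mp hz
    obtain ⟨t', ht', rfl⟩ := (L2a_mem_gact g D _).mp ht
    rw [L2a_dt_mulVec, map_mul]
    exact mul_le_mul' le_rfl (dt_le_hd hv hA hB hC hD hx' hy' hz' ht')

theorem L2a_scalar_mulVec (c : F) (x : Fin 4 → F) :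
    (Matrix.scalar (Fin 4) c).mulVec x = c • x := by
  rw [Matrix.scalar_apply, ← Matrix.smul_one_eq_diagonal, Matrix.smul_mulVec, Matrix.one_mulVec]

theorem hd_scalar (hv : v.Integers O) (c : F) {A B C D : Submodule O (Fin 4 → F)} (hA : A.FG)
    (hB : B.FG) (hC : C.FG) (hD : D.FG) :
    hd v (gact (Matrix.scalar (Fin 4) c) A) B C D = v c * hd v A B C D := by
  have h1 := hd_isGreatest hv (A := gact (Matrix.scalar (Fin 4) c) A) (B := B) (C := C) (D := D)
    (hA.map _) hB hC hD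
  refine h1.unique ⟨?_, ?_⟩
  · obtain ⟨x, hx, y, hy, z, hz, t, ht, he⟩ := (hd_isGreatest hv hA hB hC hD).1
    refine ⟨c • x, (L2a_mem_gact _ A _).mpr ⟨x, hx, L2a_scalar_mulVec c x⟩, y, hy, z, hz, t, ht,
      ?_⟩
    rw [dt_smul, map_mul, he]
  · rintro a ⟨x, hx, y, hy, z, hz, t, ht, rfl⟩
    obtain ⟨x', hx', rfl⟩ := (L2a_mem_gact _ A _).mp hx
    rw [L2a_scalar_mulVec, dt_smul, map_mul]
    exact mul_le_mul' le_rfl (dt_le_hd hv hA hB hC hD hx' hy hz ht)

end L2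

end RapidDecay
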