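import Mathlib
import Pool.Agent.Lib.MP_fee02f_an.Defs
import Pool.Agent.Lib.MP_fee02f_an.DefsL
import Pool.Agent.Lib.MP_fee02f_an.L2a

/-!
Module L4b: the moved lattice is a lattice, equivariance and homotheties.
-/

open scoped WithZero MatrixGroups

namespace RapidDecay

section L4
variable {O F : Type*} [CommRing O] [Field F] [Algebra O F] {v : Valuation F ℤᵐ⁰}

theorem L4b_mem_cut (hv : v.Integers O) (A P Q R : Submodule O (Fin 4 → F)) (h : ℤᵐ⁰)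
    (x : Fin 4 → F) : x ∈ cut hv A P Q R h ↔
      x ∈ A ∧ ∀ p ∈ P, ∀ q ∈ Q, ∀ r ∈ R, v (dt x p q r) ≤ h := Iff.rfl

theorem L4b_cut_le (hv : v.Integers O) (A P Q R : Submodule O (Fin 4 → F)) (h : ℤᵐ⁰) :
    cut hv A P Q R h ≤ A := fun _ hx => hx.1

theorem L4b_pow_mem (hv : v.Integers O) (π : O) (hπ : v (algebraMap O F π) = WithZero.exp (-1))
    {A P Q R : Submodule O (Fin 4 → F)} (hA : A.FG) (hP : P.FG) (hQ : Q.FG) (hR : R.FG)
    (k : ℕ) {x : Fin 4 → F} (hx : x ∈ A) :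
    π ^ k • x ∈ cut hv A P Q R (hd v A P Q R * WithZero.exp (-(k : ℤ))) := by
  refine ⟨A.smul_mem _ hx, fun p hp q hq r hr => ?_⟩
  have h2 : π ^ k • x = (algebraMap O F π) ^ k • x := by
    ext i
    simp [Algebra.smul_def]
  rw [h2, dt_smul, map_mul, map_pow, hπ, mul_comm]
  have h3 : (WithZero.exp (-1 : ℤ)) ^ k = WithZero.exp (-(k : ℤ)) := by
    rw [← WithZero.exp_nsmul]
    congr 1
    simp
  rw [h3]
  exact mul_le_mul' (dt_le_hd hv hA hP hQ hR hx hp hq hr) le_rfl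

theorem L4b_cut_gact (hv : v.Integers O) (g : GL (Fin 4) F)
    (A P Q R : Submodule O (Fin 4 → F)) (h : ℤᵐ⁰) :
    cut hv (gact g.1 A) (gact g.1 P) (gact g.1 Q) (gact g.1 R) (v g.1.det * h)
      = gact g.1 (cut hv A P Q R h) := by
  have hdet : v g.1.det ≠ 0 := by
    rw [ne_eq, Valuation.zero_iff]
    exact ((Matrix.isUnit_iff_isUnit_det _).mp g.isUnit).ne_zero
  ext x
  constructor
  · rintro ⟨hx, h2⟩
    obtain ⟨y, hy, rfl⟩ := (L2a_mem_gact _ _ _).mp hx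
    refine (L2a_mem_gact _ _ _).mpr ⟨y, ⟨hy, fun p hp q hq r hr => ?_⟩, rfl⟩
    have h3 := h2 (g.1.mulVec p) ((L2a_mem_gact _ _ _).mpr ⟨p, hp, rfl⟩)
      (g.1.mulVec q) ((L2a_mem_gact _ _ _).mpr ⟨q, hq, rfl⟩)
      (g.1.mulVec r) ((L2a_mem_gact _ _ _).mpr ⟨r, hr, rfl⟩)
    rw [L2a_dt_mulVec, map_mul] at h3
    exact le_of_mul_le_mul_left h3 (zero_lt_iff.mpr hdet)
  · intro hx
    obtain ⟨y, hy, rfl⟩ := (L2a_mem_gact _ _ _).mp hx
    refine ⟨(L2a_mem_gact _ _ _).mpr ⟨y, hy.1, rfl⟩, ?_⟩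
    intro p hp q hq r hr
    obtain ⟨p', hp', rfl⟩ := (L2a_mem_gact _ _ _).mp hp
    obtain ⟨q', hq', rfl⟩ := (L2a_mem_gact _ _ _).mp hq
    obtain ⟨r', hr', rfl⟩ := (L2a_mem_gact _ _ _).mp hr
    rw [L2a_dt_mulVec, map_mul]
    exact mul_le_mul' le_rfl (hy.2 p' hp' q' hq' r' hr')

theorem L4b_mem_scalar (c : F) (A : Submodule O (Fin 4 → F)) (x : Fin 4 → F) :
    x ∈ gact (Matrix.scalar (Fin 4) c) A ↔ ∃ y ∈ A, c • y = x := by
  rw [L2a_mem_gact]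
  constructor
  · rintro ⟨y, hy, rfl⟩
    exact ⟨y, hy, (L2a_scalar_mulVec c y).symm⟩
  · rintro ⟨y, hy, rfl⟩
    exact ⟨y, hy, L2a_scalar_mulVec c y⟩

theorem L4b_cut_scalar0 (hv : v.Integers O) (c : F) (hc : c ≠ 0)
    (A P Q R : Submodule O (Fin 4 → F)) (h : ℤᵐ⁰) :
    cut hv (gact (Matrix.scalar (Fin 4) c) A) P Q R (v c * h)
      = gact (Matrix.scalar (Fin 4) c) (cut hv A P Q R h) := by
  have hvc : v c ≠ 0 := by
    rw [ne_eq, Valuation.zero_iff]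
    exact hc
  ext x
  constructor
  · rintro ⟨hx, h2⟩
    obtain ⟨y, hy, rfl⟩ := (L4b_mem_scalar _ _ _).mp hx
    refine (L4b_mem_scalar _ _ _).mpr ⟨y, ⟨hy, fun p hp q hq r hr => ?_⟩, rfl⟩
    have h3 := h2 p hp q hq r hr
    rw [dt_smul, map_mul] at h3
    exact le_of_mul_le_mul_left h3 (zero_lt_iff.mpr hvc)
  · intro hx
    obtain ⟨y, hy, rfl⟩ := (L4b_mem_scalar _ _ _).mp hx
    refine ⟨(L4b_mem_scalar _ _ _).mpr ⟨y, hy.1, rfl⟩, ?_⟩
    intro p hp q hq r hr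
    rw [dt_smul, map_mul]
    exact mul_le_mul' le_rfl (hy.2 p hp q hq r hr)

theorem L4b_dt_smul1 (c : F) (x p q r : Fin 4 → F) : dt x (c • p) q r = c * dt x p q r := by
  rw [L2a_dt01, dt_smul, L2a_dt01 x p, mul_neg, neg_neg]

theorem L4b_dt_smul2 (c : F) (x p q r : Fin 4 → F) : dt x p (c • q) r = c * dt x p q r := by
  rw [L2a_dt12, L4b_dt_smul1, L2a_dt12 x p, mul_neg, neg_neg]

theorem L4b_dt_smul3 (c : F) (x p q r : Fin 4 → F) : dt x p q (c • r) = c * dt x p q r := by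
  rw [L2a_dt23, L4b_dt_smul2, L2a_dt23 x p q, mul_neg, neg_neg]

theorem L4b_cut_scalar1 (hv : v.Integers O) (c : F) (hc : c ≠ 0)
    (A P Q R : Submodule O (Fin 4 → F)) (h : ℤᵐ⁰) :
    cut hv A (gact (Matrix.scalar (Fin 4) c) P) Q R (v c * h) = cut hv A P Q R h := by
  have hvc : v c ≠ 0 := by
    rw [ne_eq, Valuation.zero_iff]
    exact hc
  ext x
  rw [L4b_mem_cut, L4b_mem_cut]
  refine and_congr_right fun _ => ⟨fun h2 p hp q hq r hr => ?_, fun h2 p hp q hq r hr => ?_⟩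
  · have h3 := h2 (c • p) ((L4b_mem_scalar _ _ _).mpr ⟨p, hp, rfl⟩) q hq r hr
    rw [L4b_dt_smul1, map_mul] at h3
    exact le_of_mul_le_mul_left h3 (zero_lt_iff.mpr hvc)
  · obtain ⟨p', hp', rfl⟩ := (L4b_mem_scalar _ _ _).mp hp
    rw [L4b_dt_smul1, map_mul]
    exact mul_le_mul' le_rfl (h2 p' hp' q hq r hr)

theorem L4b_cut_scalar2 (hv : v.Integers O) (c : F) (hc : c ≠ 0)
    (A P Q R : Submodule O (Fin 4 → F)) (h : ℤᵐ⁰) :
    cut hv A P (gact (Matrix.scalar (Fin 4) c) Q) R (v c * h) = cut hv A P Q R h := by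
  have hvc : v c ≠ 0 := by
    rw [ne_eq, Valuation.zero_iff]
    exact hc
  ext x
  rw [L4b_mem_cut, L4b_mem_cut]
  refine and_congr_right fun _ => ⟨fun h2 p hp q hq r hr => ?_, fun h2 p hp q hq r hr => ?_⟩
  · have h3 := h2 p hp (c • q) ((L4b_mem_scalar _ _ _).mpr ⟨q, hq, rfl⟩) r hr
    rw [L4b_dt_smul2, map_mul] at h3
    exact le_of_mul_le_mul_left h3 (zero_lt_iff.mpr hvc)
  · obtain ⟨q', hq', rfl⟩ := (L4b_mem_scalar _ _ _).mp hq
    rw [L4b_dt_smul2, map_mul]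
    exact mul_le_mul' le_rfl (h2 p hp q' hq' r hr)

theorem L4b_cut_scalar3 (hv : v.Integers O) (c : F) (hc : c ≠ 0)
    (A P Q R : Submodule O (Fin 4 → F)) (h : ℤᵐ⁰) :
    cut hv A P Q (gact (Matrix.scalar (Fin 4) c) R) (v c * h) = cut hv A P Q R h := by
  have hvc : v c ≠ 0 := by
    rw [ne_eq, Valuation.zero_iff]
    exact hc
  ext x
  rw [L4b_mem_cut, L4b_mem_cut]
  refine and_congr_right fun _ => ⟨fun h2 p hp q hq r hr => ?_, fun h2 p hp q hq r hr => ?_⟩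
  · have h3 := h2 p hp q hq (c • r) ((L4b_mem_scalar _ _ _).mpr ⟨r, hr, rfl⟩)
    rw [L4b_dt_smul3, map_mul] at h3
    exact le_of_mul_le_mul_left h3 (zero_lt_iff.mpr hvc)
  · obtain ⟨r', hr', rfl⟩ := (L4b_mem_scalar _ _ _).mp hr
    rw [L4b_dt_smul3, map_mul]
    exact mul_le_mul' le_rfl (h2 p hp q hq r' hr')

theorem L4b_hd_scalar1 (hv : v.Integers O) (c : F) {A B C D : Submodule O (Fin 4 → F)}
    (hA : A.FG) (hB : B.FG) (hC : C.FG) (hD : D.FG) :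
    hd v A (gact (Matrix.scalar (Fin 4) c) B) C D = v c * hd v A B C D := by
  rw [hd_s12, hd_scalar hv c hB hA hC hD, hd_s12 B A]

theorem L4b_hd_scalar2 (hv : v.Integers O) (c : F) {A B C D : Submodule O (Fin 4 → F)}
    (hA : A.FG) (hB : B.FG) (hC : C.FG) (hD : D.FG) :
    hd v A B (gact (Matrix.scalar (Fin 4) c) C) D = v c * hd v A B C D := by
  rw [hd_s23, L4b_hd_scalar1 hv c hA hC hB hD, hd_s23 A C]

theorem L4b_hd_scalar3 (hv : v.Integers O) (c : F) {A B C D : Submodule O (Fin 4 → F)}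
    (hA : A.FG) (hB : B.FG) (hC : C.FG) (hD : D.FG) :
    hd v A B C (gact (Matrix.scalar (Fin 4) c) D) = v c * hd v A B C D := by
  rw [hd_s34, L4b_hd_scalar2 hv c hA hB hD hC, hd_s34 A B D]

theorem L4b_gact_fg (g : Matrix (Fin 4) (Fin 4) F) {A : Submodule O (Fin 4 → F)} (hA : A.FG) :
    (gact g A).FG := hA.map _

theorem Mv_le (hv : v.Integers O) (r k : ℕ) (A B : Submodule O (Fin 4 → F)) :
    Mv hv r k A B ≤ A := by
  unfold Mv
  split_ifs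
  · exact L4b_cut_le hv _ _ _ _ _
  · exact L4b_cut_le hv _ _ _ _ _
  · exact L4b_cut_le hv _ _ _ _ _
  · exact le_rfl

theorem pow_smul_mem_Mv (hv : v.Integers O) (π : O) (hπ : v (algebraMap O F π) = WithZero.exp (-1))
    {A B : Submodule O (Fin 4 → F)} (hA : IsLat A) (hB : IsLat B) (r k : ℕ) {x : Fin 4 → F}
    (hx : x ∈ A) : π ^ k • x ∈ Mv hv r k A B := by
  unfold Mv
  split_ifs
  · exact L4b_pow_mem hv π hπ hA.1 hB.1 hB.1 hB.1 k hx
  · exact L4b_pow_mem hv π hπ hA.1 hA.1 hB.1 hB.1 k hx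
  · exact L4b_pow_mem hv π hπ hA.1 hA.1 hA.1 hB.1 k hx
  · exact A.smul_mem _ hx

theorem Mv_isLat [IsNoetherianRing O] (hv : v.Integers O) (π : O)
    (hπ : v (algebraMap O F π) = WithZero.exp (-1))
    {A B : Submodule O (Fin 4 → F)} (hA : IsLat A) (hB : IsLat B) (r k : ℕ) :
    IsLat (Mv hv r k A B) := by
  have hπ0 : algebraMap O F π ≠ 0 := by
    intro h
    rw [h, map_zero] at hπ
    exact WithZero.exp_ne_zero hπ.symm
  constructor
  · have h1 : IsNoetherian O A := isNoetherian_of_fg_of_noetherian A hA.1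
    exact (isNoetherian_submodule.mp h1) _ (Mv_le hv r k A B)
  · rw [eq_top_iff, ← hA.2, Submodule.span_le]
    intro x hx
    have h1 := pow_smul_mem_Mv hv π hπ hA hB r k hx
    have h2 : (π ^ k • x) ∈ Submodule.span F ((Mv hv r k A B : Submodule O (Fin 4 → F)) :
        Set (Fin 4 → F)) := Submodule.subset_span h1
    have h3 : x = ((algebraMap O F π) ^ k)⁻¹ • (π ^ k • x) := by
      have h4 : π ^ k • x = (algebraMap O F π) ^ k • x := by
        ext i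
        simp [Algebra.smul_def]
      rw [h4, smul_smul, inv_mul_cancel₀ (pow_ne_zero _ hπ0), one_smul]
    rw [h3]
    exact Submodule.smul_mem _ _ h2

theorem Mv_gact (hv : v.Integers O) (g : GL (Fin 4) F)
    {A B : Submodule O (Fin 4 → F)} (hA : IsLat A) (hB : IsLat B) (r k : ℕ) :
    Mv hv r k (gact g.1 A) (gact g.1 B) = gact g.1 (Mv hv r k A B) := by
  unfold Mv
  split_ifs
  · rw [hd_gact hv g.1 hA.1 hB.1 hB.1 hB.1, mul_assoc, L4b_cut_gact]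
  · rw [hd_gact hv g.1 hA.1 hA.1 hB.1 hB.1, mul_assoc, L4b_cut_gact]
  · rw [hd_gact hv g.1 hA.1 hA.1 hA.1 hB.1, mul_assoc, L4b_cut_gact]
  · rfl

theorem Mv_scalar_left (hv : v.Integers O) (c : F) (hc : c ≠ 0)
    {A B : Submodule O (Fin 4 → F)} (hA : IsLat A) (hB : IsLat B) (r k : ℕ) :
    Mv hv r k (gact (Matrix.scalar (Fin 4) c) A) B
      = gact (Matrix.scalar (Fin 4) c) (Mv hv r k A B) := by
  have hcA := L4b_gact_fg (Matrix.scalar (Fin 4) c) hA.1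
  unfold Mv
  split_ifs
  · rw [hd_scalar hv c hA.1 hB.1 hB.1 hB.1, mul_assoc, L4b_cut_scalar0 hv c hc]
  · rw [hd_scalar hv c hA.1 hcA hB.1 hB.1, L4b_hd_scalar1 hv c hA.1 hA.1 hB.1 hB.1, mul_assoc,
      mul_assoc, L4b_cut_scalar0 hv c hc, L4b_cut_scalar1 hv c hc]
  · rw [hd_scalar hv c hA.1 hcA hcA hB.1, L4b_hd_scalar1 hv c hA.1 hA.1 hcA hB.1,
      L4b_hd_scalar2 hv c hA.1 hA.1 hA.1 hB.1, mul_assoc,
      mul_assoc, mul_assoc, L4b_cut_scalar0 hv c hc, L4b_cut_scalar1 hv c hc,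
      L4b_cut_scalar2 hv c hc]
  · rfl

theorem Mv_scalar_right (hv : v.Integers O) (c : F) (hc : c ≠ 0)
    {A B : Submodule O (Fin 4 → F)} (hA : IsLat A) (hB : IsLat B) (r k : ℕ) :
    Mv hv r k A (gact (Matrix.scalar (Fin 4) c) B) = Mv hv r k A B := by
  have hcB := L4b_gact_fg (Matrix.scalar (Fin 4) c) hB.1
  unfold Mv
  split_ifs
  · rw [L4b_hd_scalar1 hv c hA.1 hB.1 hcB hcB, L4b_hd_scalar2 hv c hA.1 hB.1 hB.1 hcB,
      L4b_hd_scalar3 hv c hA.1 hB.1 hB.1 hB.1, mul_assoc, mul_assoc, mul_assoc,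
      L4b_cut_scalar1 hv c hc, L4b_cut_scalar2 hv c hc, L4b_cut_scalar3 hv c hc]
  · rw [L4b_hd_scalar2 hv c hA.1 hA.1 hB.1 hcB,
      L4b_hd_scalar3 hv c hA.1 hA.1 hB.1 hB.1, mul_assoc, mul_assoc,
      L4b_cut_scalar2 hv c hc, L4b_cut_scalar3 hv c hc]
  · rw [L4b_hd_scalar3 hv c hA.1 hA.1 hA.1 hB.1, mul_assoc, L4b_cut_scalar3 hv c hc]
  · rfl

end L4

end RapidDecay
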