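import Pool.Agent.Lib.MP_fee02f_an.L1
import Pool.Agent.Lib.MP_fee02f_an.L2a

/-!
L2b: the Pluecker relation for the function `hd` (MP_fee02f_an).
Generic vectors with one variable for every generator; the Gauss value of a determinant of generic
vectors of four different slots is `hd` of the modules.
-/

open scoped WithZero MatrixGroups

namespace RapidDecay

section L2
variable {O F : Type*} [CommRing O] [Field F] [Algebra O F] {v : Valuation F ℤᵐ⁰}

/-- determinant of four vectors over a commutative ring -/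
def L2b_D {R : Type*} [CommRing R] (x y z t : Fin 4 → R) : R := Matrix.det (Matrix.of ![x, y, z, t])

theorem L2b_expand {R : Type*} [CommRing R] (x y z t : Fin 4 → R) :
    L2b_D x y z t =
      (x 0 * y 1 - x 1 * y 0) * (z 2 * t 3 - z 3 * t 2)
      - (x 0 * y 2 - x 2 * y 0) * (z 1 * t 3 - z 3 * t 1)
      + (x 0 * y 3 - x 3 * y 0) * (z 1 * t 2 - z 2 * t 1)
      + (x 1 * y 2 - x 2 * y 1) * (z 0 * t 3 - z 3 * t 0)
      - (x 1 * y 3 - x 3 * y 1) * (z 0 * t 2 - z 2 * t 0)
      + (x 2 * y 3 - x 3 * y 2) * (z 0 * t 1 - z 1 * t 0) := by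
  unfold L2b_D
  rw [Matrix.det_succ_row_zero]
  simp only [Fin.sum_univ_succ, Fin.sum_univ_zero, Matrix.det_fin_three, Matrix.submatrix_apply,
    Matrix.of_apply, Matrix.cons_val_zero, Matrix.cons_val_succ, Matrix.cons_val_one]
  simp [Fin.succAbove, Fin.lt_def]
  ring

/-- the three term relation -/
theorem L2b_three {R : Type*} [CommRing R] (s t a b c d : Fin 4 → R) :
    L2b_D s t a b * L2b_D s t c d =
      L2b_D s t a c * L2b_D s t b d - L2b_D s t a d * L2b_D s t b c := by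
  simp only [L2b_expand]
  have h : ∀ p01 p02 p03 p12 p13 p23 : R, p01 * p23 - p02 * p13 + p03 * p12 = 0 →
      (p01 * (a 2 * b 3 - a 3 * b 2) - p02 * (a 1 * b 3 - a 3 * b 1) + p03 * (a 1 * b 2 - a 2 * b 1)
        + p12 * (a 0 * b 3 - a 3 * b 0) - p13 * (a 0 * b 2 - a 2 * b 0)
        + p23 * (a 0 * b 1 - a 1 * b 0)) *
      (p01 * (c 2 * d 3 - c 3 * d 2) - p02 * (c 1 * d 3 - c 3 * d 1) + p03 * (c 1 * d 2 - c 2 * d 1)
        + p12 * (c 0 * d 3 - c 3 * d 0) - p13 * (c 0 * d 2 - c 2 * d 0)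
        + p23 * (c 0 * d 1 - c 1 * d 0)) =
      (p01 * (a 2 * c 3 - a 3 * c 2) - p02 * (a 1 * c 3 - a 3 * c 1) + p03 * (a 1 * c 2 - a 2 * c 1)
        + p12 * (a 0 * c 3 - a 3 * c 0) - p13 * (a 0 * c 2 - a 2 * c 0)
        + p23 * (a 0 * c 1 - a 1 * c 0)) *
      (p01 * (b 2 * d 3 - b 3 * d 2) - p02 * (b 1 * d 3 - b 3 * d 1) + p03 * (b 1 * d 2 - b 2 * d 1)
        + p12 * (b 0 * d 3 - b 3 * d 0) - p13 * (b 0 * d 2 - b 2 * d 0)
        + p23 * (b 0 * d 1 - b 1 * d 0)) -
      (p01 * (a 2 * d 3 - a 3 * d 2) - p02 * (a 1 * d 3 - a 3 * d 1) + p03 * (a 1 * d 2 - a 2 * d 1)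
        + p12 * (a 0 * d 3 - a 3 * d 0) - p13 * (a 0 * d 2 - a 2 * d 0)
        + p23 * (a 0 * d 1 - a 1 * d 0)) *
      (p01 * (b 2 * c 3 - b 3 * c 2) - p02 * (b 1 * c 3 - b 3 * c 1) + p03 * (b 1 * c 2 - b 2 * c 1)
        + p12 * (b 0 * c 3 - b 3 * c 0) - p13 * (b 0 * c 2 - b 2 * c 0)
        + p23 * (b 0 * c 1 - b 1 * c 0)) := by
    intro p01 p02 p03 p12 p13 p23 hp
    have hD := L2b_expand a b c d
    linear_combination ((a 0 * b 1 - a 1 * b 0) * (c 2 * d 3 - c 3 * d 2)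
      - (a 0 * b 2 - a 2 * b 0) * (c 1 * d 3 - c 3 * d 1)
      + (a 0 * b 3 - a 3 * b 0) * (c 1 * d 2 - c 2 * d 1)
      + (a 1 * b 2 - a 2 * b 1) * (c 0 * d 3 - c 3 * d 0)
      - (a 1 * b 3 - a 3 * b 1) * (c 0 * d 2 - c 2 * d 0)
      + (a 2 * b 3 - a 3 * b 2) * (c 0 * d 1 - c 1 * d 0)) * hp
  exact h _ _ _ _ _ _ (by ring)

/-- generic vector of a family of generators -/
noncomputable def L2b_x {n : Fin 6 → ℕ} (g : ∀ i, Fin (n i) → (Fin 4 → F)) (i : Fin 6) :
    Fin 4 → MvPolynomial (Σ i : Fin 6, Fin (n i)) F :=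
  fun l => ∑ j, MvPolynomial.X ⟨i, j⟩ * MvPolynomial.C (g i j l)

theorem L2b_row {R : Type*} [CommRing R] {κ : Type*} (s : Finset κ) (c : κ → R)
    (u : κ → Fin 4 → R) (M : Matrix (Fin 4) (Fin 4) R) (i : Fin 4) :
    (M.updateRow i (fun l => ∑ k ∈ s, c k * u k l)).det =
      ∑ k ∈ s, c k * (M.updateRow i (u k)).det := by
  classical
  induction s using Finset.induction_on with
  | empty =>
    simp only [Finset.sum_empty]
    apply Matrix.det_eq_zero_of_row_eq_zero i
    intro j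
    simp
  | insert k s hk ih =>
    rw [Finset.sum_insert hk, ← ih]
    have h1 : (fun l => ∑ k ∈ insert k s, c k * u k l) =
        c k • u k + fun l => ∑ k ∈ s, c k * u k l := by
      funext l
      rw [Finset.sum_insert hk]
      rfl
    rw [h1, Matrix.det_updateRow_add, Matrix.det_updateRow_smul]

theorem L2b_gn_sum {σ : Type*} {κ : Type*} (s : Finset κ) (p : κ → MvPolynomial σ F) (h : ℤᵐ⁰)
    (hp : ∀ k ∈ s, gn v (p k) ≤ h) : gn v (∑ k ∈ s, p k) ≤ h := by
  classical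
  induction s using Finset.induction_on with
  | empty => rw [Finset.sum_empty, (gn_eq_zero (v := v) 0).2 rfl]; exact zero_le
  | insert k s hk ih =>
    rw [Finset.sum_insert hk]
    exact (gn_add_le _ _).trans (max_le (hp k (Finset.mem_insert_self k s))
      (ih fun k' hk' => hp k' (Finset.mem_insert_of_mem hk')))

theorem L2b_gn_X {σ : Type*} (i : σ) : gn v (MvPolynomial.X i : MvPolynomial σ F) ≤ 1 := by
  classical
  rw [gn_le_iff]
  intro m
  rw [MvPolynomial.coeff_X]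
  split_ifs
  · rw [map_one]
  · rw [map_zero]; exact zero_le

theorem L2b_gn_C {σ : Type*} (a : F) : gn v (MvPolynomial.C a : MvPolynomial σ F) ≤ v a := by
  classical
  rw [gn_le_iff]
  intro m
  rw [MvPolynomial.coeff_C]
  split_ifs
  · exact le_rfl
  · rw [map_zero]; exact zero_le

theorem L2b_term {n : Fin 6 → ℕ} (g : ∀ i, Fin (n i) → (Fin 4 → F)) (i : Fin 6)
    (M : Matrix (Fin 4) (Fin 4) (MvPolynomial (Σ i : Fin 6, Fin (n i)) F)) (r : Fin 4) (h : ℤᵐ⁰)
    (hh : ∀ j, gn v (M.updateRow r (fun l => MvPolynomial.C (g i j l))).det ≤ h) (j : Fin (n i)) :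
    gn v (MvPolynomial.X ⟨i, j⟩ * (M.updateRow r (fun l => MvPolynomial.C (g i j l))).det) ≤ h := by
  refine (L1_mul_le _ _).trans ?_
  refine (mul_le_mul' (L2b_gn_X _) (hh j)).trans ?_
  exact (one_mul h).le

/-- replacing one row by the generic vector -/
theorem L2b_up {n : Fin 6 → ℕ} (g : ∀ i, Fin (n i) → (Fin 4 → F)) (i : Fin 6)
    (M : Matrix (Fin 4) (Fin 4) (MvPolynomial (Σ i : Fin 6, Fin (n i)) F)) (r : Fin 4) (h : ℤᵐ⁰)
    (hh : ∀ j, gn v (M.updateRow r (fun l => MvPolynomial.C (g i j l))).det ≤ h) :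
    gn v (M.updateRow r (L2b_x g i)).det ≤ h := by
  have h1 : (M.updateRow r (L2b_x g i)).det = ∑ j, MvPolynomial.X ⟨i, j⟩ *
      (M.updateRow r (fun l => MvPolynomial.C (g i j l))).det := by
    exact L2b_row Finset.univ (fun j => MvPolynomial.X (⟨i, j⟩ : Σ i : Fin 6, Fin (n i)))
      (fun j l => (MvPolynomial.C (g i j l) : MvPolynomial (Σ i : Fin 6, Fin (n i)) F)) M r
  rw [h1]
  apply L2b_gn_sum
  intro j _
  exact L2b_term g i M r h hh j

theorem L2b_upper {n : Fin 6 → ℕ} (g : ∀ i, Fin (n i) → (Fin 4 → F)) (i0 i1 i2 i3 : Fin 6)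
    (h : ℤᵐ⁰) (hh : ∀ j0 j1 j2 j3, v (dt (g i0 j0) (g i1 j1) (g i2 j2) (g i3 j3)) ≤ h) :
    gn v (L2b_D (L2b_x g i0) (L2b_x g i1) (L2b_x g i2) (L2b_x g i3)) ≤ h := by
  classical
  have e0 : ∀ (x y z t w : Fin 4 → MvPolynomial (Σ i : Fin 6, Fin (n i)) F),
      (Matrix.updateRow (Matrix.of ![x, y, z, t]) 0 w) = Matrix.of ![w, y, z, t] := by
    intro x y z t w
    ext i j
    fin_cases i <;> simp [Matrix.updateRow_apply]
  have e1 : ∀ (x y z t w : Fin 4 → MvPolynomial (Σ i : Fin 6, Fin (n i)) F),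
      (Matrix.updateRow (Matrix.of ![x, y, z, t]) 1 w) = Matrix.of ![x, w, z, t] := by
    intro x y z t w
    ext i j
    fin_cases i <;> simp [Matrix.updateRow_apply]
  have e2 : ∀ (x y z t w : Fin 4 → MvPolynomial (Σ i : Fin 6, Fin (n i)) F),
      (Matrix.updateRow (Matrix.of ![x, y, z, t]) 2 w) = Matrix.of ![x, y, w, t] := by
    intro x y z t w
    ext i j
    fin_cases i <;> simp [Matrix.updateRow_apply]
  have e3 : ∀ (x y z t w : Fin 4 → MvPolynomial (Σ i : Fin 6, Fin (n i)) F),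
      (Matrix.updateRow (Matrix.of ![x, y, z, t]) 3 w) = Matrix.of ![x, y, z, w] := by
    intro x y z t w
    ext i j
    fin_cases i <;> simp [Matrix.updateRow_apply]
  unfold L2b_D
  rw [← e0 0]
  apply L2b_up
  intro j0
  rw [e0, ← e1 _ 0]
  apply L2b_up
  intro j1
  rw [e1, ← e2 _ _ 0]
  apply L2b_up
  intro j2
  rw [e2, ← e3 _ _ _ 0]
  apply L2b_up
  intro j3
  rw [e3]
  have h2 : Matrix.of ![fun l => MvPolynomial.C (g i0 j0 l), fun l => MvPolynomial.C (g i1 j1 l),
      fun l => MvPolynomial.C (g i2 j2 l), fun l => MvPolynomial.C (g i3 j3 l)] =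
      (MvPolynomial.C : F →+* MvPolynomial (Σ i : Fin 6, Fin (n i)) F).mapMatrix
        (Matrix.of ![g i0 j0, g i1 j1, g i2 j2, g i3 j3]) := by
    ext1 i j
    fin_cases i <;> simp
  rw [h2, ← RingHom.map_det]
  exact (L2b_gn_C _).trans (hh j0 j1 j2 j3)

theorem L2b_eval {σ : Type*} (p : MvPolynomial σ F) (a : σ → F) (ha : ∀ i, v (a i) ≤ 1) :
    v (MvPolynomial.eval a p) ≤ gn v p := by
  classical
  rw [MvPolynomial.eval_eq]
  apply v.map_sum_le
  intro m _
  rw [map_mul, map_prod]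
  calc v (p.coeff m) * ∏ i ∈ m.support, v (a i ^ m i) ≤ gn v p * 1 := by
        apply mul_le_mul' (L1_le_gn p m)
        apply Finset.prod_le_one'
        intro i _
        rw [map_pow]
        exact pow_le_one' (ha i) _
    _ = gn v p := mul_one _

theorem L2b_lower (hv : v.Integers O) {n : Fin 6 → ℕ} (g : ∀ i, Fin (n i) → (Fin 4 → F))
    (y : Fin 6 → (Fin 4 → F)) (hy : ∀ i, y i ∈ Submodule.span O (Set.range (g i)))
    (i0 i1 i2 i3 : Fin 6) :
    v (dt (y i0) (y i1) (y i2) (y i3)) ≤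
      gn v (L2b_D (L2b_x g i0) (L2b_x g i1) (L2b_x g i2) (L2b_x g i3)) := by
  classical
  have h1 : ∀ i, ∃ c : Fin (n i) → O, ∑ j, c j • g i j = y i := fun i =>
    (Submodule.mem_span_range_iff_exists_fun O).1 (hy i)
  choose c hc using h1
  set a : (Σ i : Fin 6, Fin (n i)) → F := fun s => algebraMap O F (c s.1 s.2) with ha
  have h2 : ∀ i, (fun l => MvPolynomial.eval a (L2b_x g i l)) = y i := by
    intro i
    funext l
    rw [← hc i]
    simp [L2b_x, ha, Algebra.smul_def]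
  have h3 : MvPolynomial.eval a (L2b_D (L2b_x g i0) (L2b_x g i1) (L2b_x g i2) (L2b_x g i3)) =
      dt (y i0) (y i1) (y i2) (y i3) := by
    unfold L2b_D dt
    rw [RingHom.map_det]
    congr 1
    rw [← h2 i0, ← h2 i1, ← h2 i2, ← h2 i3]
    ext i j
    fin_cases i <;> simp
  rw [← h3]
  exact L2b_eval _ _ fun s => hv.map_le_one _

theorem L2b_gn_eq (hv : v.Integers O) {n : Fin 6 → ℕ} (g : ∀ i, Fin (n i) → (Fin 4 → F))
    (N : Fin 6 → Submodule O (Fin 4 → F)) (hN : ∀ i, Submodule.span O (Set.range (g i)) = N i)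
    (i0 i1 i2 i3 : Fin 6) (h01 : i0 ≠ i1) (h02 : i0 ≠ i2) (h03 : i0 ≠ i3) (h12 : i1 ≠ i2)
    (h13 : i1 ≠ i3) (h23 : i2 ≠ i3) :
    gn v (L2b_D (L2b_x g i0) (L2b_x g i1) (L2b_x g i2) (L2b_x g i3)) =
      hd v (N i0) (N i1) (N i2) (N i3) := by
  classical
  have hfg : ∀ i, (N i).FG := fun i => by
    rw [← hN i]
    exact Submodule.fg_span (Set.finite_range _)
  have hmem : ∀ i j, g i j ∈ N i := fun i j => by
    rw [← hN i]
    exact Submodule.subset_span ⟨j, rfl⟩
  apply le_antisymm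
  · apply L2b_upper
    intro j0 j1 j2 j3
    exact dt_le_hd hv (hfg i0) (hfg i1) (hfg i2) (hfg i3) (hmem i0 j0) (hmem i1 j1)
      (hmem i2 j2) (hmem i3 j3)
  · rw [hd_le_iff hv (hfg i0) (hfg i1) (hfg i2) (hfg i3)]
    intro x0 hx0 x1 hx1 x2 hx2 x3 hx3
    set y : Fin 6 → (Fin 4 → F) := fun i =>
      if i = i0 then x0 else if i = i1 then x1 else if i = i2 then x2 else if i = i3 then x3 else 0
      with hy
    have hyN : ∀ i, y i ∈ Submodule.span O (Set.range (g i)) := by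
      intro i
      rw [hN i, hy]
      dsimp only
      split_ifs with h0 h1 h2 h3
      · rw [h0]; exact hx0
      · rw [h1]; exact hx1
      · rw [h2]; exact hx2
      · rw [h3]; exact hx3
      · exact (N i).zero_mem
    have hy0 : y i0 = x0 := by simp [hy]
    have hy1 : y i1 = x1 := by simp [hy, h01.symm]
    have hy2 : y i2 = x2 := by simp [hy, h02.symm, h12.symm]
    have hy3 : y i3 = x3 := by simp [hy, h03.symm, h13.symm, h23.symm]
    have := L2b_lower hv g y hyN i0 i1 i2 i3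
    rwa [hy0, hy1, hy2, hy3] at this

/-- Pluecker relation -/
theorem hd_pl (hv : v.Integers O) {S T A B C D : Submodule O (Fin 4 → F)} (hS : S.FG) (hT : T.FG)
    (hA : A.FG) (hB : B.FG) (hC : C.FG) (hD : D.FG) :
    hd v S T A B * hd v S T C D
      ≤ max (hd v S T A C * hd v S T B D) (hd v S T A D * hd v S T B C) := by
  classical
  have h1 : ∀ i : Fin 6, ∃ (n : ℕ) (g : Fin n → (Fin 4 → F)),
      Submodule.span O (Set.range g) = (![S, T, A, B, C, D] : Fin 6 → Submodule O (Fin 4 → F)) i := by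
    intro i
    apply Submodule.fg_iff_exists_fin_generating_family.1
    fin_cases i
    · exact hS
    · exact hT
    · exact hA
    · exact hB
    · exact hC
    · exact hD
  choose n g hg using h1
  have key := fun i0 i1 i2 i3 a b c d e f =>
    L2b_gn_eq (v := v) hv g _ hg i0 i1 i2 i3 a b c d e f
  have k0123 := key 0 1 2 3 (by decide) (by decide) (by decide) (by decide) (by decide) (by decide)
  have k0145 := key 0 1 4 5 (by decide) (by decide) (by decide) (by decide) (by decide) (by decide)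
  have k0124 := key 0 1 2 4 (by decide) (by decide) (by decide) (by decide) (by decide) (by decide)
  have k0135 := key 0 1 3 5 (by decide) (by decide) (by decide) (by decide) (by decide) (by decide)
  have k0125 := key 0 1 2 5 (by decide) (by decide) (by decide) (by decide) (by decide) (by decide)
  have k0134 := key 0 1 3 4 (by decide) (by decide) (by decide) (by decide) (by decide) (by decide)
  change _ = hd v S T A B at k0123
  change _ = hd v S T C D at k0145
  change _ = hd v S T A C at k0124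
  change _ = hd v S T B D at k0135
  change _ = hd v S T A D at k0125
  change _ = hd v S T B C at k0134
  rw [← k0123, ← k0145, ← k0124, ← k0135, ← k0125, ← k0134, ← gn_mul hv, ← gn_mul hv,
    ← gn_mul hv, L2b_three, sub_eq_add_neg]
  refine (gn_add_le _ _).trans ?_
  rw [gn_neg]

end L2

end RapidDecay
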