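import Mathlib
import Pool.Agent.Lib.MP_fee02f_an.DefsL
import Pool.Agent.Lib.MP_fee02f_an.L2a
import Pool.Agent.Lib.MP_fee02f_an.L2b

/-!
Decomposition of a lattice (MP_fee02f_an, module L5a).
-/

open scoped WithZero MatrixGroups

namespace RapidDecay

variable {O F : Type*} [CommRing O] [Field F] [Algebra O F] {v : Valuation F ℤᵐ⁰}

theorem L5a_slL (hv : v.Integers O) {A B C S T : Submodule O (Fin 4 → F)} (hA : IsLat A)
    (hB : IsLat B) (hC : IsLat C) (hS : IsLat S) (hT : IsLat T) (k : ℕ)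
    (h : SlL v A B C S T k) : SlL v A B B S T k := by
  unfold SlL at h ⊢
  have h1 := hd_pl (v := v) hv hS.1 hT.1 hB.1 hB.1 hA.1 hC.1
  rw [hd_s34 S T B A, mul_comm (hd v S T B C) (hd v S T A B), max_self] at h1
  have h2 : hd v S T A C ≠ 0 := hd_ne_zero hv hS hT hA hC
  have h3 : (hd v S T A A * hd v S T B B) * hd v S T A C
      ≤ (WithZero.exp (-(k : ℤ)) * (hd v S T A B * hd v S T A B)) * hd v S T A C := by
    calc (hd v S T A A * hd v S T B B) * hd v S T A C
        = hd v S T A A * (hd v S T B B * hd v S T A C) := by ac_rfl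
      _ ≤ hd v S T A A * (hd v S T A B * hd v S T B C) := mul_le_mul' le_rfl h1
      _ = hd v S T A B * (hd v S T A A * hd v S T B C) := by ac_rfl
      _ ≤ hd v S T A B * (WithZero.exp (-(k : ℤ)) * (hd v S T A B * hd v S T A C)) :=
          mul_le_mul' le_rfl h
      _ = (WithZero.exp (-(k : ℤ)) * (hd v S T A B * hd v S T A B)) * hd v S T A C := by ac_rfl
  exact le_of_mul_le_mul_right h3 (zero_lt_iff.mpr h2)

/-- a long group has a long gap -/
theorem gap_of_grL (hv : v.Integers O) {A B C : Submodule O (Fin 4 → F)} (hA : IsLat A)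
    (hB : IsLat B) (hC : IsLat C) (r k : ℕ) (h : GrL v A B C r k) : GrL v A B B r k := by
  rcases h with ⟨hr, h1, _, _⟩ | ⟨hr, h1, _⟩ | ⟨hr, h1⟩
  · have h2 := L5a_slL hv hA hB hC hB hB k h1
    exact Or.inl ⟨hr, h2, h2, h2⟩
  · have h2 := L5a_slL hv hA hB hC hA hB k h1
    exact Or.inr (Or.inl ⟨hr, h2, h2⟩)
  · have h2 := L5a_slL hv hA hB hC hA hA k h1
    exact Or.inr (Or.inr ⟨hr, h2⟩)

theorem L5a_dt (x y z t : Fin 4 → F) :
    dt x y z t =
      x 0 * (y 1 * (z 2 * t 3 - z 3 * t 2) - y 2 * (z 1 * t 3 - z 3 * t 1)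
        + y 3 * (z 1 * t 2 - z 2 * t 1))
      - x 1 * (y 0 * (z 2 * t 3 - z 3 * t 2) - y 2 * (z 0 * t 3 - z 3 * t 0)
        + y 3 * (z 0 * t 2 - z 2 * t 0))
      + x 2 * (y 0 * (z 1 * t 3 - z 3 * t 1) - y 1 * (z 0 * t 3 - z 3 * t 0)
        + y 3 * (z 0 * t 1 - z 1 * t 0))
      - x 3 * (y 0 * (z 1 * t 2 - z 2 * t 1) - y 1 * (z 0 * t 2 - z 2 * t 0)
        + y 2 * (z 0 * t 1 - z 1 * t 0)) := by
  unfold dt
  rw [Matrix.det_succ_row_zero]
  simp [Fin.sum_univ_succ, Matrix.det_fin_three, Fin.succAbove]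
  ring

theorem L5a_cramer (a b c d z : Fin 4 → F) :
    dt a b c d • z = dt z b c d • a + dt a z c d • b + dt a b z d • c + dt a b c z • d := by
  funext i
  simp only [L5a_dt, Pi.add_apply, Pi.smul_apply, smul_eq_mul]
  fin_cases i <;> simp only [Fin.zero_eta, Fin.mk_one, Fin.reduceFinMk] <;> ring

theorem L5a_smul (c : O) (x : Fin 4 → F) : c • x = algebraMap O F c • x := by
  ext i
  simp [Algebra.smul_def]

/-- the coefficient in Cramer's rule is integral -/
theorem L5a_coeff (hv : v.Integers O) (D e : F) (hD : D ≠ 0) (h : v e ≤ v D) :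
    ∃ c : O, algebraMap O F c * D = e := by
  have h1 : v (e / D) ≤ 1 := by
    rw [map_div₀]
    exact div_le_one_of_le₀ h zero_le
  obtain ⟨c, hc⟩ := hv.exists_of_le_one h1
  exact ⟨c, by rw [hc, div_mul_cancel₀ _ hD]⟩

theorem L5a_rep (a b c d a' b' c' d' : Fin 4 → F) :
    dt a b c d * dt a' b' c' d' = dt a' b c d * dt a b' c' d' + dt a a' c d * dt b b' c' d'
      + dt a b a' d * dt c b' c' d' + dt a b c a' * dt d b' c' d' := by
  rw [← dt_smul, L5a_cramer a b c d a', dt_add, dt_add, dt_add, dt_smul, dt_smul, dt_smul,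
    dt_smul]

theorem L5a_eq01 (a c d : Fin 4 → F) : dt a a c d = 0 := by
  rw [L5a_dt]; ring

theorem L5a_eq02 (a b d : Fin 4 → F) : dt a b a d = 0 := by
  rw [L5a_dt]; ring

theorem L5a_eq12 (a b d : Fin 4 → F) : dt a b b d = 0 := by
  rw [L5a_dt]; ring

/-- the determinant as a linear form in the first vector -/
def L5a_form (O : Type*) {F : Type*} [CommRing O] [Field F] [Algebra O F] (p q r : Fin 4 → F) :
    (Fin 4 → F) →ₗ[O] F where
  toFun z := dt z p q r
  map_add' x y := dt_add x y p q r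
  map_smul' c x := by
    rw [L5a_smul, dt_smul, RingHom.id_apply, Algebra.smul_def]

theorem L5a_fg [IsNoetherianRing O] {A W : Submodule O (Fin 4 → F)} (hA : A.FG) (h : W ≤ A) :
    W.FG := by
  exact Submodule.FG.of_le hA h

theorem L5a_cancel {H a b : ℤᵐ⁰} (k : ℕ) (hH : H ≠ 0) (ha : a = H)
    (h : a * b ≤ WithZero.exp (-(k : ℤ)) * (H * H)) : b ≤ H * WithZero.exp (-(k : ℤ)) := by
  subst ha
  have h1 : a * b ≤ a * (a * WithZero.exp (-(k : ℤ))) := by
    calc a * b ≤ WithZero.exp (-(k : ℤ)) * (a * a) := h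
      _ = a * (a * WithZero.exp (-(k : ℤ))) := by ac_rfl
  exact le_of_mul_le_mul_left h1 (zero_lt_iff.mpr hH)

theorem L5a_sum {x y z t : F} {h : ℤᵐ⁰} (hx : v x ≤ h) (hy : v y ≤ h) (hz : v z ≤ h)
    (ht : v t ≤ h) : v (x + y + z + t) ≤ h :=
  (v.map_add _ _).trans (max_le ((v.map_add _ _).trans (max_le ((v.map_add _ _).trans
    (max_le hx hy)) hz)) ht)

theorem L5a_sub (x y p q r : Fin 4 → F) : dt (x - y) p q r = dt x p q r - dt y p q r := by
  rw [L5a_dt, L5a_dt, L5a_dt]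
  simp only [Pi.sub_apply]
  ring

theorem L5a_osmul (c : O) (x p q r : Fin 4 → F) :
    dt (c • x) p q r = algebraMap O F c * dt x p q r := by
  rw [L5a_smul, dt_smul]

theorem L5a_dec1 [IsNoetherianRing O] (hv : v.Integers O) {A B : Submodule O (Fin 4 → F)}
    (hA : IsLat A) (hB : IsLat B) (k : ℕ) (h : SlL v A B B B B k) :
    ∃ (s : Finset (Fin 4 → F)) (W : Submodule O (Fin 4 → F)), s.card ≤ 1 ∧ (∀ x ∈ s, x ∈ A) ∧
      W.FG ∧ W ≤ Mv hv 1 k A B ∧ A = Submodule.span O (s : Set (Fin 4 → F)) ⊔ W := by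
  classical
  obtain ⟨a, ha, b, hb, c, hc, d, hd', hH⟩ := (hd_isGreatest hv hA.1 hB.1 hB.1 hB.1).1
  have hne : hd v A B B B ≠ 0 := hd_ne_zero hv hA hB hB hB
  have hD : dt a b c d ≠ 0 := by
    intro h0
    rw [h0, map_zero] at hH
    exact hne hH.symm
  refine ⟨{a}, A ⊓ LinearMap.ker (L5a_form O b c d), by simp, ?_, L5a_fg hA.1 inf_le_left, ?_, ?_⟩
  · intro x hx
    rw [Finset.mem_singleton] at hx
    rw [hx]; exact ha
  · rintro z ⟨hz, hz'⟩
    have hz1 : dt z b c d = 0 := hz'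
    rw [Mv, if_pos rfl]
    refine ⟨hz, fun p hp q hq r hr => ?_⟩
    apply L5a_cancel k hne hH
    rw [← map_mul, L5a_rep]
    unfold SlL at h
    rw [hd_s23 B B A A, hd_s12 B A B A, hd_s34 A B B A, hd_s23 A B A B, hd_s23 B B A B,
      hd_s12 B A B B] at h
    have key : ∀ x y : F, v x ≤ hd v A A B B → v y ≤ hd v B B B B →
        v (x * y) ≤ WithZero.exp (-(k : ℤ)) * (hd v A B B B * hd v A B B B) := by
      intro x y hx hy
      rw [map_mul]
      exact (mul_le_mul' hx hy).trans h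
    apply L5a_sum
    · rw [hz1, zero_mul, map_zero]; exact zero_le
    · apply key
      · exact dt_le_hd hv hA.1 hA.1 hB.1 hB.1 ha hz hc hd'
      · exact dt_le_hd hv hB.1 hB.1 hB.1 hB.1 hb hp hq hr
    · apply key
      · rw [hd_s23 A A B B]
        exact dt_le_hd hv hA.1 hB.1 hA.1 hB.1 ha hb hz hd'
      · exact dt_le_hd hv hB.1 hB.1 hB.1 hB.1 hc hp hq hr
    · apply key
      · rw [hd_s23 A A B B, hd_s34 A B A B]
        exact dt_le_hd hv hA.1 hB.1 hB.1 hA.1 ha hb hc hz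
      · exact dt_le_hd hv hB.1 hB.1 hB.1 hB.1 hd' hp hq hr
  · apply le_antisymm
    · intro z hz
      obtain ⟨e, he⟩ := L5a_coeff hv (dt a b c d) (dt z b c d) hD
        (by rw [hH]; exact dt_le_hd hv hA.1 hB.1 hB.1 hB.1 hz hb hc hd')
      rw [Submodule.mem_sup]
      refine ⟨e • a, Submodule.smul_mem _ _ (Submodule.subset_span (by simp)), z - e • a,
        ⟨A.sub_mem hz (A.smul_mem e ha), ?_⟩, by abel⟩
      change dt (z - e • a) b c d = 0
      rw [L5a_sub, L5a_osmul, he, sub_self]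
    · apply sup_le
      · rw [Submodule.span_le]
        intro x hx
        simp only [Finset.coe_singleton, Set.mem_singleton_iff] at hx
        rw [hx]; exact ha
      · exact inf_le_left

theorem L5a_dec2 [IsNoetherianRing O] (hv : v.Integers O) {A B : Submodule O (Fin 4 → F)}
    (hA : IsLat A) (hB : IsLat B) (k : ℕ) (h : SlL v A B B A B k) :
    ∃ (s : Finset (Fin 4 → F)) (W : Submodule O (Fin 4 → F)), s.card ≤ 2 ∧ (∀ x ∈ s, x ∈ A) ∧
      W.FG ∧ W ≤ Mv hv 2 k A B ∧ A = Submodule.span O (s : Set (Fin 4 → F)) ⊔ W := by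
  classical
  obtain ⟨a, ha, b, hb, c, hc, d, hd', hH⟩ := (hd_isGreatest hv hA.1 hA.1 hB.1 hB.1).1
  have hne : hd v A A B B ≠ 0 := hd_ne_zero hv hA hA hB hB
  have hD : dt a b c d ≠ 0 := by
    intro h0
    rw [h0, map_zero] at hH
    exact hne hH.symm
  refine ⟨{a, b}, A ⊓ (LinearMap.ker (L5a_form O b c d) ⊓ LinearMap.ker (L5a_form O a c d)),
    Finset.card_le_two, ?_, L5a_fg hA.1 inf_le_left, ?_, ?_⟩
  · intro x hx
    rw [Finset.mem_insert, Finset.mem_singleton] at hx
    rcases hx with hx | hx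
    · rw [hx]; exact ha
    · rw [hx]; exact hb
  · rintro z ⟨hz, hz', hz''⟩
    have hz1 : dt z b c d = 0 := hz'
    have hz2 : dt z a c d = 0 := hz''
    have hz3 : dt a z c d = 0 := by rw [L2a_dt01, hz2, neg_zero]
    rw [Mv, if_neg (by norm_num), if_pos rfl]
    refine ⟨hz, fun p hp q hq r hr => ?_⟩
    apply L5a_cancel k hne hH
    rw [← map_mul, L5a_rep]
    unfold SlL at h
    rw [hd_s23 A B A A, hd_s34 A A B A, hd_s12 A B B B, hd_s23 A B A B] at h
    have key : ∀ x y : F, v x ≤ hd v A A A B → v y ≤ hd v B A B B →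
        v (x * y) ≤ WithZero.exp (-(k : ℤ)) * (hd v A A B B * hd v A A B B) := by
      intro x y hx hy
      rw [map_mul]
      exact (mul_le_mul' hx hy).trans h
    apply L5a_sum
    · rw [hz1, zero_mul, map_zero]; exact zero_le
    · rw [hz3, zero_mul, map_zero]; exact zero_le
    · apply key
      · exact dt_le_hd hv hA.1 hA.1 hA.1 hB.1 ha hb hz hd'
      · exact dt_le_hd hv hB.1 hA.1 hB.1 hB.1 hc hp hq hr
    · apply key
      · rw [hd_s34 A A A B]
        exact dt_le_hd hv hA.1 hA.1 hB.1 hA.1 ha hb hc hz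
      · exact dt_le_hd hv hB.1 hA.1 hB.1 hB.1 hd' hp hq hr
  · apply le_antisymm
    · intro z hz
      obtain ⟨e, he⟩ := L5a_coeff hv (dt a b c d) (dt z b c d) hD
        (by rw [hH]; exact dt_le_hd hv hA.1 hA.1 hB.1 hB.1 hz hb hc hd')
      obtain ⟨f, hf⟩ := L5a_coeff hv (dt a b c d) (dt a z c d) hD
        (by rw [hH]; exact dt_le_hd hv hA.1 hA.1 hB.1 hB.1 ha hz hc hd')
      rw [Submodule.mem_sup]
      refine ⟨e • a + f • b, Submodule.add_mem _
        (Submodule.smul_mem _ _ (Submodule.subset_span (by simp)))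
        (Submodule.smul_mem _ _ (Submodule.subset_span (by simp))), z - (e • a + f • b),
        ⟨A.sub_mem hz (A.add_mem (A.smul_mem e ha) (A.smul_mem f hb)), ?_, ?_⟩, by abel⟩
      · change dt (z - (e • a + f • b)) b c d = 0
        rw [L5a_sub, dt_add, L5a_osmul, L5a_osmul, he, L5a_eq01, mul_zero, add_zero, sub_self]
      · change dt (z - (e • a + f • b)) a c d = 0
        rw [L5a_sub, dt_add, L5a_osmul, L5a_osmul, L5a_eq01, L2a_dt01 a b c d, L2a_dt01 a z c d,
          ← hf]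
        ring
    · apply sup_le
      · rw [Submodule.span_le]
        intro x hx
        simp only [Finset.coe_insert, Finset.coe_singleton, Set.mem_insert_iff,
          Set.mem_singleton_iff] at hx
        rcases hx with hx | hx
        · rw [hx]; exact ha
        · rw [hx]; exact hb
      · exact inf_le_left

theorem L5a_dec3 [IsNoetherianRing O] (hv : v.Integers O) {A B : Submodule O (Fin 4 → F)}
    (hA : IsLat A) (hB : IsLat B) (k : ℕ) (h : SlL v A B B A A k) :
    ∃ (s : Finset (Fin 4 → F)) (W : Submodule O (Fin 4 → F)), s.card ≤ 3 ∧ (∀ x ∈ s, x ∈ A) ∧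
      W.FG ∧ W ≤ Mv hv 3 k A B ∧ A = Submodule.span O (s : Set (Fin 4 → F)) ⊔ W := by
  classical
  obtain ⟨a, ha, b, hb, c, hc, d, hd', hH⟩ := (hd_isGreatest hv hA.1 hA.1 hA.1 hB.1).1
  have hne : hd v A A A B ≠ 0 := hd_ne_zero hv hA hA hA hB
  have hD : dt a b c d ≠ 0 := by
    intro h0
    rw [h0, map_zero] at hH
    exact hne hH.symm
  refine ⟨{a, b, c}, A ⊓ (LinearMap.ker (L5a_form O b c d) ⊓ (LinearMap.ker (L5a_form O a c d)
    ⊓ LinearMap.ker (L5a_form O a b d))),
    Finset.card_le_three, ?_, L5a_fg hA.1 inf_le_left, ?_, ?_⟩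
  · intro x hx
    rw [Finset.mem_insert, Finset.mem_insert, Finset.mem_singleton] at hx
    rcases hx with hx | hx | hx
    · rw [hx]; exact ha
    · rw [hx]; exact hb
    · rw [hx]; exact hc
  · rintro z ⟨hz, hz', hz'', hz'''⟩
    have hz1 : dt z b c d = 0 := hz'
    have hz2 : dt z a c d = 0 := hz''
    have hz4 : dt z a b d = 0 := hz'''
    have hz3 : dt a z c d = 0 := by rw [L2a_dt01, hz2, neg_zero]
    have hz5 : dt a b z d = 0 := by rw [L2a_dt12, L2a_dt01, hz4, neg_zero, neg_zero]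
    rw [Mv, if_neg (by norm_num), if_neg (by norm_num), if_pos rfl]
    refine ⟨hz, fun p hp q hq r hr => ?_⟩
    apply L5a_cancel k hne hH
    rw [← map_mul, L5a_rep]
    unfold SlL at h
    have h' : v (dt a b c z) * v (dt d p q r)
        ≤ WithZero.exp (-(k : ℤ)) * (hd v A A A B * hd v A A A B) := by
      refine (mul_le_mul' (dt_le_hd hv hA.1 hA.1 hA.1 hA.1 ha hb hc hz) ?_).trans h
      rw [hd_s23 A A B B, hd_s12 A B A B]
      exact dt_le_hd hv hB.1 hA.1 hA.1 hB.1 hd' hp hq hr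
    apply L5a_sum
    · rw [hz1, zero_mul, map_zero]; exact zero_le
    · rw [hz3, zero_mul, map_zero]; exact zero_le
    · rw [hz5, zero_mul, map_zero]; exact zero_le
    · rw [map_mul]; exact h'
  · apply le_antisymm
    · intro z hz
      obtain ⟨e, he⟩ := L5a_coeff hv (dt a b c d) (dt z b c d) hD
        (by rw [hH]; exact dt_le_hd hv hA.1 hA.1 hA.1 hB.1 hz hb hc hd')
      obtain ⟨f, hf⟩ := L5a_coeff hv (dt a b c d) (dt a z c d) hD
        (by rw [hH]; exact dt_le_hd hv hA.1 hA.1 hA.1 hB.1 ha hz hc hd')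
      obtain ⟨g, hg⟩ := L5a_coeff hv (dt a b c d) (dt a b z d) hD
        (by rw [hH]; exact dt_le_hd hv hA.1 hA.1 hA.1 hB.1 ha hb hz hd')
      rw [Submodule.mem_sup]
      refine ⟨e • a + f • b + g • c, Submodule.add_mem _ (Submodule.add_mem _
        (Submodule.smul_mem _ _ (Submodule.subset_span (by simp)))
        (Submodule.smul_mem _ _ (Submodule.subset_span (by simp))))
        (Submodule.smul_mem _ _ (Submodule.subset_span (by simp))), z - (e • a + f • b + g • c),
        ⟨A.sub_mem hz (A.add_mem (A.add_mem (A.smul_mem e ha) (A.smul_mem f hb))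
          (A.smul_mem g hc)), ?_, ?_, ?_⟩, by abel⟩
      · change dt (z - (e • a + f • b + g • c)) b c d = 0
        rw [L5a_sub, dt_add, dt_add, L5a_osmul, L5a_osmul, L5a_osmul, he, L5a_eq01, L5a_eq02,
          mul_zero, mul_zero, add_zero, add_zero, sub_self]
      · change dt (z - (e • a + f • b + g • c)) a c d = 0
        rw [L5a_sub, dt_add, dt_add, L5a_osmul, L5a_osmul, L5a_osmul, L5a_eq01, L5a_eq02,
          L2a_dt01 a b c d, L2a_dt01 a z c d, ← hf]
        ring
      · change dt (z - (e • a + f • b + g • c)) a b d = 0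
        rw [L5a_sub, dt_add, dt_add, L5a_osmul, L5a_osmul, L5a_osmul, L5a_eq01, L5a_eq02,
          L2a_dt01 a c b d, L2a_dt12 a b c d, L2a_dt01 a z b d, L2a_dt12 a b z d, ← hg]
        ring
    · apply sup_le
      · rw [Submodule.span_le]
        intro x hx
        simp only [Finset.coe_insert, Finset.coe_singleton, Set.mem_insert_iff,
          Set.mem_singleton_iff] at hx
        rcases hx with hx | hx | hx
        · rw [hx]; exact ha
        · rw [hx]; exact hb
        · rw [hx]; exact hc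
      · exact inf_le_left

theorem decomp [IsNoetherianRing O] (hv : v.Integers O) {A B : Submodule O (Fin 4 → F)}
    (hA : IsLat A) (hB : IsLat B) (r k : ℕ) (h : GrL v A B B r k) :
    ∃ (s : Finset (Fin 4 → F)) (W : Submodule O (Fin 4 → F)), s.card ≤ r ∧ (∀ x ∈ s, x ∈ A) ∧
      W.FG ∧ W ≤ Mv hv r k A B ∧ A = Submodule.span O (s : Set (Fin 4 → F)) ⊔ W := by
  rcases h with ⟨hr, h1, _, _⟩ | ⟨hr, h1, _⟩ | ⟨hr, h1⟩
  · subst hr
    exact L5a_dec1 hv hA hB k h1
  · subst hr
    exact L5a_dec2 hv hA hB k h1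
  · subst hr
    exact L5a_dec3 hv hA hB k h1

end RapidDecay
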