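import Mathlib
import Pool.Agent.Lib.MP_fee02f_an.DefsL
import Pool.Agent.Lib.MP_fee02f_an.L2a
import Pool.Agent.Lib.MP_fee02f_an.L5a

/-!
Determinants with one entry in the moved lattice (MP_fee02f_an, module L5b).
-/

open scoped WithZero MatrixGroups

namespace RapidDecay

variable {O F : Type*} [CommRing O] [Field F] [Algebra O F] {v : Valuation F ℤᵐ⁰}

theorem L5b_Mv_le (hv : v.Integers O) (r k : ℕ) (A B : Submodule O (Fin 4 → F)) :
    Mv hv r k A B ≤ A := by
  unfold Mv
  split_ifs
  · exact fun x hx => hx.1
  · exact fun x hx => hx.1
  · exact fun x hx => hx.1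
  · exact le_rfl

theorem L5b_gen [IsNoetherianRing O] (hv : v.Integers O) {A B : Submodule O (Fin 4 → F)}
    (hA : IsLat A) (hB : IsLat B) (r k : ℕ) (h : GrL v A B B r k) :
    ∃ s t : Finset (Fin 4 → F), s.card ≤ r ∧
      (∀ x ∈ t, x ∈ Mv hv r k A B) ∧ A = Submodule.span O ((s : Set (Fin 4 → F)) ∪ t) := by
  obtain ⟨s, W, hs, _, hW, hWM, hAW⟩ := decomp hv hA hB r k h
  obtain ⟨t, ht⟩ := hW
  refine ⟨s, t, hs, fun x hx => hWM ?_, ?_⟩
  · rw [← ht]
    exact Submodule.subset_span hx
  · rw [Submodule.span_union, ht]
    exact hAW

theorem star [IsNoetherianRing O] (hv : v.Integers O) (π : O)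
    (hπ : v (algebraMap O F π) = WithZero.exp (-1)) {A B : Submodule O (Fin 4 → F)}
    (hA : IsLat A) (hB : IsLat B) (r k : ℕ) (h : GrL v A B B r k) :
    (r = 1 → ∀ Q R : Submodule O (Fin 4 → F), Q.FG → R.FG →
      hd v A A Q R ≤ hd v A (Mv hv r k A B) Q R) ∧
    (r = 2 → ∀ R : Submodule O (Fin 4 → F), R.FG →
      hd v A A A R ≤ hd v A A (Mv hv r k A B) R) ∧
    (r = 3 → hd v A A A A ≤ hd v A A A (Mv hv r k A B)) := by
  classical
  obtain ⟨s, t, hs, ht, hst⟩ := L5b_gen hv hA hB r k h
  set M := Mv hv r k A B with hM
  have hMA : M ≤ A := L5b_Mv_le hv r k A B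
  have hMfg : M.FG := L5a_fg hA.1 hMA
  have hfin : ((s : Set (Fin 4 → F)) ∪ t).Finite := s.finite_toSet.union t.finite_toSet
  have hmem : ∀ x ∈ (s : Set (Fin 4 → F)) ∪ t, x ∈ A := by
    intro x hx
    rw [hst]
    exact Submodule.subset_span hx
  refine ⟨fun hr Q R hQ hR => ?_, fun hr R hR => ?_, fun hr => ?_⟩
  · obtain ⟨sQ, hsQ⟩ := hQ
    obtain ⟨sR, hsR⟩ := hR
    have hQm : ∀ x ∈ (sQ : Set (Fin 4 → F)), x ∈ Q := fun x hx => by
      rw [← hsQ]; exact Submodule.subset_span hx
    have hRm : ∀ x ∈ (sR : Set (Fin 4 → F)), x ∈ R := fun x hx => by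
      rw [← hsR]; exact Submodule.subset_span hx
    have key := hd_le_of_span hv hfin hfin sQ.finite_toSet sR.finite_toSet
      (hd v A M Q R) (by
        intro x hx y hy z hz w hw
        rcases hy with hy | hy
        · rcases hx with hx | hx
          · have hxy : x = y := by
              rw [hr] at hs
              exact Finset.card_le_one.mp hs x hx y hy
            rw [hxy, L5a_eq01, map_zero]
            exact zero_le
          · rw [← L2a_v01]
            exact dt_le_hd hv hA.1 hMfg ⟨sQ, hsQ⟩ ⟨sR, hsR⟩ (hmem y (Or.inl hy)) (ht x hx)
              (hQm z hz) (hRm w hw)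
        · exact dt_le_hd hv hA.1 hMfg ⟨sQ, hsQ⟩ ⟨sR, hsR⟩ (hmem x hx) (ht y hy)
            (hQm z hz) (hRm w hw))
    rw [← hst, hsQ, hsR] at key
    exact key
  · obtain ⟨sR, hsR⟩ := hR
    have hRm : ∀ x ∈ (sR : Set (Fin 4 → F)), x ∈ R := fun x hx => by
      rw [← hsR]; exact Submodule.subset_span hx
    have key := hd_le_of_span hv hfin hfin hfin sR.finite_toSet
      (hd v A A M R) (by
        intro x hx y hy z hz w hw
        rcases hz with hz | hz
        · rcases hy with hy | hy
          · rcases hx with hx | hx
            · rw [hr] at hs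
              by_cases h1 : x = y
              · rw [h1, L5a_eq01, map_zero]
                exact zero_le
              by_cases h2 : x = z
              · rw [h2, L5a_eq02, map_zero]
                exact zero_le
              by_cases h3 : y = z
              · rw [h3, L5a_eq12, map_zero]
                exact zero_le
              exfalso
              have h4 : ({x, y, z} : Finset (Fin 4 → F)) ⊆ s := by
                intro u hu
                simp only [Finset.mem_insert, Finset.mem_singleton] at hu
                rcases hu with hu | hu | hu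
                · rw [hu]; exact hx
                · rw [hu]; exact hy
                · rw [hu]; exact hz
              have h5 := Finset.card_le_card h4
              rw [Finset.card_eq_three.mpr ⟨x, y, z, h1, h2, h3, rfl⟩] at h5
              omega
            · rw [← L2a_v01, ← L2a_v12]
              exact dt_le_hd hv hA.1 hA.1 hMfg ⟨sR, hsR⟩ (hmem y (Or.inl hy))
                (hmem z (Or.inl hz)) (ht x hx) (hRm w hw)
          · rw [← L2a_v12]
            exact dt_le_hd hv hA.1 hA.1 hMfg ⟨sR, hsR⟩ (hmem x hx)
              (hmem z (Or.inl hz)) (ht y hy) (hRm w hw)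
        · exact dt_le_hd hv hA.1 hA.1 hMfg ⟨sR, hsR⟩ (hmem x hx) (hmem y hy) (ht z hz)
            (hRm w hw))
    rw [← hst, hsR] at key
    exact key
  · have key := hd_le_of_span hv hfin hfin hfin hfin
      (hd v A A A M) (by
        intro x hx y hy z hz w hw
        rcases hw with hw | hw
        · rcases hz with hz | hz
          · rcases hy with hy | hy
            · rcases hx with hx | hx
              · rw [hr] at hs
                by_cases h1 : x = y
                · rw [h1, L5a_eq01, map_zero]
                  exact zero_le
                by_cases h2 : x = z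
                · rw [h2, L5a_eq02, map_zero]
                  exact zero_le
                by_cases h3 : y = z
                · rw [h3, L5a_eq12, map_zero]
                  exact zero_le
                by_cases h4 : x = w
                · rw [h4, ← L2a_v23, L5a_eq02, map_zero]
                  exact zero_le
                by_cases h5 : y = w
                · rw [h5, ← L2a_v23, L5a_eq12, map_zero]
                  exact zero_le
                by_cases h6 : z = w
                · rw [h6, ← L2a_v12, ← L2a_v23, L5a_eq12, map_zero]
                  exact zero_le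
                exfalso
                have h7 : ({x, y, z, w} : Finset (Fin 4 → F)) ⊆ s := by
                  intro u hu
                  simp only [Finset.mem_insert, Finset.mem_singleton] at hu
                  rcases hu with hu | hu | hu | hu
                  · rw [hu]; exact hx
                  · rw [hu]; exact hy
                  · rw [hu]; exact hz
                  · rw [hu]; exact hw
                have h8 := Finset.card_le_card h7
                rw [Finset.card_insert_of_notMem (by simp [h1, h2, h4]),
                  Finset.card_eq_three.mpr ⟨y, z, w, h3, h5, h6, rfl⟩] at h8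
                omega
              · rw [← L2a_v01, ← L2a_v12, ← L2a_v23]
                exact dt_le_hd hv hA.1 hA.1 hA.1 hMfg (hmem y (Or.inl hy))
                  (hmem z (Or.inl hz)) (hmem w (Or.inl hw)) (ht x hx)
            · rw [← L2a_v12, ← L2a_v23]
              exact dt_le_hd hv hA.1 hA.1 hA.1 hMfg (hmem x hx)
                (hmem z (Or.inl hz)) (hmem w (Or.inl hw)) (ht y hy)
          · rw [← L2a_v23]
            exact dt_le_hd hv hA.1 hA.1 hA.1 hMfg (hmem x hx) (hmem y hy)
              (hmem w (Or.inl hw)) (ht z hz)
        · exact dt_le_hd hv hA.1 hA.1 hA.1 hMfg (hmem x hx) (hmem y hy) (hmem z hz) (ht w hw))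
    rw [← hst] at key
    exact key

end RapidDecay
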