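import Mathlib
import Pool.Agent.Lib.MP_fee02f_an.Defs
import Pool.Agent.Lib.MP_fee02f_an.DefsL
import Pool.Agent.Lib.MP_fee02f_an.L2a
import Pool.Agent.Lib.MP_fee02f_an.L2b
import Pool.Agent.Lib.MP_fee02f_an.L4a
import Pool.Agent.Lib.MP_fee02f_an.L4b
import Pool.Agent.Lib.MP_fee02f_an.L5a
import Pool.Agent.Lib.MP_fee02f_an.L5b

/-!
Module L6: all determinants after the move.
-/

open scoped WithZero MatrixGroups

namespace RapidDecay

section L6int

variable {X : Type*} (h : X → X → X → X → ℤ)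

/-- hive data used for the move -/
structure L6Sym : Prop where
  s12 : ∀ a b c d, h a b c d = h b a c d
  s23 : ∀ a b c d, h a b c d = h a c b d
  s34 : ∀ a b c d, h a b c d = h a b d c
  sl : ∀ x y z s t, h x y s t + h x z s t ≤ h x x s t + h y z s t

variable {h}

/-- the case `r = 1` -/
theorem L6_r1 (H : L6Sym h) (a m : X) (U : X → Prop) (b : X) (hb : U b) (k : ℤ)
    (mono : ∀ x y z, h a x y z ≤ h m x y z) (up : ∀ x y z, h m x y z ≤ h a x y z + k)
    (base : ∀ p q s, U p → U q → U s → h a p q s + k ≤ h m p q s)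
    (star : ∀ q s, h a m q s ≤ h a a q s) :
    (∀ p q s, U p → U q → U s → h m p q s = h a p q s + k) ∧
    (∀ q s, U q → U s → h m m q s = h a a q s + k) ∧
    (∀ s, U s → h m m m s = h a a a s + k) ∧ h m m m m = h a a a a + k := by
  have C1 : ∀ p q s, U p → U q → U s → h m p q s = h a p q s + k :=
    fun p q s hp hq hs => le_antisymm (up _ _ _) (base p q s hp hq hs)
  have C2 : ∀ q s, U q → U s → h m m q s = h a a q s + k := by
    intro q s hq hs
    have h1 := H.sl m a b q s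
    have h2 := mono a q s
    have h3 := C1 b q s hb hq hs
    have h4 := up m q s
    have h5 := star q s
    have e1 := H.s12 m a q s
    have h6 := mono a q s
    omega
  have C3 : ∀ s, U s → h m m m s = h a a a s + k := by
    intro s hs
    have h1 := H.sl m a b m s
    have h2 := mono a m s
    have e1 := H.s23 a m a s
    have e2 := H.s12 a m a s
    have h3 := mono a a s
    have h4 := C2 b s hb hs
    have e3 := H.s23 m b m s
    have e4 := H.s23 a b m s
    have h5 := star b s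
    have h6 := up m m s
    have h7 := star m s
    have h8 := star a s
    omega
  refine ⟨C1, C2, C3, ?_⟩
  have h1 := H.sl m a b m m
  have h2 := mono a m m
  have e1 := H.s23 a a m m
  have e2 := H.s12 a m a m
  have h3 := mono a a m
  have e3 := H.s34 a a m a
  have e4 := H.s23 a a m a
  have e5 := H.s12 a m a a
  have h4 := mono a a a
  have h5 := C3 b hb
  have e6 := H.s23 m b m m
  have e7 := H.s34 m m b m
  have e8 := H.s23 a b m m
  have e9 := H.s34 a m b m
  have h6 := star m b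
  have e10 := H.s23 a a m b
  have h7 := star a b
  have h8 := up m m m
  have h9 := star m m
  have h10 := star a m
  have h11 := star a a
  omega

/-- the case `r = 2` -/
theorem L6_r2 (H : L6Sym h) (a m : X) (U : X → Prop) (b : X) (hb : U b) (k : ℤ)
    (mono : ∀ x y z, h a x y z ≤ h m x y z) (up : ∀ x y z, h m x y z ≤ h a x y z + k)
    (base : ∀ q s, U q → U s → h a a q s + k ≤ h m a q s)
    (star : ∀ s, h a a m s ≤ h a a a s) :
    (∀ p q s, U p → U q → U s → h m p q s = h a p q s + k) ∧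
    (∀ q s, U q → U s → h m m q s = h a a q s + 2 * k) ∧
    (∀ s, U s → h m m m s = h a a a s + 2 * k) ∧ h m m m m = h a a a a + 2 * k := by
  have C1 : ∀ p q s, U p → U q → U s → h m p q s = h a p q s + k := by
    intro p q s hp hq hs
    have h1 := H.sl a m p q s
    have h2 := base q s hq hs
    have e1 := H.s12 a m q s
    have h3 := up p q s
    omega
  have C2 : ∀ q s, U q → U s → h m m q s = h a a q s + 2 * k := by
    intro q s hq hs
    have h1 := H.sl a m m q s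
    have h2 := base q s hq hs
    have e1 := H.s12 a m q s
    have h3 := up m q s
    have h4 := up a q s
    omega
  have t1 : ∀ s, U s → h a a a s + k ≤ h a m m s := by
    intro s hs
    have h1 := H.sl m a b a s
    have h2 := mono a a s
    have h3 := base b s hb hs
    have e1 := H.s23 m b a s
    have e2 := H.s23 a b a s
    have e3 := H.s23 m m a s
    have e4 := H.s12 m a m s
    omega
  have C3 : ∀ s, U s → h m m m s = h a a a s + 2 * k := by
    intro s hs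
    have h1 := t1 s hs
    have h2 := star s
    have h3 := H.sl a m m m s
    have h4 := up m m s
    have h5 := up a m s
    have e1 := H.s12 a m m s
    omega
  refine ⟨C1, C2, C3, ?_⟩
  have h1 := H.sl m a b a m
  have h2 := mono a a m
  have e1 := H.s34 a a a m
  have e2 := H.s23 a a m a
  have e3 := H.s12 a m a a
  have h3 := mono a a a
  have h4 := t1 b hb
  have e4 := H.s23 m b a m
  have e5 := H.s12 m a b m
  have e6 := H.s34 a m b m
  have e7 := H.s23 a b a m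
  have e8 := H.s34 a a b m
  have h5 := star b
  have e9 := H.s23 m m a m
  have e10 := H.s12 m a m m
  have h6 := H.sl a m m m m
  have h7 := star m
  have h8 := star a
  have h9 := up m m m
  have h10 := up a m m
  have e11 := H.s12 a m m m
  omega

/-- the case `r = 3` -/
theorem L6_r3 (H : L6Sym h) (a m : X) (U : X → Prop) (b : X) (hb : U b) (k : ℤ)
    (mono : ∀ x y z, h a x y z ≤ h m x y z) (up : ∀ x y z, h m x y z ≤ h a x y z + k)
    (base : ∀ s, U s → h a a a s + k ≤ h m a a s)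
    (star : h a a a m ≤ h a a a a) :
    (∀ p q s, U p → U q → U s → h m p q s = h a p q s + k) ∧
    (∀ q s, U q → U s → h m m q s = h a a q s + 2 * k) ∧
    (∀ s, U s → h m m m s = h a a a s + 3 * k) ∧ h m m m m = h a a a a + 3 * k := by
  have u1 : ∀ c s, U c → U s → h a a c s + k ≤ h m a c s := by
    intro c s hc hs
    have h1 := H.sl a m c a s
    have h2 := base s hs
    have e1 := H.s12 a m a s
    have e2 := H.s23 a c a s
    have e3 := H.s23 m c a s
    omega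
  have C1 : ∀ p q s, U p → U q → U s → h m p q s = h a p q s + k := by
    intro p q s hp hq hs
    have h1 := H.sl a m p q s
    have h2 := u1 q s hq hs
    have e1 := H.s12 a m q s
    have h3 := up p q s
    omega
  have C2 : ∀ q s, U q → U s → h m m q s = h a a q s + 2 * k := by
    intro q s hq hs
    have h1 := H.sl a m m q s
    have h2 := u1 q s hq hs
    have e1 := H.s12 a m q s
    have h3 := up m q s
    have h4 := up a q s
    omega
  have C3 : ∀ s, U s → h m m m s = h a a a s + 3 * k := by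
    intro s hs
    have h1 := base s hs
    have h2 := H.sl a m m a s
    have h3 := H.sl a m m m s
    have e1 := H.s12 a m a s
    have e2 := H.s23 m m a s
    have e3 := H.s12 m a m s
    have e4 := H.s23 a a m s
    have h4 := up m m s
    have h5 := up a m s
    have h6 := up a a s
    omega
  refine ⟨C1, C2, C3, ?_⟩
  have h1 := H.sl m a b a a
  have h2 := mono a a a
  have h3 := base b hb
  have e1 := H.s23 m b a a
  have e2 := H.s34 m a b a
  have e3 := H.s23 a b a a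
  have e4 := H.s34 a a b a
  have h4 := H.sl a m m a m
  have h5 := H.sl a m m m m
  have e5 := H.s12 a m a a
  have e6 := H.s23 a a m a
  have e7 := H.s34 a a m a
  have e8 := H.s12 a m a m
  have e9 := H.s23 a m a m
  have e10 := H.s23 m m a a
  have e11 := H.s34 m a m a
  have e12 := H.s12 m a a m
  have e13 := H.s23 m m a m
  have e14 := H.s12 m a m m
  have e15 := H.s23 a m a m
  have e16 := H.s12 m a m a
  have e17 := H.s34 m m a a
  have h7 := up m m m
  have h8 := up a m m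
  have h9 := up a a m
  omega

end L6int

section L6
variable {O F : Type*} [CommRing O] [Field F] [Algebra O F] {v : Valuation F ℤᵐ⁰}

/-- minus the logarithm of the largest determinant -/
noncomputable def L6_h (v : Valuation F ℤᵐ⁰) (P Q R S : Lat O F) : ℤ :=
  -WithZero.log (hd v P.1 Q.1 R.1 S.1)

theorem L6_le_iff (hv : v.Integers O) (P Q R S P' Q' R' S' : Lat O F) (c : ℤ) :
    L6_h v P Q R S + c ≤ L6_h v P' Q' R' S' ↔
      hd v P'.1 Q'.1 R'.1 S'.1 ≤ hd v P.1 Q.1 R.1 S.1 * WithZero.exp (-c) := by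
  have h1 : hd v P.1 Q.1 R.1 S.1 ≠ 0 := hd_ne_zero hv P.2 Q.2 R.2 S.2
  have h2 : hd v P'.1 Q'.1 R'.1 S'.1 ≠ 0 := hd_ne_zero hv P'.2 Q'.2 R'.2 S'.2
  have h3 : hd v P.1 Q.1 R.1 S.1 * WithZero.exp (-c) ≠ 0 := mul_ne_zero h1 WithZero.exp_ne_zero
  rw [← WithZero.log_le_log h2 h3, WithZero.log_mul h1 WithZero.exp_ne_zero, WithZero.log_exp]
  unfold L6_h
  constructor <;> intro h <;> linarith

theorem L6_le_iff' (hv : v.Integers O) (P Q R S P' Q' R' S' : Lat O F) :
    L6_h v P Q R S ≤ L6_h v P' Q' R' S' ↔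
      hd v P'.1 Q'.1 R'.1 S'.1 ≤ hd v P.1 Q.1 R.1 S.1 := by
  have h1 : hd v P.1 Q.1 R.1 S.1 ≠ 0 := hd_ne_zero hv P.2 Q.2 R.2 S.2
  have h2 : hd v P'.1 Q'.1 R'.1 S'.1 ≠ 0 := hd_ne_zero hv P'.2 Q'.2 R'.2 S'.2
  rw [← WithZero.log_le_log h2 h1]
  unfold L6_h
  constructor <;> intro h <;> linarith

theorem L6_eq_iff (hv : v.Integers O) (P Q R S P' Q' R' S' : Lat O F) (c : ℤ)
    (h : L6_h v P Q R S = L6_h v P' Q' R' S' + c) :
      hd v P.1 Q.1 R.1 S.1 = WithZero.exp (-c) * hd v P'.1 Q'.1 R'.1 S'.1 := by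
  have h1 : hd v P.1 Q.1 R.1 S.1 ≠ 0 := hd_ne_zero hv P.2 Q.2 R.2 S.2
  have h2 : hd v P'.1 Q'.1 R'.1 S'.1 ≠ 0 := hd_ne_zero hv P'.2 Q'.2 R'.2 S'.2
  rw [← WithZero.exp_log h1, ← WithZero.exp_log h2, ← WithZero.exp_add]
  congr 1
  unfold L6_h at h
  linarith

theorem L6_sym (hv : v.Integers O) : L6Sym (L6_h v : Lat O F → Lat O F → Lat O F → Lat O F → ℤ)
    where
  s12 a b c d := by
    unfold L6_h
    rw [hd_s12]
  s23 a b c d := by
    unfold L6_h
    rw [hd_s23]
  s34 a b c d := by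
    unfold L6_h
    rw [hd_s34]
  sl x y z s t := by
    have h1 := hd_pl hv s.2.1 t.2.1 x.2.1 x.2.1 y.2.1 z.2.1
    have e1 : ∀ p q : Lat O F, hd v s.1 t.1 p.1 q.1 = hd v p.1 q.1 s.1 t.1 := by
      intro p q
      rw [hd_s23 s.1 t.1 p.1 q.1, hd_s12 s.1 p.1 t.1 q.1, hd_s34 p.1 s.1 t.1 q.1,
        hd_s23 p.1 s.1 q.1 t.1]
    rw [e1, e1, e1, e1, mul_comm (hd v x.1 z.1 s.1 t.1), max_self] at h1
    have n1 : hd v x.1 x.1 s.1 t.1 ≠ 0 := hd_ne_zero hv x.2 x.2 s.2 t.2
    have n2 : hd v y.1 z.1 s.1 t.1 ≠ 0 := hd_ne_zero hv y.2 z.2 s.2 t.2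
    have n3 : hd v x.1 y.1 s.1 t.1 ≠ 0 := hd_ne_zero hv x.2 y.2 s.2 t.2
    have n4 : hd v x.1 z.1 s.1 t.1 ≠ 0 := hd_ne_zero hv x.2 z.2 s.2 t.2
    rw [← WithZero.log_le_log (mul_ne_zero n1 n2) (mul_ne_zero n3 n4), WithZero.log_mul n1 n2,
      WithZero.log_mul n3 n4] at h1
    unfold L6_h
    linarith

theorem L6_up (hv : v.Integers O) (π : O) (hπ : v (algebraMap O F π) = WithZero.exp (-1))
    (A B M : Lat O F) (r k : ℕ) (hM : M.1 = Mv hv r k A.1 B.1) (x y z : Lat O F) :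
    L6_h v M x y z ≤ L6_h v A x y z + k := by
  have h0 : L6_h v M x y z + (-(k : ℤ)) ≤ L6_h v A x y z := by
    rw [L6_le_iff hv, neg_neg]
    rw [hd_le_iff hv A.2.1 x.2.1 y.2.1 z.2.1]
    intro p hp q hq s hs t ht
    have h1 : π ^ k • p ∈ M.1 := by
      rw [hM]; exact pow_smul_mem_Mv hv π hπ A.2 B.2 r k hp
    have h2 := dt_le_hd hv M.2.1 x.2.1 y.2.1 z.2.1 h1 hq hs ht
    have h3 : π ^ k • p = (algebraMap O F π) ^ k • p := by
      ext i
      simp [Algebra.smul_def]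
    rw [h3, dt_smul, map_mul, map_pow, hπ] at h2
    have h4 : (WithZero.exp (-1 : ℤ)) ^ k = WithZero.exp (-(k : ℤ)) := by
      rw [← WithZero.exp_nsmul]
      congr 1
      simp
    rw [h4] at h2
    have h5 : WithZero.exp (-(k : ℤ)) * v (dt p q s t) * WithZero.exp (k : ℤ)
        = v (dt p q s t) := by
      rw [mul_comm, ← mul_assoc, ← WithZero.exp_add, add_neg_cancel, WithZero.exp_zero, one_mul]
    calc v (dt p q s t) = WithZero.exp (-(k : ℤ)) * v (dt p q s t) * WithZero.exp (k : ℤ) :=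
          h5.symm
      _ ≤ _ := mul_le_mul' h2 le_rfl
  linarith

theorem L6_all [IsNoetherianRing O] (hv : v.Integers O) (π : O)
    (hπ : v (algebraMap O F π) = WithZero.exp (-1)) {A B C : Submodule O (Fin 4 → F)}
    (hA : IsLat A) (hB : IsLat B) (hC : IsLat C) (r k : ℕ) (h : GrL v A B C r k) :
    (∀ P Q R : Submodule O (Fin 4 → F), (P = B ∨ P = C) → (Q = B ∨ Q = C) → (R = B ∨ R = C) →
      hd v (Mv hv r k A B) P Q R = WithZero.exp (-((k * min 1 r : ℕ) : ℤ)) * hd v A P Q R) ∧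
    (∀ Q R : Submodule O (Fin 4 → F), (Q = B ∨ Q = C) → (R = B ∨ R = C) →
      hd v (Mv hv r k A B) (Mv hv r k A B) Q R
        = WithZero.exp (-((k * min 2 r : ℕ) : ℤ)) * hd v A A Q R) ∧
    (∀ R : Submodule O (Fin 4 → F), (R = B ∨ R = C) →
      hd v (Mv hv r k A B) (Mv hv r k A B) (Mv hv r k A B) R
        = WithZero.exp (-((k * min 3 r : ℕ) : ℤ)) * hd v A A A R) ∧
    hd v (Mv hv r k A B) (Mv hv r k A B) (Mv hv r k A B) (Mv hv r k A B)
        = WithZero.exp (-((k * min 4 r : ℕ) : ℤ)) * hd v A A A A := by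
  have hM : IsLat (Mv hv r k A B) := Mv_isLat hv π hπ hA hB r k
  let a : Lat O F := ⟨A, hA⟩
  let b : Lat O F := ⟨B, hB⟩
  let c : Lat O F := ⟨C, hC⟩
  let m : Lat O F := ⟨Mv hv r k A B, hM⟩
  have hS := L6_sym (O := O) hv
  have mono : ∀ x y z, L6_h v a x y z ≤ L6_h v m x y z := by
    intro x y z
    rw [L6_le_iff' hv]
    exact hd_mono hv hM.1 hA.1 x.2.1 y.2.1 z.2.1 (Mv_le hv r k A B)
  have up : ∀ x y z, L6_h v m x y z ≤ L6_h v a x y z + k :=
    fun x y z => L6_up hv π hπ a b m r k rfl x y z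
  have hU : ∀ P : Submodule O (Fin 4 → F), (P = B ∨ P = C) → ∃ p : Lat O F, p.1 = P ∧
      (p = b ∨ p = c) := by
    rintro P (rfl | rfl)
    · exact ⟨b, rfl, Or.inl rfl⟩
    · exact ⟨c, rfl, Or.inr rfl⟩
  have hU' : ∀ p : Lat O F, (p = b ∨ p = c) → (p.1 = B ∨ p.1 = C) := by
    rintro p (rfl | rfl)
    · exact Or.inl rfl
    · exact Or.inr rfl
  have hgap := gap_of_grL hv hA hB hC r k h
  obtain ⟨st1, st2, st3⟩ := star hv π hπ hA hB r k hgap
  obtain ⟨mb1, mb2, mb3⟩ := Mv_bound hv hA hB hC r k h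
  have hr : r = 1 ∨ r = 2 ∨ r = 3 := by
    rcases h with h | h | h
    · exact Or.inl h.1
    · exact Or.inr (Or.inl h.1)
    · exact Or.inr (Or.inr h.1)
  have key : ∃ c2 c3 c4 : ℤ, c2 = ((k * min 2 r : ℕ) : ℤ) ∧ c3 = ((k * min 3 r : ℕ) : ℤ) ∧
      c4 = ((k * min 4 r : ℕ) : ℤ) ∧
      (∀ p q s, (p = b ∨ p = c) → (q = b ∨ q = c) → (s = b ∨ s = c) →
        L6_h v m p q s = L6_h v a p q s + ((k * min 1 r : ℕ) : ℤ)) ∧
      (∀ q s, (q = b ∨ q = c) → (s = b ∨ s = c) →
        L6_h v m m q s = L6_h v a a q s + c2) ∧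
      (∀ s, (s = b ∨ s = c) → L6_h v m m m s = L6_h v a a a s + c3) ∧
      L6_h v m m m m = L6_h v a a a a + c4 := by
    rcases hr with hr | hr | hr
    · have base : ∀ p q s, (p = b ∨ p = c) → (q = b ∨ q = c) → (s = b ∨ s = c) →
          L6_h v a p q s + k ≤ L6_h v m p q s := by
        intro p q s hp hq hs
        rw [L6_le_iff hv, hd_le_iff hv hM.1 p.2.1 q.2.1 s.2.1]
        intro x hx y hy z hz t ht
        exact (mb1 hr p.1 q.1 s.1 (hU' p hp) (hU' q hq) (hU' s hs) hx).2 y hy z hz t ht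
      have starr : ∀ q s, L6_h v a m q s ≤ L6_h v a a q s := by
        intro q s
        rw [L6_le_iff' hv]
        exact st1 hr q.1 s.1 q.2.1 s.2.1
      obtain ⟨c1, c2, c3, c4⟩ := L6_r1 hS a m (fun p => p = b ∨ p = c) b (Or.inl rfl) k mono up
        base starr
      refine ⟨k, k, k, ?_, ?_, ?_, ?_, c2, c3, c4⟩
      · rw [hr]; simp
      · rw [hr]; simp
      · rw [hr]; simp
      · intro p q s hp hq hs
        rw [c1 p q s hp hq hs, hr]; simp
    · have base : ∀ q s, (q = b ∨ q = c) → (s = b ∨ s = c) →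
          L6_h v a a q s + k ≤ L6_h v m a q s := by
        intro q s hq hs
        rw [L6_le_iff hv, hd_le_iff hv hM.1 a.2.1 q.2.1 s.2.1]
        intro x hx y hy z hz t ht
        exact (mb2 hr q.1 s.1 (hU' q hq) (hU' s hs) hx).2 y hy z hz t ht
      have starr : ∀ s, L6_h v a a m s ≤ L6_h v a a a s := by
        intro s
        rw [L6_le_iff' hv]
        exact st2 hr s.1 s.2.1
      obtain ⟨c1, c2, c3, c4⟩ := L6_r2 hS a m (fun p => p = b ∨ p = c) b (Or.inl rfl) k mono up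
        base starr
      refine ⟨2 * k, 2 * k, 2 * k, ?_, ?_, ?_, ?_, c2, c3, c4⟩
      · rw [hr]; simp [mul_comm]
      · rw [hr]; simp [mul_comm]
      · rw [hr]; simp [mul_comm]
      · intro p q s hp hq hs
        rw [c1 p q s hp hq hs, hr]; simp
    · have base : ∀ s, (s = b ∨ s = c) →
          L6_h v a a a s + k ≤ L6_h v m a a s := by
        intro s hs
        rw [L6_le_iff hv, hd_le_iff hv hM.1 a.2.1 a.2.1 s.2.1]
        intro x hx y hy z hz t ht
        exact (mb3 hr s.1 (hU' s hs) hx).2 y hy z hz t ht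
      have starr : L6_h v a a a m ≤ L6_h v a a a a := by
        rw [L6_le_iff' hv]
        exact st3 hr
      obtain ⟨c1, c2, c3, c4⟩ := L6_r3 hS a m (fun p => p = b ∨ p = c) b (Or.inl rfl) k mono up
        base starr
      refine ⟨2 * k, 3 * k, 3 * k, ?_, ?_, ?_, ?_, c2, c3, c4⟩
      · rw [hr]; simp [mul_comm]
      · rw [hr]; simp [mul_comm]
      · rw [hr]; simp [mul_comm]
      · intro p q s hp hq hs
        rw [c1 p q s hp hq hs, hr]; simp
  obtain ⟨c2, c3, c4, rfl, rfl, rfl, k1, k2, k3, k4⟩ := key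
  refine ⟨?_, ?_, ?_, ?_⟩
  · intro P Q R hP hQ hR
    obtain ⟨p, rfl, hp⟩ := hU P hP
    obtain ⟨q, rfl, hq⟩ := hU Q hQ
    obtain ⟨s, rfl, hs⟩ := hU R hR
    exact L6_eq_iff hv m p q s a p q s _ (k1 p q s hp hq hs)
  · intro Q R hQ hR
    obtain ⟨q, rfl, hq⟩ := hU Q hQ
    obtain ⟨s, rfl, hs⟩ := hU R hR
    exact L6_eq_iff hv m m q s a a q s _ (k2 q s hq hs)
  · intro R hR
    obtain ⟨s, rfl, hs⟩ := hU R hR
    exact L6_eq_iff hv m m m s a a a s _ (k3 s hs)
  · exact L6_eq_iff hv m m m m a a a a _ k4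

theorem L6_letter (M A B C : Submodule O (Fin 4 → F)) (i : Fin 3) :
    (i = 0 ∧ ![M, B, C] i = M ∧ ![A, B, C] i = A) ∨
    (i ≠ 0 ∧ ∃ P, (P = B ∨ P = C) ∧ ![M, B, C] i = P ∧ ![A, B, C] i = P) := by
  fin_cases i
  · exact Or.inl ⟨rfl, rfl, rfl⟩
  · exact Or.inr ⟨by decide, B, Or.inl rfl, rfl, rfl⟩
  · exact Or.inr ⟨by decide, C, Or.inr rfl, rfl, rfl⟩

theorem hd_move [IsNoetherianRing O] (hv : v.Integers O) (π : O)
    (hπ : v (algebraMap O F π) = WithZero.exp (-1)) {A B C : Submodule O (Fin 4 → F)}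
    (hA : IsLat A) (hB : IsLat B) (hC : IsLat C) (r k : ℕ) (h : GrL v A B C r k)
    (w : Fin 4 → Fin 3) :
    hd v (![Mv hv r k A B, B, C] (w 0)) (![Mv hv r k A B, B, C] (w 1))
        (![Mv hv r k A B, B, C] (w 2)) (![Mv hv r k A B, B, C] (w 3))
      = WithZero.exp (-((k * min (∑ j, if w j = 0 then 1 else 0) r : ℕ) : ℤ))
        * hd v (![A, B, C] (w 0)) (![A, B, C] (w 1)) (![A, B, C] (w 2)) (![A, B, C] (w 3)) := by
  obtain ⟨k1, k2, k3, k4⟩ := L6_all hv π hπ hA hB hC r k h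
  have m1 : ∀ P Q R : Submodule O (Fin 4 → F), (P = B ∨ P = C) → (Q = B ∨ Q = C) →
      (R = B ∨ R = C) → True := fun _ _ _ _ _ _ => trivial
  rw [Fin.sum_univ_four]
  generalize hMM : Mv hv r k A B = M at *
  rcases L6_letter M A B C (w 0) with ⟨z0, e0, f0⟩ | ⟨z0, P0, hP0, e0, f0⟩ <;>
  rcases L6_letter M A B C (w 1) with ⟨z1, e1, f1⟩ | ⟨z1, P1, hP1, e1, f1⟩ <;>
  rcases L6_letter M A B C (w 2) with ⟨z2, e2, f2⟩ | ⟨z2, P2, hP2, e2, f2⟩ <;>
  rcases L6_letter M A B C (w 3) with ⟨z3, e3, f3⟩ | ⟨z3, P3, hP3, e3, f3⟩ <;>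
  rw [e0, e1, e2, e3, f0, f1, f2, f3]
  · simp only [z0, z1, z2, z3, if_true]
    exact k4
  · simp only [z0, z1, z2, z3, if_true, if_false]
    exact k3 P3 hP3
  · simp only [z0, z1, z2, z3, if_true, if_false]
    rw [hd_s34 M M P2 M, hd_s34 A A P2 A]
    exact k3 P2 hP2
  · simp only [z0, z1, z2, z3, if_true, if_false]
    exact k2 P2 P3 hP2 hP3
  · simp only [z0, z1, z2, z3, if_true, if_false]
    rw [hd_s23 M P1 M M, hd_s23 A P1 A A, hd_s34 M M P1 M, hd_s34 A A P1 A]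
    exact k3 P1 hP1
  · simp only [z0, z1, z2, z3, if_true, if_false]
    rw [hd_s23 M P1 M P3, hd_s23 A P1 A P3]
    exact k2 P1 P3 hP1 hP3
  · simp only [z0, z1, z2, z3, if_true, if_false]
    rw [hd_s34 M P1 P2 M, hd_s34 A P1 P2 A, hd_s23 M P1 M P2, hd_s23 A P1 A P2]
    exact k2 P1 P2 hP1 hP2
  · simp only [z0, z1, z2, z3, if_true, if_false]
    exact k1 P1 P2 P3 hP1 hP2 hP3
  · simp only [z0, z1, z2, z3, if_true, if_false]
    rw [hd_s12 P0 M M M, hd_s12 P0 A A A, hd_s23 M P0 M M, hd_s23 A P0 A A, hd_s34 M M P0 M,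
      hd_s34 A A P0 A]
    exact k3 P0 hP0
  · simp only [z0, z1, z2, z3, if_true, if_false]
    rw [hd_s12 P0 M M P3, hd_s12 P0 A A P3, hd_s23 M P0 M P3, hd_s23 A P0 A P3]
    exact k2 P0 P3 hP0 hP3
  · simp only [z0, z1, z2, z3, if_true, if_false]
    rw [hd_s12 P0 M P2 M, hd_s12 P0 A P2 A, hd_s34 M P0 P2 M, hd_s34 A P0 P2 A,
      hd_s23 M P0 M P2, hd_s23 A P0 A P2]
    exact k2 P0 P2 hP0 hP2
  · simp only [z0, z1, z2, z3, if_true, if_false]
    rw [hd_s12 P0 M P2 P3, hd_s12 P0 A P2 P3]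
    exact k1 P0 P2 P3 hP0 hP2 hP3
  · simp only [z0, z1, z2, z3, if_true, if_false]
    rw [hd_s23 P0 P1 M M, hd_s23 P0 P1 A A, hd_s12 P0 M P1 M, hd_s12 P0 A P1 A,
      hd_s34 M P0 P1 M, hd_s34 A P0 P1 A, hd_s23 M P0 M P1, hd_s23 A P0 A P1]
    exact k2 P0 P1 hP0 hP1
  · simp only [z0, z1, z2, z3, if_true, if_false]
    rw [hd_s23 P0 P1 M P3, hd_s23 P0 P1 A P3, hd_s12 P0 M P1 P3, hd_s12 P0 A P1 P3]
    exact k1 P0 P1 P3 hP0 hP1 hP3
  · simp only [z0, z1, z2, z3, if_true, if_false]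
    rw [hd_s34 P0 P1 P2 M, hd_s34 P0 P1 P2 A, hd_s23 P0 P1 M P2, hd_s23 P0 P1 A P2,
      hd_s12 P0 M P1 P2, hd_s12 P0 A P1 P2]
    exact k1 P0 P1 P2 hP0 hP1 hP2
  · simp only [z0, z1, z2, z3, if_false]
    simp

end L6

end RapidDecay
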