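import Pool.Agent.Lib.MP_fee02f_an.L2b

/-!
Module L3: the hive of vertices.
-/

open scoped WithZero MatrixGroups

namespace RapidDecay

section L3
variable {O F : Type*} [CommRing O] [Field F] [Algebra O F] {v : Valuation F ℤᵐ⁰}

theorem L3_rep (A : Lat O F) : ∃ c : F, c ≠ 0 ∧
    A.1 = gact (Matrix.scalar (Fin 4) c) (rep (vt A)).1 := by
  have h : vt (rep (vt A)) = vt A := vt_rep (vt A)
  exact Quotient.exact h

theorem L3_ex (a : Vtx O F) : ∃ A : Lat O F, vt A = a := ⟨rep a, vt_rep a⟩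

theorem L3_fg_scalar (c : F) {A : Submodule O (Fin 4 → F)} (hA : A.FG) :
    (gact (Matrix.scalar (Fin 4) c) A).FG := hA.map _

theorem L3_scalar4 (hv : v.Integers O) (a b c d : F) {A B C D : Submodule O (Fin 4 → F)}
    (hA : A.FG) (hB : B.FG) (hC : C.FG) (hD : D.FG) :
    hd v (gact (Matrix.scalar (Fin 4) a) A) (gact (Matrix.scalar (Fin 4) b) B)
      (gact (Matrix.scalar (Fin 4) c) C) (gact (Matrix.scalar (Fin 4) d) D)
      = v a * (v b * (v c * (v d * hd v A B C D))) := by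
  have hB' := L3_fg_scalar b hB
  have hC' := L3_fg_scalar c hC
  have hD' := L3_fg_scalar d hD
  rw [hd_scalar hv a hA hB' hC' hD', hd_s12, hd_scalar hv b hB hA hC' hD', hd_s12, hd_s23, hd_s12,
    hd_scalar hv c hC hA hB hD', hd_s12, hd_s23, hd_s34, hd_s23, hd_s12,
    hd_scalar hv d hD hA hB hC, hd_s12, hd_s23, hd_s34]

/-- the logarithm of `hd` in terms of representatives -/
theorem L3_log (hv : v.Integers O) : ∃ l : Lat O F → ℤ, ∀ A B C D : Lat O F,
    WithZero.log (hd v A.1 B.1 C.1 D.1) = l A + (l B + (l C + (l D +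
      WithZero.log (hd v (rep (vt A)).1 (rep (vt B)).1 (rep (vt C)).1 (rep (vt D)).1)))) := by
  choose c hc hA using fun A : Lat O F => L3_rep A
  refine ⟨fun A => WithZero.log (v (c A)), fun A B C D => ?_⟩
  have h0 : ∀ A, v (c A) ≠ 0 := fun A => (Valuation.ne_zero_iff v).2 (hc A)
  have h1 : hd v (rep (vt A)).1 (rep (vt B)).1 (rep (vt C)).1 (rep (vt D)).1 ≠ 0 :=
    hd_ne_zero hv (rep (vt A)).2 (rep (vt B)).2 (rep (vt C)).2 (rep (vt D)).2
  have h2 : hd v A.1 B.1 C.1 D.1 = v (c A) * (v (c B) * (v (c C) * (v (c D) *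
      hd v (rep (vt A)).1 (rep (vt B)).1 (rep (vt C)).1 (rep (vt D)).1))) := by
    rw [← L3_scalar4 hv (c A) (c B) (c C) (c D) (rep (vt A)).2.1 (rep (vt B)).2.1
      (rep (vt C)).2.1 (rep (vt D)).2.1, ← hA A, ← hA B, ← hA C, ← hA D]
  rw [h2, WithZero.log_mul (h0 A) (mul_ne_zero (h0 B) (mul_ne_zero (h0 C) (mul_ne_zero (h0 D) h1))),
    WithZero.log_mul (h0 B) (mul_ne_zero (h0 C) (mul_ne_zero (h0 D) h1)),
    WithZero.log_mul (h0 C) (mul_ne_zero (h0 D) h1), WithZero.log_mul (h0 D) h1]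

/-- the slack of vertices may be computed with any representatives -/
theorem sl_vt (hv : v.Integers O) (A B C S T : Lat O F) :
    sl (Hx v) (vt A) (vt B) (vt C) (vt S) (vt T) =
      ((WithZero.log (hd v S.1 T.1 A.1 B.1) + WithZero.log (hd v S.1 T.1 A.1 C.1)
        - WithZero.log (hd v S.1 T.1 A.1 A.1) - WithZero.log (hd v S.1 T.1 B.1 C.1) : ℤ) : ℝ) := by
  obtain ⟨l, hl⟩ := L3_log (v := v) (O := O) (F := F) hv
  rw [hl S T A B, hl S T A C, hl S T A A, hl S T B C]
  unfold sl Hx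
  push_cast
  ring

theorem slL_iff (hv : v.Integers O) (A B C S T : Lat O F) (k : ℕ) :
    (k : ℝ) ≤ sl (Hx v) (vt A) (vt B) (vt C) (vt S) (vt T) ↔ SlL v A.1 B.1 C.1 S.1 T.1 k := by
  have hne : ∀ X Y : Lat O F, hd v S.1 T.1 X.1 Y.1 ≠ 0 := fun X Y =>
    hd_ne_zero hv S.2 T.2 X.2 Y.2
  rw [sl_vt hv]
  unfold SlL
  rw [← WithZero.log_le_log (mul_ne_zero (hne A A) (hne B C))
    (mul_ne_zero WithZero.exp_ne_zero (mul_ne_zero (hne A B) (hne A C))),
    WithZero.log_mul (hne A A) (hne B C),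
    WithZero.log_mul WithZero.exp_ne_zero (mul_ne_zero (hne A B) (hne A C)),
    WithZero.log_mul (hne A B) (hne A C), WithZero.log_exp]
  constructor
  · intro h
    have h' : (k : ℤ) ≤ WithZero.log (hd v S.1 T.1 A.1 B.1) + WithZero.log (hd v S.1 T.1 A.1 C.1)
        - WithZero.log (hd v S.1 T.1 A.1 A.1) - WithZero.log (hd v S.1 T.1 B.1 C.1) := by
      exact_mod_cast h
    linarith
  · intro h
    have h' : (k : ℤ) ≤ WithZero.log (hd v S.1 T.1 A.1 B.1) + WithZero.log (hd v S.1 T.1 A.1 C.1)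
        - WithZero.log (hd v S.1 T.1 A.1 A.1) - WithZero.log (hd v S.1 T.1 B.1 C.1) := by
      linarith
    exact_mod_cast h'

theorem grL_iff (hv : v.Integers O) (A B C : Lat O F) (r k : ℕ) :
    GroupGe (Hx v) (vt A) (vt B) (vt C) r k ↔ GrL v A.1 B.1 C.1 r k := by
  unfold GroupGe GrL gm1 gm2 gm3
  rw [le_min_iff, le_min_iff, le_min_iff, slL_iff hv, slL_iff hv, slL_iff hv, slL_iff hv,
    slL_iff hv, slL_iff hv]

theorem Hx_hive (hv : v.Integers O) : IsHive (Hx v : Vtx O F → _) where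
  s12 a b c d := by
    unfold Hx
    rw [hd_s12]
  s23 a b c d := by
    unfold Hx
    rw [hd_s23]
  s34 a b c d := by
    unfold Hx
    rw [hd_s34]
  pl s t a b c d := by
    have hne : ∀ x y : Vtx O F, hd v (rep s).1 (rep t).1 (rep x).1 (rep y).1 ≠ 0 := fun x y =>
      hd_ne_zero hv (rep s).2 (rep t).2 (rep x).2 (rep y).2
    have h := hd_pl hv (rep s).2.1 (rep t).2.1 (rep a).2.1 (rep b).2.1 (rep c).2.1 (rep d).2.1
    have hlog : WithZero.log (hd v (rep s).1 (rep t).1 (rep a).1 (rep b).1)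
        + WithZero.log (hd v (rep s).1 (rep t).1 (rep c).1 (rep d).1)
        ≤ max (WithZero.log (hd v (rep s).1 (rep t).1 (rep a).1 (rep c).1)
            + WithZero.log (hd v (rep s).1 (rep t).1 (rep b).1 (rep d).1))
          (WithZero.log (hd v (rep s).1 (rep t).1 (rep a).1 (rep d).1)
            + WithZero.log (hd v (rep s).1 (rep t).1 (rep b).1 (rep c).1)) := by
      rcases le_max_iff.1 h with h | h
      · refine le_max_of_le_left ?_
        rw [← WithZero.log_mul (hne a b) (hne c d), ← WithZero.log_mul (hne a c) (hne b d)]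
        exact (WithZero.log_le_log (mul_ne_zero (hne a b) (hne c d))
          (mul_ne_zero (hne a c) (hne b d))).2 h
      · refine le_max_of_le_right ?_
        rw [← WithZero.log_mul (hne a b) (hne c d), ← WithZero.log_mul (hne a d) (hne b c)]
        exact (WithZero.log_le_log (mul_ne_zero (hne a b) (hne c d))
          (mul_ne_zero (hne a d) (hne b c))).2 h
    unfold Hx
    rcases le_max_iff.1 hlog with h | h
    · refine (min_le_left _ _).trans ?_
      have h' : ((WithZero.log (hd v (rep s).1 (rep t).1 (rep a).1 (rep b).1)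
        + WithZero.log (hd v (rep s).1 (rep t).1 (rep c).1 (rep d).1) : ℤ) : ℝ)
        ≤ ((WithZero.log (hd v (rep s).1 (rep t).1 (rep a).1 (rep c).1)
            + WithZero.log (hd v (rep s).1 (rep t).1 (rep b).1 (rep d).1) : ℤ) : ℝ) := by
        exact_mod_cast h
      push_cast at h' ⊢
      linarith
    · refine (min_le_right _ _).trans ?_
      have h' : ((WithZero.log (hd v (rep s).1 (rep t).1 (rep a).1 (rep b).1)
        + WithZero.log (hd v (rep s).1 (rep t).1 (rep c).1 (rep d).1) : ℤ) : ℝ)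
        ≤ ((WithZero.log (hd v (rep s).1 (rep t).1 (rep a).1 (rep d).1)
            + WithZero.log (hd v (rep s).1 (rep t).1 (rep b).1 (rep c).1) : ℤ) : ℝ) := by
        exact_mod_cast h
      push_cast at h' ⊢
      linarith

theorem Hx_smul (hv : v.Integers O) (g : GL (Fin 4) F) (a b c s t : Vtx O F) :
    sl (Hx v) (g • a) (g • b) (g • c) (g • s) (g • t) = sl (Hx v) a b c s t := by
  obtain ⟨A, rfl⟩ := L3_ex a
  obtain ⟨B, rfl⟩ := L3_ex b
  obtain ⟨C, rfl⟩ := L3_ex c
  obtain ⟨S, rfl⟩ := L3_ex s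
  obtain ⟨T, rfl⟩ := L3_ex t
  rw [smul_vt, smul_vt, smul_vt, smul_vt, smul_vt, sl_vt hv, sl_vt hv]
  have hdet : v g.1.det ≠ 0 := by
    rw [Valuation.ne_zero_iff]
    exact ((Matrix.isUnit_iff_isUnit_det g.1).1 g.isUnit).ne_zero
  have key : ∀ X Y : Lat O F, WithZero.log (hd v (g • S).1 (g • T).1 (g • X).1 (g • Y).1)
      = WithZero.log (v g.1.det) + WithZero.log (hd v S.1 T.1 X.1 Y.1) := by
    intro X Y
    rw [latAction_val, latAction_val, latAction_val, latAction_val,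
      hd_gact hv g.1 S.2.1 T.2.1 X.2.1 Y.2.1,
      WithZero.log_mul hdet (hd_ne_zero hv S.2 T.2 X.2 Y.2)]
  rw [key, key, key, key]
  push_cast
  ring

end L3

end RapidDecay
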