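import Mathlib
import Pool.Agent.Lib.MP_fee02f_an.L2a
import Pool.Agent.Lib.MP_fee02f_an.L3

/-!
L7a: two lattices at distance at most `m`, up to homothety.
-/

open scoped WithZero MatrixGroups

namespace RapidDecay

section

variable {O F : Type*} [CommRing O] [Field F] [Algebra O F] {v : Valuation F ℤᵐ⁰}

/-- Cramer's rule for rows -/
theorem L7a_cramer (x : Fin 4 → Fin 4 → F) (y : Fin 4 → F) :
    (Matrix.of x).det • y = ∑ i, ((Matrix.of x).updateRow i y).det • x i := by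
  have h := Matrix.mulVec_cramer (Matrix.of x).transpose y
  rw [Matrix.det_transpose] at h
  rw [← h]
  ext j
  rw [Matrix.mulVec, dotProduct, Finset.sum_apply]
  refine Finset.sum_congr rfl fun i _ => ?_
  rw [Matrix.cramer_apply, Matrix.updateCol_transpose, Matrix.det_transpose, Matrix.transpose_apply,
    Pi.smul_apply, smul_eq_mul, Matrix.of_apply, mul_comm]

theorem L7a_updateRow (x0 x1 x2 x3 y : Fin 4 → F) :
    ((Matrix.of ![x0, x1, x2, x3]).updateRow 0 y).det = dt y x1 x2 x3 ∧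
    ((Matrix.of ![x0, x1, x2, x3]).updateRow 1 y).det = dt x0 y x2 x3 ∧
    ((Matrix.of ![x0, x1, x2, x3]).updateRow 2 y).det = dt x0 x1 y x3 ∧
    ((Matrix.of ![x0, x1, x2, x3]).updateRow 3 y).det = dt x0 x1 x2 y := by
  unfold dt
  refine ⟨?_, ?_, ?_, ?_⟩ <;>
  · congr 1
    ext i j
    fin_cases i <;> simp [Matrix.updateRow_apply]

/-- if the ratio of the determinants is at most `v d`, the multiples by `c` lie in `A` -/
theorem L7a_mem (hv : v.Integers O) {A B : Submodule O (Fin 4 → F)} (hA : IsLat A)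
    (hB : IsLat B) (c : F) (hc : v c * hd v A A A B ≤ hd v A A A A) {y : Fin 4 → F}
    (hy : y ∈ B) : c • y ∈ A := by
  obtain ⟨⟨x0, h0, x1, h1, x2, h2, x3, h3, hmax⟩, -⟩ := hd_isGreatest hv hA.1 hA.1 hA.1 hA.1
  have hne : v (dt x0 x1 x2 x3) ≠ 0 := by
    rw [hmax]; exact hd_ne_zero hv hA hA hA hA
  have hdet : dt x0 x1 x2 x3 ≠ 0 := fun h => hne (by rw [h, map_zero])
  obtain ⟨u0, u1, u2, u3⟩ := L7a_updateRow x0 x1 x2 x3 y
  have hcr := L7a_cramer ![x0, x1, x2, x3] y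
  rw [Fin.sum_univ_four, u0, u1, u2, u3] at hcr
  change dt x0 x1 x2 x3 • y = dt y x1 x2 x3 • x0 + dt x0 y x2 x3 • x1 + dt x0 x1 y x3 • x2
    + dt x0 x1 x2 y • x3 at hcr
  have b3 : v (dt x0 x1 x2 y) ≤ hd v A A A B := dt_le_hd hv hA.1 hA.1 hA.1 hB.1 h0 h1 h2 hy
  have b2 : v (dt x0 x1 y x3) ≤ hd v A A A B := by
    rw [hd_s34]; exact dt_le_hd hv hA.1 hA.1 hB.1 hA.1 h0 h1 hy h3
  have b1 : v (dt x0 y x2 x3) ≤ hd v A A A B := by
    rw [hd_s34, hd_s23]; exact dt_le_hd hv hA.1 hB.1 hA.1 hA.1 h0 hy h2 h3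
  have b0 : v (dt y x1 x2 x3) ≤ hd v A A A B := by
    rw [hd_s34, hd_s23, hd_s12]; exact dt_le_hd hv hB.1 hA.1 hA.1 hA.1 hy h1 h2 h3
  have key : ∀ e : F, v e ≤ hd v A A A B → ∀ x ∈ A, (c * (e / dt x0 x1 x2 x3)) • x ∈ A := by
    intro e he x hx
    have h5 : v (c * (e / dt x0 x1 x2 x3)) ≤ 1 := by
      rw [map_mul, map_div₀, ← mul_div_assoc, hmax]
      apply div_le_one_of_le₀ _ zero_le
      exact (mul_le_mul_right he _).trans hc
    obtain ⟨o, ho⟩ := hv.exists_of_le_one h5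
    rw [← ho]
    have h6 : algebraMap O F o • x = o • x := by
      ext i
      simp [Algebra.smul_def]
    rw [h6]
    exact A.smul_mem o hx
  have h7 : c • y = (c * (dt y x1 x2 x3 / dt x0 x1 x2 x3)) • x0
      + (c * (dt x0 y x2 x3 / dt x0 x1 x2 x3)) • x1
      + (c * (dt x0 x1 y x3 / dt x0 x1 x2 x3)) • x2
      + (c * (dt x0 x1 x2 y / dt x0 x1 x2 x3)) • x3 := by
    have h8 : y = (dt x0 x1 x2 x3)⁻¹ • (dt x0 x1 x2 x3 • y) := by
      rw [smul_smul, inv_mul_cancel₀ hdet, one_smul]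
    conv_lhs => rw [h8, hcr]
    simp only [smul_add, smul_smul]
    congr 1
    congr 1
    congr 1
    all_goals congr 1; ring
  rw [h7]
  exact A.add_mem (A.add_mem (A.add_mem (key _ b0 _ h0) (key _ b1 _ h1)) (key _ b2 _ h2))
    (key _ b3 _ h3)

theorem dst_vt (hv : v.Integers O) (A B : Lat O F) :
    dst (Hx v) (vt A) (vt B) =
      ((WithZero.log (hd v A.1 A.1 A.1 B.1) + WithZero.log (hd v A.1 B.1 B.1 B.1)
        - WithZero.log (hd v A.1 A.1 A.1 A.1) - WithZero.log (hd v B.1 B.1 B.1 B.1) : ℤ) : ℝ) := by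
  have hH := Hx_hive (v := v) (F := F) hv
  have h1 := sl_vt hv A B B A A
  have h2 := sl_vt hv A B B A B
  have h3 := sl_vt hv A B B B B
  have e1 : dst (Hx v) (vt A) (vt B) = sl (Hx v) (vt A) (vt B) (vt B) (vt A) (vt A)
      + sl (Hx v) (vt A) (vt B) (vt B) (vt A) (vt B)
      + sl (Hx v) (vt A) (vt B) (vt B) (vt B) (vt B) := by
    unfold dst sl
    rw [show Hx v (vt A) (vt B) (vt A) (vt A) = Hx v (vt A) (vt A) (vt A) (vt B) by
        rw [hH.s23, hH.s34],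
      show Hx v (vt A) (vt B) (vt A) (vt B) = Hx v (vt A) (vt A) (vt B) (vt B) by rw [hH.s23],
      show Hx v (vt B) (vt B) (vt A) (vt A) = Hx v (vt A) (vt A) (vt B) (vt B) by
        rw [hH.s23, hH.s12, hH.s34, hH.s23],
      show Hx v (vt B) (vt B) (vt A) (vt B) = Hx v (vt A) (vt B) (vt B) (vt B) by
        rw [hH.s23, hH.s12]]
    ring
  rw [e1, h1, h2, h3]
  rw [show hd v A.1 B.1 A.1 A.1 = hd v A.1 A.1 A.1 B.1 by rw [hd_s23, hd_s34],
    show hd v A.1 B.1 A.1 B.1 = hd v A.1 A.1 B.1 B.1 by rw [hd_s23],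
    show hd v B.1 B.1 A.1 A.1 = hd v A.1 A.1 B.1 B.1 by rw [hd_s23, hd_s12, hd_s34, hd_s23],
    show hd v B.1 B.1 A.1 B.1 = hd v A.1 B.1 B.1 B.1 by rw [hd_s23, hd_s12]]
  push_cast
  ring

theorem L7a_scalar (c : F) (x : Fin 4 → F) :
    Matrix.mulVec (Matrix.scalar (Fin 4) c) x = c • x := by
  ext i
  simp

theorem dst_sandwich (hv : v.Integers O) (π : O) (hπ : v (algebraMap O F π) = WithZero.exp (-1))
    (A B : Lat O F) (m : ℕ) (h : dst (Hx v) (vt A) (vt B) ≤ m) :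
    ∃ c : F, c ≠ 0 ∧ gact (Matrix.scalar (Fin 4) c) B.1 ≤ A.1 ∧
      gact (Matrix.scalar (Fin 4) (algebraMap O F (π ^ m))) A.1
        ≤ gact (Matrix.scalar (Fin 4) c) B.1 := by
  obtain ⟨A, hA⟩ := A
  obtain ⟨B, hB⟩ := B
  rw [dst_vt hv] at h
  dsimp only at h ⊢
  have n1 : hd v A A A A ≠ 0 := hd_ne_zero hv hA hA hA hA
  have n2 : hd v A A A B ≠ 0 := hd_ne_zero hv hA hA hA hB
  have n3 : hd v A B B B ≠ 0 := hd_ne_zero hv hA hB hB hB
  have n4 : hd v B B B B ≠ 0 := hd_ne_zero hv hB hB hB hB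
  obtain ⟨⟨x0, h0, x1, h1, x2, h2, x3, h3, hx⟩, -⟩ := hd_isGreatest hv hA.1 hA.1 hA.1 hA.1
  obtain ⟨⟨y0, i0, y1, i1, y2, i2, y3, i3, hy⟩, -⟩ := hd_isGreatest hv hA.1 hA.1 hA.1 hB.1
  have hvc : v (dt x0 x1 x2 x3 / dt y0 y1 y2 y3) = hd v A A A A / hd v A A A B := by
    rw [map_div₀, hx, hy]
  generalize dt x0 x1 x2 x3 / dt y0 y1 y2 y3 = c at hvc
  have hc : c ≠ 0 := by
    intro h
    rw [h, map_zero] at hvc
    exact div_ne_zero n1 n2 hvc.symm
  refine ⟨c, hc, ?_, ?_⟩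
  · rintro _ ⟨y, hy, rfl⟩
    change Matrix.mulVec _ y ∈ A
    rw [L7a_scalar]
    exact L7a_mem hv hA hB c (by rw [hvc, div_mul_cancel₀ _ n2]) hy
  · rintro _ ⟨x, hx, rfl⟩
    refine ⟨(c⁻¹ * algebraMap O F (π ^ m)) • x, ?_, ?_⟩
    · refine L7a_mem hv hB hA _ ?_ hx
      rw [hd_s34, hd_s23, hd_s12, map_mul, map_inv₀, hvc, map_pow, map_pow, hπ]
      have h5 : WithZero.log (hd v A A A B) + WithZero.log (hd v A B B B)
        - WithZero.log (hd v A A A A) - WithZero.log (hd v B B B B) ≤ (m : ℤ) := by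
        exact_mod_cast h
      have e1 : (WithZero.exp (-1 : ℤ)) ^ m ≠ 0 := pow_ne_zero _ WithZero.exp_ne_zero
      have e2 : (hd v A A A A / hd v A A A B)⁻¹ ≠ 0 := inv_ne_zero (div_ne_zero n1 n2)
      rw [← WithZero.log_le_log (mul_ne_zero (mul_ne_zero e2 e1) n3) n4,
        WithZero.log_mul (mul_ne_zero e2 e1) n3, WithZero.log_mul e2 e1, WithZero.log_inv,
        WithZero.log_div n1 n2, WithZero.log_pow, WithZero.log_exp]
      simp only [nsmul_eq_mul]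
      linarith
    · rw [LinearMap.restrictScalars_apply, LinearMap.restrictScalars_apply,
        Matrix.mulVecLin_apply, Matrix.mulVecLin_apply, L7a_scalar, L7a_scalar, smul_smul,
        mul_inv_cancel_left₀ hc]

end

end RapidDecay
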