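import Mathlib
import Pool.Agent.Lib.MP_fee02f_an.DefsL

/-!
L7b: counting the lattices between `A` and `π ^ m A`.
-/

open scoped WithZero MatrixGroups

namespace RapidDecay

section

variable {O : Type*} [CommRing O]

open Classical in
/-- every element of `O` is a sum of `m` digits modulo `π ^ m` -/
theorem exists_digits (π : O) (m : ℕ) (x : O) :
    ∃ c : Fin m → O ⧸ Ideal.span {π}, ∃ y : O,
      x = (∑ i, (Quotient.out (c i)) * π ^ (i : ℕ)) + π ^ m * y := by
  induction m generalizing x with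
  | zero => exact ⟨Fin.elim0, x, by simp⟩
  | succ m ih =>
    have h1 : x - Quotient.out (Ideal.Quotient.mk (Ideal.span {π}) x) ∈ Ideal.span {π} := by
      rw [← Ideal.Quotient.eq]
      exact (Ideal.Quotient.mk_out _).symm
    obtain ⟨z, hz⟩ := Ideal.mem_span_singleton.mp h1
    obtain ⟨c, y, hy⟩ := ih z
    refine ⟨Fin.cons (Ideal.Quotient.mk (Ideal.span {π}) x) c, y, ?_⟩
    rw [Fin.sum_univ_succ]
    simp only [Fin.cons_zero, Fin.val_zero, pow_zero, mul_one, Fin.cons_succ, Fin.val_succ]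
    have h2 : x = Quotient.out (Ideal.Quotient.mk (Ideal.span {π}) x) + π * z := by
      rw [← hz]; ring
    calc x = Quotient.out (Ideal.Quotient.mk (Ideal.span {π}) x) + π * z := h2
      _ = _ := by
        rw [hy, mul_add, Finset.mul_sum, add_assoc]
        congr 1
        congr 1
        · refine Finset.sum_congr rfl fun i _ => ?_
          ring
        · ring

/-- `O / (π ^ m)` has at most `q ^ m` elements -/
theorem card_quot_pow (π : O) [Finite (O ⧸ Ideal.span {π})] (m : ℕ) :
    Finite (O ⧸ Ideal.span {π ^ m}) ∧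
      Nat.card (O ⧸ Ideal.span {π ^ m}) ≤ Nat.card (O ⧸ Ideal.span {π}) ^ m := by
  classical
  let f : (Fin m → O ⧸ Ideal.span {π}) → O ⧸ Ideal.span {π ^ m} := fun c =>
    Ideal.Quotient.mk _ (∑ i, (Quotient.out (c i)) * π ^ (i : ℕ))
  have hf : Function.Surjective f := by
    intro z
    obtain ⟨x, rfl⟩ := Ideal.Quotient.mk_surjective z
    obtain ⟨c, y, hy⟩ := exists_digits π m x
    refine ⟨c, ?_⟩
    change Ideal.Quotient.mk _ _ = Ideal.Quotient.mk _ _
    rw [Ideal.Quotient.eq, Ideal.mem_span_singleton]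
    exact ⟨-y, by rw [hy]; ring⟩
  refine ⟨Finite.of_surjective f hf, ?_⟩
  have h1 := Nat.card_le_card_of_surjective f hf
  rwa [Nat.card_fun, Nat.card_fin] at h1

end

section

variable {O F : Type*} [CommRing O] [IsDomain O] [IsPrincipalIdealRing O] [Field F] [Algebra O F]
  {v : Valuation F ℤᵐ⁰}

/-- every lattice has a basis of four elements -/
theorem exists_basis (hv : v.Integers O) {A : Submodule O (Fin 4 → F)} (hA : IsLat A) :
    Nonempty (Module.Basis (Fin 4) O A) := by
  have : IsFractionRing O F := hv.isFractionRing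
  have : Submodule.IsLattice F A := ⟨hA.1, hA.2⟩
  have h1 : Module.IsTorsionFree O F := by
    infer_instance
  have h2 : Module.Free O A := Submodule.IsLattice.free (K := F) A
  have h3 : Module.finrank O A = 4 := by
    rw [Submodule.IsLattice.finrank_of_pi (K := F) A]
    simp
  exact ⟨Module.finBasisOfFinrankEq O A h3⟩

/-- generators of a submodule of `O ^ 4` -/
theorem exists_gens (B : Submodule O (Fin 4 → O)) :
    ∃ c : Fin 4 → Fin 4 → O, B = Submodule.span O (Set.range c) := by
  obtain ⟨n, hn, ⟨b⟩⟩ : ∃ n : ℕ, n ≤ 4 ∧ Nonempty (Module.Basis (Fin n) O B) := by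
    obtain ⟨n, ⟨b⟩⟩ := Submodule.nonempty_basis_of_pid (Pi.basisFun O (Fin 4)) B
    refine ⟨n, ?_, ⟨b⟩⟩
    have h1 : Module.finrank O B ≤ Module.finrank O (Fin 4 → O) := Submodule.finrank_le B
    rw [Module.finrank_eq_card_basis b] at h1
    simpa using h1
  refine ⟨fun i => if h : (i : ℕ) < n then (b ⟨i, h⟩ : Fin 4 → O) else 0, le_antisymm ?_ ?_⟩
  · intro x hx
    have h2 : x = ∑ i, b.repr ⟨x, hx⟩ i • (b i : Fin 4 → O) := by
      have h1 := congrArg Subtype.val (b.sum_repr ⟨x, hx⟩)
      rw [Submodule.coe_sum] at h1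
      exact h1.symm
    rw [h2]
    refine Submodule.sum_mem _ fun i _ => Submodule.smul_mem _ _ (Submodule.subset_span ?_)
    exact ⟨⟨i, by omega⟩, by simp⟩
  · rw [Submodule.span_le]
    rintro _ ⟨i, rfl⟩
    dsimp only
    split_ifs
    · exact (b _).2
    · exact B.zero_mem

theorem sub_count (hv : v.Integers O) (π : O) (hπ : v (algebraMap O F π) = WithZero.exp (-1))
    [Finite (O ⧸ Ideal.span {π})] :
    ∃ C : ℕ, ∀ (A : Submodule O (Fin 4 → F)), IsLat A → ∀ m : ℕ,
      {B : Submodule O (Fin 4 → F) | B ≤ A ∧ ∀ x ∈ A, π ^ m • x ∈ B}.Finite ∧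
      {B : Submodule O (Fin 4 → F) | B ≤ A ∧ ∀ x ∈ A, π ^ m • x ∈ B}.ncard ≤ C ^ (m + 1) := by
  classical
  refine ⟨Nat.card (O ⧸ Ideal.span {π}) ^ 16, fun A hA m => ?_⟩
  obtain ⟨b⟩ := exists_basis hv hA
  obtain ⟨hfin, hcard⟩ := card_quot_pow π m
  let T := Fin 4 → Fin 4 → O ⧸ Ideal.span {π ^ m}
  -- the submodule generated by the lifts of a matrix and `π ^ m A`
  let f : T → Submodule O (Fin 4 → F) := fun c =>
    Submodule.span O (Set.range fun i => ∑ j, (Quotient.out (c i j)) • (b j : Fin 4 → F)) ⊔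
      Submodule.span O (Set.range fun j => π ^ m • (b j : Fin 4 → F))
  have hsub : {B : Submodule O (Fin 4 → F) | B ≤ A ∧ ∀ x ∈ A, π ^ m • x ∈ B} ⊆ Set.range f := by
    rintro B ⟨hBA, hB⟩
    -- pull back to `O ^ 4`
    let e : (Fin 4 → O) ≃ₗ[O] A := b.equivFun.symm
    let g : (Fin 4 → O) →ₗ[O] (Fin 4 → F) := A.subtype ∘ₗ e.toLinearMap
    have hg : ∀ c, g c = ∑ j, c j • (b j : Fin 4 → F) := by
      intro c
      change ((b.equivFun.symm c : A) : Fin 4 → F) = _
      rw [Module.Basis.equivFun_symm_apply]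
      simp
    obtain ⟨c, hc⟩ := exists_gens (B.comap g)
    have hB1 : B = (B.comap g).map g := by
      rw [Submodule.map_comap_eq, eq_comm, inf_eq_right]
      intro x hx
      refine ⟨e.symm ⟨x, hBA hx⟩, ?_⟩
      change ((e (e.symm ⟨x, hBA hx⟩) : A) : Fin 4 → F) = x
      rw [LinearEquiv.apply_symm_apply]
    have hB2 : B = Submodule.span O (Set.range fun i => g (c i)) := by
      rw [hB1, hc, Submodule.map_span, ← Set.range_comp]
      rfl
    refine ⟨fun i j => Ideal.Quotient.mk _ (c i j), ?_⟩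
    -- difference of a generator and its lift
    have hd : ∀ i, ∃ y ∈ A, (∑ j, (Quotient.out (Ideal.Quotient.mk (Ideal.span {π ^ m})
        (c i j))) • (b j : Fin 4 → F)) = g (c i) + π ^ m • y := by
      intro i
      have h1 : ∀ j, ∃ z, (Quotient.out (Ideal.Quotient.mk (Ideal.span {π ^ m}) (c i j)))
          = c i j + π ^ m * z := by
        intro j
        have h2 : (Quotient.out (Ideal.Quotient.mk (Ideal.span {π ^ m}) (c i j))) - c i j
            ∈ Ideal.span {π ^ m} := by
          rw [← Ideal.Quotient.eq]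
          exact Ideal.Quotient.mk_out _
        obtain ⟨z, hz⟩ := Ideal.mem_span_singleton.mp h2
        exact ⟨z, by rw [← hz]; ring⟩
      choose z hz using h1
      refine ⟨∑ j, z j • (b j : Fin 4 → F), Submodule.sum_mem _ fun j _ =>
        A.smul_mem _ (b j).2, ?_⟩
      rw [hg, Finset.smul_sum, ← Finset.sum_add_distrib]
      refine Finset.sum_congr rfl fun j _ => ?_
      rw [hz j, add_smul, mul_smul]
    have hπA : ∀ y ∈ A, π ^ m • y ∈ Submodule.span O
        (Set.range fun j => π ^ m • (b j : Fin 4 → F)) := by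
      intro y hy
      have h1 : y = ∑ j, b.repr ⟨y, hy⟩ j • (b j : Fin 4 → F) := by
        have h1 := congrArg Subtype.val (b.sum_repr ⟨y, hy⟩)
        rw [Submodule.coe_sum] at h1
        exact h1.symm
      rw [h1, Finset.smul_sum]
      refine Submodule.sum_mem _ fun j _ => ?_
      rw [smul_comm]
      exact Submodule.smul_mem _ _ (Submodule.subset_span ⟨j, rfl⟩)
    refine le_antisymm (sup_le ?_ ?_) ?_
    · rw [Submodule.span_le]
      rintro _ ⟨i, rfl⟩
      obtain ⟨y, hy, h⟩ := hd i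
      dsimp only
      rw [h]
      refine B.add_mem ?_ (hB y hy)
      rw [hB2]
      exact Submodule.subset_span ⟨i, rfl⟩
    · rw [Submodule.span_le]
      rintro _ ⟨j, rfl⟩
      exact hB _ (b j).2
    · rw [hB2, Submodule.span_le]
      rintro _ ⟨i, rfl⟩
      obtain ⟨y, hy, h⟩ := hd i
      have h1 : g (c i) = (∑ j, (Quotient.out (Ideal.Quotient.mk (Ideal.span {π ^ m})
        (c i j))) • (b j : Fin 4 → F)) - π ^ m • y := by rw [h]; abel
      dsimp only
      rw [h1]
      refine Submodule.sub_mem _ (Submodule.mem_sup_left (Submodule.subset_span ⟨i, rfl⟩))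
        (Submodule.mem_sup_right (hπA y hy))
  have hT : Finite T := inferInstance
  refine ⟨(Set.finite_range f).subset hsub, ?_⟩
  calc {B : Submodule O (Fin 4 → F) | B ≤ A ∧ ∀ x ∈ A, π ^ m • x ∈ B}.ncard
      ≤ (Set.range f).ncard := Set.ncard_le_ncard hsub (Set.finite_range f)
    _ ≤ Nat.card T := by
        rw [← Set.image_univ]
        refine (Set.ncard_image_le Set.finite_univ).trans ?_
        rw [Set.ncard_univ]
    _ = (Nat.card (O ⧸ Ideal.span {π ^ m}) ^ 4) ^ 4 := by
        simp only [T, Nat.card_fun, Nat.card_fin]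
    _ ≤ ((Nat.card (O ⧸ Ideal.span {π}) ^ m) ^ 4) ^ 4 := by gcongr
    _ = (Nat.card (O ⧸ Ideal.span {π}) ^ 16) ^ m := by ring
    _ ≤ (Nat.card (O ⧸ Ideal.span {π}) ^ 16) ^ (m + 1) := by
        apply Nat.pow_le_pow_right _ (Nat.le_succ m)
        exact pow_pos Nat.card_pos _

end

end RapidDecay
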