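import Mathlib
import Pool.Agent.Lib.MP_fee02f_an.L7a
import Pool.Agent.Lib.MP_fee02f_an.L7b

/-!
L7c: exponential growth of the set of vertices.
-/

open scoped WithZero MatrixGroups

namespace RapidDecay

section

variable {O F : Type*} [CommRing O] [IsDomain O] [IsPrincipalIdealRing O] [Field F] [Algebra O F]
  {v : Valuation F ℤᵐ⁰}

theorem L7c_isLat {B : Submodule O (Fin 4 → F)} (hB : IsLat B) (c : F) (hc : c ≠ 0) :
    IsLat (gact (Matrix.scalar (Fin 4) c) B) := by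
  let g : GL (Fin 4) F := ⟨Matrix.scalar (Fin 4) c, Matrix.scalar (Fin 4) c⁻¹,
    by rw [← map_mul, mul_inv_cancel₀ hc, map_one],
    by rw [← map_mul, inv_mul_cancel₀ hc, map_one]⟩
  exact hB.gact g

theorem vtx_growth (hv : v.Integers O) (π : O) (hπ : v (algebraMap O F π) = WithZero.exp (-1))
    [Finite (O ⧸ Ideal.span {π})] : ∃ C : ℕ, ∀ (a : Vtx O F) (m : ℕ),
      {b | dst (Hx v) a b ≤ m}.Finite ∧ {b | dst (Hx v) a b ≤ m}.ncard ≤ C ^ (m + 1) := by
  classical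
  obtain ⟨C, hC⟩ := sub_count hv π hπ
  refine ⟨C, fun a m => ?_⟩
  obtain ⟨hfin, hcard⟩ := hC (rep a).1 (rep a).2 m
  set S := {B : Submodule O (Fin 4 → F) | B ≤ (rep a).1 ∧ ∀ x ∈ (rep a).1, π ^ m • x ∈ B}
  let f : Submodule O (Fin 4 → F) → Vtx O F := fun B => if h : IsLat B then vt ⟨B, h⟩ else a
  have hsub : {b | dst (Hx v) a b ≤ m} ⊆ f '' S := by
    intro b hb
    have hb' : dst (Hx v) (vt (rep a)) (vt (rep b)) ≤ m := by rw [vt_rep, vt_rep]; exact hb
    obtain ⟨c, hc, h1, h2⟩ := dst_sandwich hv π hπ (rep a) (rep b) m hb'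
    refine ⟨gact (Matrix.scalar (Fin 4) c) (rep b).1, ⟨h1, fun x hx => h2 ⟨x, hx, ?_⟩⟩, ?_⟩
    · rw [LinearMap.restrictScalars_apply, Matrix.mulVecLin_apply, L7a_scalar]
      ext i
      simp [Algebra.smul_def]
    · change (if h : IsLat (gact (Matrix.scalar (Fin 4) c) (rep b).1) then vt ⟨_, h⟩ else a) = b
      rw [dif_pos (L7c_isLat (rep b).2 c hc)]
      conv_rhs => rw [← vt_rep b]
      exact (Quotient.sound ⟨c, hc, rfl⟩ :
        vt (rep b) = vt ⟨_, L7c_isLat (rep b).2 c hc⟩).symm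
  refine ⟨(hfin.image f).subset hsub, ?_⟩
  calc {b | dst (Hx v) a b ≤ m}.ncard ≤ (f '' S).ncard :=
        Set.ncard_le_ncard hsub (hfin.image f)
    _ ≤ S.ncard := Set.ncard_image_le hfin
    _ ≤ C ^ (m + 1) := hcard

end

end RapidDecay
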