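import Pool.Agent.Lib.MP_fee02f_an.L3
import Pool.Agent.Lib.MP_fee02f_an.L4a
import Pool.Agent.Lib.MP_fee02f_an.L4b
import Pool.Agent.Lib.MP_fee02f_an.L6
import Pool.Agent.Lib.MP_fee02f_an.L7c

/-!
Module L9: the hive space of the vertices.
-/

open scoped WithZero MatrixGroups

namespace RapidDecay

section L9
variable {O F : Type*} [CommRing O] [IsDomain O] [IsPrincipalIdealRing O] [Field F] [Algebra O F]
  {v : Valuation F ℤᵐ⁰}

/-- the moved vertex -/
noncomputable def L9_mv (hv : v.Integers O) (π : O) (hπ : v (algebraMap O F π) = WithZero.exp (-1))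
    (r k : ℕ) (a b : Vtx O F) : Vtx O F :=
  vt ⟨Mv hv r k (rep a).1 (rep b).1, Mv_isLat hv π hπ (rep a).2 (rep b).2 r k⟩

omit [IsDomain O] [IsPrincipalIdealRing O] in
theorem L9_rep (A : Lat O F) : ∃ c : F, c ≠ 0 ∧ A.1 = gact (Matrix.scalar (Fin 4) c) (rep (vt A)).1 := by
  have h : vt (rep (vt A)) = vt A := vt_rep (vt A)
  exact Quotient.exact h

omit [IsDomain O] [IsPrincipalIdealRing O] in
theorem L9_scalar_lat {A : Submodule O (Fin 4 → F)} (hA : IsLat A) (c : F) (hc : c ≠ 0) :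
    IsLat (gact (Matrix.scalar (Fin 4) c) A) := by
  have hdet : IsUnit (Matrix.scalar (Fin 4) c).det := by
    rw [Matrix.scalar_apply, Matrix.det_diagonal]
    simp [hc]
  exact hA.gact (Matrix.nonsingInvUnit (Matrix.scalar (Fin 4) c) hdet)

theorem L9_mv_vt (hv : v.Integers O) (π : O) (hπ : v (algebraMap O F π) = WithZero.exp (-1))
    (r k : ℕ) (A B : Lat O F) :
    L9_mv hv π hπ r k (vt A) (vt B) = vt ⟨Mv hv r k A.1 B.1, Mv_isLat hv π hπ A.2 B.2 r k⟩ := by
  obtain ⟨c, hc, hA⟩ := L9_rep A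
  obtain ⟨d, hd, hB⟩ := L9_rep B
  refine Quotient.sound ⟨c, hc, ?_⟩
  show Mv hv r k A.1 B.1 = gact (Matrix.scalar (Fin 4) c) (Mv hv r k (rep (vt A)).1 (rep (vt B)).1)
  rw [hA, hB, Mv_scalar_left hv c hc (rep (vt A)).2 (L9_scalar_lat (rep (vt B)).2 d hd),
    Mv_scalar_right hv d hd (rep (vt A)).2 (rep (vt B)).2]

omit [IsDomain O] [IsPrincipalIdealRing O] in
theorem L9_ex (a : Vtx O F) : ∃ A : Lat O F, vt A = a := ⟨rep a, vt_rep a⟩

theorem L9_smul (hv : v.Integers O) (π : O) (hπ : v (algebraMap O F π) = WithZero.exp (-1))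
    (g : GL (Fin 4) F) (r k : ℕ) (a b : Vtx O F) :
    L9_mv hv π hπ r k (g • a) (g • b) = g • L9_mv hv π hπ r k a b := by
  obtain ⟨A, rfl⟩ := L9_ex a
  obtain ⟨B, rfl⟩ := L9_ex b
  rw [smul_vt, smul_vt, L9_mv_vt, L9_mv_vt, smul_vt]
  congr 1
  apply Subtype.ext
  show Mv hv r k (gact g.1 A.1) (gact g.1 B.1) = gact g.1 (Mv hv r k A.1 B.1)
  exact Mv_gact hv g A.2 B.2 r k

theorem L9_eq (hv : v.Integers O) (π : O) (hπ : v (algebraMap O F π) = WithZero.exp (-1))
    (r k : ℕ) (a b c : Vtx O F) (h : GroupGe (Hx v) a b c r k) :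
    L9_mv hv π hπ r k a b = L9_mv hv π hπ r k a c := by
  obtain ⟨A, rfl⟩ := L9_ex a
  obtain ⟨B, rfl⟩ := L9_ex b
  obtain ⟨C, rfl⟩ := L9_ex c
  rw [L9_mv_vt, L9_mv_vt]
  congr 1
  apply Subtype.ext
  exact Mv_eq hv A.2 B.2 C.2 r k ((grL_iff hv A B C r k).1 h)

theorem L9_num (n r : ℕ) (u w x : Fin 3) (huw : u ≠ w) (hwx : w ≠ x) (hux : u ≠ x) :
    min (n + (if u = 0 then 1 else 0) + (if w = 0 then 1 else 0)) r
      + min (n + (if u = 0 then 1 else 0) + (if x = 0 then 1 else 0)) r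
      = min (n + (if u = 0 then 1 else 0) + (if u = 0 then 1 else 0)) r
      + min (n + (if w = 0 then 1 else 0) + (if x = 0 then 1 else 0)) r
      + (if u = 0 ∧ n + 1 = r then 1 else 0) := by
  by_cases hu : u = 0
  · have hw : w ≠ 0 := fun h => huw (hu.trans h.symm)
    have hx : x ≠ 0 := fun h => hux (hu.trans h.symm)
    simp only [hu, hw, hx, if_true, if_false, true_and]
    split_ifs <;> omega
  · simp only [hu, if_false, false_and]
    split_ifs <;> omega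

theorem L9_log (hv : v.Integers O) (π : O) (hπ : v (algebraMap O F π) = WithZero.exp (-1))
    (A B C : Lat O F) (r k : ℕ) (h : GrL v A.1 B.1 C.1 r k) (s t u w : Fin 3) :
    WithZero.log (hd v (![Mv hv r k A.1 B.1, B.1, C.1] s) (![Mv hv r k A.1 B.1, B.1, C.1] t)
        (![Mv hv r k A.1 B.1, B.1, C.1] u) (![Mv hv r k A.1 B.1, B.1, C.1] w))
      = -((k * min (((if s = 0 then 1 else 0) + (if t = 0 then 1 else 0))
          + (if u = 0 then 1 else 0) + (if w = 0 then 1 else 0)) r : ℕ) : ℤ)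
        + WithZero.log (hd v (![A.1, B.1, C.1] s) (![A.1, B.1, C.1] t)
            (![A.1, B.1, C.1] u) (![A.1, B.1, C.1] w)) := by
  have hm := hd_move hv π hπ A.2 B.2 C.2 r k h ![s, t, u, w]
  have hsum : (∑ j, if (![s, t, u, w] : Fin 4 → Fin 3) j = 0 then 1 else 0)
      = ((if s = 0 then 1 else 0) + (if t = 0 then 1 else 0))
          + (if u = 0 then 1 else 0) + (if w = 0 then 1 else 0) := by
    rw [Fin.sum_univ_four]
    rfl
  rw [hsum] at hm
  have hm' : hd v (![Mv hv r k A.1 B.1, B.1, C.1] s) (![Mv hv r k A.1 B.1, B.1, C.1] t)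
        (![Mv hv r k A.1 B.1, B.1, C.1] u) (![Mv hv r k A.1 B.1, B.1, C.1] w)
      = WithZero.exp (-((k * min (((if s = 0 then 1 else 0) + (if t = 0 then 1 else 0))
          + (if u = 0 then 1 else 0) + (if w = 0 then 1 else 0)) r : ℕ) : ℤ))
        * hd v (![A.1, B.1, C.1] s) (![A.1, B.1, C.1] t)
            (![A.1, B.1, C.1] u) (![A.1, B.1, C.1] w) := hm
  have hlat : ∀ i : Fin 3, IsLat (![A.1, B.1, C.1] i) := by
    intro i
    fin_cases i
    · exact A.2
    · exact B.2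
    · exact C.2
  rw [hm', WithZero.log_mul WithZero.exp_ne_zero
    (hd_ne_zero hv (hlat s) (hlat t) (hlat u) (hlat w)), WithZero.log_exp]

theorem L9_sl (hv : v.Integers O) (π : O) (hπ : v (algebraMap O F π) = WithZero.exp (-1))
    (r k : ℕ) (a b c : Vtx O F) (h : GroupGe (Hx v) a b c r k) (u w x s t : Fin 3)
    (huw : u ≠ w) (hwx : w ≠ x) (hux : u ≠ x) :
    tsl (Hx v) ![L9_mv hv π hπ r k a b, b, c] (u, w, x, s, t)
      = tsl (Hx v) ![a, b, c] (u, w, x, s, t)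
        - (if u = 0 ∧ (if s = 0 then 1 else 0) + (if t = 0 then 1 else 0) + 1 = r
            then (k : ℝ) else 0) := by
  obtain ⟨A, rfl⟩ := L9_ex a
  obtain ⟨B, rfl⟩ := L9_ex b
  obtain ⟨C, rfl⟩ := L9_ex c
  have hg := (grL_iff hv A B C r k).1 h
  rw [L9_mv_vt]
  set M : Lat O F := ⟨Mv hv r k A.1 B.1, Mv_isLat hv π hπ A.2 B.2 r k⟩ with hM
  have e1 : (![vt M, vt B, vt C] : Fin 3 → Vtx O F) = fun i => vt (![M, B, C] i) := by
    ext i
    fin_cases i <;> rfl
  have e2 : (![vt A, vt B, vt C] : Fin 3 → Vtx O F) = fun i => vt (![A, B, C] i) := by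
    ext i
    fin_cases i <;> rfl
  have f1 : ∀ i, ((![M, B, C] : Fin 3 → Lat O F) i).1 = ![Mv hv r k A.1 B.1, B.1, C.1] i := by
    intro i
    fin_cases i <;> rfl
  have f2 : ∀ i, ((![A, B, C] : Fin 3 → Lat O F) i).1 = ![A.1, B.1, C.1] i := by
    intro i
    fin_cases i <;> rfl
  unfold tsl
  rw [e1, e2]
  simp only []
  rw [sl_vt hv, sl_vt hv]
  simp only [f1, f2]
  rw [L9_log hv π hπ A B C r k hg, L9_log hv π hπ A B C r k hg, L9_log hv π hπ A B C r k hg,
    L9_log hv π hπ A B C r k hg]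
  have hnum := L9_num ((if s = 0 then 1 else 0) + (if t = 0 then 1 else 0)) r u w x huw hwx hux
  have hnum2 := congrArg (fun z : ℕ => ((k * z : ℕ) : ℝ)) hnum
  simp only [Nat.mul_add, Nat.cast_add] at hnum2
  have hlast : ((k * (if u = 0 ∧ (if s = 0 then 1 else 0) + (if t = 0 then 1 else 0) + 1 = r
      then 1 else 0) : ℕ) : ℝ)
      = (if u = 0 ∧ (if s = 0 then 1 else 0) + (if t = 0 then 1 else 0) + 1 = r
            then (k : ℝ) else 0) := by
    split_ifs <;> simp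
  rw [hlast] at hnum2
  push_cast at hnum2 ⊢
  linarith

theorem exists_hiveSpace {Γ : Type*} [Group Γ] [MulAction Γ (Vtx O F)]
    (hact : ∀ γ : Γ, ∃ g : GL (Fin 4) F, ∀ x : Vtx O F, γ • x = g • x)
    (hv : v.Integers O) (π : O) (hπ : v (algebraMap O F π) = WithZero.exp (-1))
    [Finite (O ⧸ Ideal.span {π})] : ∃ S : HiveSpace Γ (Vtx O F), S.H = Hx v := by
  refine ⟨⟨Hx v, Hx_hive hv, ?_, L9_mv hv π hπ, ?_, ?_, ?_, vtx_growth hv π hπ⟩, rfl⟩
  · intro γ a b c s t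
    obtain ⟨g, hg⟩ := hact γ
    simp only [hg]
    exact Hx_smul hv g a b c s t
  · intro γ r k a b
    obtain ⟨g, hg⟩ := hact γ
    simp only [hg]
    exact L9_smul hv π hπ g r k a b
  · intro r k a b c h
    exact L9_eq hv π hπ r k a b c h
  · intro r k a b c h u w x s t huw hwx hux
    exact L9_sl hv π hπ r k a b c h u w x s t huw hwx hux

end L9

end RapidDecay
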