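import Mathlib
import Pool.Agent.Lib.MP_fee02f_an.DefsL
import Pool.Agent.Lib.MP_fee02f_an.DefsM

/-!
M1: the normalised valuation of a local field.
-/

set_option autoImplicit false

open scoped WithZero MatrixGroups
open ValuativeRel

namespace RapidDecay

variable (F : Type*) [Field F] [ValuativeRel F] [TopologicalSpace F]
  [IsNonarchimedeanLocalField F]

theorem M1_apply (x : F) :
    vLoc F x = IsNonarchimedeanLocalField.valueGroupWithZeroIsoInt F (valuation F x) := rfl

theorem vLoc_le_iff (x y : F) : vLoc F x ≤ vLoc F y ↔ valuation F x ≤ valuation F y := by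
  rw [M1_apply, M1_apply]
  exact map_le_map_iff _

theorem M1_le_one (x : F) : vLoc F x ≤ 1 ↔ valuation F x ≤ 1 := by
  have h := vLoc_le_iff F x 1
  rwa [map_one, map_one] at h

theorem vLoc_integers : (vLoc F).Integers 𝒪[F] := by
  have h := Valuation.integer.integers (valuation F)
  refine ⟨h.hom_inj, fun x => ?_, fun x hx => ?_⟩
  · rw [M1_le_one]
    exact h.map_le_one x
  · rw [M1_le_one] at hx
    exact h.exists_of_le_one hx

theorem M1_surj (a : ℤᵐ⁰) : ∃ x : F, vLoc F x = a := by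
  obtain ⟨b, hb⟩ := (IsNonarchimedeanLocalField.valueGroupWithZeroIsoInt F).surjective a
  obtain ⟨x, hx⟩ := valuation_surjective b
  refine ⟨x, ?_⟩
  rw [M1_apply, hx]
  exact hb

theorem M1_lt_one_iff (a : ℤᵐ⁰) : a < 1 ↔ a ≤ WithZero.exp (-1) := by
  by_cases ha : a = 0
  · subst ha
    simp
  · obtain ⟨n, rfl⟩ : ∃ n : ℤ, a = WithZero.exp n := ⟨WithZero.log a, (WithZero.exp_log ha).symm⟩
    rw [← WithZero.exp_zero, WithZero.exp_lt_exp, WithZero.exp_le_exp]
    omega

theorem exists_unif : ∃ π : 𝒪[F], vLoc F (algebraMap 𝒪[F] F π) = WithZero.exp (-1) ∧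
    Finite (𝒪[F] ⧸ Ideal.span {π}) := by
  obtain ⟨x, hx⟩ := M1_surj F (WithZero.exp (-1))
  have hx1 : vLoc F x ≤ 1 := by
    rw [hx, ← WithZero.exp_zero, WithZero.exp_le_exp]
    norm_num
  obtain ⟨π, hπ⟩ := (vLoc_integers F).exists_of_le_one hx1
  refine ⟨π, by rw [hπ, hx], ?_⟩
  have hI : Ideal.span {π} = IsLocalRing.maximalIdeal 𝒪[F] := by
    ext y
    rw [Ideal.mem_span_singleton, (vLoc_integers F).dvd_iff_le, hπ, hx, ← M1_lt_one_iff,
      IsLocalRing.mem_maximalIdeal, mem_nonunits_iff, (vLoc_integers F).isUnit_iff_valuation_eq_one]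
    constructor
    · intro h; exact h.ne
    · intro h; exact lt_of_le_of_ne ((vLoc_integers F).map_le_one y) h
  rw [hI]
  exact inferInstanceAs (Finite 𝓀[F])

theorem isOpen_ball (a : ℤᵐ⁰) (ha : a ≠ 0) : IsOpen {x : F | vLoc F x ≤ a} := by
  obtain ⟨b, hb⟩ := (IsNonarchimedeanLocalField.valueGroupWithZeroIsoInt F).surjective a
  have hb0 : b ≠ 0 := by
    rintro rfl
    exact ha (by rw [← hb, map_zero])
  rw [isOpen_iff_mem_nhds]
  intro x hx
  rw [IsValuativeTopology.mem_nhds_iff]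
  refine ⟨Units.mk0 b hb0, ?_⟩
  rintro _ ⟨z, hz, rfl⟩
  have hz' : vLoc F z ≤ a := by
    rw [M1_apply, ← hb]
    exact (map_le_map_iff _).2 (le_of_lt hz)
  exact (Valuation.map_add _ _ _).trans (max_le hx hz')

theorem isCompact_ball (a : ℤᵐ⁰) : IsCompact {x : F | vLoc F x ≤ a} := by
  obtain ⟨b, hb⟩ := (IsNonarchimedeanLocalField.valueGroupWithZeroIsoInt F).surjective a
  have h : {x : F | vLoc F x ≤ a} = {x : F | valuation F x ≤ b} := by
    ext x
    show vLoc F x ≤ a ↔ valuation F x ≤ b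
    rw [M1_apply, ← hb]
    exact map_le_map_iff _
  rw [h]
  exact IsNonarchimedeanLocalField.isCompact_closedBall F b

end RapidDecay
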