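import Mathlib
import Pool.Agent.Lib.MP_fee02f_an.Defs
import Pool.Agent.Lib.MP_fee02f_an.DefsL

/-!
Module M3: the general linear group acts transitively on the lattices.
-/

open scoped WithZero MatrixGroups

namespace RapidDecay

section M3
variable {O F : Type*} [CommRing O] [IsDomain O] [IsPrincipalIdealRing O] [Field F]
  [Algebra O F] {v : Valuation F ℤᵐ⁰}

/-- a lattice has a basis consisting of four vectors -/
theorem m3_basis (hv : v.Integers O) (A : Lat O F) : ∃ b : Module.Basis (Fin 4) F (Fin 4 → F),
    A.1 = Submodule.span O (Set.range b) := by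
  have hfr : IsFractionRing O F := hv.isFractionRing
  have hfg : Module.Finite O A.1 := Module.Finite.iff_fg.mpr A.2.1
  have htf : Module.IsTorsionFree O (Fin 4 → F) := by
    have h1 : Module.IsTorsionFree O F := inferInstance
    infer_instance
  have htf2 : Module.IsTorsionFree O A.1 := inferInstance
  have hfree : Module.Free O A.1 := Module.free_of_finite_type_torsion_free'
  let bA := Module.Free.chooseBasis O A.1
  let b0 : Module.Free.ChooseBasisIndex O A.1 → (Fin 4 → F) := fun i => (bA i : Fin 4 → F)
  have hli : LinearIndependent O b0 := by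
    have h1 := bA.linearIndependent
    have h2 := h1.map' A.1.subtype (Submodule.ker_subtype _)
    exact h2
  have hliF : LinearIndependent F b0 := (LinearIndependent.iff_fractionRing O F).mp hli
  have hsp : Submodule.span O (Set.range b0) = A.1 := by
    have h1 := bA.span_eq
    have h2 : Set.range b0 = A.1.subtype '' (Set.range bA) := by
      rw [← Set.range_comp]
      rfl
    rw [h2, Submodule.span_image, h1, Submodule.map_top, Submodule.range_subtype]
  have hspF : ⊤ ≤ Submodule.span F (Set.range b0) := by
    rw [← A.2.2]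
    rw [Submodule.span_le]
    intro x hx
    rw [← hsp] at hx
    exact Submodule.span_le_restrictScalars O F (Set.range b0) hx
  let bF := Module.Basis.mk hliF hspF
  have hcard : Fintype.card (Module.Free.ChooseBasisIndex O A.1) = 4 := by
    have h1 := Module.finrank_eq_card_basis bF
    rw [Module.finrank_fin_fun] at h1
    exact h1.symm
  let e : Module.Free.ChooseBasisIndex O A.1 ≃ Fin 4 := Fintype.equivFinOfCardEq hcard
  refine ⟨bF.reindex e, ?_⟩
  have h3 : Set.range (bF.reindex e) = Set.range b0 := by
    rw [Module.Basis.range_reindex]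
    congr 1
    ext i : 1
    exact Module.Basis.mk_apply hliF hspF i
  rw [h3, hsp]

theorem lat_transitive (hv : v.Integers O) (A B : Lat O F) : ∃ g : GL (Fin 4) F, g • A = B := by
  obtain ⟨a, ha⟩ := m3_basis hv A
  obtain ⟨b, hb⟩ := m3_basis hv B
  let e : (Fin 4 → F) ≃ₗ[F] (Fin 4 → F) := a.equiv b (Equiv.refl _)
  let g1 : Matrix (Fin 4) (Fin 4) F := LinearMap.toMatrix' e.toLinearMap
  let g2 : Matrix (Fin 4) (Fin 4) F := LinearMap.toMatrix' e.symm.toLinearMap
  have h12 : g1 * g2 = 1 := by
    change LinearMap.toMatrix' _ * LinearMap.toMatrix' _ = 1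
    rw [← LinearMap.toMatrix'_comp]
    simp
  have h21 : g2 * g1 = 1 := by
    change LinearMap.toMatrix' _ * LinearMap.toMatrix' _ = 1
    rw [← LinearMap.toMatrix'_comp]
    simp
  refine ⟨⟨g1, g2, h12, h21⟩, ?_⟩
  apply Subtype.ext
  rw [latAction_val]
  unfold gact
  rw [ha, hb, ← Submodule.span_image]
  congr 1
  rw [← Set.range_comp]
  congr 1
  ext i : 1
  change Matrix.mulVecLin g1 (a i) = b i
  have h3 : Matrix.mulVecLin g1 = e.toLinearMap := by
    change Matrix.toLin' (LinearMap.toMatrix' e.toLinearMap) = _
    exact Matrix.toLin'_toMatrix' _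
  rw [h3]
  change e (a i) = b i
  simp [e]
end M3

end RapidDecay
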