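import Mathlib
import Pool.Agent.Lib.MP_fee02f_an.DefsL
import Pool.Agent.Lib.MP_fee02f_an.DefsM
import Pool.Agent.Lib.MP_fee02f_an.M1
import Pool.Agent.Lib.MP_fee02f_an.M3

/-!
M2: the stabiliser of a lattice is open and compact.
-/

set_option autoImplicit false
set_option linter.unusedSectionVars false

open scoped WithZero MatrixGroups
open ValuativeRel

namespace RapidDecay

variable {F : Type*} [Field F] [ValuativeRel F] [TopologicalSpace F]
  [IsNonarchimedeanLocalField F]

variable (F) in
theorem M2_t2 : T2Space F := by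
  apply IsTopologicalAddGroup.t2Space_of_zero_sep
  intro x hx
  refine ⟨{k | valuation F k < valuation F x}, ?_, fun h => lt_irrefl (valuation F x) h⟩
  rw [IsValuativeTopology.mem_nhds_iff]
  refine ⟨Units.mk0 (valuation F x) ((valuation F).ne_zero_iff.2 hx), ?_⟩
  rintro _ ⟨z, hz, rfl⟩
  have e : (0 : F) + z = z := zero_add z
  show valuation F (0 + z) < valuation F x
  rw [e]
  exact hz

variable (F) in
/-- integral matrices -/
noncomputable def M2_int : Submonoid (Matrix (Fin 4) (Fin 4) F) where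
  carrier := {g | ∀ i j, vLoc F (g i j) ≤ 1}
  one_mem' := by
    intro i j
    rw [Matrix.one_apply]
    split_ifs
    · rw [map_one]
    · rw [map_zero]; exact zero_le_one
  mul_mem' := by
    intro g h hg hh i j
    rw [Matrix.mul_apply]
    refine (vLoc F).map_sum_le (fun k _ => ?_)
    rw [map_mul]
    exact mul_le_one' (hg i k) (hh k j)

theorem M2_mem (g : Matrix (Fin 4) (Fin 4) F) : g ∈ M2_int F ↔ ∀ i j, vLoc F (g i j) ≤ 1 := Iff.rfl

theorem M2_compact : IsCompact (M2_int F : Set (Matrix (Fin 4) (Fin 4) F)) := by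
  have h : IsCompact (Set.pi Set.univ (fun _ : Fin 4 => Set.pi Set.univ
      (fun _ : Fin 4 => {x : F | vLoc F x ≤ 1}))) :=
    isCompact_univ_pi (fun _ => isCompact_univ_pi (fun _ => isCompact_ball F 1))
  have e : (M2_int F : Set (Matrix (Fin 4) (Fin 4) F)) = (Set.pi Set.univ (fun _ : Fin 4 =>
      Set.pi Set.univ (fun _ : Fin 4 => {x : F | vLoc F x ≤ 1}))) := by
    ext g
    constructor
    · intro h i _ j _
      exact h i j
    · intro h i j
      exact h i (Set.mem_univ _) j (Set.mem_univ _)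
  rw [e]
  exact h

theorem M2_open : IsOpen (M2_int F : Set (Matrix (Fin 4) (Fin 4) F)) := by
  have h : IsOpen (Set.pi Set.univ (fun _ : Fin 4 => Set.pi Set.univ
      (fun _ : Fin 4 => {x : F | vLoc F x ≤ 1}))) :=
    isOpen_set_pi Set.finite_univ (fun _ _ => isOpen_set_pi Set.finite_univ
      (fun _ _ => isOpen_ball F 1 one_ne_zero))
  have e : (M2_int F : Set (Matrix (Fin 4) (Fin 4) F)) = (Set.pi Set.univ (fun _ : Fin 4 =>
      Set.pi Set.univ (fun _ : Fin 4 => {x : F | vLoc F x ≤ 1}))) := by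
    ext g
    constructor
    · intro h i _ j _
      exact h i j
    · intro h i j
      exact h i (Set.mem_univ _) j (Set.mem_univ _)
  rw [e]
  exact h

variable (F) in
/-- the standard lattice -/
noncomputable def M2_std : Lat 𝒪[F] F := by
  refine ⟨Submodule.span 𝒪[F] (Set.range (Pi.basisFun F (Fin 4))), ?_, ?_⟩
  · exact Submodule.fg_span (Set.finite_range _)
  · rw [Submodule.span_span_of_tower]
    exact (Pi.basisFun F (Fin 4)).span_eq

theorem M2_mem_std (x : Fin 4 → F) : x ∈ (M2_std F).1 ↔ ∀ i, vLoc F (x i) ≤ 1 := by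
  show x ∈ Submodule.span 𝒪[F] (Set.range (Pi.basisFun F (Fin 4))) ↔ _
  rw [Module.Basis.mem_span_iff_repr_mem]
  refine forall_congr' fun i => ?_
  rw [Pi.basisFun_repr]
  constructor
  · rintro ⟨y, hy⟩
    rw [← hy]
    exact (vLoc_integers F).map_le_one y
  · intro h
    exact (vLoc_integers F).exists_of_le_one h

theorem M2_gact_le (g : Matrix (Fin 4) (Fin 4) F) :
    gact g (M2_std F).1 ≤ (M2_std F).1 ↔ g ∈ M2_int F := by
  rw [M2_mem]
  constructor
  · intro h i j
    have h1 : (Pi.single j 1 : Fin 4 → F) ∈ (M2_std F).1 := by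
      rw [M2_mem_std]
      intro k
      rw [Pi.single_apply]
      split_ifs
      · rw [map_one]
      · rw [map_zero]; exact zero_le_one
    have h2 : Matrix.mulVecLin g (Pi.single j 1) ∈ (M2_std F).1 :=
      h (Submodule.mem_map_of_mem (f := (Matrix.mulVecLin g).restrictScalars 𝒪[F]) h1)
    rw [M2_mem_std] at h2
    have h3 := h2 i
    rwa [Matrix.mulVecLin_apply, Matrix.mulVec_single_one] at h3
  · intro h
    unfold gact
    rw [Submodule.map_le_iff_le_comap]
    intro x hx
    rw [M2_mem_std] at hx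
    show Matrix.mulVecLin g x ∈ (M2_std F).1
    rw [M2_mem_std]
    intro i
    rw [Matrix.mulVecLin_apply]
    show vLoc F (∑ j, g i j * x j) ≤ 1
    refine (vLoc F).map_sum_le (fun k _ => ?_)
    rw [map_mul]
    exact mul_le_one' (h i k) (hx k)

theorem M2_gact_mono (g : Matrix (Fin 4) (Fin 4) F) {A B : Submodule 𝒪[F] (Fin 4 → F)}
    (h : A ≤ B) : gact g A ≤ gact g B := Submodule.map_mono h

theorem M2_stab_std : (MulAction.stabilizer (GL (Fin 4) F) (M2_std F) : Set (GL (Fin 4) F)) =
    ((M2_int F).units : Set (GL (Fin 4) F)) := by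
  ext g
  rw [SetLike.mem_coe, SetLike.mem_coe, MulAction.mem_stabilizer_iff, Submonoid.mem_units_iff,
    ← M2_gact_le, ← M2_gact_le]
  constructor
  · intro h
    have h1 : gact g.1 (M2_std F).1 = (M2_std F).1 := congrArg Subtype.val h
    refine ⟨h1.le, ?_⟩
    have h2 : gact (g⁻¹ : GL (Fin 4) F).1 (gact g.1 (M2_std F).1) = (M2_std F).1 := by
      rw [← gact_mul, ← Units.val_mul, inv_mul_cancel, Units.val_one, gact_one]
    rw [h1] at h2
    exact h2.le
  · rintro ⟨h1, h2⟩
    apply Subtype.ext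
    show gact g.1 (M2_std F).1 = (M2_std F).1
    refine le_antisymm h1 ?_
    have h3 := M2_gact_mono g.1 h2
    rwa [← gact_mul, ← Units.val_mul, mul_inv_cancel, Units.val_one, gact_one] at h3

theorem isOpen_stab_lat (A : Lat 𝒪[F] F) :
    IsOpen (MulAction.stabilizer (GL (Fin 4) F) A : Set (GL (Fin 4) F)) := by
  obtain ⟨g, rfl⟩ := lat_transitive (vLoc_integers F) (M2_std F) A
  have h0 : IsOpen (MulAction.stabilizer (GL (Fin 4) F) (M2_std F) : Set (GL (Fin 4) F)) := by
    rw [M2_stab_std]
    have e : ((M2_int F).units : Set (GL (Fin 4) F)) =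
        (fun u : GL (Fin 4) F => u.1) ⁻¹' (M2_int F : Set (Matrix (Fin 4) (Fin 4) F)) ∩
        (fun u : GL (Fin 4) F => (u⁻¹ : GL (Fin 4) F).1) ⁻¹'
          (M2_int F : Set (Matrix (Fin 4) (Fin 4) F)) := by
      ext u
      rw [SetLike.mem_coe, Submonoid.mem_units_iff]
      rfl
    rw [e]
    exact (M2_open.preimage Units.continuous_val).inter
      (M2_open.preimage Units.continuous_coe_inv)
  have h1 : (MulAction.stabilizer (GL (Fin 4) F) (g • M2_std F) : Set (GL (Fin 4) F)) =
      (fun x : GL (Fin 4) F => g⁻¹ * x * g) ⁻¹'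
        (MulAction.stabilizer (GL (Fin 4) F) (M2_std F) : Set (GL (Fin 4) F)) := by
    ext x
    simp only [Set.mem_preimage, SetLike.mem_coe, MulAction.mem_stabilizer_iff]
    rw [mul_smul, mul_smul, inv_smul_eq_iff]
  rw [h1]
  exact h0.preimage (by fun_prop)

theorem isCompact_stab_lat (A : Lat 𝒪[F] F) :
    IsCompact (MulAction.stabilizer (GL (Fin 4) F) A : Set (GL (Fin 4) F)) := by
  obtain ⟨g, rfl⟩ := lat_transitive (vLoc_integers F) (M2_std F) A
  have h0 : IsCompact (MulAction.stabilizer (GL (Fin 4) F) (M2_std F) :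
      Set (GL (Fin 4) F)) := by
    rw [M2_stab_std]
    have := M2_t2 F
    exact Submonoid.units_isCompact M2_compact
  have h1 : (MulAction.stabilizer (GL (Fin 4) F) (g • M2_std F) : Set (GL (Fin 4) F)) =
      (fun x : GL (Fin 4) F => g * x * g⁻¹) ''
        (MulAction.stabilizer (GL (Fin 4) F) (M2_std F) : Set (GL (Fin 4) F)) := by
    ext x
    simp only [Set.mem_image, SetLike.mem_coe, MulAction.mem_stabilizer_iff]
    constructor
    · intro h
      refine ⟨g⁻¹ * x * g, ?_, by group⟩
      rw [mul_smul, mul_smul, inv_smul_eq_iff]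
      exact h
    · rintro ⟨y, hy, rfl⟩
      rw [mul_smul, mul_smul, inv_smul_smul, hy]
  rw [h1]
  exact h0.image (by fun_prop)

end RapidDecay
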