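import Mathlib
import Pool.Agent.Lib.MP_fee02f_an.Defs
import Pool.Agent.Lib.MP_fee02f_an.DefsL
import Pool.Agent.Lib.MP_fee02f_an.DefsM
import Pool.Agent.Lib.MP_fee02f_an.L2a
import Pool.Agent.Lib.MP_fee02f_an.M3

/-!
Module M4: lattices and vertices.
-/

open scoped WithZero MatrixGroups

namespace RapidDecay

section M4
variable {O F : Type*} [CommRing O] [Field F] [Algebra O F] {v : Valuation F ℤᵐ⁰}

theorem m4_det_gact (hv : v.Integers O) (g : Matrix (Fin 4) (Fin 4) F) (A : Lat O F)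
    (h : gact g A.1 = A.1) : v g.det = 1 := by
  have h1 := hd_gact hv g A.2.1 A.2.1 A.2.1 A.2.1
  rw [h] at h1
  have h2 := hd_ne_zero hv A.2 A.2 A.2 A.2
  exact (mul_eq_right₀ h2).mp h1.symm

theorem val_det_of_fix (hv : v.Integers O) (g : GL (Fin 4) F) (A : Lat O F) (h : g • A = A) :
    v g.1.det = 1 := by
  apply m4_det_gact hv g.1 A
  rw [← latAction_val, h]

/-- multiplication by a unit preserves every module -/
theorem m4_scalar_unit (hv : v.Integers O) (c : F) (hc : v c = 1)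
    (A : Submodule O (Fin 4 → F)) : gact (Matrix.scalar (Fin 4) c) A = A := by
  have hc0 : c ≠ 0 := by
    rintro rfl
    rw [map_zero] at hc
    exact zero_ne_one hc
  obtain ⟨a, ha⟩ := hv.exists_of_le_one hc.le
  obtain ⟨b, hb⟩ := hv.exists_of_le_one (r := c⁻¹) (by rw [map_inv₀, hc, inv_one])
  have hs : ∀ (u : O) (x : Fin 4 → F), u • x = algebraMap O F u • x := by
    intro u x
    ext i
    simp [Algebra.smul_def]
  ext x
  rw [L2a_mem_gact]
  constructor
  · rintro ⟨y, hy, rfl⟩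
    rw [L2a_scalar_mulVec, ← ha, ← hs]
    exact A.smul_mem a hy
  · intro hx
    refine ⟨b • x, A.smul_mem b hx, ?_⟩
    rw [L2a_scalar_mulVec, hs, hb, smul_smul, mul_inv_cancel₀ hc0, one_smul]

theorem m4_exists_scalar (g : GL (Fin 4) F) (A : Lat O F) (h : g • vt A = vt A) :
    ∃ c : F, c ≠ 0 ∧ A.1 = gact (Matrix.scalar (Fin 4) c * g.1) A.1 := by
  rw [smul_vt] at h
  obtain ⟨c, hc, h2⟩ := Quotient.exact h
  refine ⟨c, hc, ?_⟩
  rw [gact_mul, ← latAction_val]
  exact h2

theorem m4_det_scalar (c : F) : (Matrix.scalar (Fin 4) c).det = c ^ 4 := by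
  simp [Matrix.scalar_apply, Matrix.det_diagonal]

theorem m4_pow_eq_one {a : ℤᵐ⁰} (h : a ^ 4 = 1) : a = 1 := by
  rcases lt_trichotomy a 1 with h1 | h1 | h1
  · exact absurd h (pow_lt_one₀ zero_le h1 (by norm_num)).ne
  · exact h1
  · exact absurd h (one_lt_pow₀ h1 (by norm_num)).ne'

theorem fix_lat_of_fix_vt (hv : v.Integers O) (g : GL (Fin 4) F) (A : Lat O F)
    (h : g • vt A = vt A) (hg : v g.1.det = 1) : g • A = A := by
  obtain ⟨c, hc, h2⟩ := m4_exists_scalar g A h
  have h3 := m4_det_gact hv _ A h2.symm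
  rw [Matrix.det_mul, map_mul, hg, mul_one, m4_det_scalar, map_pow] at h3
  have h4 := m4_pow_eq_one h3
  apply Subtype.ext
  rw [latAction_val]
  conv_rhs => rw [h2]
  rw [gact_mul, m4_scalar_unit hv c h4]

/-- the coordinate with index one -/
theorem m4_coord (y : Fin 4 → F) :
    dt y (Pi.single 0 1) (Pi.single 2 1) (Pi.single 3 1) = - y 1 := by
  unfold dt
  simp [Matrix.det_succ_row_zero, Fin.sum_univ_succ, Fin.succAbove]

theorem m4_fg (x : Fin 4 → F) : (Submodule.span O {x} : Submodule O (Fin 4 → F)).FG :=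
  ⟨{x}, by simp⟩

theorem dg_fix (hv : v.Integers O) (c : Fˣ) (y : Vtx O F) (h : dg c • y = y) :
    v (c : F) = 1 := by
  obtain ⟨a, ha, h2⟩ := m4_exists_scalar (dg c) (rep y) (by rw [vt_rep, h])
  have h3 := m4_det_gact hv _ (rep y) h2.symm
  have h3b : (dg c).1.det = (c : F) := by
    simp [dg, Matrix.det_diagonal, Fin.prod_univ_succ]
  rw [Matrix.det_mul, map_mul, m4_det_scalar, map_pow, h3b] at h3
  set L := (rep y).1 with hL
  have hLl : IsLat L := (rep y).2
  set g : Matrix (Fin 4) (Fin 4) F := Matrix.scalar (Fin 4) a * (dg c).1 with hg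
  have hco : ∀ x : Fin 4 → F, g.mulVec x 1 = a * x 1 := by
    intro x
    rw [hg, ← Matrix.mulVec_mulVec, L2a_scalar_mulVec]
    simp [dg, Matrix.mulVec_diagonal]
  set e0 : Fin 4 → F := Pi.single 0 1
  set e2 : Fin 4 → F := Pi.single 2 1
  set e3 : Fin 4 → F := Pi.single 3 1
  have hgr := hd_isGreatest (v := v) hv (A := L) (B := Submodule.span O {e0})
    (C := Submodule.span O {e2}) (D := Submodule.span O {e3}) hLl.1 (m4_fg e0) (m4_fg e2) (m4_fg e3)
  set M := hd v L (Submodule.span O {e0}) (Submodule.span O {e2}) (Submodule.span O {e3}) with hM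
  have hle : ∀ x ∈ L, v (x 1) ≤ M := by
    intro x hx
    have h5 := dt_le_hd (v := v) hv hLl.1 (m4_fg e0) (m4_fg e2) (m4_fg e3) hx
      (Submodule.mem_span_singleton_self e0) (Submodule.mem_span_singleton_self e2)
      (Submodule.mem_span_singleton_self e3)
    rw [m4_coord, Valuation.map_neg] at h5
    exact h5
  have hM0 : M ≠ 0 := by
    intro h0
    have h6 : ∀ x ∈ L, dt x e0 e2 e3 = 0 := by
      intro x hx
      rw [m4_coord]
      have h7 := hle x hx
      rw [h0] at h7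
      rw [(Valuation.zero_iff v).mp (le_antisymm h7 zero_le), neg_zero]
    have h8 := L2a_spanF (L : Set (Fin 4 → F)) e0 e2 e3 h6 (Pi.single 1 1)
      (by rw [hLl.2]; trivial)
    rw [m4_coord] at h8
    simp at h8
  have hex : ∃ x ∈ L, M ≤ v (x 1) := by
    obtain ⟨x, hx, y, hy, z, hz, t, ht, he⟩ := hgr.1
    refine ⟨x, hx, ?_⟩
    rw [← he]
    have h9 : ∀ x' ∈ Submodule.span O {x}, ∀ y' ∈ Submodule.span O {e0},
        ∀ z' ∈ Submodule.span O {e2}, ∀ t' ∈ Submodule.span O {e3},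
        v (dt x' y' z' t') ≤ v (x 1) := by
      apply L2a_bound hv
      intro x' hx' y' hy' z' hz' t' ht'
      rw [Set.mem_singleton_iff] at hx' hy' hz' ht'
      rw [hx', hy', hz', ht', m4_coord, Valuation.map_neg]
    exact h9 x (Submodule.mem_span_singleton_self x) y hy z hz t ht
  obtain ⟨x, hx, hxM⟩ := hex
  have hle1 : v a ≤ 1 := by
    have h10 : g.mulVec x ∈ L := by
      rw [h2]
      exact (L2a_mem_gact _ _ _).mpr ⟨x, hx, rfl⟩
    have h11 := hle _ h10
    rw [hco, map_mul] at h11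
    have h12 : v a * M ≤ 1 * M := by
      rw [one_mul]
      exact (mul_le_mul' le_rfl hxM).trans h11
    exact le_of_mul_le_mul_right h12 (zero_lt_iff.mpr hM0)
  have hge1 : 1 ≤ v a := by
    have h13 : x ∈ gact g L := by rw [← h2]; exact hx
    obtain ⟨z, hz, hzx⟩ := (L2a_mem_gact _ _ _).mp h13
    have h14 : v (x 1) = v a * v (z 1) := by rw [← hzx, hco, map_mul]
    have h15 : 1 * M ≤ v a * M := by
      rw [one_mul]
      refine hxM.trans ?_
      rw [h14]
      exact mul_le_mul' le_rfl (hle z hz)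
    exact le_of_mul_le_mul_right h15 (zero_lt_iff.mpr hM0)
  have hva : v a = 1 := le_antisymm hle1 hge1
  rw [hva, one_pow, one_mul] at h3
  exact h3

/-- the standard lattice -/
theorem m4_std_isLat (O F : Type*) [CommRing O] [Field F] [Algebra O F] :
    IsLat (Submodule.span O (Set.range fun i : Fin 4 => (Pi.single i 1 : Fin 4 → F))) := by
  refine ⟨Submodule.fg_span (Set.finite_range _), ?_⟩
  rw [Submodule.span_span_of_tower]
  have h1 := (Pi.basisFun F (Fin 4)).span_eq
  have h2 : (Set.range fun i : Fin 4 => (Pi.single i 1 : Fin 4 → F))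
      = Set.range (Pi.basisFun F (Fin 4)) := by
    congr 1
    ext i : 1
    exact (Pi.basisFun_apply F (Fin 4) i).symm
  rw [h2, h1]

/-- the standard lattice -/
noncomputable def m4_std (O F : Type*) [CommRing O] [Field F] [Algebra O F] : Lat O F :=
  ⟨_, m4_std_isLat O F⟩

theorem m4_dg_std (hv : v.Integers O) (u : Fˣ) (hu : v (u : F) = 1) :
    dg u • m4_std O F = m4_std O F := by
  obtain ⟨a, ha⟩ := hv.exists_of_le_one hu.le
  obtain ⟨b, hb⟩ := hv.exists_of_le_one (r := ((u⁻¹ : Fˣ) : F))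
    (by rw [Units.val_inv_eq_inv_val, map_inv₀, hu, inv_one])
  have hs : ∀ (u : O) (x : Fin 4 → F), u • x = algebraMap O F u • x := by
    intro u x
    ext i
    simp [Algebra.smul_def]
  have key : ∀ (w : Fˣ) (c : O), algebraMap O F c = (w : F) →
      gact (dg w).1 (m4_std O F).1 ≤ (m4_std O F).1 := by
    intro w c hc
    unfold gact
    rw [Submodule.map_le_iff_le_comap]
    unfold m4_std
    rw [Submodule.span_le]
    rintro _ ⟨i, rfl⟩
    change (dg w).1.mulVec (Pi.single i 1) ∈ Submodule.span O _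
    have h1 : (dg w).1.mulVec (Pi.single i 1)
        = (if i = 0 then c else 1 : O) • (Pi.single i 1 : Fin 4 → F) := by
      rw [hs]
      ext j
      fin_cases i <;> fin_cases j <;> simp [dg, Matrix.mulVec_diagonal, hc]
    rw [h1]
    exact Submodule.smul_mem _ _ (Submodule.subset_span ⟨i, rfl⟩)
  apply Subtype.ext
  rw [latAction_val]
  apply le_antisymm (key u a ha)
  intro x hx
  have h2 := key u⁻¹ b hb
  rw [L2a_mem_gact]
  refine ⟨(dg u⁻¹).1.mulVec x, h2 ((L2a_mem_gact _ _ _).mpr ⟨x, hx, rfl⟩), ?_⟩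
  rw [Matrix.mulVec_mulVec]
  have h3 : (dg u).1 * (dg u⁻¹).1 = 1 := by
    simp only [dg]
    rw [Matrix.diagonal_mul_diagonal, ← Matrix.diagonal_one]
    congr 1
    ext i
    fin_cases i <;> simp
  rw [h3, Matrix.one_mulVec]

theorem m4_dg_mul (c d : Fˣ) : dg (c * d) = dg c * dg d := by
  apply Units.ext
  change Matrix.diagonal _ = Matrix.diagonal _ * Matrix.diagonal _
  rw [Matrix.diagonal_mul_diagonal]
  congr 1
  ext i
  fin_cases i <;> simp

/-- the scalar matrix as an element of the group -/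
noncomputable def m4_sc (c : Fˣ) : GL (Fin 4) F :=
  ⟨Matrix.scalar (Fin 4) (c : F), Matrix.scalar (Fin 4) ((c⁻¹ : Fˣ) : F),
    by rw [← map_mul]; simp, by rw [← map_mul]; simp⟩

theorem m4_sc_smul (c : Fˣ) (A : Lat O F) : vt (m4_sc c • A) = vt A := by
  symm
  apply Quotient.sound
  exact ⟨c, c.ne_zero, rfl⟩

theorem m4_det_dg (c : Fˣ) : (dg c).1.det = (c : F) := by
  simp [dg, Matrix.det_diagonal, Fin.prod_univ_succ]

theorem m4_smul_sc (c : Fˣ) (y : Vtx O F) : m4_sc c • y = y := by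
  rw [← vt_rep y, smul_vt, m4_sc_smul]

/-- every vertex is moved by an element of determinant one to one of finitely many vertices -/
theorem sl_orbits [IsDomain O] [IsPrincipalIdealRing O] (hv : v.Integers O) (π : O)
    (hπ : v (algebraMap O F π) = WithZero.exp (-1)) :
    ∃ s : Finset (Vtx O F), ∀ y : Vtx O F, ∃ g : SL(4, F), (g : GL (Fin 4) F) • y ∈ s := by
  classical
  have hp0 : algebraMap O F π ≠ 0 := by
    intro h
    rw [h, map_zero] at hπ
    exact WithZero.exp_ne_zero hπ.symm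
  set p : Fˣ := Units.mk0 _ hp0 with hp
  refine ⟨Finset.image (fun j : ℕ => dg (p ^ j) • vt (m4_std O F)) (Finset.range 4), ?_⟩
  intro y
  obtain ⟨g, hg⟩ := lat_transitive hv (rep y) (m4_std O F)
  have hd0 : g.1.det ≠ 0 := ((Matrix.isUnit_iff_isUnit_det _).mp g.isUnit).ne_zero
  set d : Fˣ := Units.mk0 _ hd0 with hd
  obtain ⟨n, hn⟩ : ∃ n : ℤ, v (d : F) = WithZero.exp n := by
    have h1 : v (d : F) ≠ 0 := (Valuation.ne_zero_iff v).mpr d.ne_zero
    exact ⟨WithZero.log (v (d : F)), (WithZero.exp_log h1).symm⟩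
  have hvp : ∀ k : ℤ, v ((p ^ k : Fˣ) : F) = WithZero.exp (-k) := by
    intro k
    rw [Units.val_zpow_eq_zpow_val, map_zpow₀]
    change (v (algebraMap O F π)) ^ k = _
    rw [hπ, ← WithZero.exp_zsmul]
    congr 1
    simp
  set j : ℕ := (n % 4).toNat with hj
  have hj4 : j < 4 := by omega
  have hjn : (j : ℤ) = n % 4 := by omega
  set k : ℤ := n / 4 with hk
  have hnk : n = (j : ℤ) + 4 * k := by omega
  set u : Fˣ := (p ^ (n : ℤ) * d)⁻¹ with hu
  have hvu : v (u : F) = 1 := by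
    rw [hu, Units.val_inv_eq_inv_val, map_inv₀, Units.val_mul, map_mul, hvp, hn, ← WithZero.exp_add]
    simp
  set G : GL (Fin 4) F := dg (p ^ j) * (dg u * (m4_sc (p ^ k) * g)) with hG
  have hdet : G.1.det = 1 := by
    rw [hG]
    simp only [Units.val_mul, Matrix.det_mul]
    have h3 : (m4_sc (p ^ k)).1.det = ((p ^ (4 * k) : Fˣ) : F) := by
      change (Matrix.scalar (Fin 4) ((p ^ k : Fˣ) : F)).det = _
      rw [m4_det_scalar, mul_comm 4 k, zpow_mul, ← Units.val_pow_eq_pow_val]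
      rfl
    have h4 : (dg (p ^ j)).1.det = ((p ^ (j : ℤ) : Fˣ) : F) := by
      rw [m4_det_dg, zpow_natCast]
    have h5 : g.1.det = (d : F) := rfl
    rw [h3, h4, h5, m4_det_dg, ← Units.val_mul, ← Units.val_mul, ← Units.val_mul]
    have h6 : p ^ (j : ℤ) * (u * (p ^ (4 * k) * d)) = 1 := by
      rw [hu, hnk, zpow_add, mul_inv_rev, mul_inv]
      have h6a : p ^ (j : ℤ) * (d⁻¹ * ((p ^ (j : ℤ))⁻¹ * (p ^ (4 * k))⁻¹) * (p ^ (4 * k) * d))
          = (p ^ (j : ℤ) * (p ^ (j : ℤ))⁻¹) * ((p ^ (4 * k))⁻¹ * p ^ (4 * k)) * (d⁻¹ * d) := by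
        ac_rfl
      rw [h6a, mul_inv_cancel, inv_mul_cancel, inv_mul_cancel, one_mul, one_mul]
    rw [h6, Units.val_one]
  set S : SL(4, F) := ⟨G.1, hdet⟩ with hS
  refine ⟨S, ?_⟩
  have h7 : (S : GL (Fin 4) F) = G := Units.ext rfl
  rw [h7, hG, mul_smul, mul_smul, mul_smul]
  have h8 : g • y = vt (m4_std O F) := by
    rw [← vt_rep y, smul_vt, hg]
  rw [h8, m4_smul_sc, smul_vt (dg u), m4_dg_std hv u hvu]
  exact Finset.mem_image.mpr ⟨j, Finset.mem_range.mpr hj4, rfl⟩
end M4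

end RapidDecay
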