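import Mathlib
import Pool.Agent.Lib.MP_fee02f_an.Defs
import Pool.Agent.Lib.MP_fee02f_an.DefsL
import Pool.Agent.Lib.MP_fee02f_an.DefsM
import Pool.Agent.Lib.MP_fee02f_an.DefsA
import Pool.Agent.Lib.MP_fee02f_an.M1
import Pool.Agent.Lib.MP_fee02f_an.M3
import Pool.Agent.Lib.MP_fee02f_an.M2
import Pool.Agent.Lib.MP_fee02f_an.M4
import Pool.Agent.Lib.MP_fee02f_an.L9

/-!
Module A4 of MP_fee02f_an: `GL_4(F)` is admissible.
-/

open scoped WithZero MatrixGroups
open ValuativeRel

namespace RapidDecay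

/-- there is a lattice -/
theorem A4_lat (O F : Type*) [CommRing O] [Field F] [Algebra O F] : Nonempty (Lat O F) := by
  refine ⟨⟨Submodule.span O (Set.range (Pi.basisFun F (Fin 4))), Submodule.fg_span
    (Set.finite_range _), ?_⟩⟩
  rw [eq_top_iff, ← (Pi.basisFun F (Fin 4)).span_eq]
  exact Submodule.span_mono Submodule.subset_span

section

variable {F : Type*} [Field F]

/-- the homomorphism `c ↦ dg c` -/
noncomputable def A4_dg : Fˣ →* GL (Fin 4) F where
  toFun := dg
  map_one' := by
    apply Units.ext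
    show Matrix.diagonal ![((1 : Fˣ) : F), 1, 1, 1] = 1
    rw [← Matrix.diagonal_one]
    congr 1
    ext i
    fin_cases i <;> simp
  map_mul' c d := by
    apply Units.ext
    show Matrix.diagonal ![((c * d : Fˣ) : F), 1, 1, 1] =
      Matrix.diagonal ![(c : F), 1, 1, 1] * Matrix.diagonal ![(d : F), 1, 1, 1]
    rw [Matrix.diagonal_mul_diagonal]
    congr 1
    ext i
    fin_cases i <;> simp

/-- the logarithm of the value of the determinant -/
noncomputable def A4_log (v : Valuation F ℤᵐ⁰) : GL (Fin 4) F →* Multiplicative ℤ where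
  toFun g := Multiplicative.ofAdd (WithZero.log (v g.1.det))
  map_one' := by simp
  map_mul' g h := by
    have hg : v g.1.det ≠ 0 := by
      rw [Valuation.ne_zero_iff]
      exact (Matrix.isUnits_det_units g).ne_zero
    have hh : v h.1.det ≠ 0 := by
      rw [Valuation.ne_zero_iff]
      exact (Matrix.isUnits_det_units h).ne_zero
    rw [← ofAdd_add, ← WithZero.log_mul hg hh, ← map_mul, ← Matrix.det_mul]
    rfl

/-- the two homomorphisms -/
noncomputable def A4_hom (v : Valuation F ℤᵐ⁰) (ϖ : Fˣ) : Bool → (GL (Fin 4) F →* GL (Fin 4) F)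
  | false => MonoidHom.id _
  | true => A4_dg.comp ((zpowersHom Fˣ ϖ).comp (A4_log v))

end

/-- (module A4) -/
theorem Adm_GL.{u} (F : Type u) [Field F] [ValuativeRel F] [TopologicalSpace F]
    [IsNonarchimedeanLocalField F] : Adm.{u, u} (GL (Fin 4) F) := by
  have hv := vLoc_integers F
  obtain ⟨π, hπ, hfin⟩ := exists_unif F
  have hπ0 : algebraMap 𝒪[F] F π ≠ 0 := by
    intro h
    rw [h, map_zero] at hπ
    exact absurd hπ.symm (WithZero.exp_ne_zero)
  set ϖ : Fˣ := Units.mk0 _ hπ0 with hϖ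
  have hϖv : vLoc F (ϖ : F) = WithZero.exp (-1) := hπ
  let act : ∀ k : Bool, MulAction (GL (Fin 4) F) (Vtx 𝒪[F] F) := fun k =>
    MulAction.compHom _ (A4_hom (vLoc F) ϖ k)
  have hS : ∀ k : Bool, Nonempty (@HiveSpace (GL (Fin 4) F) (Vtx 𝒪[F] F) _ (act k)) := by
    intro k
    obtain ⟨S, -⟩ := @exists_hiveSpace 𝒪[F] F _ _ _ _ _ (vLoc F) (GL (Fin 4) F) _ (act k)
      (fun γ => ⟨A4_hom (vLoc F) ϖ k γ, fun x => rfl⟩) hv π hπ hfin
    exact ⟨S⟩
  refine ⟨Bool, inferInstance, fun _ => Vtx 𝒪[F] F, act, fun k => (hS k).some, Lat 𝒪[F] F,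
    inferInstance, ?_, ?_, ?_, ?_, ?_⟩
  · intro k
    obtain ⟨A⟩ := A4_lat 𝒪[F] F
    exact ⟨vt A⟩
  · exact isOpen_stab_lat
  · exact isCompact_stab_lat
  · refine @Finite.of_subsingleton _ ⟨?_⟩
    intro a b
    induction a using Quotient.inductionOn' with
    | h a =>
      induction b using Quotient.inductionOn' with
      | h b =>
        obtain ⟨g, hg⟩ := lat_transitive hv b a
        exact Quotient.sound' ⟨g, hg⟩
  · intro z
    refine ⟨rep (z false), ?_⟩
    intro g hg
    rw [MulAction.mem_stabilizer_iff] at hg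
    have h0 : g • z false = z false := congrFun hg false
    have h1 : dg (ϖ ^ (WithZero.log (vLoc F g.1.det))) • z true = z true := congrFun hg true
    have h2 := dg_fix hv _ _ h1
    have h3 : vLoc F g.1.det = 1 := by
      have hne : vLoc F g.1.det ≠ 0 := by
        rw [Valuation.ne_zero_iff]
        exact (Matrix.isUnits_det_units g).ne_zero
      rw [Units.val_zpow_eq_zpow_val, map_zpow₀, hϖv, ← WithZero.exp_zsmul, ← WithZero.exp_zero,
        WithZero.exp_inj] at h2
      have h4 : WithZero.log (vLoc F g.1.det) = 0 := by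
        simpa using h2
      rw [← WithZero.exp_log hne, h4, WithZero.exp_zero]
    rw [MulAction.mem_stabilizer_iff]
    refine fix_lat_of_fix_vt hv g _ ?_ h3
    rw [vt_rep]
    exact h0

end RapidDecay
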