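import Mathlib
import Pool.Agent.Lib.MP_fee02f_an.Defs
import Pool.Agent.Lib.MP_fee02f_an.DefsL
import Pool.Agent.Lib.MP_fee02f_an.DefsM
import Pool.Agent.Lib.MP_fee02f_an.M1
import Pool.Agent.Lib.MP_fee02f_an.M2
import Pool.Agent.Lib.MP_fee02f_an.M4
import Pool.Agent.Lib.MP_fee02f_an.L9
import Pool.Agent.Lib.MP_fee02f_an.DefsA

/-!
Module A5: `SL_4(F)` is admissible.
-/

open scoped ENNReal WithZero MatrixGroups
open ValuativeRel

namespace RapidDecay

section

variable {O F : Type*} [CommRing O] [Field F] [Algebra O F]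

/-- the action of `SL_4(F)` on vertices -/
@[reducible] noncomputable def a5_act (O F : Type*) [CommRing O] [Field F] [Algebra O F] :
    MulAction SL(4, F) (Vtx O F) :=
  MulAction.compHom (Vtx O F) (Matrix.SpecialLinearGroup.toGL (n := Fin 4) (R := F))

end

section

variable (F : Type*) [Field F] [ValuativeRel F] [TopologicalSpace F]
  [IsNonarchimedeanLocalField F]

theorem a5_t2 : T2Space F := by
  let _ := IsTopologicalAddGroup.rightUniformSpace F
  have := isUniformAddGroup_of_addCommGroup (G := F)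
  have : T0Space F := inferInstance
  infer_instance

variable {F}

theorem a5_stab (y : Vtx 𝒪[F] F) :
    {g : SL(4, F) | (g : GL (Fin 4) F) • y = y}
      = (Matrix.SpecialLinearGroup.toGL : SL(4, F) → GL (Fin 4) F) ⁻¹'
        (MulAction.stabilizer (GL (Fin 4) F) (rep y) : Set (GL (Fin 4) F)) := by
  ext g
  constructor
  · intro hg
    have hg' : (g : GL (Fin 4) F) • y = y := hg
    change (g : GL (Fin 4) F) • rep y = rep y
    apply fix_lat_of_fix_vt (vLoc_integers F) (g : GL (Fin 4) F) (rep y)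
    · rw [vt_rep, hg']
    · have h1 : ((g : GL (Fin 4) F)).1.det = 1 := g.2
      rw [h1, map_one]
  · intro hg
    have hg' : (g : GL (Fin 4) F) • rep y = rep y := hg
    change (g : GL (Fin 4) F) • y = y
    rw [← vt_rep y, smul_vt, hg']

theorem a5_isOpen (y : Vtx 𝒪[F] F) : IsOpen {g : SL(4, F) | (g : GL (Fin 4) F) • y = y} := by
  rw [a5_stab]
  exact (isOpen_stab_lat (rep y)).preimage Matrix.SpecialLinearGroup.continuous_toGL

theorem a5_isCompact (y : Vtx 𝒪[F] F) :
    IsCompact {g : SL(4, F) | (g : GL (Fin 4) F) • y = y} := by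
  have := a5_t2 F
  rw [a5_stab]
  exact Matrix.SpecialLinearGroup.isClosedEmbedding_toGL.isCompact_preimage
    (isCompact_stab_lat (rep y))

end

/-! ## A5 `SL_4(F)` is admissible -/
section A
/-- (module A5) -/
theorem Adm_SL.{u} (F : Type u) [Field F] [ValuativeRel F] [TopologicalSpace F]
    [IsNonarchimedeanLocalField F] : Adm.{u, u} SL(4, F) := by
  classical
  let act : MulAction SL(4, F) (Vtx 𝒪[F] F) := a5_act 𝒪[F] F
  obtain ⟨π, hπ, hfin⟩ := exists_unif F
  have hact : ∀ γ : SL(4, F), ∃ g : GL (Fin 4) F, ∀ x : Vtx 𝒪[F] F, γ • x = g • x :=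
    fun γ => ⟨(γ : GL (Fin 4) F), fun x => rfl⟩
  obtain ⟨S, -⟩ := exists_hiveSpace (v := vLoc F) hact (vLoc_integers F) π hπ
  have hne : Nonempty (Vtx 𝒪[F] F) := ⟨vt (m4_std 𝒪[F] F)⟩
  have hst : ∀ y : Vtx 𝒪[F] F, (MulAction.stabilizer SL(4, F) y : Set SL(4, F)) =
      {g : SL(4, F) | (g : GL (Fin 4) F) • y = y} := fun y => rfl
  refine ⟨Unit, inferInstance, fun _ => Vtx 𝒪[F] F, fun _ => act, fun _ => S, Vtx 𝒪[F] F, act,
    fun _ => hne, fun y => ?_, fun y => ?_, ?_, fun z => ⟨z (), ?_⟩⟩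
  · rw [hst]
    exact a5_isOpen y
  · rw [hst]
    exact a5_isCompact y
  · obtain ⟨s, hs⟩ := sl_orbits (vLoc_integers F) π hπ
    choose g hg using hs
    have h2 : Function.Surjective (fun y : s =>
        (Quotient.mk (MulAction.orbitRel SL(4, F) (Vtx 𝒪[F] F)) (y : Vtx 𝒪[F] F))) := by
      intro q
      induction q using Quotient.inductionOn with
      | h z =>
        refine ⟨⟨_, hg z⟩, ?_⟩
        apply Quotient.sound
        exact ⟨g z, rfl⟩
    exact Finite.of_surjective _ h2
  · intro g hg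
    exact congrFun hg ()
end A

end RapidDecay
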