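import Mathlib
import Pool.Agent.Lib.MP_fee02f_an.Defs
import Pool.Agent.Lib.MP_fee02f_an.DefsA
import Pool.Agent.Lib.MP_fee02f_an.DefsL
import Pool.Agent.Lib.MP_fee02f_an.DefsM
import Pool.Agent.Lib.MP_fee02f_an.M1
import Pool.Agent.Lib.MP_fee02f_an.M2
import Pool.Agent.Lib.MP_fee02f_an.M3
import Pool.Agent.Lib.MP_fee02f_an.L9

/-!
Module A6 of MP_fee02f_an: `PGL_4(F)` is admissible.
-/

open scoped ENNReal WithZero MatrixGroups
open ValuativeRel

namespace RapidDecay

section

variable {O F : Type*} [CommRing O] [Field F] [Algebra O F]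

/-- scalar matrices act trivially on vertices -/
theorem A6_center_smul (z : GL (Fin 4) F) (hz : z ∈ Subgroup.center (GL (Fin 4) F))
    (x : Vtx O F) : z • x = x := by
  obtain ⟨a, ha⟩ := Matrix.GeneralLinearGroup.mem_center_iff_val_mem_range_scalar.1 hz
  have ha0 : a ≠ 0 := by
    rintro rfl
    have h1 : z.1 * (z⁻¹).1 = 1 := by
      rw [← Units.val_mul, mul_inv_cancel, Units.val_one]
    rw [← ha, map_zero, zero_mul] at h1
    exact zero_ne_one h1
  obtain ⟨A, rfl⟩ : ∃ A : Lat O F, vt A = x := ⟨rep x, vt_rep x⟩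
  rw [smul_vt]
  refine (Quotient.sound ⟨a, ha0, ?_⟩ : vt A = vt (z • A)).symm
  rw [latAction_val, ha]

variable (O F) in
/-- `PGL_4(F)` acts on vertices -/
@[reducible] noncomputable def A6_act :
    MulAction (GL (Fin 4) F ⧸ Subgroup.center (GL (Fin 4) F)) (Vtx O F) :=
  MulAction.compHom (Vtx O F) (QuotientGroup.lift (Subgroup.center (GL (Fin 4) F))
    (MulAction.toPermHom (GL (Fin 4) F) (Vtx O F)) (by
      intro z hz
      ext x
      exact A6_center_smul z hz x))

theorem A6_smul (g : GL (Fin 4) F) (x : Vtx O F) :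
    letI := A6_act O F
    ((g : GL (Fin 4) F ⧸ Subgroup.center (GL (Fin 4) F)) • x) = g • x := rfl

end

/-- the standard lattice -/
theorem A6_lat (O F : Type*) [CommRing O] [Field F] [Algebra O F] :
    IsLat (Submodule.span O (Set.range fun i : Fin 4 => (Pi.single i 1 : Fin 4 → F))) := by
  refine ⟨Submodule.fg_span (Set.finite_range _), ?_⟩
  rw [eq_top_iff, ← (Pi.basisFun F (Fin 4)).span_eq]
  refine Submodule.span_mono ?_
  rintro _ ⟨i, rfl⟩
  refine Submodule.subset_span ⟨i, ?_⟩
  rw [Pi.basisFun_apply]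

/-- (module A6) -/
theorem Adm_PGL.{u} (F : Type u) [Field F] [ValuativeRel F] [TopologicalSpace F]
    [IsNonarchimedeanLocalField F] :
    Adm.{u, u} (GL (Fin 4) F ⧸ Subgroup.center (GL (Fin 4) F)) := by
  let act := A6_act 𝒪[F] F
  have hact : ∀ γ : GL (Fin 4) F ⧸ Subgroup.center (GL (Fin 4) F),
      ∃ g : GL (Fin 4) F, ∀ x : Vtx 𝒪[F] F, γ • x = g • x := by
    intro γ
    obtain ⟨g, rfl⟩ := QuotientGroup.mk_surjective γ
    exact ⟨g, fun x => A6_smul g x⟩
  obtain ⟨π, hπ, hfin⟩ := exists_unif F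
  obtain ⟨S, -⟩ := exists_hiveSpace (v := vLoc F) hact (vLoc_integers F) π hπ
  have hpre : ∀ y : Vtx 𝒪[F] F,
      (fun g : GL (Fin 4) F => (g : GL (Fin 4) F ⧸ Subgroup.center (GL (Fin 4) F))) ⁻¹'
        (MulAction.stabilizer (GL (Fin 4) F ⧸ Subgroup.center (GL (Fin 4) F)) y : Set _) =
      (MulAction.stabilizer (GL (Fin 4) F) y : Set (GL (Fin 4) F)) := by
    intro y
    ext g
    constructor
    · intro h
      exact h
    · intro h
      exact h
  refine ⟨Unit, inferInstance, fun _ => Vtx 𝒪[F] F, fun _ => act, fun _ => S, Vtx 𝒪[F] F, act,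
    fun _ => ⟨vt ⟨_, A6_lat 𝒪[F] F⟩⟩, ?_, ?_, ?_, ?_⟩
  · intro y
    have h1 : IsOpen (MulAction.stabilizer (GL (Fin 4) F) y : Set (GL (Fin 4) F)) := by
      refine Subgroup.isOpen_mono (H₁ := MulAction.stabilizer (GL (Fin 4) F) (rep y)) ?_
        (isOpen_stab_lat (rep y))
      intro g hg
      rw [MulAction.mem_stabilizer_iff] at hg ⊢
      have h2 : g • vt (rep y) = vt (rep y) := by rw [smul_vt, hg]
      rwa [vt_rep] at h2
    have h2 := hpre y
    rw [← h2] at h1
    exact h1
  · intro y
    have h1 : (MulAction.stabilizer (GL (Fin 4) F ⧸ Subgroup.center (GL (Fin 4) F)) y : Set _) =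
        (fun g : GL (Fin 4) F => (g : GL (Fin 4) F ⧸ Subgroup.center (GL (Fin 4) F))) ''
          (MulAction.stabilizer (GL (Fin 4) F) (rep y) : Set (GL (Fin 4) F)) := by
      ext γ
      constructor
      · obtain ⟨g, rfl⟩ := QuotientGroup.mk_surjective γ
        intro hg
        have hg' : g • vt (rep y) = vt (rep y) := by
          rw [vt_rep]
          exact hg
        rw [smul_vt] at hg'
        obtain ⟨c, hc, h3⟩ := Quotient.exact hg'
        -- `rep y = c (g rep y)`
        let s : GL (Fin 4) F := Matrix.GeneralLinearGroup.scalar (Fin 4) (Units.mk0 c hc)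
        have hs : s ∈ Subgroup.center (GL (Fin 4) F) := by
          rw [Matrix.GeneralLinearGroup.center_eq_range_scalar]
          exact ⟨Units.mk0 c hc, rfl⟩
        refine ⟨s * g, ?_, ?_⟩
        · show (s * g) • rep y = rep y
          apply Subtype.ext
          rw [mul_smul, latAction_val, h3]
          rfl
        · show ((s * g : GL (Fin 4) F) : GL (Fin 4) F ⧸ Subgroup.center (GL (Fin 4) F)) = g
          rw [QuotientGroup.mk_mul, (QuotientGroup.eq_one_iff s).2 hs, one_mul]
      · rintro ⟨g, hg, rfl⟩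
        show g • y = y
        have hg' : g • rep y = rep y := hg
        have h2 : g • vt (rep y) = vt (rep y) := by rw [smul_vt, hg']
        rwa [vt_rep] at h2
    rw [h1]
    exact (isCompact_stab_lat (rep y)).image continuous_quot_mk
  · have hsub : Subsingleton (MulAction.orbitRel.Quotient
        (GL (Fin 4) F ⧸ Subgroup.center (GL (Fin 4) F)) (Vtx 𝒪[F] F)) := by
      constructor
      intro a b
      induction a using Quotient.inductionOn with
      | _ x =>
      induction b using Quotient.inductionOn with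
      | _ y =>
      apply Quotient.sound
      obtain ⟨g, hg⟩ := lat_transitive (vLoc_integers F) (rep y) (rep x)
      refine ⟨(g : GL (Fin 4) F ⧸ Subgroup.center (GL (Fin 4) F)), ?_⟩
      show g • y = x
      have h2 : g • vt (rep y) = vt (rep x) := by rw [smul_vt, hg]
      rwa [vt_rep, vt_rep] at h2
    infer_instance
  · intro z
    refine ⟨z (), ?_⟩
    intro γ hγ
    exact congrFun hγ ()

end RapidDecay
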