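import Pool.Agent.Lib.MP_fee02f_an.DefsL

/-!
L1: Gauss values of polynomials are multiplicative (MP_fee02f_an).
-/

open scoped WithZero MatrixGroups

namespace RapidDecay

/-! ## L1 Gauss values -/
section L1
variable {O F : Type*} [CommRing O] [Field F] [Algebra O F] {v : Valuation F ℤᵐ⁰}

theorem gn_le_iff {σ : Type*} (p : MvPolynomial σ F) (a : ℤᵐ⁰) :
    gn v p ≤ a ↔ ∀ m, v (p.coeff m) ≤ a := by
  unfold gn
  rw [Finset.sup_le_iff]
  constructor
  · intro h m
    by_cases hm : m ∈ p.support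
    · exact h m hm
    · rw [MvPolynomial.notMem_support_iff.1 hm, map_zero]
      exact zero_le
  · intro h m _
    exact h m

theorem L1_le_gn {σ : Type*} (p : MvPolynomial σ F) (m : σ →₀ ℕ) : v (p.coeff m) ≤ gn v p :=
  (gn_le_iff p _).1 le_rfl m

theorem gn_add_le {σ : Type*} (p q : MvPolynomial σ F) :
    gn v (p + q) ≤ max (gn v p) (gn v q) := by
  rw [gn_le_iff]
  intro m
  rw [MvPolynomial.coeff_add]
  exact (v.map_add _ _).trans (max_le_max (L1_le_gn p m) (L1_le_gn q m))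

theorem gn_neg {σ : Type*} (p : MvPolynomial σ F) : gn v (-p) = gn v p := by
  apply le_antisymm
  · rw [gn_le_iff]
    intro m
    rw [MvPolynomial.coeff_neg, Valuation.map_neg]
    exact L1_le_gn p m
  · rw [gn_le_iff]
    intro m
    have h := L1_le_gn (v := v) (-p) m
    rwa [MvPolynomial.coeff_neg, Valuation.map_neg] at h

theorem gn_eq_zero {σ : Type*} (p : MvPolynomial σ F) : gn v p = 0 ↔ p = 0 := by
  constructor
  · intro h
    ext m
    have h1 := L1_le_gn (v := v) p m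
    rw [h, le_zero_iff, map_eq_zero] at h1
    rw [h1, MvPolynomial.coeff_zero]
  · rintro rfl
    unfold gn
    simp

theorem L1_exists {σ : Type*} {p : MvPolynomial σ F} (hp : p ≠ 0) :
    ∃ m, p.coeff m ≠ 0 ∧ gn v p = v (p.coeff m) := by
  have hne : p.support.Nonempty := by
    rw [Finset.nonempty_iff_ne_empty]
    intro h
    exact hp (MvPolynomial.support_eq_empty.1 h)
  obtain ⟨m, hm, h⟩ := Finset.exists_mem_eq_sup p.support hne (fun m => v (p.coeff m))
  exact ⟨m, MvPolynomial.mem_support_iff.1 hm, h⟩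

theorem L1_mul_le {σ : Type*} (p q : MvPolynomial σ F) : gn v (p * q) ≤ gn v p * gn v q := by
  classical
  rw [gn_le_iff]
  intro m
  rw [MvPolynomial.coeff_mul]
  apply v.map_sum_le
  intro x _
  rw [map_mul]
  exact mul_le_mul' (L1_le_gn p _) (L1_le_gn q _)

/-- the ideal of elements of value less than one -/
def L1_I (hv : v.Integers O) : Ideal O where
  carrier := {x | v (algebraMap O F x) < 1}
  add_mem' := by
    intro a b ha hb
    simp only [Set.mem_ofPred_eq] at ha hb ⊢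
    rw [map_add]
    exact v.map_add_lt ha hb
  zero_mem' := by
    simp
  smul_mem' := by
    intro c x hx
    simp only [Set.mem_ofPred_eq] at hx ⊢
    rw [smul_eq_mul, map_mul, map_mul]
    calc v (algebraMap O F c) * v (algebraMap O F x) ≤ 1 * v (algebraMap O F x) :=
          mul_le_mul_left (hv.map_le_one c) _
      _ < 1 := by rwa [one_mul]

theorem L1_mem (hv : v.Integers O) (x : O) : x ∈ L1_I hv ↔ v (algebraMap O F x) < 1 := Iff.rfl

theorem L1_prime (hv : v.Integers O) : (L1_I hv).IsPrime := by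
  refine ⟨?_, ?_⟩
  · intro h
    have h1 : (1 : O) ∈ L1_I hv := by rw [h]; exact Submodule.mem_top
    rw [L1_mem] at h1
    simp at h1
  · intro x y hxy
    rw [L1_mem] at hxy
    rw [L1_mem, L1_mem]
    by_contra hcon
    push Not at hcon
    have hx : v (algebraMap O F x) = 1 := le_antisymm (hv.map_le_one x) hcon.1
    have hy : v (algebraMap O F y) = 1 := le_antisymm (hv.map_le_one y) hcon.2
    rw [map_mul, map_mul, hx, hy, one_mul] at hxy
    exact lt_irrefl _ hxy

theorem L1_lift (hv : v.Integers O) {σ : Type*} (p : MvPolynomial σ F)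
    (h : ∀ m, v (p.coeff m) ≤ 1) :
    ∃ p' : MvPolynomial σ O, MvPolynomial.map (algebraMap O F) p' = p := by
  classical
  have h1 : ∀ m, ∃ c : O, algebraMap O F c = p.coeff m := fun m => hv.exists_of_le_one (h m)
  choose c hc using h1
  refine ⟨∑ m ∈ p.support, MvPolynomial.monomial m (c m), ?_⟩
  rw [map_sum]
  simp only [MvPolynomial.map_monomial, hc]
  exact (MvPolynomial.as_sum p).symm

/-- two normalised polynomials -/
theorem L1_norm (hv : v.Integers O) {σ : Type*} (p q : MvPolynomial σ F)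
    (hp : ∀ m, v (p.coeff m) ≤ 1) (hq : ∀ m, v (q.coeff m) ≤ 1) {mp mq : σ →₀ ℕ}
    (hmp : v (p.coeff mp) = 1) (hmq : v (q.coeff mq) = 1) :
    ∃ m, v ((p * q).coeff m) = 1 := by
  classical
  obtain ⟨p', rfl⟩ := L1_lift hv p hp
  obtain ⟨q', rfl⟩ := L1_lift hv q hq
  have := L1_prime hv
  have hne : ∀ (r : MvPolynomial σ O) (m : σ →₀ ℕ),
      v ((MvPolynomial.map (algebraMap O F) r).coeff m) = 1 →
      MvPolynomial.map (Ideal.Quotient.mk (L1_I hv)) r ≠ 0 := by
    intro r m hm h0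
    have h2 : (MvPolynomial.map (Ideal.Quotient.mk (L1_I hv)) r).coeff m = 0 := by
      rw [h0, MvPolynomial.coeff_zero]
    rw [MvPolynomial.coeff_map, Ideal.Quotient.eq_zero_iff_mem, L1_mem] at h2
    rw [MvPolynomial.coeff_map] at hm
    rw [hm] at h2
    exact lt_irrefl _ h2
  have h3 : MvPolynomial.map (Ideal.Quotient.mk (L1_I hv)) (p' * q') ≠ 0 := by
    rw [map_mul]
    exact mul_ne_zero (hne p' mp hmp) (hne q' mq hmq)
  obtain ⟨m, hm⟩ := MvPolynomial.ne_zero_iff.1 h3
  refine ⟨m, ?_⟩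
  rw [MvPolynomial.coeff_map] at hm
  have h4 : (p' * q').coeff m ∉ L1_I hv := fun h => hm (Ideal.Quotient.eq_zero_iff_mem.2 h)
  rw [L1_mem, not_lt] at h4
  rw [← map_mul, MvPolynomial.coeff_map]
  exact le_antisymm (hv.map_le_one _) h4

theorem gn_mul (hv : v.Integers O) {σ : Type*} (p q : MvPolynomial σ F) :
    gn v (p * q) = gn v p * gn v q := by
  by_cases hp : p = 0
  · subst hp
    rw [zero_mul, (gn_eq_zero (v := v) 0).2 rfl, zero_mul]
  by_cases hq : q = 0
  · subst hq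
    rw [mul_zero, (gn_eq_zero (v := v) 0).2 rfl, mul_zero]
  apply le_antisymm (L1_mul_le p q)
  obtain ⟨mp, hcp, hmp⟩ := L1_exists (v := v) hp
  obtain ⟨mq, hcq, hmq⟩ := L1_exists (v := v) hq
  have hvp : v (p.coeff mp) ≠ 0 := v.ne_zero_iff.2 hcp
  have hvq : v (q.coeff mq) ≠ 0 := v.ne_zero_iff.2 hcq
  have hnorm : ∀ (r : MvPolynomial σ F) (mr : σ →₀ ℕ), r.coeff mr ≠ 0 →
      gn v r = v (r.coeff mr) → (∀ m, v ((MvPolynomial.C (r.coeff mr)⁻¹ * r).coeff m) ≤ 1) ∧
      v ((MvPolynomial.C (r.coeff mr)⁻¹ * r).coeff mr) = 1 := by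
    intro r mr hr hgr
    have hv0 : v (r.coeff mr) ≠ 0 := v.ne_zero_iff.2 hr
    constructor
    · intro m
      rw [MvPolynomial.coeff_C_mul, map_mul, map_inv₀]
      have h5 := L1_le_gn (v := v) r m
      rw [hgr] at h5
      calc (v (r.coeff mr))⁻¹ * v (r.coeff m) ≤ (v (r.coeff mr))⁻¹ * v (r.coeff mr) :=
            mul_le_mul_right h5 _
        _ = 1 := inv_mul_cancel₀ hv0
    · rw [MvPolynomial.coeff_C_mul, inv_mul_cancel₀ hr, map_one]
  obtain ⟨m, hm⟩ := L1_norm hv _ _ (hnorm p mp hcp hmp).1 (hnorm q mq hcq hmq).1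
    (hnorm p mp hcp hmp).2 (hnorm q mq hcq hmq).2
  have h6 : MvPolynomial.C (p.coeff mp)⁻¹ * p * (MvPolynomial.C (q.coeff mq)⁻¹ * q) =
      MvPolynomial.C ((p.coeff mp)⁻¹ * (q.coeff mq)⁻¹) * (p * q) := by
    rw [map_mul]; ring
  rw [h6, MvPolynomial.coeff_C_mul, map_mul, map_mul, map_inv₀, map_inv₀] at hm
  have h7 : v ((p * q).coeff m) = v (p.coeff mp) * v (q.coeff mq) := by
    calc v ((p * q).coeff m) = (v (p.coeff mp) * v (q.coeff mq)) *
          ((v (p.coeff mp))⁻¹ * (v (q.coeff mq))⁻¹ * v ((p * q).coeff m)) := by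
          rw [← mul_assoc]
          rw [show v (p.coeff mp) * v (q.coeff mq) * ((v (p.coeff mp))⁻¹ * (v (q.coeff mq))⁻¹) =
            (v (p.coeff mp) * (v (p.coeff mp))⁻¹) * (v (q.coeff mq) * (v (q.coeff mq))⁻¹) from
            mul_mul_mul_comm _ _ _ _, mul_inv_cancel₀ hvp, mul_inv_cancel₀ hvq, one_mul, one_mul]
      _ = v (p.coeff mp) * v (q.coeff mq) := by rw [hm, mul_one]
  rw [hmp, hmq, ← h7]
  exact L1_le_gn (p * q) m

end L1

end RapidDecay
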