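import Mathlib
import Pool.Agent.Lib.MP_fee02f_an.M1
import Pool.Agent.Lib.MP_fee02f_an.M3

/-!
Finite subgroups of `GL_4` over a local field of characteristic zero (MP_fee02f_an, module M10a).
-/

open scoped WithZero MatrixGroups
open ValuativeRel

namespace RapidDecay

namespace M10a

theorem pow_expand {F : Type*} [Field F] (v : Valuation F ℤᵐ⁰) (X : Matrix (Fin 4) (Fin 4) F)
    (hX : ∀ i j, v (X i j) ≤ 1) (l : ℕ) :
    ∃ Z : Matrix (Fin 4) (Fin 4) F, (∀ i j, v (Z i j) ≤ 1) ∧
      (1 + X) ^ l = 1 + (l : F) • X + X * X * Z := by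
  induction l with
  | zero => exact ⟨0, by simp, by simp⟩
  | succ l ih =>
    obtain ⟨Z, hZ, h⟩ := ih
    refine ⟨(l : F) • 1 + Z + Z * X, ?_, ?_⟩
    · intro i j
      rw [Matrix.add_apply, Matrix.add_apply, Matrix.mul_apply]
      refine (v.map_add _ _).trans (max_le ((v.map_add _ _).trans (max_le ?_ (hZ i j))) ?_)
      · rw [Matrix.smul_apply, smul_eq_mul, map_mul]
        have h1 : v (l : F) ≤ 1 := by
          clear h
          induction l with
          | zero => simp
          | succ l ih =>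
            rw [Nat.cast_succ]
            exact (v.map_add _ _).trans (max_le ih (by simp))
        have h2 : v ((1 : Matrix (Fin 4) (Fin 4) F) i j) ≤ 1 := by
          rw [Matrix.one_apply]
          split_ifs <;> simp
        exact mul_le_one' h1 h2
      · apply v.map_sum_le
        intro k _
        rw [map_mul]
        exact mul_le_one' (hZ i k) (hX k j)
    · rw [pow_succ, h]
      push_cast
      simp only [mul_add, add_mul, mul_one, one_mul, Matrix.mul_smul, Matrix.smul_mul, add_smul,
        one_smul, Matrix.mul_assoc]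
      abel

theorem eq_zero {F : Type*} [Field F] (v : Valuation F ℤᵐ⁰) (X : Matrix (Fin 4) (Fin 4) F)
    (a : ℤᵐ⁰) (ha : a ≤ 1) (hX : ∀ i j, v (X i j) ≤ a) (l : ℕ) (hl : a < v (l : F))
    (h : (1 + X) ^ l = 1) : X = 0 := by
  by_contra hne
  obtain ⟨Z, hZ, hz⟩ := pow_expand v X (fun i j => (hX i j).trans ha) l
  rw [h] at hz
  have h1 : (l : F) • X = - (X * X * Z) := by
    have h2 : (l : F) • X + X * X * Z = 0 := by
      have h3 : (1 : Matrix (Fin 4) (Fin 4) F) + ((l : F) • X + X * X * Z) = 1 + 0 := by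
        rw [← add_assoc, ← hz, add_zero]
      exact add_left_cancel h3
    exact eq_neg_of_add_eq_zero_left h2
  obtain ⟨⟨i0, j0⟩, -, hmax⟩ := Finset.exists_max_image (Finset.univ : Finset (Fin 4 × Fin 4))
    (fun p => v (X p.1 p.2)) ⟨(0, 0), Finset.mem_univ _⟩
  have hm : ∀ i j, v (X i j) ≤ v (X i0 j0) := fun i j => hmax (i, j) (Finset.mem_univ _)
  have hw : v (X i0 j0) ≠ 0 := by
    intro h0
    apply hne
    ext i j
    have h2 := hm i j
    rw [h0, le_zero_iff, Valuation.zero_iff] at h2
    simpa using h2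
  have h2 : v ((X * X * Z) i0 j0) ≤ v (X i0 j0) * v (X i0 j0) := by
    rw [Matrix.mul_apply]
    apply v.map_sum_le
    intro k _
    rw [map_mul]
    calc v ((X * X) i0 k) * v (Z k j0) ≤ (v (X i0 j0) * v (X i0 j0)) * 1 := by
          apply mul_le_mul' _ (hZ k j0)
          rw [Matrix.mul_apply]
          apply v.map_sum_le
          intro m _
          rw [map_mul]
          exact mul_le_mul' (hm _ _) (hm _ _)
      _ = _ := mul_one _
  have h3 : v (((l : F) • X) i0 j0) = v (l : F) * v (X i0 j0) := by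
    rw [Matrix.smul_apply, smul_eq_mul, map_mul]
  rw [h1, Matrix.neg_apply, Valuation.map_neg] at h3
  rw [h3] at h2
  have h4 : v (l : F) ≤ v (X i0 j0) := le_of_mul_le_mul_right h2 (zero_lt_iff.mpr hw)
  exact absurd (h4.trans (hX i0 j0)) (not_le.mpr hl)

/-- a bound for the values of the prime numbers -/
theorem exists_low {F : Type*} [Field F] [CharZero F] (v : Valuation F ℤᵐ⁰) :
    ∃ N : ℕ, ∀ l : ℕ, l.Prime → WithZero.exp (-(N : ℤ)) < v (l : F) := by
  by_cases h : ∃ p : ℕ, p.Prime ∧ v (p : F) < 1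
  · obtain ⟨p, hp, hp1⟩ := h
    have hp0 : v (p : F) ≠ 0 := by
      rw [Valuation.ne_zero_iff]
      exact_mod_cast hp.ne_zero
    obtain ⟨m, hm⟩ : ∃ m : ℤ, v (p : F) = WithZero.exp m :=
      ⟨WithZero.log (v (p : F)), (WithZero.exp_log hp0).symm⟩
    refine ⟨(1 - m).toNat + 1, ?_⟩
    intro l hl
    by_cases hlp : l = p
    · subst hlp
      rw [hm, WithZero.exp_lt_exp]
      have := Int.self_le_toNat (1 - m)
      push_cast
      linarith
    · have hco : Nat.Coprime l p := (Nat.coprime_primes hl hp).mpr hlp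
      have hle : ∀ n : ℤ, v (n : F) ≤ 1 := by
        intro n
        induction n using Int.induction_on with
        | zero => simp
        | succ n ih =>
          push_cast at ih ⊢
          exact (v.map_add _ _).trans (max_le ih (by simp))
        | pred n ih =>
          push_cast at ih ⊢
          exact (v.map_sub _ _).trans (max_le ih (by simp))
      have h1 : v (l : F) = 1 := by
        apply le_antisymm
        · exact_mod_cast hle l
        · by_contra hlt
          push Not at hlt
          have hb := Nat.gcd_eq_gcd_ab l p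
          rw [hco] at hb
          have h2 : (1 : F) = (l : F) * (Nat.gcdA l p : F) + (p : F) * (Nat.gcdB l p : F) := by
            exact_mod_cast congrArg (Int.cast : ℤ → F) hb
          have h3 : v (1 : F) < 1 := by
            rw [h2]
            apply (v.map_add _ _).trans_lt
            rw [max_lt_iff, map_mul, map_mul]
            exact ⟨mul_lt_one_of_lt_of_le hlt (hle _), mul_lt_one_of_lt_of_le hp1 (hle _)⟩
          rw [map_one] at h3
          exact lt_irrefl _ h3
      rw [h1, ← WithZero.exp_zero, WithZero.exp_lt_exp]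
      push_cast
      linarith [(Nat.cast_nonneg (1 - m).toNat : (0 : ℤ) ≤ _)]
  · push Not at h
    refine ⟨1, fun l hl => lt_of_lt_of_le ?_ (h l hl)⟩
    rw [← WithZero.exp_zero, WithZero.exp_lt_exp]
    norm_num

/-- the standard module -/
def stdM (O F : Type*) [CommRing O] [Field F] [Algebra O F] : Submodule O (Fin 4 → F) :=
  LinearMap.range ((Algebra.linearMap O F).compLeft (Fin 4))

theorem mem_stdM {O F : Type*} [CommRing O] [Field F] [Algebra O F] (x : Fin 4 → F) :
    x ∈ stdM O F ↔ ∃ y : Fin 4 → O, ∀ i, algebraMap O F (y i) = x i := by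
  unfold stdM
  rw [LinearMap.mem_range]
  constructor
  · rintro ⟨y, rfl⟩
    exact ⟨y, fun i => rfl⟩
  · rintro ⟨y, hy⟩
    exact ⟨y, funext hy⟩

theorem isLat_stdM (O F : Type*) [CommRing O] [Field F] [Algebra O F] : IsLat (stdM O F) := by
  refine ⟨?_, ?_⟩
  · unfold stdM
    rw [LinearMap.range_eq_map]
    exact (Module.Finite.fg_top (R := O) (M := Fin 4 → O)).map _
  · rw [eq_top_iff]
    intro x _
    have h1 : x = ∑ i, x i • (Pi.single i (1 : F) : Fin 4 → F) := by
      ext j
      simp [Finset.sum_apply, Pi.single_apply]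
    rw [h1]
    apply Submodule.sum_mem
    intro i _
    apply Submodule.smul_mem
    apply Submodule.subset_span
    change _ ∈ stdM O F
    rw [mem_stdM]
    refine ⟨Pi.single i 1, ?_⟩
    intro j
    by_cases hij : j = i
    · subst hij
      simp
    · simp [hij]

/-- a finite group of matrices over the valuation ring, congruent to one only if equal to one -/
theorem card_le_of_std {O F : Type*} [CommRing O] [Field F] [Algebra O F] [CharZero F]
    {v : Valuation F ℤᵐ⁰} (hv : v.Integers O) (N : ℕ)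
    (hN : ∀ l : ℕ, l.Prime → WithZero.exp (-(N : ℤ)) < v (l : F))
    (I : Ideal O) (hI : ∀ x ∈ I, v (algebraMap O F x) ≤ WithZero.exp (-(N : ℤ)))
    [Finite (O ⧸ I)] (H : Type*) [Group H] [Finite H]
    (ρ : H →* Matrix (Fin 4) (Fin 4) F) (hρ : Function.Injective ρ)
    (hint : ∀ g i j, ∃ a : O, algebraMap O F a = ρ g i j) :
    Nat.card H ≤ Nat.card (Matrix (Fin 4) (Fin 4) (O ⧸ I)) := by
  choose M hM using hint
  have hexp : (WithZero.exp (-(N : ℤ)) : ℤᵐ⁰) ≤ 1 := by
    rw [← WithZero.exp_zero, WithZero.exp_le_exp]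
    simp
  have hone : ∀ g : H, (∀ i j, v ((ρ g - 1) i j) ≤ WithZero.exp (-(N : ℤ))) → g = 1 := by
    intro k hk
    by_contra hne
    have hd : orderOf k ≠ 1 := by
      rwa [Ne, orderOf_eq_one_iff]
    have hd0 : 0 < orderOf k := orderOf_pos k
    set l := (orderOf k).minFac with hl
    have hlp : l.Prime := Nat.minFac_prime hd
    have hld : l ∣ orderOf k := Nat.minFac_dvd _
    set k' := k ^ (orderOf k / l) with hk'
    have hord : orderOf k' = l := orderOf_pow_orderOf_div hd0.ne' hld
    have hk1 : ∀ n : ℕ, ∀ i j, v ((ρ (k ^ n) - 1) i j) ≤ WithZero.exp (-(N : ℤ)) := by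
      intro n
      induction n with
      | zero => intro i j; simp
      | succ n ih =>
        intro i j
        have h1 : ρ (k ^ (n + 1)) - 1 = ρ (k ^ n) * (ρ k - 1) + (ρ (k ^ n) - 1) := by
          rw [pow_succ, map_mul, mul_sub, mul_one]
          abel
        rw [h1, Matrix.add_apply, Matrix.mul_apply]
        refine (v.map_add _ _).trans (max_le ?_ (ih i j))
        apply v.map_sum_le
        intro m _
        rw [map_mul]
        calc v (ρ (k ^ n) i m) * v ((ρ k - 1) m j) ≤ 1 * WithZero.exp (-(N : ℤ)) := by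
              apply mul_le_mul' _ (hk m j)
              rw [← hM]
              exact hv.map_le_one _
          _ = _ := one_mul _
    have h2 := eq_zero v (ρ k' - 1) _ hexp (hk1 _) l (hN l hlp) (by
      rw [add_sub_cancel, ← map_pow, ← hord, pow_orderOf_eq_one, map_one])
    have h3 : ρ k' = ρ 1 := by
      rw [map_one]
      exact sub_eq_zero.mp h2
    have h4 := hρ h3
    rw [h4, orderOf_one] at hord
    exact hlp.ne_one hord.symm
  apply Nat.card_le_card_of_injective
    (fun g : H => (Matrix.of (M g)).map (Ideal.Quotient.mk I))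
  intro g g' hgg
  have hgg' : ∀ i j, Ideal.Quotient.mk I (M g i j) = Ideal.Quotient.mk I (M g' i j) := by
    intro i j
    exact congrFun (congrFun hgg i) j
  have h1 : g'⁻¹ * g = 1 := by
    apply hone
    intro i j
    have h2 : ρ (g'⁻¹ * g) - 1 = ρ g'⁻¹ * (ρ g - ρ g') := by
      rw [mul_sub, ← map_mul, ← map_mul, inv_mul_cancel, map_one]
    rw [h2, Matrix.mul_apply]
    apply v.map_sum_le
    intro m _
    rw [map_mul]
    calc v (ρ g'⁻¹ i m) * v ((ρ g - ρ g') m j) ≤ 1 * WithZero.exp (-(N : ℤ)) := by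
          apply mul_le_mul'
          · rw [← hM]
            exact hv.map_le_one _
          · rw [Matrix.sub_apply, ← hM, ← hM, ← map_sub]
            apply hI
            exact Ideal.Quotient.eq.mp (hgg' m j)
      _ = _ := one_mul _
  exact (inv_mul_eq_one.mp h1).symm

end M10a

theorem char_zero_bound (F : Type*) [Field F] [ValuativeRel F] [TopologicalSpace F]
    [IsNonarchimedeanLocalField F] [CharZero F] : ∃ b : ℕ, ∀ (H : Subgroup (GL (Fin 4) F))
    (A : Lat 𝒪[F] F), Finite H → (∀ g ∈ H, g • A = A) → Nat.card H ≤ b := by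
  obtain ⟨π, hπ, hfin⟩ := exists_unif F
  have hv := vLoc_integers F
  obtain ⟨N, hN⟩ := M10a.exists_low (vLoc F)
  set I : Ideal 𝒪[F] := (Ideal.span {π}) ^ N with hI
  have hfinI : Finite (𝒪[F] ⧸ I) := by
    apply Ideal.finite_quotient_pow
    exact ⟨{π}, by simp⟩
  have hIv : ∀ x ∈ I, vLoc F (algebraMap 𝒪[F] F x) ≤ WithZero.exp (-(N : ℤ)) := by
    intro x hx
    rw [hI, Ideal.span_singleton_pow, Ideal.mem_span_singleton] at hx
    obtain ⟨y, rfl⟩ := hx
    rw [map_mul, map_mul, map_pow, map_pow, hπ, ← WithZero.exp_nsmul]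
    calc WithZero.exp (N • (-1 : ℤ)) * vLoc F (algebraMap 𝒪[F] F y)
        ≤ WithZero.exp (N • (-1 : ℤ)) * 1 := mul_le_mul_right (hv.map_le_one y) _
      _ = WithZero.exp (-(N : ℤ)) := by simp
  refine ⟨Nat.card (Matrix (Fin 4) (Fin 4) (𝒪[F] ⧸ I)), ?_⟩
  intro H A hH hA
  obtain ⟨h, hh⟩ := lat_transitive hv (⟨M10a.stdM 𝒪[F] F, M10a.isLat_stdM _ _⟩ : Lat 𝒪[F] F) A
  let ρ : H →* Matrix (Fin 4) (Fin 4) F :=
    { toFun := fun g => (h⁻¹ * (g : GL (Fin 4) F) * h).1
      map_one' := by simp
      map_mul' := by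
        intro a b
        rw [← Units.val_mul]
        congr 1
        simp [mul_assoc] }
  have hρ : Function.Injective ρ := by
    intro a b hab
    have h1 : h⁻¹ * (a : GL (Fin 4) F) * h = h⁻¹ * (b : GL (Fin 4) F) * h := Units.ext hab
    have h2 : (a : GL (Fin 4) F) = (b : GL (Fin 4) F) :=
      mul_left_cancel (mul_right_cancel h1)
    exact Subtype.ext h2
  refine M10a.card_le_of_std hv N hN I hIv H ρ hρ ?_
  intro g i j
  have h1 : (h⁻¹ * (g : GL (Fin 4) F) * h) •
      (⟨M10a.stdM 𝒪[F] F, M10a.isLat_stdM _ _⟩ : Lat 𝒪[F] F) =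
      ⟨M10a.stdM 𝒪[F] F, M10a.isLat_stdM _ _⟩ := by
    rw [mul_smul, mul_smul, hh, hA g g.2, ← hh, inv_smul_smul]
  have h2 := congrArg Subtype.val h1
  rw [latAction_val] at h2
  have h3 : (Pi.single j (1 : F) : Fin 4 → F) ∈ M10a.stdM 𝒪[F] F := by
    rw [M10a.mem_stdM]
    refine ⟨Pi.single j 1, ?_⟩
    intro k
    by_cases hkj : k = j
    · subst hkj
      simp
    · simp [hkj]
  have h4 : (ρ g).mulVec (Pi.single j (1 : F)) ∈ M10a.stdM 𝒪[F] F := by
    have h5 : (ρ g).mulVec (Pi.single j (1 : F)) ∈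
        gact (h⁻¹ * (g : GL (Fin 4) F) * h).1 (M10a.stdM 𝒪[F] F) :=
      ⟨_, h3, rfl⟩
    rwa [h2] at h5
  rw [M10a.mem_stdM] at h4
  obtain ⟨y, hy⟩ := h4
  refine ⟨y i, ?_⟩
  rw [hy i, Matrix.mulVec_single_one]
  rfl

end RapidDecay
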