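import Mathlib
import Pool.Agent.Lib.MP_fee02f_an.Defs
import Pool.Agent.Lib.MP_fee02f_an.DefsL
import Pool.Agent.Lib.MP_fee02f_an.DefsM
import Pool.Agent.Lib.MP_fee02f_an.M1
import Pool.Agent.Lib.MP_fee02f_an.L9
import Pool.Agent.Lib.MP_fee02f_an.R12

/-!
Module M6: rapid decay for groups acting on products of buildings (MP_fee02f_an).
-/

open scoped ENNReal WithZero MatrixGroups
open ValuativeRel

namespace RapidDecay

/-- the standard lattice -/
theorem M6_lat (O F : Type*) [CommRing O] [Field F] [Algebra O F] :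
    IsLat (Submodule.span O (Set.range fun i : Fin 4 => (Pi.single i 1 : Fin 4 → F))) := by
  refine ⟨Submodule.fg_span (Set.finite_range _), ?_⟩
  rw [eq_top_iff, ← (Pi.basisFun F (Fin 4)).span_eq]
  refine Submodule.span_mono ?_
  rintro _ ⟨i, rfl⟩
  refine Submodule.subset_span ⟨i, ?_⟩
  rw [Pi.basisFun_apply]

theorem rd_action {Γ : Type*} [Group Γ] {ι : Type*} [Fintype ι] (F : ι → Type*)
    [∀ i, Field (F i)] [∀ i, ValuativeRel (F i)] [∀ i, TopologicalSpace (F i)]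
    [∀ i, IsNonarchimedeanLocalField (F i)] [∀ i, MulAction Γ (Vtx 𝒪[F i] (F i))]
    (hact : ∀ i (γ : Γ), ∃ g : GL (Fin 4) (F i), ∀ x : Vtx 𝒪[F i] (F i), γ • x = g • x)
    (b : ℕ) (hb : ∀ y : (∀ i, Vtx 𝒪[F i] (F i)), Finite (MulAction.stabilizer Γ y) ∧
      Nat.card (MulAction.stabilizer Γ y) ≤ b) : PropertyRD Γ := by
  have hS : ∀ i, Nonempty (HiveSpace Γ (Vtx 𝒪[F i] (F i))) := by
    intro i
    obtain ⟨π, hπ, hfin⟩ := exists_unif (F i)
    obtain ⟨S, -⟩ := exists_hiveSpace (v := vLoc (F i)) (hact i) (vLoc_integers (F i)) π hπ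
    exact ⟨S⟩
  let S : ∀ i, HiveSpace Γ (Vtx 𝒪[F i] (F i)) := fun i => Classical.choice (hS i)
  let x0 : ∀ i, Vtx 𝒪[F i] (F i) := fun i => vt ⟨_, M6_lat 𝒪[F i] (F i)⟩
  exact ⟨_, rd_of_hive S x0 b hb⟩

end RapidDecay
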