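import Mathlib
import Pool.Agent.Lib.MP_fee02f_an.Defs
import Pool.Agent.Lib.MP_fee02f_an.DefsL
import Pool.Agent.Lib.MP_fee02f_an.DefsM
import Pool.Agent.Lib.MP_fee02f_an.M1
import Pool.Agent.Lib.MP_fee02f_an.M2
import Pool.Agent.Lib.MP_fee02f_an.M3
import Pool.Agent.Lib.MP_fee02f_an.M4
import Pool.Agent.Lib.MP_fee02f_an.M5
import Pool.Agent.Lib.MP_fee02f_an.M6

/-!
M7: subgroups of products of groups `GL_4(F_i)`.
-/

set_option autoImplicit false

open scoped ENNReal WithZero MatrixGroups
open ValuativeRel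

namespace RapidDecay

section

variable {F : Type*} [Field F]

theorem M7_dg_one : dg (1 : Fˣ) = (1 : GL (Fin 4) F) := by
  apply Units.ext
  change Matrix.diagonal _ = 1
  rw [← Matrix.diagonal_one]
  congr 1
  ext i
  fin_cases i <;> simp

variable (F) in
/-- the homomorphism `c ↦ diag(c, 1, 1, 1)` -/
noncomputable def M7_dgHom : Fˣ →* GL (Fin 4) F where
  toFun := dg
  map_one' := M7_dg_one
  map_mul' := m4_dg_mul

variable (F) in
/-- the identity or the map `g ↦ diag(det g, 1, 1, 1)` -/
noncomputable def M7_hom : Bool → (GL (Fin 4) F →* GL (Fin 4) F)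
  | true => MonoidHom.id _
  | false => (M7_dgHom F).comp Matrix.GeneralLinearGroup.det

theorem M7_hom_true (g : GL (Fin 4) F) : M7_hom F true g = g := rfl

theorem M7_hom_false (g : GL (Fin 4) F) :
    M7_hom F false g = dg (Matrix.GeneralLinearGroup.det g) := rfl

end

theorem rd_of_lat_bound {ι : Type*} [Fintype ι] (F : ι → Type*)
    [∀ i, Field (F i)] [∀ i, ValuativeRel (F i)] [∀ i, TopologicalSpace (F i)]
    [∀ i, IsNonarchimedeanLocalField (F i)] (Γ : Subgroup (∀ i, GL (Fin 4) (F i))) (b : ℕ)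
    (hb : ∀ A : (∀ i, Lat 𝒪[F i] (F i)), Finite (MulAction.stabilizer Γ A) ∧
      Nat.card (MulAction.stabilizer Γ A) ≤ b) : PropertyRD Γ := by
  let act : ∀ j : ι × Bool, MulAction Γ (Vtx 𝒪[F j.1] (F j.1)) := fun j =>
    MulAction.compHom _ ((M7_hom (F j.1) j.2).comp
      ((Pi.evalMonoidHom (fun i => GL (Fin 4) (F i)) j.1).comp Γ.subtype))
  have hsm : ∀ (j : ι × Bool) (γ : Γ) (x : Vtx 𝒪[F j.1] (F j.1)),
      γ • x = M7_hom (F j.1) j.2 (γ.1 j.1) • x := fun j γ x => rfl
  refine rd_action (ι := ι × Bool) (fun j => F j.1) (fun j γ => ⟨_, hsm j γ⟩) b ?_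
  intro y
  let A : ∀ i, Lat 𝒪[F i] (F i) := fun i => rep (y (i, true))
  have hle : MulAction.stabilizer Γ y ≤ MulAction.stabilizer Γ A := by
    intro γ hγ
    rw [MulAction.mem_stabilizer_iff] at hγ ⊢
    funext i
    have h1 : γ • y (i, true) = y (i, true) := congrFun hγ (i, true)
    have h2 : γ • y (i, false) = y (i, false) := congrFun hγ (i, false)
    rw [hsm, M7_hom_true] at h1
    rw [hsm, M7_hom_false] at h2
    have h3 : vLoc (F i) ((Matrix.GeneralLinearGroup.det (γ.1 i) : (F i)ˣ) : F i) = 1 :=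
      dg_fix (vLoc_integers (F i)) _ _ h2
    have h4 : vLoc (F i) (γ.1 i).1.det = 1 := h3
    show γ.1 i • rep (y (i, true)) = rep (y (i, true))
    refine fix_lat_of_fix_vt (vLoc_integers (F i)) _ _ ?_ h4
    rw [vt_rep]
    exact h1
  obtain ⟨hf, hc⟩ := hb A
  exact ⟨Finite.of_injective _ (Subgroup.inclusion_injective hle),
    (Nat.card_le_card_of_injective _ (Subgroup.inclusion_injective hle)).trans hc⟩

theorem rd_GL {ι : Type*} [Fintype ι] (F : ι → Type*)
    [∀ i, Field (F i)] [∀ i, ValuativeRel (F i)] [∀ i, TopologicalSpace (F i)]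
    [∀ i, IsNonarchimedeanLocalField (F i)] (Γ : Subgroup (∀ i, GL (Fin 4) (F i)))
    [DiscreteTopology Γ] [CompactSpace ((∀ i, GL (Fin 4) (F i)) ⧸ Γ)] : PropertyRD Γ := by
  have ht : ∀ i, T2Space (F i) := fun i => M2_t2 (F i)
  have hst : ∀ A : (∀ i, Lat 𝒪[F i] (F i)),
      (MulAction.stabilizer (∀ i, GL (Fin 4) (F i)) A : Set (∀ i, GL (Fin 4) (F i))) =
      Set.pi Set.univ (fun i => (MulAction.stabilizer (GL (Fin 4) (F i)) (A i) :
        Set (GL (Fin 4) (F i)))) := by
    intro A
    ext g
    constructor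
    · intro h i _
      exact congrFun h i
    · intro h
      exact funext (fun i => h i (Set.mem_univ i))
  obtain ⟨b, hb⟩ := bounded_stab (G := ∀ i, GL (Fin 4) (F i)) (Y := ∀ i, Lat 𝒪[F i] (F i))
    (by
      intro A
      rw [hst]
      exact isOpen_set_pi Set.finite_univ (fun i _ => isOpen_stab_lat (A i)))
    (by
      intro A
      rw [hst]
      exact isCompact_univ_pi (fun i => isCompact_stab_lat (A i)))
    (by
      have : Subsingleton (MulAction.orbitRel.Quotient (∀ i, GL (Fin 4) (F i))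
          (∀ i, Lat 𝒪[F i] (F i))) := by
        constructor
        intro p q
        induction p using Quotient.inductionOn with
        | h A =>
          induction q using Quotient.inductionOn with
          | h B =>
            apply Quotient.sound
            have hg : ∀ i, ∃ g : GL (Fin 4) (F i), g • B i = A i := fun i =>
              lat_transitive (vLoc_integers (F i)) (B i) (A i)
            choose g hg using hg
            exact ⟨g, funext hg⟩
      infer_instance) Γ
  exact rd_of_lat_bound F Γ b hb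

end RapidDecay
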