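import Mathlib
import Pool.Agent.Lib.MP_fee02f_an.Defs
import Pool.Agent.Lib.MP_fee02f_an.DefsL
import Pool.Agent.Lib.MP_fee02f_an.DefsM
import Pool.Agent.Lib.MP_fee02f_an.M2
import Pool.Agent.Lib.MP_fee02f_an.M7
import Pool.Agent.Lib.MP_fee02f_an.M10a

/-!
Module M10b: discrete subgroups of products of `GL_4(F_i)` in characteristic zero.
-/

open scoped ENNReal WithZero MatrixGroups
open ValuativeRel

namespace RapidDecay

section M10b

theorem M10b_t2 (F : Type*) [Field F] [ValuativeRel F] [TopologicalSpace F]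
    [IsNonarchimedeanLocalField F] : T2Space F := by
  let _ := IsTopologicalAddGroup.rightUniformSpace F
  have := isUniformAddGroup_of_addCommGroup (G := F)
  have : T0Space F := inferInstance
  infer_instance

/-- a compact subgroup meets a discrete subgroup in a finite set -/
theorem M10b_finite {G : Type*} [Group G] [TopologicalSpace G] [IsTopologicalGroup G] [T2Space G]
    (Γ : Subgroup G) [DiscreteTopology Γ] {K : Set G} (hK : IsCompact K) :
    ((Γ : Set G) ∩ K).Finite := by
  have h1 : IsClosed (Γ : Set G) := inferInstance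
  have h2 : IsDiscrete (Γ : Set G) := ⟨inferInstance⟩
  exact (hK.inter_left h1).finite (h2.mono Set.inter_subset_left)

/-- a finite subgroup of a product has at most the product of the orders of its projections -/
theorem M10b_card {ι : Type*} [Fintype ι] (G : ι → Type*) [∀ i, Group (G i)]
    (H : Subgroup (∀ i, G i)) [Finite H] :
    (∀ i, Finite (H.map (Pi.evalMonoidHom G i))) ∧
    Nat.card H ≤ ∏ i, Nat.card (H.map (Pi.evalMonoidHom G i)) := by
  have h1 : ∀ i, Finite (H.map (Pi.evalMonoidHom G i)) := fun i => by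
    have h2 : ((H.map (Pi.evalMonoidHom G i) : Subgroup (G i)) : Set (G i)).Finite := by
      rw [Subgroup.coe_map]
      exact (Set.toFinite (H : Set (∀ i, G i))).image _
    exact h2.to_subtype
  refine ⟨h1, ?_⟩
  rw [← Nat.card_pi]
  refine Nat.card_le_card_of_injective
    (fun g i => (⟨g.1 i, Subgroup.mem_map_of_mem _ g.2⟩ : H.map (Pi.evalMonoidHom G i))) ?_
  intro g g' h
  apply Subtype.ext
  funext i
  exact congrArg Subtype.val (congrFun h i)

/-- (module M10b) the stabilisers of families of lattices in a discrete group are finite -/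
theorem finite_stab_of_discrete {ι : Type*} [Fintype ι] (F : ι → Type*)
    [∀ i, Field (F i)] [∀ i, ValuativeRel (F i)] [∀ i, TopologicalSpace (F i)]
    [∀ i, IsNonarchimedeanLocalField (F i)] (Γ : Subgroup (∀ i, GL (Fin 4) (F i)))
    [DiscreteTopology Γ] (A : ∀ i, Lat 𝒪[F i] (F i)) : Finite (MulAction.stabilizer Γ A) := by
  have ht : ∀ i, T2Space (F i) := fun i => M10b_t2 (F i)
  have ht2 : ∀ i, T2Space (GL (Fin 4) (F i)) := fun i => inferInstance
  have hK : IsCompact (Set.pi Set.univ fun i =>
      (MulAction.stabilizer (GL (Fin 4) (F i)) (A i) : Set (GL (Fin 4) (F i)))) :=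
    isCompact_univ_pi fun i => isCompact_stab_lat (A i)
  have hfin := M10b_finite Γ hK
  have hH : (((MulAction.stabilizer Γ A).map Γ.subtype : Subgroup (∀ i, GL (Fin 4) (F i))) :
      Set (∀ i, GL (Fin 4) (F i))) ⊆ (Γ : Set _) ∩ (Set.pi Set.univ fun i =>
      (MulAction.stabilizer (GL (Fin 4) (F i)) (A i) : Set (GL (Fin 4) (F i)))) := by
    rintro _ ⟨g, hg, rfl⟩
    refine ⟨g.2, fun i _ => ?_⟩
    exact congrFun hg i
  have hHf := (hfin.subset hH).to_subtype
  exact Finite.of_equiv _
    ((MulAction.stabilizer Γ A).equivMapOfInjective Γ.subtype Γ.subtype_injective).symm.toEquiv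

/-- (module M10b) -/
theorem rd_discrete {ι : Type*} [Fintype ι] (F : ι → Type*)
    [∀ i, Field (F i)] [∀ i, ValuativeRel (F i)] [∀ i, TopologicalSpace (F i)]
    [∀ i, IsNonarchimedeanLocalField (F i)]
    (Γ : Subgroup (∀ i, GL (Fin 4) (F i))) [DiscreteTopology Γ]
    (h : (∀ i, CharZero (F i)) ∨ ∃ b : ℕ, ∀ H : Subgroup Γ, Finite H → Nat.card H ≤ b) :
    PropertyRD Γ := by
  rcases h with h | ⟨b, hb⟩
  · choose b hb using fun i => char_zero_bound (F i)
    refine rd_of_lat_bound F Γ (∏ i, b i) fun A => ?_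
    have hf := finite_stab_of_discrete F Γ A
    refine ⟨hf, ?_⟩
    let H : Subgroup (∀ i, GL (Fin 4) (F i)) :=
      (MulAction.stabilizer Γ A).map Γ.subtype
    have e : MulAction.stabilizer Γ A ≃* H :=
      (MulAction.stabilizer Γ A).equivMapOfInjective Γ.subtype Γ.subtype_injective
    have hHf : Finite H := Finite.of_equiv _ e.toEquiv
    obtain ⟨h1, h2⟩ := M10b_card _ H
    rw [Nat.card_congr e.toEquiv]
    refine h2.trans (Finset.prod_le_prod' fun i _ => ?_)
    refine hb i _ (A i) (h1 i) ?_
    rintro _ ⟨_, ⟨g, hg, rfl⟩, rfl⟩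
    exact congrFun hg i
  · refine rd_of_lat_bound F Γ b fun A => ?_
    have hf := finite_stab_of_discrete F Γ A
    exact ⟨hf, hb _ hf⟩
end M10b

end RapidDecay
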