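import Mathlib
import Pool.Agent.Lib.MP_fee02f_an.Defs
import Pool.Agent.Lib.MP_fee02f_an.DefsL
import Pool.Agent.Lib.MP_fee02f_an.DefsM
import Pool.Agent.Lib.MP_fee02f_an.M5
import Pool.Agent.Lib.MP_fee02f_an.M6

/-!
Module M11: cocompact lattices of groups acting on products of buildings.
-/

open scoped ENNReal WithZero MatrixGroups
open ValuativeRel

namespace RapidDecay

/-- **Cocompact lattices of groups acting on products of buildings** -/
theorem rd_cocompact {G : Type*} [Group G] [TopologicalSpace G] [IsTopologicalGroup G] [T2Space G]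
    {ι : Type*} [Fintype ι] (F : ι → Type*)
    [∀ i, Field (F i)] [∀ i, ValuativeRel (F i)] [∀ i, TopologicalSpace (F i)]
    [∀ i, IsNonarchimedeanLocalField (F i)] [∀ i, MulAction G (Vtx 𝒪[F i] (F i))]
    (hact : ∀ i (γ : G), ∃ g : GL (Fin 4) (F i), ∀ x : Vtx 𝒪[F i] (F i), γ • x = g • x)
    (hopen : ∀ y : (∀ i, Vtx 𝒪[F i] (F i)), IsOpen (MulAction.stabilizer G y : Set G))
    (hcomp : ∀ y : (∀ i, Vtx 𝒪[F i] (F i)), IsCompact (MulAction.stabilizer G y : Set G))
    (hfin : Finite (MulAction.orbitRel.Quotient G (∀ i, Vtx 𝒪[F i] (F i))))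
    (Γ : Subgroup G) [DiscreteTopology Γ] [CompactSpace (G ⧸ Γ)] : PropertyRD Γ := by
  obtain ⟨b, hb⟩ := bounded_stab hopen hcomp hfin Γ
  exact rd_action F (fun i γ => hact i (γ : G)) b hb

end RapidDecay
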