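import Pool.Agent.Lib.MP_fee02f_an.R4

/-!
R5a: duality.
-/

open scoped ENNReal

namespace RapidDecay

section R5
variable {Γ Y : Type*} [Group Γ] [MulAction Γ Y] {w : Y → ℝ≥0∞}

theorem R5a_w (hw : IsWt Γ w) (y : Y) : w y ≤ 1 := by
  have h := ENNReal.le_tsum (f := fun g : Γ => w (g • y)) 1
  rw [hw, one_smul] at h
  exact h

open Classical in
theorem R5a_orbit (hw : IsWt Γ w) (q : Y × Y) :
    ∑' p : Y × Y, (if ∃ g : Γ, g • p = q then w p.1 else 0) ≤ 1 := by
  calc ∑' p : Y × Y, (if ∃ g : Γ, g • p = q then w p.1 else 0)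
      ≤ ∑' p : Y × Y, ∑' g : Γ, (if g • q = p then w p.1 else 0) := by
        refine ENNReal.tsum_le_tsum (fun p => ?_)
        by_cases h : ∃ g : Γ, g • p = q
        · rw [if_pos h]
          obtain ⟨g, hg⟩ := h
          refine le_trans ?_ (ENNReal.le_tsum g⁻¹)
          rw [if_pos (by rw [← hg, inv_smul_smul])]
        · rw [if_neg h]
          exact zero_le
    _ = ∑' g : Γ, ∑' p : Y × Y, (if g • q = p then w p.1 else 0) := ENNReal.tsum_comm
    _ = ∑' g : Γ, w (g • q.1) := by
        refine tsum_congr (fun g => ?_)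
        rw [tsum_eq_single (g • q)]
        · rw [if_pos rfl]
          rfl
        · intro p hp
          rw [if_neg (Ne.symm hp)]
    _ = 1 := hw q.1
    _ ≤ 1 := le_rfl

/-- a kernel tested against all kernels of finite norm -/
theorem nn_le_of_dual (hw : IsWt Γ w) {A : Y → Y → ℝ≥0∞} (hA : Inv2 Γ A) (C : ℝ≥0∞)
    (h : ∀ u : Y → Y → ℝ≥0∞, Inv2 Γ u → nn w u ≠ ∞ →
      (∑' y, ∑' y', w y * (A y y' * u y y')) ^ 2 ≤ C ^ 2 * nn w u) : nn w A ≤ C ^ 2 := by
  classical
  have hprod : ∀ u : Y → Y → ℝ≥0∞, nn w u = ∑' p : Y × Y, w p.1 * u p.1 p.2 ^ 2 := by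
    intro u
    unfold nn
    rw [ENNReal.tsum_prod']
  rw [hprod, ENNReal.tsum_eq_iSup_sum]
  refine iSup_le (fun s => ?_)
  -- the truncations
  set u : ℕ → Y → Y → ℝ≥0∞ := fun n x y =>
    if ∃ g : Γ, g • (x, y) ∈ s then min (A x y) n else 0 with hu
  have huinv : ∀ n, Inv2 Γ (u n) := by
    intro n γ x y
    have h1 : (∃ g : Γ, g • ((γ • x, γ • y) : Y × Y) ∈ s) ↔ ∃ g : Γ, g • ((x, y) : Y × Y) ∈ s := by
      constructor
      · rintro ⟨g, hg⟩
        refine ⟨g * γ, ?_⟩
        rw [mul_smul]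
        exact hg
      · rintro ⟨g, hg⟩
        refine ⟨g * γ⁻¹, ?_⟩
        have e : (γ • x, γ • y) = γ • ((x, y) : Y × Y) := rfl
        rw [e, mul_smul, inv_smul_smul]
        exact hg
    simp only [hu, h1]
    rw [hA γ x y]
  have hule : ∀ n x y, u n x y ≤ A x y := by
    intro n x y
    simp only [hu]
    split_ifs
    · exact min_le_left _ _
    · exact zero_le
  have hufin : ∀ n, nn w (u n) ≠ ∞ := by
    intro n
    have h1 : nn w (u n) ≤ (n : ℝ≥0∞) ^ 2 * s.card := by
      rw [hprod]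
      calc ∑' p : Y × Y, w p.1 * u n p.1 p.2 ^ 2
          ≤ ∑' p : Y × Y, (n : ℝ≥0∞) ^ 2 * ∑ q ∈ s, (if ∃ g : Γ, g • p = q then w p.1 else 0) := by
            refine ENNReal.tsum_le_tsum (fun p => ?_)
            by_cases hp : ∃ g : Γ, g • p ∈ s
            · obtain ⟨g, hg⟩ := hp
              have h2 : u n p.1 p.2 ≤ n := by
                simp only [hu]
                split_ifs
                · exact min_le_right _ _
                · exact zero_le
              have h3 : w p.1 ≤ ∑ q ∈ s, (if ∃ g : Γ, g • p = q then w p.1 else 0) := by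
                refine le_trans ?_ (Finset.single_le_sum
                  (f := fun q => if ∃ g : Γ, g • p = q then w p.1 else 0) (fun _ _ => zero_le) hg)
                rw [if_pos ⟨g, rfl⟩]
              calc w p.1 * u n p.1 p.2 ^ 2
                  ≤ (∑ q ∈ s, (if ∃ g : Γ, g • p = q then w p.1 else 0)) * (n : ℝ≥0∞) ^ 2 := by
                    gcongr
                _ = _ := mul_comm _ _
            · have : u n p.1 p.2 = 0 := by
                simp only [hu]
                rw [if_neg hp]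
              rw [this]
              simp
        _ = (n : ℝ≥0∞) ^ 2 * ∑ q ∈ s, ∑' p : Y × Y, (if ∃ g : Γ, g • p = q then w p.1 else 0) := by
            rw [ENNReal.tsum_mul_left, Summable.tsum_finsetSum (fun _ _ => ENNReal.summable)]
        _ ≤ (n : ℝ≥0∞) ^ 2 * ∑ _q ∈ s, (1 : ℝ≥0∞) := by
            gcongr with q hq
            exact R5a_orbit hw q
        _ = (n : ℝ≥0∞) ^ 2 * s.card := by simp
    refine ne_top_of_le_ne_top ?_ h1
    exact ENNReal.mul_ne_top (ENNReal.pow_ne_top (ENNReal.natCast_ne_top n)) (ENNReal.natCast_ne_top _)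
  have hub : ∀ n, nn w (u n) ≤ C ^ 2 := by
    intro n
    by_cases h0 : nn w (u n) = 0
    · rw [h0]; exact zero_le
    have h1 : nn w (u n) ≤ ∑' y, ∑' y', w y * (A y y' * u n y y') := by
      unfold nn
      refine ENNReal.tsum_le_tsum (fun x => ENNReal.tsum_le_tsum (fun y => ?_))
      rw [pow_two]
      gcongr
      exact hule n x y
    have h2 := h (u n) (huinv n) (hufin n)
    have h3 : nn w (u n) * nn w (u n) ≤ C ^ 2 * nn w (u n) := by
      calc nn w (u n) * nn w (u n) = nn w (u n) ^ 2 := (pow_two _).symm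
        _ ≤ (∑' y, ∑' y', w y * (A y y' * u n y y')) ^ 2 := by gcongr
        _ ≤ _ := h2
    exact (ENNReal.mul_le_mul_iff_left h0 (hufin n)).1 h3
  have hlim : Filter.Tendsto (fun n : ℕ => ∑ p ∈ s, w p.1 * (min (A p.1 p.2) (n : ℝ≥0∞)) ^ 2)
      Filter.atTop (nhds (∑ p ∈ s, w p.1 * A p.1 p.2 ^ 2)) := by
    refine tendsto_finsetSum _ (fun p _ => ?_)
    refine ENNReal.Tendsto.const_mul ?_ (Or.inr ?_)
    · have h1 : Filter.Tendsto (fun n : ℕ => min (A p.1 p.2) (n : ℝ≥0∞)) Filter.atTop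
          (nhds (A p.1 p.2)) := by
        have := (tendsto_const_nhds (x := A p.1 p.2)).min ENNReal.tendsto_nat_nhds_top
        simpa using this
      exact ENNReal.Tendsto.pow h1
    · exact ne_top_of_le_ne_top ENNReal.one_ne_top (R5a_w hw p.1)
  refine le_of_tendsto' hlim (fun n => le_trans ?_ (hub n))
  rw [hprod]
  refine le_trans (le_of_eq ?_) (ENNReal.sum_le_tsum s)
  refine Finset.sum_congr rfl (fun p hp => ?_)
  have : u n p.1 p.2 = min (A p.1 p.2) n := by
    simp only [hu]
    rw [if_pos ⟨1, by rw [one_smul]; exact hp⟩]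
  rw [this]
end R5

end RapidDecay
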